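import Pool.Agent.H172R2.UT.Defs

/-!
ARC: two disjoint arcs of the polygon on the same side of the parabola do not interleave.
-/

open Classical

namespace Pool.Agent.H172R2.UT

namespace ARCaux

theorem gam_coord (q : ℕ → ℝ × ℝ) (k : ℕ) (r : ℝ) (h1 : (k : ℝ) ≤ r) (h2 : r ≤ k + 1) :
    (gam q r).1 = (q k).1 + (r - k) * ((q (k + 1)).1 - (q k).1) ∧
    (gam q r).2 = (q k).2 + (r - k) * ((q (k + 1)).2 - (q k).2) := by
  rcases h2.lt_or_eq with h3 | h3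
  · have hf : ⌊r⌋₊ = k := by
      rw [Nat.floor_eq_iff ((Nat.cast_nonneg k).trans h1)]
      exact ⟨h1, h3⟩
    unfold gam
    rw [hf]
    constructor
    · simp [AffineMap.lineMap_apply]
      ring
    · simp [AffineMap.lineMap_apply]
      ring
  · have hf : ⌊r⌋₊ = k + 1 := by
      rw [h3]
      exact_mod_cast Nat.floor_natCast (k + 1)
    unfold gam
    rw [hf, h3]
    constructor
    · simp [AffineMap.lineMap_apply]
    · simp [AffineMap.lineMap_apply]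

theorem seg (q : ℕ → ℝ × ℝ) (σ : ℝ) (k : ℕ) (a b : ℝ) (h1 : (k : ℝ) ≤ a) (h2 : a ≤ b)
    (h3 : b ≤ k + 1) (z : ℝ × ℝ)
    (hz : z ∈ segment ℝ (((gam q a).1, σ * (gam q a).2) : ℝ × ℝ)
      (((gam q b).1, σ * (gam q b).2) : ℝ × ℝ)) :
    ∃ r ∈ Set.Icc a b, z = ((gam q r).1, σ * (gam q r).2) := by
  obtain ⟨α, β, hα, hβ, hαβ, rfl⟩ := hz
  have hβ' : β = 1 - α := by linarith
  subst hβ'
  have hr1 : a ≤ α * a + (1 - α) * b := by nlinarith
  have hr2 : α * a + (1 - α) * b ≤ b := by nlinarith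
  refine ⟨α * a + (1 - α) * b, ⟨hr1, hr2⟩, ?_⟩
  obtain ⟨e1, e2⟩ := gam_coord q k a h1 (h2.trans h3)
  obtain ⟨e3, e4⟩ := gam_coord q k b (h1.trans h2) h3
  obtain ⟨e5, e6⟩ := gam_coord q k (α * a + (1 - α) * b) (h1.trans hr1) (hr2.trans h3)
  ext
  · simp only [Prod.fst_add, Prod.smul_fst, smul_eq_mul]
    rw [e1, e3, e5]
    ring
  · simp only [Prod.snd_add, Prod.smul_snd, smul_eq_mul]
    rw [e2, e4, e6]
    ring

end ARCaux

theorem ARC_ok (h1 : S_TOP) (h2 : S_GAM) : S_ARC := by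
  intro n q hq s₁ s₂ t₁ t₂ σ hσ hs1 hs12 hs2 ht1 ht12 ht2 hdis hz1 hz2 hz3 hz4 hs ht
  obtain ⟨hinj, hcont⟩ := h2 n q hq
  have hσ0 : σ ≠ 0 := by
    rcases hσ with h | h <;> rw [h] <;> norm_num
  set i1 := ⌊s₁⌋₊ with hi1
  set i2 := ⌊s₂⌋₊ with hi2
  have hi12 : i1 ≤ i2 := Nat.floor_mono hs12.le
  have hi1s : (i1 : ℝ) ≤ s₁ := Nat.floor_le hs1
  have hi1s' : s₁ < i1 + 1 := Nat.lt_floor_add_one s₁
  have hi2s : (i2 : ℝ) ≤ s₂ := Nat.floor_le (hs1.trans hs12.le)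
  have hi2s' : s₂ < i2 + 1 := Nat.lt_floor_add_one s₂
  let τ : ℕ → ℝ := fun j => min s₂ (max s₁ ((i1 + j : ℕ) : ℝ))
  have hτ0 : τ 0 = s₁ := by
    simp only [τ, add_zero]
    rw [max_eq_left hi1s, min_eq_right hs12.le]
  have hτm : τ (i2 - i1 + 1) = s₂ := by
    simp only [τ]
    have h3 : ((i1 + (i2 - i1 + 1) : ℕ) : ℝ) = i2 + 1 := by
      have : i1 + (i2 - i1 + 1) = i2 + 1 := by omega
      rw [this]
      push_cast
      ring
    rw [h3]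
    exact min_eq_left (hi2s'.le.trans (le_max_right _ _))
  have hτmono : ∀ j, τ j ≤ τ (j + 1) := by
    intro j
    simp only [τ]
    refine min_le_min le_rfl (max_le_max le_rfl ?_)
    push_cast
    linarith
  have hτlo : ∀ j, s₁ ≤ τ j := fun j => le_min hs12.le (le_max_left _ _)
  have hτhi : ∀ j, τ j ≤ s₂ := fun j => min_le_left _ _
  have hτa : ∀ j, j < i2 - i1 + 1 → ((i1 + j : ℕ) : ℝ) ≤ τ j := by
    intro j hj
    refine le_min ?_ (le_max_right _ _)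
    have h3 : i1 + j ≤ i2 := by omega
    have h4 : ((i1 + j : ℕ) : ℝ) ≤ (i2 : ℝ) := by exact_mod_cast h3
    linarith
  have hτb : ∀ j, τ (j + 1) ≤ ((i1 + j : ℕ) : ℝ) + 1 := by
    intro j
    refine (min_le_right _ _).trans (max_le ?_ ?_)
    · push_cast
      have : (0 : ℝ) ≤ j := Nat.cast_nonneg j
      linarith
    · push_cast
      linarith
  let F : ℝ → ℝ × ℝ := fun r => ((gam q r).1, σ * (gam q r).2)
  have hseg : ∀ j < i2 - i1 + 1, ∀ z ∈ segment ℝ (F (τ j)) (F (τ (j + 1))),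
      ∃ r ∈ Set.Icc s₁ s₂, z = F r := by
    intro j hj z hz
    obtain ⟨r, hr, hzr⟩ := ARCaux.seg q σ (i1 + j) (τ j) (τ (j + 1)) (hτa j hj) (hτmono j)
      (hτb j) z hz
    exact ⟨r, ⟨(hτlo j).trans hr.1, hr.2.trans (hτhi _)⟩, hzr⟩
  have hdI : ∀ u ∈ Set.Icc (0 : ℝ) 1, t₁ + u * (t₂ - t₁) ∈ Set.Icc t₁ t₂ := by
    intro u hu
    obtain ⟨hu0, hu1⟩ := hu
    constructor <;> nlinarith
  have hzero : ∀ r, hh q r = 0 → (F r).2 = (fun x : ℝ => σ * x ^ 2) (F r).1 := by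
    intro r hr
    simp only [F]
    unfold hh at hr
    have h3 : (gam q r).2 = (gam q r).1 ^ 2 := by linarith
    rw [h3]
  have hup : ∀ r, 0 ≤ σ * hh q r → (fun x : ℝ => σ * x ^ 2) (F r).1 ≤ (F r).2 := by
    intro r hr
    simp only [F]
    unfold hh at hr
    linarith
  have hd0 : t₁ + 0 * (t₂ - t₁) = t₁ := by ring
  have hd1 : t₁ + 1 * (t₂ - t₁) = t₂ := by ring
  have key := h1 (fun x : ℝ => σ * x ^ 2) (i2 - i1 + 1) (fun j => F (τ j))
    (fun u => F (t₁ + u * (t₂ - t₁))) ?_ ?_ ?_ ?_ ?_ ?_ ?_ ?_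
  · simp only [hτ0, hτm, hd0, hd1] at key
    exact key
  · -- continuity
    have hc1 : ContinuousOn (fun u : ℝ => t₁ + u * (t₂ - t₁)) (Set.Icc 0 1) := by fun_prop
    have hc2 : ContinuousOn (fun u : ℝ => gam q (t₁ + u * (t₂ - t₁))) (Set.Icc 0 1) :=
      hcont.comp hc1 fun u hu => ht1.trans (hdI u hu).1
    exact hc2.fst.prodMk (continuousOn_const.mul hc2.snd)
  · change (F (τ 0)).2 = _
    rw [hτ0]
    exact hzero s₁ hz1
  · change (F (τ (i2 - i1 + 1))).2 = _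
    rw [hτm]
    exact hzero s₂ hz2
  · change (F (t₁ + 0 * (t₂ - t₁))).2 = (fun x : ℝ => σ * x ^ 2) (F (t₁ + 0 * (t₂ - t₁))).1
    rw [hd0]
    exact hzero t₁ hz3
  · change (F (t₁ + 1 * (t₂ - t₁))).2 = (fun x : ℝ => σ * x ^ 2) (F (t₁ + 1 * (t₂ - t₁))).1
    rw [hd1]
    exact hzero t₂ hz4
  · intro j hj z hz
    obtain ⟨r, hr, rfl⟩ := hseg j hj z hz
    exact hup r (hs r hr)
  · intro u hu
    exact hup _ (ht _ (hdI u hu))
  · intro j hj u hu hmem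
    obtain ⟨r, hr, hre⟩ := hseg j hj _ hmem
    have hre' : F (t₁ + u * (t₂ - t₁)) = F r := hre
    have h3 : gam q (t₁ + u * (t₂ - t₁)) = gam q r := by
      simp only [F, Prod.mk.injEq] at hre'
      exact Prod.ext hre'.1 (mul_left_cancel₀ hσ0 hre'.2)
    have h4 := hdI u hu
    have h5 := hinj ⟨ht1.trans h4.1, h4.2.trans_lt ht2⟩ ⟨hs1.trans hr.1, hr.2.trans_lt hs2⟩ h3
    rcases hdis with h | h
    · linarith [h4.1, hr.2]
    · linarith [h4.2, hr.1]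

end Pool.Agent.H172R2.UT
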