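import Pool.Agent.H172R2.UT.Defs

/-! # CEN: centroid edge of a tree with maximum degree three (helper724) -/

open Classical

namespace Pool.Agent.H172R2.UT

namespace CENaux

variable {F E : Type} [Fintype F] [Fintype E] (f1 f2 : E → F)

set_option linter.unusedSectionVars false

/-- cut connectedness -/
def Conn (Q : Finset E) : Prop :=
  ∀ A : Set F, A.Nonempty → Aᶜ.Nonempty → ∃ e ∈ Q, ¬ (f1 e ∈ A ↔ f2 e ∈ A)

theorem grow (Q : Finset E) (h : Conn f1 f2 Q) (v : F) (k : ℕ) (hk : k + 1 ≤ Fintype.card F) :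
    ∃ (A : Finset F) (T : Finset E), v ∈ A ∧ A.card = k + 1 ∧ T ⊆ Q ∧ T.card = k ∧
      ∀ e ∈ T, f1 e ∈ A ∧ f2 e ∈ A := by
  induction k with
  | zero => exact ⟨{v}, ∅, by simp, by simp, by simp, by simp, by simp⟩
  | succ k ih =>
    obtain ⟨A, T, hv, hA, hT, hTc, hTA⟩ := ih (by omega)
    have hne : ∃ w, w ∉ A := by
      by_contra hcon
      push Not at hcon
      have h0 : A = Finset.univ := Finset.eq_univ_iff_forall.2 hcon
      rw [h0, Finset.card_univ] at hA
      omega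
    obtain ⟨w, hw⟩ := hne
    obtain ⟨e, he, hcr⟩ := h (A : Set F) ⟨v, hv⟩ ⟨w, by simpa using hw⟩
    simp only [Finset.mem_coe] at hcr
    have heT : e ∉ T := fun h' => hcr (by simp [hTA e h'])
    by_cases h1 : f1 e ∈ A
    · have h2 : f2 e ∉ A := by tauto
      refine ⟨insert (f2 e) A, insert e T, by simp [hv], ?_, ?_, ?_, ?_⟩
      · rw [Finset.card_insert_of_notMem h2, hA]
      · exact Finset.insert_subset he hT
      · rw [Finset.card_insert_of_notMem heT, hTc]
      · intro g hg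
        rcases Finset.mem_insert.1 hg with rfl | hg
        · simp [h1]
        · simp [hTA g hg]
    · have h2 : f2 e ∈ A := by tauto
      refine ⟨insert (f1 e) A, insert e T, by simp [hv], ?_, ?_, ?_, ?_⟩
      · rw [Finset.card_insert_of_notMem h1, hA]
      · exact Finset.insert_subset he hT
      · rw [Finset.card_insert_of_notMem heT, hTc]
      · intro g hg
        rcases Finset.mem_insert.1 hg with rfl | hg
        · simp [h2]
        · simp [hTA g hg]

theorem card_le (Q : Finset E) (h : Conn f1 f2 Q) (hF : 0 < Fintype.card F) :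
    Fintype.card F ≤ Q.card + 1 := by
  obtain ⟨v⟩ := Fintype.card_pos_iff.1 hF
  obtain ⟨A, T, -, -, hT, hTc, -⟩ := grow f1 f2 Q h v (Fintype.card F - 1) (by omega)
  have := Finset.card_le_card hT
  omega

theorem side (Q : Finset E) (h : Conn f1 f2 Q) (hc : Q.card + 1 = Fintype.card F) (e : E)
    (he : e ∈ Q) :
    ∃ S : Finset F, f1 e ∈ S ∧ f2 e ∉ S ∧ ∀ g ∈ Q, ¬ (f1 g ∈ S ↔ f2 g ∈ S) → g = e := by
  have hn : ¬ Conn f1 f2 (Q.erase e) := by
    intro h'
    have h1 := card_le f1 f2 _ h' (by omega)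
    rw [Finset.card_erase_of_mem he] at h1
    have h2 : 0 < Q.card := Finset.card_pos.2 ⟨e, he⟩
    omega
  unfold Conn at hn
  push Not at hn
  obtain ⟨A, hA1, hA2, hA⟩ := hn
  obtain ⟨g, hg, hcr⟩ := h A hA1 hA2
  have hge : g = e := by
    by_contra hne'
    exact hcr (hA g (Finset.mem_erase.2 ⟨hne', hg⟩))
  subst hge
  by_cases h1 : f1 g ∈ A
  · have h2 : f2 g ∉ A := by tauto
    refine ⟨Finset.univ.filter (· ∈ A), by simpa using h1, by simpa using h2, ?_⟩
    intro g' hg' hcr'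
    by_contra hne'
    apply hcr'
    simpa using hA g' (Finset.mem_erase.2 ⟨hne', hg'⟩)
  · have h2 : f2 g ∈ A := by tauto
    refine ⟨Finset.univ.filter (· ∉ A), by simpa using h1, by simpa using h2, ?_⟩
    intro g' hg' hcr'
    by_contra hne'
    apply hcr'
    have h3 := hA g' (Finset.mem_erase.2 ⟨hne', hg'⟩)
    simp only [Finset.mem_filter, Finset.mem_univ, true_and]
    exact not_congr h3

/-- `B` is the side of the edge `e` which does not contain the end `c` of `e`; `d` is the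
other end of `e`. -/
def IsB (Q : Finset E) (c : F) (e : E) (d : F) (B : Finset F) : Prop :=
  e ∈ Q ∧ ((f1 e = c ∧ f2 e = d) ∨ (f1 e = d ∧ f2 e = c)) ∧ c ∉ B ∧ d ∈ B ∧
    ∀ g ∈ Q, ¬ (f1 g ∈ B ↔ f2 g ∈ B) → g = e

theorem exists_B (Q : Finset E) (h : Conn f1 f2 Q) (hc : Q.card + 1 = Fintype.card F) (c : F)
    (e : E) (he : e ∈ Q) (hec : f1 e = c ∨ f2 e = c) : ∃ d B, IsB f1 f2 Q c e d B := by
  obtain ⟨S, h1, h2, h3⟩ := side f1 f2 Q h hc e he
  rcases hec with hec | hec
  · refine ⟨f2 e, Sᶜ, he, Or.inl ⟨hec, rfl⟩, ?_, ?_, ?_⟩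
    · rw [← hec]; simpa using h1
    · simpa using h2
    · intro g hg hcr
      apply h3 g hg
      intro h4
      apply hcr
      simp only [Finset.mem_compl]
      exact not_congr h4
  · exact ⟨f1 e, S, he, Or.inr ⟨rfl, hec⟩, by rw [← hec]; exact h2, h1, h3⟩

/-- a set without crossing edges which misses a point is empty -/
theorem empty_of (Q : Finset E) (h : Conn f1 f2 Q) (X : Finset F) (c : F) (hc : c ∉ X)
    (hX : ∀ g ∈ Q, (f1 g ∈ X ↔ f2 g ∈ X)) : X = ∅ := by
  by_contra hne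
  obtain ⟨x, hx⟩ := Finset.nonempty_iff_ne_empty.2 hne
  obtain ⟨g, hg, hcr⟩ := h (X : Set F) ⟨x, hx⟩ ⟨c, by simpa using hc⟩
  exact hcr (by simpa using hX g hg)

theorem disj (Q : Finset E) (h : Conn f1 f2 Q) {c d c' : F} {e : E} {B B' : Finset F}
    (hB : IsB f1 f2 Q c e d B) (hB' : IsB f1 f2 Q d e c' B') : Disjoint B B' := by
  rw [Finset.disjoint_iff_inter_eq_empty]
  obtain ⟨heQ, hend, hcB, hdB, hcr⟩ := hB
  obtain ⟨-, hend', hdB', hcB', hcr'⟩ := hB'
  refine empty_of f1 f2 Q h _ c (by simp [hcB]) ?_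
  intro g hg
  by_cases hge : g = e
  · subst hge
    rcases hend with ⟨h1, h2⟩ | ⟨h1, h2⟩ <;> simp [h1, h2, hcB, hdB']
  · have h1 : f1 g ∈ B ↔ f2 g ∈ B := by
      by_contra h0; exact hge (hcr g hg h0)
    have h2 : f1 g ∈ B' ↔ f2 g ∈ B' := by
      by_contra h0; exact hge (hcr' g hg h0)
    simp only [Finset.mem_inter, h1, h2]

theorem nest (Q : Finset E) (h : Conn f1 f2 Q) {c d d' : F} {e e' : E} {B B' : Finset F}
    (hB : IsB f1 f2 Q c e d B) (hB' : IsB f1 f2 Q d e' d' B') (hee : e' ≠ e) : B' ⊆ B := by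
  obtain ⟨heQ, hend, hcB, hdB, hcr⟩ := hB
  obtain ⟨heQ', hend', hdB', hdB'', hcr'⟩ := hB'
  have hX : B' \ B = ∅ := by
    refine empty_of f1 f2 Q h _ d (by simp [hdB]) ?_
    intro g hg
    by_cases hge : g = e
    · subst hge
      have h2 : f1 g ∈ B' ↔ f2 g ∈ B' := by
        by_contra h0; exact hee (hcr' g hg h0).symm
      rcases hend with ⟨h3, h4⟩ | ⟨h3, h4⟩
      · rw [h3, h4] at h2 ⊢
        simp [hdB, h2, hdB']
      · rw [h3, h4] at h2 ⊢
        simp [hdB, ← h2, hdB']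
    · have h1 : f1 g ∈ B ↔ f2 g ∈ B := by
        by_contra h0; exact hge (hcr g hg h0)
      by_cases hge' : g = e'
      · subst hge'
        rcases hend' with ⟨h3, h4⟩ | ⟨h3, h4⟩
        · rw [h3, h4] at h1 ⊢
          have h5 := h1.1 hdB
          simp [hdB, h5]
        · rw [h3, h4] at h1 ⊢
          have h5 := h1.2 hdB
          simp [hdB, h5]
      · have h2 : f1 g ∈ B' ↔ f2 g ∈ B' := by
          by_contra h0; exact hge' (hcr' g hg h0)
        simp only [Finset.mem_sdiff, h1, h2]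
  exact Finset.sdiff_eq_empty_iff_subset.1 hX

omit [Fintype F] [Fintype E] in
theorem sum_biUnion_le' (I : Finset E) (B : E → Finset F) (W : F → ℕ) :
    ∑ f ∈ I.biUnion B, W f ≤ ∑ e ∈ I, ∑ f ∈ B e, W f := by
  induction I using Finset.induction_on with
  | empty => simp
  | insert a I ha ih =>
    rw [Finset.biUnion_insert, Finset.sum_insert ha]
    have h := Finset.sum_union_inter (s₁ := B a) (s₂ := I.biUnion B) (f := W)
    omega

theorem centroid (Q : Finset E) (h : Conn f1 f2 Q) (hF : 0 < Fintype.card F) (W : F → ℕ) :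
    ∃ c : F, ∀ e d B, IsB f1 f2 Q c e d B → 2 * (∑ f ∈ B, W f) ≤ ∑ f, W f := by
  by_cases hex : ∃ n : ℕ, ∃ c e d B, IsB f1 f2 Q c e d B ∧ (∑ f, W f) < 2 * (∑ f ∈ B, W f) ∧
      B.card = n
  · obtain ⟨c, e, d, B, hB, hW, hcard⟩ := Nat.find_spec hex
    refine ⟨d, ?_⟩
    intro e' d' B' hB'
    by_contra hcon
    push Not at hcon
    by_cases hee : e' = e
    · subst hee
      have h1 := disj f1 f2 Q h hB hB'
      have h2 : ∑ f ∈ B ∪ B', W f ≤ ∑ f, W f :=
        Finset.sum_le_sum_of_subset (Finset.subset_univ _)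
      rw [Finset.sum_union h1] at h2
      omega
    · have h1 := nest f1 f2 Q h hB hB' hee
      have h2 : B'.card < B.card := by
        apply Finset.card_lt_card
        refine ⟨h1, fun h3 => ?_⟩
        exact hB'.2.2.1 (h3 hB.2.2.2.1)
      rw [hcard] at h2
      exact Nat.find_min hex h2 ⟨d, e', d', B', hB', hcon, rfl⟩
  · obtain ⟨v⟩ := Fintype.card_pos_iff.1 hF
    refine ⟨v, ?_⟩
    intro e d B hB
    by_contra hcon
    push Not at hcon
    exact hex ⟨_, v, e, d, B, hB, hcon, rfl⟩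

end CENaux

open CENaux in
theorem CEN_ok : S_CEN := by
  intro F E _ _ f1 f2 Q hne hcard h2 hconn hdeg W
  obtain ⟨c, hc⟩ := centroid f1 f2 Q hconn (by omega) W
  set I := Q.filter (fun e => f1 e = c ∨ f2 e = c) with hI
  have hB : ∀ e ∈ I, ∃ B, ∃ d, IsB f1 f2 Q c e d B := by
    intro e he
    rw [hI, Finset.mem_filter] at he
    obtain ⟨d, B, h⟩ := exists_B f1 f2 Q hconn hcard c e he.1 he.2
    exact ⟨B, d, h⟩
  choose! B hB using hB
  have hIne : I.Nonempty := by
    have h3 : ∃ w, w ≠ c := by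
      by_contra hcon
      push Not at hcon
      have h4 : Fintype.card F ≤ 1 := Fintype.card_le_one_iff.2 (fun a b => by rw [hcon a, hcon b])
      omega
    obtain ⟨w, hw⟩ := h3
    obtain ⟨e, he, hcr⟩ := hconn {c} ⟨c, rfl⟩ ⟨w, by simpa using hw⟩
    refine ⟨e, ?_⟩
    rw [hI, Finset.mem_filter]
    refine ⟨he, ?_⟩
    simp only [Set.mem_singleton_iff] at hcr
    tauto
  obtain ⟨e₀, he₀, hmax⟩ := Finset.exists_max_image I (fun e => ∑ f ∈ B e, W f) hIne
  obtain ⟨d₀, hB₀⟩ := hB e₀ he₀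
  have hA := hc _ _ _ hB₀
  refine ⟨B e₀, c, e₀, hB₀.1, hB₀.2.2.2.2, by omega, ?_⟩
  set R := Finset.univ.filter (fun f => f ∉ B e₀ ∧ f ≠ c) with hR
  have hcov : R ⊆ (I.erase e₀).biUnion B := by
    have hX : Finset.univ \ (insert c (I.biUnion B)) = ∅ := by
      refine empty_of f1 f2 Q hconn _ c (by simp) ?_
      intro g hg
      simp only [Finset.mem_sdiff, Finset.mem_univ, true_and, Finset.mem_insert,
        Finset.mem_biUnion]
      by_cases hgI : g ∈ I
      · obtain ⟨d, hBg⟩ := hB g hgI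
        have hd : ∃ a ∈ I, d ∈ B a := ⟨g, hgI, hBg.2.2.2.1⟩
        rcases hBg.2.1 with ⟨h3, h4⟩ | ⟨h3, h4⟩
        · rw [h3, h4]; simp only [true_or, not_true_eq_false, false_iff, not_not]
          exact Or.inr hd
        · rw [h3, h4]; simp only [true_or, not_true_eq_false, iff_false, not_not]
          exact Or.inr hd
      · have h3 : ¬ (f1 g = c ∨ f2 g = c) := by
          intro h3
          exact hgI (by rw [hI, Finset.mem_filter]; exact ⟨hg, h3⟩)
        push Not at h3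
        have h4 : (∃ a ∈ I, f1 g ∈ B a) ↔ (∃ a ∈ I, f2 g ∈ B a) := by
          refine exists_congr fun a => and_congr_right fun ha => ?_
          obtain ⟨d, hBa⟩ := hB a ha
          by_contra h5
          have h6 := hBa.2.2.2.2 g hg h5
          exact hgI (h6 ▸ ha)
        simp only [h3.1, h3.2, false_or, h4]
    intro f hf
    rw [hR, Finset.mem_filter] at hf
    have h3 : f ∈ insert c (I.biUnion B) := by
      by_contra h4
      have h5 : f ∈ Finset.univ \ (insert c (I.biUnion B)) :=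
        Finset.mem_sdiff.2 ⟨Finset.mem_univ _, h4⟩
      rw [hX] at h5
      simp at h5
    rcases Finset.mem_insert.1 h3 with h4 | h4
    · exact absurd h4 hf.2.2
    · obtain ⟨a, ha, hfa⟩ := Finset.mem_biUnion.1 h4
      refine Finset.mem_biUnion.2 ⟨a, Finset.mem_erase.2 ⟨?_, ha⟩, hfa⟩
      rintro rfl
      exact hf.2.1 hfa
  have h3 : ∑ f ∈ R, W f ≤ 2 * ∑ f ∈ B e₀, W f := by
    calc ∑ f ∈ R, W f ≤ ∑ f ∈ (I.erase e₀).biUnion B, W f :=
          Finset.sum_le_sum_of_subset hcov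
      _ ≤ ∑ e ∈ I.erase e₀, ∑ f ∈ B e, W f := by
          exact sum_biUnion_le' _ _ _
      _ ≤ ∑ e ∈ I.erase e₀, ∑ f ∈ B e₀, W f :=
          Finset.sum_le_sum fun e he => hmax e (Finset.mem_of_mem_erase he)
      _ = (I.erase e₀).card * ∑ f ∈ B e₀, W f := by simp
      _ ≤ 2 * ∑ f ∈ B e₀, W f := by
          apply Nat.mul_le_mul_right
          rw [Finset.card_erase_of_mem he₀]
          have h5 : I.card ≤ 3 := hdeg c
          omega
  have h4 : ∑ f ∈ R, W f + ∑ f ∈ B e₀, W f ≤ ∑ f, W f := by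
    rw [← Finset.sum_union]
    · exact Finset.sum_le_sum_of_subset (Finset.subset_univ _)
    · rw [Finset.disjoint_left]
      intro f hf hf'
      rw [hR, Finset.mem_filter] at hf
      exact hf.2.1 hf'
  omega

end Pool.Agent.H172R2.UT
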