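import Pool.Agent.H172R2.UT.Defs

/-!
# Task CNT: coarse description of two page sequences (from `S_REC`)
-/

open Classical

namespace Pool.Agent.H172R2.UT

namespace CNTaux

theorem eta_le {N K : ℕ} {yb : ℕ → ℕ} (hy : ∀ t < N, yb t < K)
    (hm : ∀ s < N, ∀ t < N, s ≤ t → yb s ≤ yb t) : eta yb (Finset.range N) ≤ K := by
  unfold eta
  have key : ∀ s t : ℕ, s < N → t < N →
      (¬ ∃ u ∈ Finset.range N, u + 1 = t ∧ yb u = yb t) → yb s = yb t → ¬ s < t := by
    intro s t hs ht h1 h2 hst
    apply h1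
    refine ⟨t - 1, Finset.mem_range.mpr (by omega), by omega, ?_⟩
    have h3 := hm s hs (t - 1) (by omega) (by omega)
    have h4 := hm (t - 1) (by omega) t ht (by omega)
    omega
  calc _ ≤ (Finset.range K).card := by
        apply Finset.card_le_card_of_injOn yb
        · intro t ht
          have ht' := (Finset.mem_filter.mp (Finset.mem_coe.mp ht)).1
          exact Finset.mem_coe.mpr (Finset.mem_range.mpr (hy t (Finset.mem_range.mp ht')))
        · intro s hs t ht hst
          have hs' := Finset.mem_filter.mp (Finset.mem_coe.mp hs)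
          have ht' := Finset.mem_filter.mp (Finset.mem_coe.mp ht)
          have h1 := key s t (Finset.mem_range.mp hs'.1) (Finset.mem_range.mp ht'.1) ht'.2 hst
          have h2 := key t s (Finset.mem_range.mp ht'.1) (Finset.mem_range.mp hs'.1) hs'.2 hst.symm
          omega
    _ = K := Finset.card_range K

theorem xi_le {N K : ℕ} {xb : ℕ → ℕ} (hx : ∀ t < N, xb t < K) :
    xi xb (Finset.range N) ≤ K := by
  unfold xi
  calc _ ≤ (Finset.range K).card := by
        apply Finset.card_le_card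
        intro b hb
        obtain ⟨t, ht, rfl⟩ := Finset.mem_image.mp hb
        exact Finset.mem_range.mpr (hx t (Finset.mem_range.mp ht))
    _ = K := Finset.card_range K

theorem rho_le (N : ℕ) : rho (Finset.range N) ≤ 1 := by
  unfold rho
  rw [Finset.card_le_one]
  have key : ∀ t ∈ (Finset.range N).filter (fun t => ¬ ∃ s ∈ Finset.range N, s + 1 = t),
      t = 0 := by
    intro t ht
    have ht' := Finset.mem_filter.mp ht
    by_contra h0
    apply ht'.2
    have h1 := Finset.mem_range.mp ht'.1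
    exact ⟨t - 1, Finset.mem_range.mpr (by omega), by omega⟩
  intro s hs t ht
  rw [key s hs, key t ht]

theorem log_bd {K : ℝ} (hK : 1 ≤ K) {y : ℝ} (hy0 : 0 ≤ y) (hy : y ≤ 4 * K) :
    (1 + Real.log (1 + y)) ^ 2 ≤ 20 * K := by
  have h0 : 0 ≤ Real.log (1 + y) := Real.log_nonneg (by linarith)
  have h1 : Real.log (1 + y) ≤ Real.log (1 + 4 * K) :=
    Real.log_le_log (by linarith) (by linarith)
  have h2 : 0 < 1 + 4 * K := by linarith
  have h3 : Real.log (√(1 + 4 * K)) = Real.log (1 + 4 * K) / 2 := Real.log_sqrt h2.le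
  have h4 : Real.log (√(1 + 4 * K)) ≤ √(1 + 4 * K) - 1 :=
    Real.log_le_sub_one_of_pos (Real.sqrt_pos.mpr h2)
  have h5 : 1 + Real.log (1 + y) ≤ 2 * √(1 + 4 * K) := by linarith
  calc (1 + Real.log (1 + y)) ^ 2 ≤ (2 * √(1 + 4 * K)) ^ 2 :=
        pow_le_pow_left₀ (by linarith) h5 2
    _ = 4 * (1 + 4 * K) := by rw [mul_pow, Real.sq_sqrt h2.le]; ring
    _ ≤ 20 * K := by linarith

theorem idx_bd {a K : ℕ} (ha : a < K) :
    (((4 * a * K + 1) * (2 * (2 ^ K * 2 ^ K)) : ℕ) : ℝ) ≤ Real.exp (14 * K) := by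
  have hK : 1 ≤ K := by omega
  have hKr : (1 : ℝ) ≤ K := by exact_mod_cast hK
  have h1 : (4 * a * K + 1) * (2 * (2 ^ K * 2 ^ K)) ≤ 10 * (K * K) * 4 ^ K := by
    have h2 : 4 * a * K + 1 ≤ 5 * (K * K) := by nlinarith
    have h3 : (2 ^ K * 2 ^ K : ℕ) = 4 ^ K := by
      rw [← Nat.mul_pow]
    rw [h3]
    calc (4 * a * K + 1) * (2 * 4 ^ K) ≤ (5 * (K * K)) * (2 * 4 ^ K) :=
          Nat.mul_le_mul_right _ h2
      _ = 10 * (K * K) * 4 ^ K := by ring
  have h4 : (((4 * a * K + 1) * (2 * (2 ^ K * 2 ^ K)) : ℕ) : ℝ) ≤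
      10 * ((K : ℝ) * K) * 4 ^ K := by exact_mod_cast h1
  refine le_trans h4 ?_
  have e1 : (10 : ℝ) ≤ Real.exp 9 := by
    have := Real.add_one_le_exp (9 : ℝ)
    linarith
  have e2 : (K : ℝ) ≤ Real.exp K := by
    have := Real.add_one_le_exp (K : ℝ)
    linarith
  have e3 : (4 : ℝ) ≤ Real.exp 3 := by
    have := Real.add_one_le_exp (3 : ℝ)
    linarith
  have e4 : (4 : ℝ) ^ K ≤ Real.exp (K * 3) := by
    rw [Real.exp_nat_mul]
    exact pow_le_pow_left₀ (by norm_num) e3 K
  have hK0 : (0 : ℝ) ≤ K := by linarith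
  calc 10 * ((K : ℝ) * K) * 4 ^ K
      ≤ Real.exp 9 * (Real.exp K * Real.exp K) * Real.exp (K * 3) := by
        apply mul_le_mul _ e4 (by positivity) (by positivity)
        apply mul_le_mul e1 _ (by positivity) (by positivity)
        exact mul_le_mul e2 e2 hK0 (by positivity)
    _ = Real.exp (9 + (K + K) + K * 3) := by
        rw [Real.exp_add, Real.exp_add, Real.exp_add]
    _ ≤ Real.exp (14 * K) := by
        apply Real.exp_le_exp.mpr
        linarith

end CNTaux

open CNTaux in
theorem CNT_ok (h : S_REC) : S_CNT := by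
  obtain ⟨C1, hC1, hrec⟩ := h
  refine ⟨15 + 25 * C1, by positivity, fun a K ha hK => ?_⟩
  have hKr : (1 : ℝ) ≤ K := by exact_mod_cast hK
  have har : (1 : ℝ) ≤ a := by exact_mod_cast ha
  rcases le_or_gt K a with hKa | haK
  · refine ⟨{Finset.range K ×ˢ Finset.range K}, ?_, ?_, ?_⟩
    · rw [Finset.card_singleton, Nat.cast_one]
      apply Real.one_le_exp
      positivity
    · intro R hR
      rw [Finset.mem_singleton.mp hR, Finset.card_product, Finset.card_range]
      push_cast
      have h1 : (K : ℝ) ≤ a := by exact_mod_cast hKa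
      have h2 : (K : ℝ) * K ≤ a * K := mul_le_mul_of_nonneg_right h1 (by linarith)
      have h3 : (a : ℝ) * K ≤ (15 + 25 * C1) * (a * K) :=
        le_mul_of_one_le_left (by positivity) (by linarith)
      calc (K : ℝ) * K ≤ a * K := h2
        _ ≤ (15 + 25 * C1) * (a * K) := h3
        _ = (15 + 25 * C1) * a * K := by ring
    · intro N x up xb yb _ _ hxb hyb _ _
      exact ⟨_, Finset.mem_singleton_self _, fun t ht =>
        Finset.mem_product.mpr ⟨Finset.mem_range.mpr (hxb t ht), Finset.mem_range.mpr (hyb t ht)⟩⟩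
  · choose Fam hF1 hF2 hF3 using hrec a ha
    set idx : Finset (ℕ × ℕ × Finset ℕ × Finset ℕ) := (Finset.range (4 * a * K + 1)) ×ˢ
      ((Finset.range 2) ×ˢ ((Finset.range K).powerset ×ˢ (Finset.range K).powerset)) with hidx
    refine ⟨idx.biUnion (fun i => Fam i.1 i.2.1 i.2.2.1 i.2.2.2), ?_, ?_, ?_⟩
    · have hb : ∀ i ∈ idx, ((Fam i.1 i.2.1 i.2.2.1 i.2.2.2).card : ℝ) ≤
          Real.exp (25 * C1 * K) := by
        intro i hi
        obtain ⟨hi1, hi2⟩ := Finset.mem_product.mp hi
        obtain ⟨hi2, -⟩ := Finset.mem_product.mp hi2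
        have hi1' : i.1 ≤ 4 * a * K := by
          have := Finset.mem_range.mp hi1
          omega
        have hi2' : i.2.1 ≤ 1 := by
          have := Finset.mem_range.mp hi2
          omega
        have hφ : (i.1 : ℝ) ≤ 4 * a * K := by exact_mod_cast hi1'
        have hρ : (i.2.1 : ℝ) ≤ 1 := by exact_mod_cast hi2'
        refine le_trans (hF1 i.1 i.2.1 i.2.2.1 i.2.2.2) (Real.exp_le_exp.mpr ?_)
        have h1 : (i.1 : ℝ) / a ≤ 4 * K := by
          rw [div_le_iff₀ (by linarith)]
          linarith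
        have h2 : (i.1 : ℝ) / (a : ℝ) ^ 2 ≤ 4 * K := by
          have h3 : (i.1 : ℝ) / (a : ℝ) ^ 2 ≤ (i.1 : ℝ) / a := by
            apply div_le_div_of_nonneg_left (Nat.cast_nonneg _) (by linarith)
            nlinarith
          linarith
        have h3 : (0 : ℝ) ≤ (i.1 : ℝ) / (a : ℝ) ^ 2 := by positivity
        have h4 := log_bd hKr h3 h2
        have h5 : C1 * (i.2.1 : ℝ) * (1 + Real.log (1 + (i.1 : ℝ) / (a : ℝ) ^ 2)) ^ 2 ≤
            C1 * (20 * K) := by
          have h6 : C1 * (i.2.1 : ℝ) ≤ C1 := by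
            have := mul_le_mul_of_nonneg_left hρ hC1.le
            linarith
          calc C1 * (i.2.1 : ℝ) * (1 + Real.log (1 + (i.1 : ℝ) / (a : ℝ) ^ 2)) ^ 2
              ≤ C1 * (1 + Real.log (1 + (i.1 : ℝ) / (a : ℝ) ^ 2)) ^ 2 :=
                mul_le_mul_of_nonneg_right h6 (sq_nonneg _)
            _ ≤ C1 * (20 * K) := mul_le_mul_of_nonneg_left h4 hC1.le
        have h7 : C1 * ((i.1 : ℝ) / a + 1) ≤ C1 * (5 * K) :=
          mul_le_mul_of_nonneg_left (by linarith) hC1.le
        calc C1 * ((i.1 : ℝ) / a + 1) +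
              C1 * (i.2.1 : ℝ) * (1 + Real.log (1 + (i.1 : ℝ) / (a : ℝ) ^ 2)) ^ 2
            ≤ C1 * (5 * K) + C1 * (20 * K) := add_le_add h7 h5
          _ = 25 * C1 * K := by ring
      have hc : ((idx.biUnion (fun i => Fam i.1 i.2.1 i.2.2.1 i.2.2.2)).card : ℝ) ≤
          ∑ i ∈ idx, ((Fam i.1 i.2.1 i.2.2.1 i.2.2.2).card : ℝ) := by
        exact_mod_cast Finset.card_biUnion_le
      have hic : (idx.card : ℝ) ≤ Real.exp (14 * K) := by
        have h8 : idx.card = (4 * a * K + 1) * (2 * (2 ^ K * 2 ^ K)) := by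
          rw [hidx, Finset.card_product, Finset.card_product, Finset.card_product,
            Finset.card_powerset, Finset.card_range, Finset.card_range, Finset.card_range]
        rw [h8]
        exact idx_bd haK
      calc ((idx.biUnion (fun i => Fam i.1 i.2.1 i.2.2.1 i.2.2.2)).card : ℝ)
          ≤ ∑ i ∈ idx, ((Fam i.1 i.2.1 i.2.2.1 i.2.2.2).card : ℝ) := hc
        _ ≤ ∑ _i ∈ idx, Real.exp (25 * C1 * K) := Finset.sum_le_sum hb
        _ = idx.card * Real.exp (25 * C1 * K) := by rw [Finset.sum_const, nsmul_eq_mul]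
        _ ≤ Real.exp (14 * K) * Real.exp (25 * C1 * K) :=
          mul_le_mul_of_nonneg_right hic (Real.exp_pos _).le
        _ = Real.exp (14 * K + 25 * C1 * K) := (Real.exp_add _ _).symm
        _ ≤ Real.exp ((15 + 25 * C1) * K) := by
          apply Real.exp_le_exp.mpr
          nlinarith
    · intro R hR
      obtain ⟨i, hi, hR⟩ := Finset.mem_biUnion.mp hR
      obtain ⟨hi1, -⟩ := Finset.mem_product.mp hi
      have hi1' : i.1 ≤ 4 * a * K := by
        have := Finset.mem_range.mp hi1
        omega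
      have hφ : (i.1 : ℝ) ≤ 4 * a * K := by exact_mod_cast hi1'
      have h1 := hF2 i.1 i.2.1 i.2.2.1 i.2.2.2 R hR
      have h2 : C1 * (i.1 : ℝ) ≤ C1 * (4 * a * K) := mul_le_mul_of_nonneg_left hφ hC1.le
      have h3 : 0 ≤ (15 + 21 * C1) * (a * K) := by positivity
      calc (R.card : ℝ) ≤ C1 * i.1 := h1
        _ ≤ C1 * (4 * a * K) := h2
        _ ≤ C1 * (4 * a * K) + (15 + 21 * C1) * (a * K) := by linarith
        _ = (15 + 25 * C1) * a * K := by ring
    · intro N x up xb yb hN hTP hxb hyb hxm hym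
      obtain ⟨R, hR, hall⟩ := hF3 (Phi a xb yb (Finset.range N)) (rho (Finset.range N))
        ((Finset.range N).image xb) ((Finset.range N).image yb) N x up xb yb hTP hxm hym
        (Finset.range N) (Finset.Subset.refl _) rfl rfl rfl rfl
      refine ⟨R, ?_, fun t ht => hall t (Finset.mem_range.mpr ht)⟩
      refine Finset.mem_biUnion.mpr ⟨(Phi a xb yb (Finset.range N), rho (Finset.range N),
        (Finset.range N).image xb, (Finset.range N).image yb), ?_, hR⟩
      have h1 : Phi a xb yb (Finset.range N) ≤ 4 * a * K := by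
        unfold Phi
        rw [Finset.card_range]
        have h2 := xi_le hxb
        have h3 := eta_le hyb hym
        have h4 : a * (xi xb (Finset.range N) + eta yb (Finset.range N)) ≤ a * (K + K) :=
          Nat.mul_le_mul_left _ (by omega)
        calc N + a * (xi xb (Finset.range N) + eta yb (Finset.range N))
            ≤ 2 * a * K + a * (K + K) := by omega
          _ = 4 * a * K := by ring
      refine Finset.mem_product.mpr ⟨Finset.mem_range.mpr (by simp only; omega),
        Finset.mem_product.mpr ⟨Finset.mem_range.mpr ?_, Finset.mem_product.mpr ⟨?_, ?_⟩⟩⟩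
      · have := rho_le N
        simp only
        omega
      · rw [Finset.mem_powerset]
        intro b hb
        obtain ⟨t, ht, rfl⟩ := Finset.mem_image.mp hb
        exact Finset.mem_range.mpr (hxb t (Finset.mem_range.mp ht))
      · rw [Finset.mem_powerset]
        intro b hb
        obtain ⟨t, ht, rfl⟩ := Finset.mem_image.mp hb
        exact Finset.mem_range.mpr (hyb t (Finset.mem_range.mp ht))

end Pool.Agent.H172R2.UT
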