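import Pool.Agent.H172R2.UT.Defs

set_option autoImplicit false

open Classical

namespace Pool.Agent.H172R2.UT

namespace CYCaux

variable {V F E : Type} [Fintype V] [Fintype F] [Fintype E]

/-- incidence -/
def inc (S : Sph V F E) (e : E) (v : V) : Prop := S.e1 e = v ∨ S.e2 e = v

theorem exists_tree (S : Sph V F E) (hV : 3 ≤ Fintype.card V) :
    ∃ (v0 : V) (lev : V → ℕ) (par : V → V) (pe : V → E),
      (∀ v, lev v = 0 ↔ v = v0) ∧
      (∀ e, lev (S.e1 e) ≤ lev (S.e2 e) + 1 ∧ lev (S.e2 e) ≤ lev (S.e1 e) + 1) ∧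
      (∀ v, lev (par v) = lev v - 1) ∧
      (∀ v, v ≠ v0 → (S.e1 (pe v) = v ∧ S.e2 (pe v) = par v) ∨
        (S.e2 (pe v) = v ∧ S.e1 (pe v) = par v)) := by
  have hne : Nonempty V := Fintype.card_pos_iff.mp (by omega)
  obtain ⟨v0⟩ := hne
  obtain ⟨v1, hv1⟩ : ∃ v1 : V, v1 ≠ v0 := by
    haveI : Nontrivial V := Fintype.one_lt_card_iff_nontrivial.mp (by omega)
    exact exists_ne v0
  obtain ⟨ee, -⟩ := S.pconn {v0} ⟨v0, rfl⟩ ⟨v1, hv1⟩
  let G : SimpleGraph V := SimpleGraph.fromRel (fun v w => ∃ e, S.e1 e = v ∧ S.e2 e = w)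
  have hadj : ∀ e, G.Adj (S.e1 e) (S.e2 e) := fun e => by
    rw [SimpleGraph.fromRel_adj]
    exact ⟨S.ne e, Or.inl ⟨e, rfl, rfl⟩⟩
  have hconn : ∀ v, G.Reachable v0 v := by
    by_contra hcon
    push Not at hcon
    obtain ⟨w, hw⟩ := hcon
    obtain ⟨e, he⟩ := S.pconn {v | G.Reachable v0 v} ⟨v0, SimpleGraph.Reachable.refl v0⟩ ⟨w, hw⟩
    apply he
    exact ⟨fun h => h.trans (hadj e).reachable, fun h => h.trans (hadj e).symm.reachable⟩
  have hd : ∀ v w, G.Adj v w → G.dist v0 w ≤ G.dist v0 v + 1 := by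
    intro v w h
    obtain ⟨p, hp⟩ := (hconn v).exists_walk_length_eq_dist
    have := SimpleGraph.dist_le (p.concat h)
    rwa [SimpleGraph.Walk.length_concat, hp] at this
  have hpar : ∀ v, v ≠ v0 → ∃ w, G.Adj v w ∧ G.dist v0 w + 1 = G.dist v0 v := by
    intro v hv
    obtain ⟨p, hp⟩ := (hconn v).symm.exists_walk_length_eq_dist
    cases p with
    | nil => exact absurd rfl hv
    | @cons _ w _ h q =>
      refine ⟨w, h, ?_⟩
      rw [SimpleGraph.Walk.length_cons] at hp
      have h1 := SimpleGraph.dist_le q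
      have h2 := hd w v h.symm
      rw [SimpleGraph.dist_comm] at h1 hp
      omega
  have hdata : ∀ v, ∃ (w : V) (e : E), G.dist v0 w = G.dist v0 v - 1 ∧
      (v ≠ v0 → (S.e1 e = v ∧ S.e2 e = w) ∨ (S.e2 e = v ∧ S.e1 e = w)) := by
    intro v
    by_cases hv : v = v0
    · refine ⟨v0, ee, ?_, fun h => absurd hv h⟩
      rw [hv, SimpleGraph.dist_self]
    · obtain ⟨w, hw, hw2⟩ := hpar v hv
      rw [SimpleGraph.fromRel_adj] at hw
      obtain ⟨-, ⟨e, he⟩ | ⟨e, he⟩⟩ := hw
      · exact ⟨w, e, by omega, fun _ => Or.inl he⟩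
      · exact ⟨w, e, by omega, fun _ => Or.inr ⟨he.2, he.1⟩⟩
  choose par pe h1 h2 using hdata
  refine ⟨v0, G.dist v0, par, pe, fun v => ?_, fun e => ⟨?_, ?_⟩, h1, h2⟩
  · rw [SimpleGraph.Reachable.dist_eq_zero_iff (hconn v)]
    exact eq_comm
  · exact hd _ _ (hadj e).symm
  · exact hd _ _ (hadj e)

/-- boundary of a set of faces -/
noncomputable def bd (S : Sph V F E) (A : Finset F) : Finset E :=
  Finset.univ.filter (fun e => ¬ (S.f1 e ∈ A ↔ S.f2 e ∈ A))

theorem bd_even (S : Sph V F E) (A : Finset F) (v : V) :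
    Even ((bd S A).filter (fun e => inc S e v)).card := by
  rw [← ZMod.natCast_eq_zero_iff_even]
  have h1 : ∀ f : F, ((Finset.univ.filter (fun e : E => (S.f1 e = f ∨ S.f2 e = f) ∧
      (S.e1 e = v ∨ S.e2 e = v))).card : ZMod 2) = 0 := fun f =>
    (ZMod.natCast_eq_zero_iff_even).mpr (S.even f v)
  have h2 : ∑ f ∈ A, ((Finset.univ.filter (fun e : E => (S.f1 e = f ∨ S.f2 e = f) ∧
      (S.e1 e = v ∨ S.e2 e = v))).card : ZMod 2) = 0 := Finset.sum_eq_zero (fun f _ => h1 f)
  have h3 : ∀ f : F, ((Finset.univ.filter (fun e : E => (S.f1 e = f ∨ S.f2 e = f) ∧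
      (S.e1 e = v ∨ S.e2 e = v))).card : ZMod 2) =
      ∑ e : E, if inc S e v then ((if S.f1 e = f then 1 else 0) + (if S.f2 e = f then 1 else 0))
        else 0 := by
    intro f
    rw [Finset.card_filter, Nat.cast_sum]
    refine Finset.sum_congr rfl (fun e _ => ?_)
    have hf := S.fne e
    unfold inc
    by_cases hi : S.e1 e = v ∨ S.e2 e = v
    · simp only [hi, and_true, if_true]
      by_cases ha : S.f1 e = f
      · have hb : S.f2 e ≠ f := fun h => hf (ha.trans h.symm)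
        simp [ha, hb]
      · simp [ha]
    · simp [hi]
  simp only [h3] at h2
  rw [Finset.sum_comm] at h2
  rw [bd, Finset.filter_filter, Finset.card_filter, Nat.cast_sum, ← h2]
  refine Finset.sum_congr rfl (fun e _ => ?_)
  by_cases hi : inc S e v
  · simp only [hi, and_true, if_true, Finset.sum_add_distrib, Finset.sum_ite_eq]
    by_cases ha : S.f1 e ∈ A <;> by_cases hb : S.f2 e ∈ A <;> simp [ha, hb]
    decide
  · simp [hi]

theorem key (S : Sph V F E) (v0 : V) (lev : V → ℕ) (par : V → V) (pe : V → E)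
    (hlev : ∀ v, lev v = 0 ↔ v = v0) (hpar : ∀ v, lev (par v) = lev v - 1)
    (hpe : ∀ v, v ≠ v0 → (S.e1 (pe v) = v ∧ S.e2 (pe v) = par v) ∨
        (S.e2 (pe v) = v ∧ S.e1 (pe v) = par v))
    (A : Finset F) (N : Set V) (hN : ∀ v, v ∈ N → par v ∈ N)
    (hT : ∀ e ∈ bd S A, (∀ v, v ≠ v0 → e ≠ pe v) → S.e1 e ∈ N ∧ S.e2 e ∈ N) :
    ∀ v, v ≠ v0 → pe v ∈ bd S A → v ∈ N := by
  by_contra hcon
  push Not at hcon
  obtain ⟨u, hu⟩ := hcon
  have hbn : (Finset.univ.filter (fun v => v ≠ v0 ∧ pe v ∈ bd S A ∧ v ∉ N)).Nonempty :=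
    ⟨u, by simpa using hu⟩
  obtain ⟨v, hv, hmax⟩ := Finset.exists_max_image _ lev hbn
  simp only [Finset.mem_filter, Finset.mem_univ, true_and] at hv hmax
  obtain ⟨hv0, hvb, hvN⟩ := hv
  have hinc : inc S (pe v) v := by
    rcases hpe v hv0 with h | h
    · exact Or.inl h.1
    · exact Or.inr h.1
  have hs : (bd S A).filter (fun e => inc S e v) = {pe v} := by
    ext e
    simp only [Finset.mem_filter, Finset.mem_singleton]
    constructor
    · rintro ⟨he, hi⟩
      by_contra hne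
      by_cases hT' : ∀ w, w ≠ v0 → e ≠ pe w
      · obtain ⟨k1, k2⟩ := hT e he hT'
        rcases hi with hi | hi
        · exact hvN (hi ▸ k1)
        · exact hvN (hi ▸ k2)
      · push Not at hT'
        obtain ⟨w, hw0, rfl⟩ := hT'
        have hwv : w ≠ v := by rintro rfl; exact hne rfl
        have hpw : par w = v := by
          rcases hpe w hw0 with h | h <;> rcases hi with hi | hi
          · exact absurd (h.1.symm.trans hi) hwv
          · exact h.2.symm.trans hi
          · exact h.2.symm.trans hi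
          · exact absurd (h.1.symm.trans hi) hwv
        have hl : lev w ≠ 0 := fun h => hw0 ((hlev w).mp h)
        have hl2 := hpar w
        rw [hpw] at hl2
        by_cases hwN : w ∈ N
        · exact hvN (hpw ▸ hN w hwN)
        · have := hmax w ⟨hw0, he, hwN⟩
          omega
    · rintro rfl
      exact ⟨hvb, hinc⟩
  have hev := bd_even S A v
  rw [hs, Finset.card_singleton] at hev
  exact absurd hev (by decide)

theorem lev_iter (lev : V → ℕ) (par : V → V) (hpar : ∀ v, lev (par v) = lev v - 1) (a : V)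
    (i : ℕ) : lev (par^[i] a) = lev a - i := by
  induction i with
  | zero => rfl
  | succ i ih => rw [Function.iterate_succ_apply', hpar, ih]; omega

theorem anc_unique (v0 : V) (lev : V → ℕ) (par : V → V) (hlev : ∀ v, lev v = 0 ↔ v = v0)
    (hpar : ∀ v, lev (par v) = lev v - 1) (a v : V) (h : ∃ i, par^[i] a = v) :
    v = par^[lev a - lev v] a := by
  obtain ⟨i, rfl⟩ := h
  rw [lev_iter lev par hpar]
  by_cases hi : i ≤ lev a
  · congr 1
    congr 1
    omega
  · have h1 : par^[i] a = v0 := by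
      rw [← hlev, lev_iter lev par hpar]; omega
    have h2 : par^[lev a - (lev a - i)] a = v0 := by
      rw [← hlev, lev_iter lev par hpar]; omega
    rw [h1, h2]

end CYCaux

open CYCaux

theorem CYC_ok (hcen : S_CEN) : S_CYC := by
  intro V F E _ _ _ S hV
  obtain ⟨v0, lev, par, pe, hlev, hlip, hpar, hpe⟩ := exists_tree S hV
  refine ⟨lev, hlip, fun W => ?_⟩
  set T : Finset E := (Finset.univ.filter (fun v : V => v ≠ v0)).image pe with hTdef
  have hTmem : ∀ e, e ∈ T ↔ ∃ v, v ≠ v0 ∧ pe v = e := by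
    intro e
    simp [hTdef]
  have hinj : Set.InjOn pe (Finset.univ.filter (fun v : V => v ≠ v0) : Finset V) := by
    intro v hv w hw h
    simp only [Finset.coe_filter, Finset.mem_univ, true_and, Set.mem_setOf_eq] at hv hw
    by_contra hne
    have hlv : lev v ≠ 0 := fun h => hv ((hlev v).mp h)
    have hlw : lev w ≠ 0 := fun h => hw ((hlev w).mp h)
    have h1 := hpar v
    have h2 := hpar w
    have k : par v = w ∧ par w = v := by
      rcases hpe v hv with hv' | hv' <;> rcases hpe w hw with hw' | hw'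
      · exact absurd (hv'.1.symm.trans (h ▸ hw'.1)) hne
      · rw [h] at hv'
        exact ⟨hv'.2.symm.trans hw'.1, hw'.2.symm.trans hv'.1⟩
      · rw [h] at hv'
        exact ⟨hv'.2.symm.trans hw'.1, hw'.2.symm.trans hv'.1⟩
      · exact absurd (hv'.1.symm.trans (h ▸ hw'.1)) hne
    rw [k.1] at h1
    rw [k.2] at h2
    omega
  have hTcard : T.card + 1 = Fintype.card V := by
    rw [hTdef, Finset.card_image_of_injOn hinj]
    have : (Finset.univ.filter (fun v : V => v ≠ v0)) = Finset.univ.erase v0 := by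
      ext v; simp
    rw [this, Finset.card_erase_of_mem (Finset.mem_univ _), Finset.card_univ]
    omega
  have hQcard : (Finset.univ \ T).card + 1 = Fintype.card F := by
    have h1 := S.euler
    have h2 : (Finset.univ \ T).card + T.card = Fintype.card E := by
      rw [Finset.card_sdiff_add_card_eq_card (Finset.subset_univ _), Finset.card_univ]
    omega
  have hE : Nonempty E := by
    obtain ⟨v1, hv1⟩ : ∃ v1 : V, v1 ≠ v0 := by
      haveI : Nontrivial V := Fintype.one_lt_card_iff_nontrivial.mp (by omega)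
      exact exists_ne v0
    obtain ⟨ee, -⟩ := S.pconn {v0} ⟨v0, rfl⟩ ⟨v1, hv1⟩
    exact ⟨ee⟩
  have hF : 2 ≤ Fintype.card F := by
    obtain ⟨e⟩ := hE
    exact Fintype.one_lt_card_iff.mpr ⟨S.f1 e, S.f2 e, S.fne e⟩
  have hdc : ∀ A : Set F, A.Nonempty → Aᶜ.Nonempty →
      ∃ e ∈ Finset.univ \ T, ¬ (S.f1 e ∈ A ↔ S.f2 e ∈ A) := by
    intro A hA hAc
    by_contra hcon
    push Not at hcon
    obtain ⟨e, he⟩ := S.dconn A hA hAc
    have hmem : ∀ f, f ∈ A.toFinset ↔ f ∈ A := fun f => Set.mem_toFinset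
    have hbd : ∀ e, e ∈ bd S A.toFinset ↔ ¬ (S.f1 e ∈ A ↔ S.f2 e ∈ A) := by
      intro e; simp [bd]
    have heT : e ∈ T := by
      by_contra h
      exact he (hcon e (by simp [h]))
    obtain ⟨v, hv, rfl⟩ := (hTmem e).mp heT
    have := key S v0 lev par pe hlev hpar hpe A.toFinset ∅ (fun v hv => hv.elim) (by
      intro e' he' hT'
      exfalso
      have h1 : e' ∉ T := by
        rw [hTmem]
        rintro ⟨w, hw, rfl⟩
        exact hT' w hw rfl
      exact (hbd e').mp he' (hcon e' (by simp [h1]))) v hv ((hbd _).mpr he)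
    exact this.elim
  have h3 : ∀ f : F, ((Finset.univ \ T).filter (fun e => S.f1 e = f ∨ S.f2 e = f)).card ≤ 3 := by
    intro f
    refine le_trans (Finset.card_le_card ?_) (S.three f)
    exact Finset.filter_subset_filter _ (Finset.subset_univ _)
  obtain ⟨A, c, e₀, -, he₀, hA1, hA2⟩ := hcen F E S.f1 S.f2 (Finset.univ \ T)
    (fun e _ => S.fne e) hQcard hF hdc h3 W
  refine ⟨A, c, Finset.univ.filter (fun v => (∃ i, par^[i] (S.e1 e₀) = v) ∨
    (∃ i, par^[i] (S.e2 e₀) = v)), ?_, ?_, hA1, hA2⟩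
  · intro l
    refine le_trans (Finset.card_le_card (t := {par^[lev (S.e1 e₀) - l] (S.e1 e₀),
      par^[lev (S.e2 e₀) - l] (S.e2 e₀)}) ?_) Finset.card_le_two
    intro v hv
    simp only [Finset.mem_filter, Finset.mem_univ, true_and] at hv
    obtain ⟨hv1, rfl⟩ := hv
    simp only [Finset.mem_insert, Finset.mem_singleton]
    rcases hv1 with h | h
    · exact Or.inl (anc_unique v0 lev par hlev hpar _ v h)
    · exact Or.inr (anc_unique v0 lev par hlev hpar _ v h)
  · intro e he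
    simp only [Finset.mem_filter, Finset.mem_univ, true_and]
    have hbd : ∀ e, e ∈ bd S A ↔ ¬ (S.f1 e ∈ A ↔ S.f2 e ∈ A) := by
      intro e; simp [bd]
    have hN : ∀ v, v ∈ {v : V | (∃ i, par^[i] (S.e1 e₀) = v) ∨ (∃ i, par^[i] (S.e2 e₀) = v)} →
        par v ∈ {v : V | (∃ i, par^[i] (S.e1 e₀) = v) ∨ (∃ i, par^[i] (S.e2 e₀) = v)} := by
      intro v hv
      rcases hv with ⟨i, rfl⟩ | ⟨i, rfl⟩
      · exact Or.inl ⟨i + 1, by rw [Function.iterate_succ_apply']⟩
      · exact Or.inr ⟨i + 1, by rw [Function.iterate_succ_apply']⟩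
    by_cases heT : e ∈ T
    · obtain ⟨v, hv, rfl⟩ := (hTmem e).mp heT
      have k := key S v0 lev par pe hlev hpar hpe A
        {v : V | (∃ i, par^[i] (S.e1 e₀) = v) ∨ (∃ i, par^[i] (S.e2 e₀) = v)} hN (by
          intro e' he' hT'
          have h1 : e' ∉ T := by
            rw [hTmem]
            rintro ⟨w, hw, rfl⟩
            exact hT' w hw rfl
          have h2 := he₀ e' (by simp [h1]) ((hbd e').mp he')
          subst h2
          exact ⟨Or.inl ⟨0, rfl⟩, Or.inr ⟨0, rfl⟩⟩) v hv ((hbd _).mpr he)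
      have k2 := hN v k
      rcases hpe v hv with h | h
      · rw [h.1, h.2]; exact ⟨k, k2⟩
      · rw [h.1, h.2]; exact ⟨k2, k⟩
    · have h2 := he₀ e (by simp [heT]) he
      subst h2
      exact ⟨Or.inl ⟨0, rfl⟩, Or.inr ⟨0, rfl⟩⟩

end Pool.Agent.H172R2.UT
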