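import Mathlib

/-!
Untangling polygons: `fix(C_n) = O(n^{2/3})`.
Exact statements of all the tasks (table `h172u_tasks`).
-/

open Classical

namespace Pool.Agent.H172R2.UT

/-! ### The final objects -/

/-- crossing-free straight-line drawing of a graph -/
def CrossingFree {V : Type*} (G : SimpleGraph V) (p : V → ℝ × ℝ) : Prop :=
  Function.Injective p ∧
  (∀ u v w z : V, G.Adj u v → G.Adj w z → s(u, v) ≠ s(w, z) →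
    Disjoint (openSegment ℝ (p u) (p v)) (openSegment ℝ (p w) (p z))) ∧
  (∀ u v w : V, G.Adj u v → p w ∉ openSegment ℝ (p u) (p v))

/-- `fix(Γ)` for the drawing `p` of `G`. -/
noncomputable def fixDrawing {V : Type*} (G : SimpleGraph V) (p : V → ℝ × ℝ) : ℕ :=
  sSup {k | ∃ S : Finset V, S.card = k ∧
    ∃ p' : V → ℝ × ℝ, CrossingFree G p' ∧ ∀ v ∈ S, p' v = p v}

/-- `fix(G)`: the minimum of `fix(Γ)` over all straight-line drawings. -/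
noncomputable def fixGraph {V : Type*} (G : SimpleGraph V) : ℕ :=
  sInf {k | ∃ p : V → ℝ × ℝ, Function.Injective p ∧ k = fixDrawing G p}

/-- closed polygon `q 0, ..., q (n-1), q n = q 0` without crossings -/
def CFN (n : ℕ) (q : ℕ → ℝ × ℝ) : Prop :=
  q n = q 0 ∧ (∀ i < n, ∀ j < n, q i = q j → i = j) ∧
  (∀ i < n, ∀ j < n, i ≠ j →
    Disjoint (openSegment ℝ (q i) (q (i+1))) (openSegment ℝ (q j) (q (j+1)))) ∧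
  (∀ i < n, ∀ j < n, q j ∉ openSegment ℝ (q i) (q (i+1)))

/-- MAINT: final theorem -/
def S_MAINT : Prop := ∃ C : ℝ, 0 < C ∧ ∀ n : ℕ, 3 ≤ n →
  (fixGraph (SimpleGraph.cycleGraph n) : ℝ) ≤ C * (n : ℝ) ^ (2/3 : ℝ)

/-- FIN -/
def S_FIN : Prop := ∃ C : ℝ, 0 < C ∧ ∀ n : ℕ, 3 ≤ n → ∃ π : Equiv.Perm (Fin n),
  ∀ q : ℕ → ℝ × ℝ, CFN n q → ∀ S : Finset (Fin n),
    (∀ i ∈ S, q i.val = (((π i).val : ℝ), ((π i).val : ℝ)^2)) →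
    (S.card : ℝ) ≤ C * (n : ℝ) ^ (2/3 : ℝ)

/-! ### Two page sequences -/

def SIn (a b c : ℝ) : Prop := min a b < c ∧ c < max a b
def SOut (a b c : ℝ) : Prop := c < min a b ∨ max a b < c
/-- the pairs `{a,b}`, `{c,d}` interleave -/
def Cross (a b c d : ℝ) : Prop := (SIn a b c ∧ SOut a b d) ∨ (SIn a b d ∧ SOut a b c)

/-- abscissas `x 0, ..., x (N-1)` of the points where a simple curve meets the axis, in the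
order of the curve; `up t` tells the side of the arc from `t` to `t+1`. -/
structure TwoPage (N : ℕ) (x : ℕ → ℝ) (up : ℕ → Bool) : Prop where
  inj : ∀ s < N, ∀ t < N, x s = x t → s = t
  nc : ∀ s t, s + 1 < N → t + 1 < N → up s = up t → ¬ Cross (x s) (x (s+1)) (x t) (x (t+1))

/-- TOP: arcs above a graph do not interleave -/
def S_TOP : Prop := ∀ (g : ℝ → ℝ) (m : ℕ) (p : ℕ → ℝ × ℝ) (d : ℝ → ℝ × ℝ),
  ContinuousOn d (Set.Icc 0 1) →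
  (p 0).2 = g (p 0).1 → (p m).2 = g (p m).1 →
  (d 0).2 = g (d 0).1 → (d 1).2 = g (d 1).1 →
  (∀ j < m, ∀ z ∈ segment ℝ (p j) (p (j+1)), g z.1 ≤ z.2) →
  (∀ s ∈ Set.Icc (0:ℝ) 1, g (d s).1 ≤ (d s).2) →
  (∀ j < m, ∀ s ∈ Set.Icc (0:ℝ) 1, d s ∉ segment ℝ (p j) (p (j+1))) →
  ¬ Cross (p 0).1 (p m).1 (d 0).1 (d 1).1

/-- the piecewise linear parametrisation -/
noncomputable def gam (q : ℕ → ℝ × ℝ) (τ : ℝ) : ℝ × ℝ :=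
  AffineMap.lineMap (q ⌊τ⌋₊) (q (⌊τ⌋₊ + 1)) (τ - ⌊τ⌋₊)

/-- GAM -/
def S_GAM : Prop := ∀ (n : ℕ) (q : ℕ → ℝ × ℝ), CFN n q →
  Set.InjOn (gam q) (Set.Ico (0:ℝ) n) ∧ ContinuousOn (gam q) (Set.Ici (0:ℝ))

/-- height over the parabola -/
noncomputable def hh (q : ℕ → ℝ × ℝ) (r : ℝ) : ℝ := (gam q r).2 - (gam q r).1 ^ 2

/-- ARC: two disjoint arcs of the polygon on the same side of the parabola do not interleave -/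
def S_ARC : Prop := ∀ (n : ℕ) (q : ℕ → ℝ × ℝ), CFN n q → ∀ (s₁ s₂ t₁ t₂ σ : ℝ),
  (σ = 1 ∨ σ = -1) → 0 ≤ s₁ → s₁ < s₂ → s₂ < n → 0 ≤ t₁ → t₁ < t₂ → t₂ < n →
  (s₂ < t₁ ∨ t₂ < s₁) → hh q s₁ = 0 → hh q s₂ = 0 → hh q t₁ = 0 → hh q t₂ = 0 →
  (∀ r ∈ Set.Icc s₁ s₂, 0 ≤ σ * hh q r) → (∀ r ∈ Set.Icc t₁ t₂, 0 ≤ σ * hh q r) →
  ¬ Cross (gam q s₁).1 (gam q s₂).1 (gam q t₁).1 (gam q t₂).1

/-- ZER: the zeros of the curve on the parabola -/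
def S_ZER : Prop := ∀ (n : ℕ) (q : ℕ → ℝ × ℝ), (∀ i < n, q i ≠ q (i+1)) →
  ∃ (N : ℕ) (τ : ℕ → ℝ), N ≤ 2 * n ∧ (∀ s < N, ∀ t < N, s < t → τ s < τ t) ∧
    (∀ r : ℝ, (0 ≤ r ∧ r < n ∧ (gam q r).2 = (gam q r).1 ^ 2) ↔ ∃ t < N, τ t = r)

/-- GEO: a crossing-free polygon and the parabola `y = x^2` give a two page sequence -/
def S_GEO : Prop := ∀ (n : ℕ) (q : ℕ → ℝ × ℝ), 3 ≤ n → CFN n q →
  ∃ (N : ℕ) (x : ℕ → ℝ) (up : ℕ → Bool) (yi : ℕ → ℕ), N ≤ 2 * n ∧ TwoPage N x up ∧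
    (∀ s < N, ∀ t < N, s ≤ t → yi s ≤ yi t) ∧ (∀ t < N, yi t < n) ∧
    (∀ i < n, (q i).2 = (q i).1 ^ 2 → ∃ t < N, yi t = i ∧ x t = (q i).1)

/-- PERM: union bound for random permutations -/
def S_PERM : Prop := ∀ (n t M : ℕ) (F : Finset (Finset (Fin n × Fin n))),
  (∀ U ∈ F, U.card ≤ M) → 0 < t → t ≤ n →
  (F.card : ℝ) * (Real.exp 2 * M / (t * n)) ^ t < 1 →
  ∃ π : Equiv.Perm (Fin n), ∀ U ∈ F, (Finset.univ.filter (fun i => (π i, i) ∈ U)).card < t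

/-- CNT: coarse description of two page sequences -/
def S_CNT : Prop := ∃ C : ℝ, 0 < C ∧ ∀ a K : ℕ, 1 ≤ a → 1 ≤ K →
  ∃ F : Finset (Finset (ℕ × ℕ)), (F.card : ℝ) ≤ Real.exp (C * K) ∧
    (∀ R ∈ F, (R.card : ℝ) ≤ C * a * K) ∧
    ∀ (N : ℕ) (x : ℕ → ℝ) (up : ℕ → Bool) (xb yb : ℕ → ℕ), N ≤ 2 * a * K → TwoPage N x up →
      (∀ t < N, xb t < K) → (∀ t < N, yb t < K) →
      (∀ s < N, ∀ t < N, x s ≤ x t → xb s ≤ xb t) →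
      (∀ s < N, ∀ t < N, s ≤ t → yb s ≤ yb t) →
      ∃ R ∈ F, ∀ t < N, (xb t, yb t) ∈ R

/-! ### Hierarchical decomposition -/

/-- number of x-blocks touched by `V` -/
noncomputable def xi (xb : ℕ → ℕ) (V : Finset ℕ) : ℕ := (V.image xb).card
/-- number of (run, y-block) incidences of `V` -/
noncomputable def eta (yb : ℕ → ℕ) (V : Finset ℕ) : ℕ :=
  (V.filter (fun t => ¬ ∃ s ∈ V, s + 1 = t ∧ yb s = yb t)).card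
/-- number of runs (maximal sets of consecutive integers) of `V` -/
noncomputable def rho (V : Finset ℕ) : ℕ := (V.filter (fun t => ¬ ∃ s ∈ V, s + 1 = t)).card
noncomputable def Phi (a : ℕ) (xb yb : ℕ → ℕ) (V : Finset ℕ) : ℕ :=
  V.card + a * (xi xb V + eta yb V)
/-- number of changes of the label `· ∈ A` along `V` ordered by `key` -/
noncomputable def chg (key : ℕ → ℝ) (V A : Finset ℕ) : ℕ :=
  (V.filter (fun t => ∃ s ∈ V, key s < key t ∧ (∀ u ∈ V, ¬ (key s < key u ∧ key u < key t)) ∧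
    ¬ (s ∈ A ↔ t ∈ A))).card
/-- number of cut arcs -/
noncomputable def cuty (V A : Finset ℕ) : ℕ :=
  (V.filter (fun t => t + 1 ∈ V ∧ ¬ (t ∈ A ↔ t + 1 ∈ A))).card

/-- SEPV: separator for a subset of a two page sequence -/
def S_SEPV : Prop := ∃ C₀ : ℕ, 1 ≤ C₀ ∧ ∀ (N : ℕ) (x : ℕ → ℝ) (up : ℕ → Bool), TwoPage N x up →
  ∀ V : Finset ℕ, V ⊆ Finset.range N → ∀ (w : ℕ → ℕ) (m : ℕ), (∀ t ∈ V, w t ≤ m) →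
  ∃ A : Finset ℕ, A ⊆ V ∧ (chg x V A : ℝ) ≤ C₀ * √(V.card : ℝ) ∧
    (cuty V A : ℝ) ≤ C₀ * √(V.card : ℝ) ∧
    3 * (∑ t ∈ A, w t) ≤ 2 * (∑ t ∈ V, w t) + 3 * m ∧
    3 * (∑ t ∈ V \ A, w t) ≤ 2 * (∑ t ∈ V, w t) + 3 * m

/-- STEP: splitting a large part -/
def S_STEP : Prop := ∃ C₀ θ : ℕ, 1 ≤ C₀ ∧ 1 ≤ θ ∧
  ∀ (a N : ℕ) (x : ℕ → ℝ) (up : ℕ → Bool) (xb yb : ℕ → ℕ), 1 ≤ a → TwoPage N x up →
  (∀ s < N, ∀ t < N, x s ≤ x t → xb s ≤ xb t) → (∀ s < N, ∀ t < N, s ≤ t → yb s ≤ yb t) →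
  ∀ V : Finset ℕ, V ⊆ Finset.range N → θ * a ^ 2 < Phi a xb yb V →
  ∃ A : Finset ℕ, A ⊆ V ∧
    10 * Phi a xb yb A ≤ 7 * Phi a xb yb V ∧ 10 * Phi a xb yb (V \ A) ≤ 7 * Phi a xb yb V ∧
    Phi a xb yb V ≤ Phi a xb yb A + Phi a xb yb (V \ A) ∧
    ((Phi a xb yb A : ℝ) + Phi a xb yb (V \ A)
      ≤ Phi a xb yb V + 2 * a * (C₀ * √(Phi a xb yb V : ℝ))) ∧
    ((rho A : ℝ) + rho (V \ A) ≤ rho V + C₀ * √(Phi a xb yb V : ℝ)) ∧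
    ((chg x V A : ℝ) ≤ C₀ * √(Phi a xb yb V : ℝ)) ∧
    ((chg (fun t => (t : ℝ)) V A : ℝ) ≤ C₀ * √(Phi a xb yb V : ℝ) + rho V)

/-- SPL: the number of ways to split a set of blocks with few changes -/
def S_SPL : Prop := ∃ D : ℝ, 0 < D ∧ ∀ (Y : Finset ℕ) (c : ℕ),
  ∃ G : Finset (Finset ℕ × Finset ℕ),
    (G.card : ℝ) ≤ Real.exp (D * (c + 1) * (1 + Real.log (1 + (Y.card : ℝ) / (c + 1)))) ∧
    ∀ (V A : Finset ℕ) (key : ℕ → ℝ) (bl : ℕ → ℕ), A ⊆ V →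
      (∀ s ∈ V, ∀ t ∈ V, key s = key t → s = t) →
      (∀ s ∈ V, ∀ t ∈ V, key s ≤ key t → bl s ≤ bl t) →
      V.image bl = Y → chg key V A ≤ c → (A.image bl, (V \ A).image bl) ∈ G

noncomputable def Ecost (D C a u r : ℝ) : ℝ :=
  8 * Real.log ((4 + 2 * C) * (a ^ 2 * u)) +
  D * (C * a * √u + 1) * (1 + Real.log (1 + a * u / (C * a * √u + 1))) +
  D * (C * a * √u + r + 1) * (1 + Real.log (1 + a * u / (C * a * √u + r + 1)))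
noncomputable def Epot (α β γ a u r : ℝ) : ℝ :=
  a * (α * u - β * u ^ (3/4 : ℝ)) + γ * r * (1 + Real.log u) ^ 2
noncomputable def Spot (σ κ u : ℝ) : ℝ := σ * (u - κ * u ^ (3/4 : ℝ))

/-- NUM: real inequalities for the recursion -/
def S_NUM : Prop := ∀ C θ₀ D : ℝ, 1 ≤ C → 1 ≤ θ₀ → 0 < D →
  ∃ θ α β γ σ κ : ℝ, θ₀ ≤ θ ∧ 10 ≤ θ ∧ 0 < α ∧ 0 < β ∧ 0 < γ ∧ 0 < σ ∧ 0 < κ ∧
    (∀ u, 3/10 * θ ≤ u → 0 ≤ α * u - β * u ^ (3/4 : ℝ)) ∧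
    (∀ u, 3/10 * θ ≤ u → u ≤ θ → u ^ 2 ≤ Spot σ κ u) ∧
    (∀ u u₁ u₂ : ℝ, θ ≤ u → 3/10 * u ≤ u₁ → u₁ ≤ 7/10 * u → 3/10 * u ≤ u₂ → u₂ ≤ 7/10 * u →
      u ≤ u₁ + u₂ → u₁ + u₂ ≤ u + 2 * C * √u → Spot σ κ u₁ + Spot σ κ u₂ ≤ Spot σ κ u) ∧
    (∀ a u r u₁ u₂ r₁ r₂ : ℝ, 1 ≤ a → θ ≤ u → 0 ≤ r → 0 ≤ r₁ → 0 ≤ r₂ →
      3/10 * u ≤ u₁ → u₁ ≤ 7/10 * u → 3/10 * u ≤ u₂ → u₂ ≤ 7/10 * u →
      u ≤ u₁ + u₂ → u₁ + u₂ ≤ u + 2 * C * √u → r₁ + r₂ ≤ r + C * a * √u →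
      Ecost D C a u r + Epot α β γ a u₁ r₁ + Epot α β γ a u₂ r₂ ≤ Epot α β γ a u r)

/-- REC: the recursion -/
def S_REC : Prop := ∃ C : ℝ, 0 < C ∧ ∀ a : ℕ, 1 ≤ a → ∀ (φ ρ : ℕ) (X Y : Finset ℕ),
  ∃ F : Finset (Finset (ℕ × ℕ)),
    (F.card : ℝ) ≤ Real.exp (C * ((φ : ℝ) / a + 1)
      + C * ρ * (1 + Real.log (1 + (φ : ℝ) / (a : ℝ) ^ 2)) ^ 2) ∧
    (∀ R ∈ F, (R.card : ℝ) ≤ C * φ) ∧
    ∀ (N : ℕ) (x : ℕ → ℝ) (up : ℕ → Bool) (xb yb : ℕ → ℕ), TwoPage N x up →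
      (∀ s < N, ∀ t < N, x s ≤ x t → xb s ≤ xb t) →
      (∀ s < N, ∀ t < N, s ≤ t → yb s ≤ yb t) →
      ∀ V : Finset ℕ, V ⊆ Finset.range N → V.image xb = X → V.image yb = Y →
        Phi a xb yb V = φ → rho V = ρ → ∃ R ∈ F, ∀ t ∈ V, (xb t, yb t) ∈ R

/-! ### The separator theorem for two page graphs -/

/-- non-crossing family of pairs -/
def NC (U : Finset (ℕ × ℕ)) : Prop :=
  ∀ e ∈ U, ∀ f ∈ U, ¬ (e.1 < f.1 ∧ f.1 < e.2 ∧ e.2 < f.2)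

/-- LT: separator theorem for two page graphs on `0, ..., M-1` -/
def S_LT : Prop := ∃ C₀ : ℕ, 1 ≤ C₀ ∧ ∀ (M : ℕ) (U L : Finset (ℕ × ℕ)),
  (∀ e ∈ U, e.1 < e.2 ∧ e.2 < M) → (∀ e ∈ L, e.1 < e.2 ∧ e.2 < M) → NC U → NC L →
  ∀ w : ℕ → ℕ, ∃ (X : Finset ℕ) (lab : ℕ → Bool), X ⊆ Finset.range M ∧
    (X.card : ℝ) ≤ C₀ * √(M : ℝ) ∧
    (∀ i, i + 1 < M → i ∉ X → i + 1 ∉ X → lab i = lab (i+1)) ∧
    (∀ e ∈ U ∪ L, e.1 ∉ X → e.2 ∉ X → lab e.1 = lab e.2) ∧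
    (∀ b : Bool, 3 * (∑ i ∈ (Finset.range M).filter (fun i => i ∉ X ∧ lab i = b), w i)
      ≤ 2 * ∑ i ∈ Finset.range M, w i)

/-- triangulated sphere, combinatorially: vertices, faces, edges; `e1,e2` ends, `f1,f2` sides -/
structure Sph (V F E : Type) [Fintype V] [Fintype F] [Fintype E] where
  e1 : E → V
  e2 : E → V
  f1 : E → F
  f2 : E → F
  ne : ∀ e, e1 e ≠ e2 e
  fne : ∀ e, f1 e ≠ f2 e
  even : ∀ (f : F) (v : V),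
    Even (Finset.univ.filter (fun e : E => (f1 e = f ∨ f2 e = f) ∧ (e1 e = v ∨ e2 e = v))).card
  three : ∀ f : F, (Finset.univ.filter (fun e : E => f1 e = f ∨ f2 e = f)).card ≤ 3
  euler : Fintype.card V + Fintype.card F = Fintype.card E + 2
  pconn : ∀ A : Set V, A.Nonempty → Aᶜ.Nonempty → ∃ e, ¬ (e1 e ∈ A ↔ e2 e ∈ A)
  dconn : ∀ A : Set F, A.Nonempty → Aᶜ.Nonempty → ∃ e, ¬ (f1 e ∈ A ↔ f2 e ∈ A)
  link : ∀ (v : V) (A : Set F),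
    (∀ e, (e1 e = v ∨ e2 e = v) → (f1 e ∈ A ↔ f2 e ∈ A)) →
    ∀ e e', (e1 e = v ∨ e2 e = v) → (e1 e' = v ∨ e2 e' = v) → (f1 e ∈ A ↔ f1 e' ∈ A)

/-- CEN: centroid edge of a tree of maximum degree three -/
def S_CEN : Prop := ∀ (F E : Type) [Fintype F] [Fintype E] (f1 f2 : E → F) (Q : Finset E),
  (∀ e ∈ Q, f1 e ≠ f2 e) → Q.card + 1 = Fintype.card F → 2 ≤ Fintype.card F →
  (∀ A : Set F, A.Nonempty → Aᶜ.Nonempty → ∃ e ∈ Q, ¬ (f1 e ∈ A ↔ f2 e ∈ A)) →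
  (∀ f : F, (Q.filter (fun e => f1 e = f ∨ f2 e = f)).card ≤ 3) →
  ∀ W : F → ℕ, ∃ (A : Finset F) (c : F) (e₀ : E), e₀ ∈ Q ∧
    (∀ e ∈ Q, ¬ (f1 e ∈ A ↔ f2 e ∈ A) → e = e₀) ∧
    3 * (∑ f ∈ A, W f) ≤ 2 * ∑ f, W f ∧
    3 * (∑ f ∈ Finset.univ.filter (fun f => f ∉ A ∧ f ≠ c), W f) ≤ 2 * ∑ f, W f

/-- CYC: fundamental cycles of a breadth first tree -/
def S_CYC : Prop := ∀ (V F E : Type) [Fintype V] [Fintype F] [Fintype E] (S : Sph V F E),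
  3 ≤ Fintype.card V → ∃ lev : V → ℕ,
    (∀ e, lev (S.e1 e) ≤ lev (S.e2 e) + 1 ∧ lev (S.e2 e) ≤ lev (S.e1 e) + 1) ∧
    ∀ W : F → ℕ, ∃ (A : Finset F) (c : F) (D : Finset V),
      (∀ l, (D.filter (fun v => lev v = l)).card ≤ 2) ∧
      (∀ e, ¬ (S.f1 e ∈ A ↔ S.f2 e ∈ A) → S.e1 e ∈ D ∧ S.e2 e ∈ D) ∧
      3 * (∑ f ∈ A, W f) ≤ 2 * ∑ f, W f ∧
      3 * (∑ f ∈ Finset.univ.filter (fun f => f ∉ A ∧ f ≠ c), W f) ≤ 2 * ∑ f, W f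

/-- SPH: separator theorem for triangulated spheres -/
def S_SPH : Prop := ∃ C₀ : ℕ, 1 ≤ C₀ ∧
  ∀ (V F E : Type) [Fintype V] [Fintype F] [Fintype E] (S : Sph V F E) (w : V → ℕ),
  ∃ (X : Finset V) (lab : V → Bool), (X.card : ℝ) ≤ C₀ * √(Fintype.card V : ℝ) ∧
    (∀ e, S.e1 e ∉ X → S.e2 e ∉ X → lab (S.e1 e) = lab (S.e2 e)) ∧
    (∀ b : Bool, 3 * (∑ v ∈ Finset.univ.filter (fun v => v ∉ X ∧ lab v = b), w v)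
      ≤ 2 * ∑ v, w v)

/-- triangulation of the polygon `0, ..., m` as a set of pairs with an apex function -/
structure Tri (m : ℕ) (T : Finset (ℕ × ℕ)) (c : ℕ × ℕ → ℕ) : Prop where
  lt : ∀ p ∈ T, p.1 < p.2 ∧ p.2 ≤ m
  root : (0, m) ∈ T
  unit : ∀ i < m, (i, i+1) ∈ T
  apex : ∀ p ∈ T, p.1 + 1 < p.2 → p.1 < c p ∧ c p < p.2 ∧ (p.1, c p) ∈ T ∧ (c p, p.2) ∈ T
  parent : ∀ p ∈ T, p ≠ (0, m) →
    ∃! q, q ∈ T ∧ q.1 + 1 < q.2 ∧ (p = (q.1, c q) ∨ p = (c q, q.2))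
  card : T.card = 2 * m - 1

/-- TRI: every non-crossing family extends to a triangulation -/
def S_TRI : Prop := ∀ (m : ℕ) (U : Finset (ℕ × ℕ)), 1 ≤ m →
  (∀ e ∈ U, e.1 < e.2 ∧ e.2 ≤ m) → NC U → ∃ (T : Finset (ℕ × ℕ)) (c : ℕ × ℕ → ℕ), Tri m T c ∧ U ⊆ T

/-- TWP: two triangulations of a polygon form a sphere -/
def S_TWP : Prop := ∀ (m : ℕ) (T T' : Finset (ℕ × ℕ)) (c c' : ℕ × ℕ → ℕ), 2 ≤ m →
  Tri m T c → Tri m T' c' →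
  ∃ (F E : Type) (_ : Fintype F) (_ : Fintype E) (S : Sph (Fin (m+1)) F E),
    ∀ i j : Fin (m+1), (i.val, j.val) ∈ T ∪ T' → ∃ e, S.e1 e = i ∧ S.e2 e = j

end Pool.Agent.H172R2.UT
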