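import Pool.Agent.H172R2.UT.Defs

/-!
Assembly for permutations.
-/

open Classical

namespace Pool.Agent.H172R2.UT

namespace FINaux

/-- pull back of a relation between blocks -/
noncomputable def UR (n a : ℕ) (R : Finset (ℕ × ℕ)) : Finset (Fin n × Fin n) :=
  Finset.univ.filter (fun p => (p.1.val / a, p.2.val / a) ∈ R)

theorem card_block (n a k : ℕ) (ha : 1 ≤ a) :
    (Finset.univ.filter (fun i : Fin n => i.val / a = k)).card ≤ a := by
  have h : (Finset.univ.filter (fun i : Fin n => i.val / a = k)).card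
      ≤ (Finset.Ico (a * k) (a * k + a)).card := by
    apply Finset.card_le_card_of_injOn (fun i : Fin n => i.val)
    · intro i hi
      simp only [Finset.coe_filter, Finset.mem_univ, true_and, Set.mem_ofPred_eq] at hi
      simp only [Finset.coe_Ico, Set.mem_Ico]
      subst hi
      have h1 := Nat.div_add_mod i.val a
      have h2 := Nat.mod_lt i.val (show 0 < a by omega)
      constructor <;> omega
    · intro i _ j _ hij
      exact Fin.ext hij
  simpa using h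

theorem card_UR (n a : ℕ) (ha : 1 ≤ a) (R : Finset (ℕ × ℕ)) :
    (UR n a R).card ≤ a ^ 2 * R.card := by
  apply Finset.card_le_mul_card_image_of_maps_to
    (f := fun p : Fin n × Fin n => (p.1.val / a, p.2.val / a))
  · intro p hp
    simp only [UR, Finset.mem_filter, Finset.mem_univ, true_and] at hp
    exact hp
  · rintro ⟨k, l⟩ _
    have h1 : ((UR n a R).filter (fun p : Fin n × Fin n => (p.1.val / a, p.2.val / a) = (k, l)))
        ⊆ (Finset.univ.filter (fun i : Fin n => i.val / a = k)) ×ˢ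
          (Finset.univ.filter (fun i : Fin n => i.val / a = l)) := by
      intro p hp
      simp only [Finset.mem_filter, Prod.mk.injEq] at hp
      simp only [Finset.mem_product, Finset.mem_filter, Finset.mem_univ, true_and]
      exact hp.2
    refine (Finset.card_le_card h1).trans ?_
    rw [Finset.card_product, sq]
    exact Nat.mul_le_mul (card_block n a k ha) (card_block n a l ha)

/-- numbers -/
theorem numbers (n : ℕ) (hn : 3 ≤ n) : ∃ (s : ℝ) (a : ℕ), 1 ≤ s ∧ s ^ 3 = n ∧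
    s ^ 2 = (n : ℝ) ^ (2/3 : ℝ) ∧ 1 ≤ a ∧ (a : ℝ) ≤ 2 * s ∧ n ≤ a * ((n - 1) / a + 1) ∧
    ((((n - 1) / a + 1 : ℕ)) : ℝ) ≤ 2 * s ^ 2 := by
  have hn1 : (1 : ℝ) ≤ n := by exact_mod_cast (by omega : 1 ≤ n)
  have hn0 : (0 : ℝ) ≤ n := by linarith
  set s : ℝ := (n : ℝ) ^ (1/3 : ℝ) with hs
  have hs1 : 1 ≤ s := Real.one_le_rpow hn1 (by norm_num)
  have hs0 : 0 < s := by linarith
  have hs3 : s ^ 3 = n := by
    rw [hs, ← Real.rpow_natCast, ← Real.rpow_mul hn0]
    norm_num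
  have hs2 : s ^ 2 = (n : ℝ) ^ (2/3 : ℝ) := by
    rw [hs, ← Real.rpow_natCast, ← Real.rpow_mul hn0]
    norm_num
  have ha1 : 1 ≤ ⌈s⌉₊ := Nat.one_le_ceil_iff.2 hs0
  have ha1' : s ≤ (⌈s⌉₊ : ℝ) := Nat.le_ceil s
  have ha2 : (⌈s⌉₊ : ℝ) < s + 1 := Nat.ceil_lt_add_one hs0.le
  refine ⟨s, ⌈s⌉₊, hs1, hs3, hs2, ha1, by linarith, ?_, ?_⟩
  · have := Nat.lt_mul_div_succ (n - 1) (show 0 < ⌈s⌉₊ by omega)
    have h2 : n - 1 < ⌈s⌉₊ * ((n - 1) / ⌈s⌉₊ + 1) := this
    omega
  · have h1 : (((n - 1) / ⌈s⌉₊ : ℕ) : ℝ) ≤ ((n - 1 : ℕ) : ℝ) / (⌈s⌉₊ : ℝ) := Nat.cast_div_le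
    have h2 : ((n - 1 : ℕ) : ℝ) ≤ n := by exact_mod_cast Nat.sub_le n 1
    have h3 : ((n - 1 : ℕ) : ℝ) / (⌈s⌉₊ : ℝ) ≤ s ^ 2 := by
      rw [div_le_iff₀ (by linarith)]
      calc ((n - 1 : ℕ) : ℝ) ≤ n := h2
        _ = s ^ 2 * s := by rw [← hs3]; ring
        _ ≤ s ^ 2 * (⌈s⌉₊ : ℝ) := mul_le_mul_of_nonneg_left ha1' (by positivity)
    push_cast
    have h4 : (1 : ℝ) ≤ s ^ 2 := one_le_pow₀ hs1
    linarith

end FINaux

open FINaux

theorem FIN_ok (h1 : S_GEO) (h2 : S_CNT) (h3 : S_PERM) : S_FIN := by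
  obtain ⟨C, hC, hcnt⟩ := h2
  set C2 : ℝ := 16 * Real.exp 3 * C + 2 * C + 1 with hC2
  have he3 : 0 < Real.exp 3 := Real.exp_pos 3
  have hC2p : 0 < C2 := by positivity
  refine ⟨C2, hC2p, fun n hn => ?_⟩
  obtain ⟨s, a, hs1, hs3, hs2, ha1, ha2, haK, hK⟩ := numbers n hn
  set K : ℕ := (n - 1) / a + 1 with hKdef
  have hK1 : 1 ≤ K := Nat.le_add_left 1 _
  have hs0 : 0 < s := by linarith
  obtain ⟨F, hF1, hF2, hF3⟩ := hcnt a K ha1 hK1
  set t : ℕ := ⌈C2 * s ^ 2⌉₊ with ht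
  have ht1 : C2 * s ^ 2 ≤ t := Nat.le_ceil _
  have hs2p : 0 < s ^ 2 := by positivity
  have htpos : 0 < t := Nat.ceil_pos.2 (by positivity)
  -- it is enough to have card S < t
  have hlast : ∀ S : Finset (Fin n), S.card < t → (S.card : ℝ) ≤ C2 * (n : ℝ) ^ (2/3 : ℝ) := by
    intro S hS
    rw [← hs2]
    exact (Nat.lt_ceil.1 hS).le
  by_cases htn : n < t
  · refine ⟨1, fun q _ S _ => hlast S ?_⟩
    have := Finset.card_le_univ S
    rw [Fintype.card_fin] at this
    omega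
  rw [not_lt] at htn
  set M : ℕ := a ^ 2 * ⌊C * a * K⌋₊ with hM
  have ha0 : (0 : ℝ) ≤ a := Nat.cast_nonneg _
  have hK0 : (0 : ℝ) ≤ K := Nat.cast_nonneg _
  have hMle : (M : ℝ) ≤ 16 * C * (s ^ 2 * n) := by
    rw [hM]
    push_cast
    have e1 : ((⌊C * a * K⌋₊ : ℕ) : ℝ) ≤ C * a * K := Nat.floor_le (by positivity)
    calc (a : ℝ) ^ 2 * ((⌊C * a * K⌋₊ : ℕ) : ℝ) ≤ (a : ℝ) ^ 2 * (C * a * K) :=
          mul_le_mul_of_nonneg_left e1 (by positivity)
      _ = C * ((a : ℝ) ^ 3 * K) := by ring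
      _ ≤ C * ((2 * s) ^ 3 * (2 * s ^ 2)) := by
          refine mul_le_mul_of_nonneg_left ?_ hC.le
          exact mul_le_mul (pow_le_pow_left₀ ha0 ha2 3) hK hK0 (by positivity)
      _ = 16 * C * (s ^ 2 * s ^ 3) := by ring
      _ = _ := by rw [hs3]
  have hnpos : (0 : ℝ) < n := by exact_mod_cast (by omega : 0 < n)
  have htR : (0 : ℝ) < t := by exact_mod_cast htpos
  -- ratio
  have hratio : Real.exp 2 * M / (t * n) ≤ Real.exp (-1) := by
    rw [div_le_iff₀ (by positivity)]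
    have e2 : Real.exp 2 = Real.exp (-1) * Real.exp 3 := by
      rw [← Real.exp_add]; norm_num
    rw [e2, mul_assoc]
    refine mul_le_mul_of_nonneg_left ?_ (Real.exp_pos _).le
    calc Real.exp 3 * M ≤ Real.exp 3 * (16 * C * (s ^ 2 * n)) :=
          mul_le_mul_of_nonneg_left hMle he3.le
      _ = (16 * Real.exp 3 * C) * s ^ 2 * n := by ring
      _ ≤ C2 * s ^ 2 * n := by
          refine mul_le_mul_of_nonneg_right (mul_le_mul_of_nonneg_right ?_ hs2p.le) hnpos.le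
          rw [hC2]; linarith
      _ ≤ t * n := mul_le_mul_of_nonneg_right ht1 hnpos.le
  have hCK : C * K < t := by
    calc C * K ≤ C * (2 * s ^ 2) := mul_le_mul_of_nonneg_left hK hC.le
      _ = (2 * C) * s ^ 2 := by ring
      _ < C2 * s ^ 2 := by
          refine mul_lt_mul_of_pos_right ?_ hs2p
          rw [hC2]
          have : 0 < 16 * Real.exp 3 * C := by positivity
          linarith
      _ ≤ t := ht1
  obtain ⟨π, hπ⟩ := h3 n t M (F.image (UR n a)) (by
    intro U hU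
    obtain ⟨R, hR, rfl⟩ := Finset.mem_image.1 hU
    refine (card_UR n a ha1 R).trans ?_
    rw [hM]
    exact Nat.mul_le_mul_left _ (Nat.le_floor (hF2 R hR))) htpos htn (by
    have hcard : ((F.image (UR n a)).card : ℝ) ≤ Real.exp (C * K) :=
      le_trans (by exact_mod_cast Finset.card_image_le) hF1
    have hpow : (Real.exp 2 * M / (t * n)) ^ t ≤ Real.exp (-(t : ℝ)) := by
      refine (pow_le_pow_left₀ (by positivity) hratio t).trans (le_of_eq ?_)
      rw [← Real.exp_nat_mul]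
      congr 1
      ring
    calc ((F.image (UR n a)).card : ℝ) * (Real.exp 2 * M / (t * n)) ^ t
        ≤ Real.exp (C * K) * Real.exp (-(t : ℝ)) :=
          mul_le_mul hcard hpow (by positivity) (Real.exp_pos _).le
      _ = Real.exp (C * K - t) := by rw [← Real.exp_add]; congr 1
      _ < 1 := by
          rw [← Real.exp_zero]
          exact Real.exp_lt_exp.2 (by linarith))
  refine ⟨π, fun q hq S hS => hlast S ?_⟩
  obtain ⟨N, x, up, yi, hN, htp, hyi, hyin, hpar⟩ := h1 n q hn hq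
  have hdiv : ∀ i : ℕ, i < n → i / a ≤ K - 1 := by
    intro i hi
    have : i / a ≤ (n - 1) / a := Nat.div_le_div_right (by omega)
    omega
  obtain ⟨R, hR, hR'⟩ := hF3 N x up (fun j => min (K - 1) (⌊x j⌋₊ / a)) (fun j => yi j / a)
    (by nlinarith) htp (fun j _ => by
      have := min_le_left (K - 1) (⌊x j⌋₊ / a)
      omega) (fun j hj => by
      have := hdiv _ (hyin j hj)
      omega) (fun j _ l _ h => min_le_min_left _ (Nat.div_le_div_right (Nat.floor_mono h)))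
    (fun j hj l hl h => Nat.div_le_div_right (hyi j hj l hl h))
  have hlt := hπ (UR n a R) (Finset.mem_image_of_mem _ hR)
  refine lt_of_le_of_lt (Finset.card_le_card ?_) hlt
  intro i hi
  simp only [UR, Finset.mem_filter, Finset.mem_univ, true_and]
  have hqi := hS i hi
  obtain ⟨j, hj, hj1, hj2⟩ := hpar i.val i.isLt (by rw [hqi])
  have h5 := hR' j hj
  rw [hj1, hj2, hqi] at h5
  simp only [Nat.floor_natCast] at h5
  rwa [min_eq_right (hdiv _ (π i).isLt)] at h5

end Pool.Agent.H172R2.UT
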