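import Pool.Agent.H172R2.UT.Defs

/-!
GAM: the parametrisation of a crossing-free polygon is injective and continuous.
-/

open Classical

namespace Pool.Agent.H172R2.UT

namespace GAMaux

/-- on `[k, k+1]` the curve is the segment from `q k` to `q (k+1)` -/
theorem gam_eq (q : ℕ → ℝ × ℝ) (k : ℕ) (r : ℝ) (h1 : (k : ℝ) ≤ r) (h2 : r ≤ k + 1) :
    gam q r = AffineMap.lineMap (q k) (q (k + 1)) (r - k) := by
  unfold gam
  have h0 : (0 : ℝ) ≤ r := (Nat.cast_nonneg k).trans h1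
  rcases h2.eq_or_lt with h | h
  · have hf : ⌊r⌋₊ = k + 1 := by
      rw [h]
      exact_mod_cast Nat.floor_natCast (R := ℝ) (k + 1)
    rw [hf, h]
    push_cast
    rw [sub_self, AffineMap.lineMap_apply_zero, add_sub_cancel_left, AffineMap.lineMap_apply_one]
  · have hf : ⌊r⌋₊ = k := (Nat.floor_eq_iff h0).2 ⟨h1, h⟩
    rw [hf]

theorem cont_piece (q : ℕ → ℝ × ℝ) (k : ℕ) : ContinuousOn (gam q) (Set.Icc (k : ℝ) (k + 1)) := by
  have h : ContinuousOn (fun r : ℝ => AffineMap.lineMap (q k) (q (k + 1)) (r - k))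
      (Set.Icc (k : ℝ) (k + 1)) := by
    apply Continuous.continuousOn
    exact (AffineMap.lineMap_continuous).comp (continuous_id.sub continuous_const)
  exact h.congr fun r hr => gam_eq q k r hr.1 hr.2

theorem cont_Icc (q : ℕ → ℝ × ℝ) (N : ℕ) : ContinuousOn (gam q) (Set.Icc (0 : ℝ) N) := by
  induction N with
  | zero =>
    rw [Nat.cast_zero, Set.Icc_self]
    exact continuousOn_singleton _ _
  | succ N ih =>
    have h := ih.union_of_isClosed (cont_piece q N) isClosed_Icc isClosed_Icc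
    rw [Set.Icc_union_Icc_eq_Icc (Nat.cast_nonneg N) (by linarith)] at h
    exact_mod_cast h

theorem cont_Ici (q : ℕ → ℝ × ℝ) : ContinuousOn (gam q) (Set.Ici (0 : ℝ)) := by
  intro r hr
  have h1 : r < (⌊r⌋₊ + 1 : ℕ) := by exact_mod_cast Nat.lt_floor_add_one r
  refine (cont_Icc q (⌊r⌋₊ + 1) r ⟨hr, h1.le⟩).mono_of_mem_nhdsWithin ?_
  rw [mem_nhdsWithin]
  refine ⟨Set.Iio ((⌊r⌋₊ + 1 : ℕ) : ℝ), isOpen_Iio, h1, fun x hx => ?_⟩
  exact ⟨hx.2, hx.1.le⟩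

theorem ne {n : ℕ} {q : ℕ → ℝ × ℝ} (h : CFN n q) {i : ℕ} (hi : i < n) : q i ≠ q (i + 1) := by
  intro h1
  have h2 := h.2.2.2 i hi i hi
  rw [← h1, openSegment_same] at h2
  exact h2 rfl

/-- vertices and interior points of edges -/
theorem cases (q : ℕ → ℝ × ℝ) (r : ℝ) (hr : 0 ≤ r) :
    gam q r = q ⌊r⌋₊ ∨ gam q r ∈ openSegment ℝ (q ⌊r⌋₊) (q (⌊r⌋₊ + 1)) := by
  rcases (Nat.floor_le hr).eq_or_lt with h | h
  · left
    unfold gam
    rw [h, sub_self, AffineMap.lineMap_apply_zero]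
  · right
    rw [openSegment_eq_image_lineMap]
    refine ⟨r - ⌊r⌋₊, ⟨by linarith, ?_⟩, rfl⟩
    have := Nat.lt_floor_add_one r
    linarith

theorem inj {n : ℕ} {q : ℕ → ℝ × ℝ} (h : CFN n q) : Set.InjOn (gam q) (Set.Ico (0:ℝ) n) := by
  intro r hr r' hr' heq
  have hi : ⌊r⌋₊ < n := (Nat.floor_lt hr.1).2 hr.2
  have hi' : ⌊r'⌋₊ < n := (Nat.floor_lt hr'.1).2 hr'.2
  by_cases hf : ⌊r⌋₊ = ⌊r'⌋₊
  · have h1 : AffineMap.lineMap (q ⌊r⌋₊) (q (⌊r⌋₊ + 1)) (r - ⌊r⌋₊) =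
        (AffineMap.lineMap (q ⌊r⌋₊) (q (⌊r⌋₊ + 1)) (r' - ⌊r⌋₊) : ℝ × ℝ) := by
      have h2 : gam q r' = AffineMap.lineMap (q ⌊r'⌋₊) (q (⌊r'⌋₊ + 1)) (r' - ⌊r'⌋₊) := rfl
      rw [← hf] at h2
      rw [← h2, ← heq]
      rfl
    have h3 := AffineMap.lineMap_injective ℝ (ne h hi) h1
    linarith
  · exfalso
    rcases cases q r hr.1 with h1 | h1 <;> rcases cases q r' hr'.1 with h2 | h2
    · exact hf (h.2.1 _ hi _ hi' (by rw [← h1, ← h2, heq]))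
    · rw [← heq, h1] at h2
      exact h.2.2.2 _ hi' _ hi h2
    · rw [heq, h2] at h1
      exact h.2.2.2 _ hi _ hi' h1
    · rw [heq] at h1
      exact Set.disjoint_left.1 (h.2.2.1 _ hi _ hi' hf) h1 h2

end GAMaux

theorem GAM_ok : S_GAM := fun _ q h => ⟨GAMaux.inj h, GAMaux.cont_Ici q⟩

end Pool.Agent.H172R2.UT
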