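import Pool.Agent.H172R2.UT.Defs

/-! GEO: a crossing-free polygon and the parabola give a two page sequence. -/

open Classical

namespace Pool.Agent.H172R2.UT

namespace GEOaux

theorem sign_pos (f : ℝ → ℝ) (a b : ℝ) (hf : ContinuousOn f (Set.Ioo a b))
    (hne : ∀ r ∈ Set.Ioo a b, f r ≠ 0) (m : ℝ) (hm : m ∈ Set.Ioo a b) (h : 0 < f m) :
    ∀ r ∈ Set.Ioo a b, 0 < f r := by
  intro r hr
  by_contra hneg
  push Not at hneg
  have h1 := isPreconnected_Ioo.intermediate_value hr hm hf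
  obtain ⟨z, hz, hz0⟩ := h1 ⟨hneg, h.le⟩
  exact hne z hz hz0

theorem sign_neg (f : ℝ → ℝ) (a b : ℝ) (hf : ContinuousOn f (Set.Ioo a b))
    (hne : ∀ r ∈ Set.Ioo a b, f r ≠ 0) (m : ℝ) (hm : m ∈ Set.Ioo a b) (h : f m < 0) :
    ∀ r ∈ Set.Ioo a b, f r < 0 := by
  intro r hr
  have := sign_pos (fun r => - f r) a b hf.neg (fun r hr h0 => hne r hr (neg_eq_zero.mp h0)) m hm
    (by simpa using h) r hr
  simpa using this

theorem cross_self (a b : ℝ) : ¬ Cross a b a b := by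
  unfold Cross SIn SOut
  rintro (⟨⟨h1, h2⟩, -⟩ | ⟨⟨h1, h2⟩, -⟩)
  · rcases le_total a b with h | h
    · rw [min_eq_left h] at h1; exact lt_irrefl _ h1
    · rw [max_eq_left h] at h2; exact lt_irrefl _ h2
  · rcases le_total a b with h | h
    · rw [max_eq_right h] at h2; exact lt_irrefl _ h2
    · rw [min_eq_right h] at h1; exact lt_irrefl _ h1

theorem cross_right (a b c : ℝ) : ¬ Cross a b b c := by
  unfold Cross SIn SOut
  rintro (⟨⟨h1, h2⟩, -⟩ | ⟨-, h | h⟩)
  · rcases le_total a b with h | h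
    · rw [max_eq_right h] at h2; exact lt_irrefl _ h2
    · rw [min_eq_right h] at h1; exact lt_irrefl _ h1
  · exact absurd h (not_lt.mpr (min_le_right _ _))
  · exact absurd h (not_lt.mpr (le_max_right _ _))

theorem cross_left (a b c : ℝ) : ¬ Cross a b c a := by
  unfold Cross SIn SOut
  rintro (⟨-, h | h⟩ | ⟨⟨h1, h2⟩, -⟩)
  · exact absurd h (not_lt.mpr (min_le_left _ _))
  · exact absurd h (not_lt.mpr (le_max_left _ _))
  · rcases le_total a b with h | h
    · rw [min_eq_left h] at h1; exact lt_irrefl _ h1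
    · rw [max_eq_left h] at h2; exact lt_irrefl _ h2

theorem gam_nat (q : ℕ → ℝ × ℝ) (i : ℕ) : gam q (i : ℝ) = q i := by
  unfold gam
  rw [Nat.floor_natCast, sub_self, AffineMap.lineMap_apply_zero]

end GEOaux

open GEOaux in
theorem GEO_ok (h1 : S_ZER) (h2 : S_GAM) (h3 : S_ARC) : S_GEO := by
  intro n q hn hq
  obtain ⟨hinj, hcont⟩ := h2 n q hq
  have hne : ∀ i < n, q i ≠ q (i + 1) := by
    intro i hi h
    rcases Nat.lt_or_ge (i + 1) n with h' | h'
    · have := hq.2.1 i hi (i + 1) h' h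
      omega
    · have h4 : i + 1 = n := by omega
      rw [h4, hq.1] at h
      have := hq.2.1 i hi 0 (by omega) h
      omega
  obtain ⟨N, τ, hN, hτ, hz⟩ := h1 n q hne
  -- basic facts
  have hz0 : ∀ t < N, 0 ≤ τ t ∧ τ t < n ∧ (gam q (τ t)).2 = (gam q (τ t)).1 ^ 2 :=
    fun t ht => (hz (τ t)).mpr ⟨t, ht, rfl⟩
  have hh0 : ∀ t < N, hh q (τ t) = 0 := by
    intro t ht
    unfold hh
    rw [(hz0 t ht).2.2, sub_self]
  have hτle : ∀ s < N, ∀ t < N, s ≤ t → τ s ≤ τ t := by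
    intro s hs t ht hst
    rcases Nat.eq_or_lt_of_le hst with h | h
    · rw [h]
    · exact (hτ s hs t ht h).le
  have hhc : ContinuousOn (hh q) (Set.Ici (0 : ℝ)) := by
    unfold hh
    exact (continuous_snd.comp_continuousOn hcont).sub
      ((continuous_fst.comp_continuousOn hcont).pow 2)
  have hnz : ∀ s, s + 1 < N → ∀ r ∈ Set.Ioo (τ s) (τ (s + 1)), hh q r ≠ 0 := by
    intro s hs r hr h0
    have hr0 : 0 ≤ r := (hz0 s (by omega)).1.trans hr.1.le
    have hrn : r < n := hr.2.trans (hz0 (s + 1) hs).2.1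
    have hp : (gam q r).2 = (gam q r).1 ^ 2 := by
      unfold hh at h0
      linarith
    obtain ⟨t, ht, htr⟩ := (hz r).mp ⟨hr0, hrn, hp⟩
    rcases Nat.lt_or_ge s t with h | h
    · have := hτle (s + 1) hs t ht h
      rw [htr] at this
      exact absurd hr.2 (not_lt.mpr this)
    · have := hτle t ht s (by omega) h
      rw [htr] at this
      exact absurd hr.1 (not_lt.mpr this)
  have hsign : ∀ s, s + 1 < N → ∀ σ : ℝ,
      σ = (if 0 < hh q ((τ s + τ (s + 1)) / 2) then 1 else -1) →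
      ∀ r ∈ Set.Icc (τ s) (τ (s + 1)), 0 ≤ σ * hh q r := by
    intro s hs σ hσ r hr
    have hlt : τ s < τ (s + 1) := hτ s (by omega) (s + 1) hs (by omega)
    have hmid : (τ s + τ (s + 1)) / 2 ∈ Set.Ioo (τ s) (τ (s + 1)) := ⟨by linarith, by linarith⟩
    have hc : ContinuousOn (hh q) (Set.Ioo (τ s) (τ (s + 1))) :=
      hhc.mono (fun z hz' => (hz0 s (by omega)).1.trans hz'.1.le)
    rcases eq_or_lt_of_le hr.1 with h | h
    · rw [← h, hh0 s (by omega), mul_zero]
    rcases eq_or_lt_of_le hr.2 with h' | h'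
    · rw [h', hh0 (s + 1) hs, mul_zero]
    split_ifs at hσ with hp
    · rw [hσ, one_mul]
      exact (sign_pos (hh q) _ _ hc (hnz s hs) _ hmid hp r ⟨h, h'⟩).le
    · have hm : hh q ((τ s + τ (s + 1)) / 2) < 0 :=
        lt_of_le_of_ne (not_lt.mp hp) (hnz s hs _ hmid)
      have := sign_neg (hh q) _ _ hc (hnz s hs) _ hmid hm r ⟨h, h'⟩
      rw [hσ]
      linarith
  refine ⟨N, fun t => (gam q (τ t)).1,
    fun t => decide (0 < hh q ((τ t + τ (t + 1)) / 2)), fun t => ⌊τ t⌋₊, hN, ⟨?_, ?_⟩, ?_, ?_, ?_⟩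
  · intro s hs t ht hst
    have h4 : gam q (τ s) = gam q (τ t) := by
      apply Prod.ext hst
      rw [(hz0 s hs).2.2, (hz0 t ht).2.2, hst]
    have h5 := hinj ⟨(hz0 s hs).1, (hz0 s hs).2.1⟩ ⟨(hz0 t ht).1, (hz0 t ht).2.1⟩ h4
    rcases lt_trichotomy s t with h | h | h
    · exact absurd h5 (ne_of_lt (hτ s hs t ht h))
    · exact h
    · exact absurd h5.symm (ne_of_lt (hτ t ht s hs h))
  · intro s t hs ht hup
    rcases eq_or_ne s t with rfl | hst
    · exact cross_self _ _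
    rcases eq_or_ne (s + 1) t with rfl | hst1
    · exact cross_right _ _ _
    rcases eq_or_ne (t + 1) s with rfl | hst2
    · exact cross_left _ _ _
    have hup' : (0 < hh q ((τ s + τ (s + 1)) / 2)) ↔ (0 < hh q ((τ t + τ (t + 1)) / 2)) := by
      rwa [decide_eq_decide] at hup
    obtain ⟨σ, hσ1, hσ⟩ : ∃ σ : ℝ, (σ = 1 ∨ σ = -1) ∧
        σ = (if 0 < hh q ((τ s + τ (s + 1)) / 2) then 1 else -1) := by
      refine ⟨_, ?_, rfl⟩
      split_ifs
      · left; rfl
      · right; rfl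
    have hσ' : σ = (if 0 < hh q ((τ t + τ (t + 1)) / 2) then 1 else -1) := by
      rw [hσ]
      simp only [hup']
    refine h3 n q hq (τ s) (τ (s + 1)) (τ t) (τ (t + 1)) σ hσ1 (hz0 s (by omega)).1
      (hτ s (by omega) (s + 1) hs (by omega)) (hz0 (s + 1) hs).2.1 (hz0 t (by omega)).1
      (hτ t (by omega) (t + 1) ht (by omega)) (hz0 (t + 1) ht).2.1 ?_
      (hh0 s (by omega)) (hh0 (s + 1) hs) (hh0 t (by omega)) (hh0 (t + 1) ht)
      (hsign s hs σ hσ) (hsign t ht σ hσ')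
    rcases Nat.lt_or_ge s t with h | h
    · left
      exact hτ (s + 1) hs t (by omega) (by omega)
    · right
      exact hτ (t + 1) ht s (by omega) (by omega)
  · intro s hs t ht hst
    exact Nat.floor_le_floor (hτle s hs t ht hst)
  · intro t ht
    exact (Nat.floor_lt (hz0 t ht).1).mpr (hz0 t ht).2.1
  · intro i hi hp
    obtain ⟨t, ht, hti⟩ := (hz (i : ℝ)).mp ⟨Nat.cast_nonneg i, by exact_mod_cast hi, by
      rw [gam_nat]
      exact hp⟩
    refine ⟨t, ht, ?_, ?_⟩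
    · simp only [hti, Nat.floor_natCast]
    · simp only [hti, gam_nat]

end Pool.Agent.H172R2.UT
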