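import Pool.Agent.H172R2.UT.LDefs

open Classical

namespace Pool.Agent.H172R2.UT

namespace LAFFaux

theorem hpart (k : ℕ) (X : ℕ → ℝ) (L : ℝ) (g : ℕ → ℝ → ℝ) (j : ℕ) (hj : j ≤ k) (τ : ℝ)
    (h1 : (j : ℝ) ≤ τ) (h2 : τ ≤ j + 1 / 2) :
    gma k X L g τ = (XX k X L j + 2 * (τ - j) * (XX k X L (j + 1) - XX k X L j),
      g j (XX k X L j + 2 * (τ - j) * (XX k X L (j + 1) - XX k X L j))) := by
  have hjk : (j : ℝ) ≤ k := by exact_mod_cast hj
  have hfl : ⌊τ⌋₊ = j := by
    rw [Nat.floor_eq_iff (le_trans (Nat.cast_nonneg j) h1)]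
    exact ⟨h1, by linarith⟩
  unfold gma
  rw [hfl, if_neg (by linarith), if_pos (by linarith)]

theorem vpart (k : ℕ) (X : ℕ → ℝ) (L : ℝ) (g : ℕ → ℝ → ℝ) (j : ℕ) (hj : j ≤ k) (τ : ℝ)
    (h1 : (j : ℝ) + 1 / 2 ≤ τ) (h2 : τ ≤ j + 1) :
    gma k X L g τ = (XX k X L (j + 1),
      (2 - 2 * (τ - j)) * g j (XX k X L (j + 1)) +
      (2 * (τ - j) - 1) * (if j = k then g 0 L else g (j + 1) (XX k X L (j + 1)))) := by
  have hjk : (j : ℝ) ≤ k := by exact_mod_cast hj
  rcases h1.eq_or_lt with h3 | h3
  · rw [hpart k X L g j hj τ (by linarith) (by linarith), ← h3]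
    have e : XX k X L j + 2 * ((j : ℝ) + 1 / 2 - j) * (XX k X L (j + 1) - XX k X L j) =
        XX k X L (j + 1) := by ring
    rw [e]
    refine Prod.ext rfl ?_
    simp only
    ring
  · rcases h2.eq_or_lt with h4 | h4
    · rcases hj.eq_or_lt with h5 | h5
      · subst h5
        have hX : XX j X L (j + 1) = L := by
          unfold XX
          rw [if_neg (by omega)]
        rw [hX, if_pos rfl, h4]
        unfold gma
        rw [if_pos le_rfl]
        refine Prod.ext rfl ?_
        simp only
        ring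
      · have h6 : τ = ((j + 1 : ℕ) : ℝ) := by rw [h4]; push_cast; ring
        rw [hpart k X L g (j + 1) h5 τ h6.ge (by rw [h6]; linarith), if_neg (by omega)]
        have e : XX k X L (j + 1) + 2 * (τ - ((j + 1 : ℕ) : ℝ)) *
            (XX k X L (j + 1 + 1) - XX k X L (j + 1)) = XX k X L (j + 1) := by
          rw [h6]; ring
        rw [e, h4]
        refine Prod.ext rfl ?_
        simp only
        ring
    · have hfl : ⌊τ⌋₊ = j := by
        rw [Nat.floor_eq_iff (le_trans (Nat.cast_nonneg j) (by linarith))]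
        exact ⟨by linarith, h4⟩
      unfold gma
      rw [hfl, if_neg (by linarith), if_neg (by linarith)]

end LAFFaux

open LAFFaux

theorem LAFF_ok : S_LAFF := by
  intro k X Y L T g hk hL a b ha hab hb hno l hl0 hl1
  set j := ⌊a⌋₊ with hjdef
  have hja : (j : ℝ) ≤ a := Nat.floor_le ha
  have haj : a < j + 1 := Nat.lt_floor_add_one a
  have hjk : j ≤ k := by
    have : (j : ℝ) < (k : ℝ) + 1 := by linarith
    have h2 : j < k + 1 := by exact_mod_cast this
    omega
  have hc1 : a ≤ (1 - l) * a + l * b := by nlinarith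
  have hc2 : (1 - l) * a + l * b ≤ b := by nlinarith
  rcases lt_or_ge a ((j : ℝ) + 1 / 2) with h1 | h1
  · have hbj : b ≤ (j : ℝ) + 1 / 2 := by
      by_contra hcon
      push Not at hcon
      exact hno _ h1 hcon ⟨j, hjk, Or.inr (Or.inl rfl)⟩
    rw [hpart k X L g j hjk a hja h1.le, hpart k X L g j hjk b (by linarith) hbj,
      hpart k X L g j hjk _ (by linarith) (by linarith)]
    set D := XX k X L (j + 1) - XX k X L j with hD
    set P := XX k X L j with hP
    have ex : P + 2 * ((1 - l) * a + l * b - j) * D =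
        (1 - l) * (P + 2 * (a - j) * D) + l * (P + 2 * (b - j) * D) := by ring
    -- no break point strictly between
    have key : ∀ t ∈ T, ∀ u v : ℝ, 0 ≤ u → u < 1 → 0 < u →
        t = (1 - u) * (P + 2 * (a - j) * D) + u * (P + 2 * (b - j) * D) → False := by
      intro t ht u v hu0 hu1 hu2 he
      refine hno ((1 - u) * a + u * b) (by nlinarith) (by nlinarith) ⟨j, hjk, Or.inr (Or.inr
        ⟨by nlinarith, by nlinarith, ?_⟩)⟩
      have : P + 2 * ((1 - u) * a + u * b - j) * D = t := by rw [he]; ring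
      rw [← hD, this]
      exact ht
    rw [ex]
    refine Prod.ext (by simp) ?_
    simp only [Prod.snd_add, Prod.smul_snd, smul_eq_mul]
    set xa := P + 2 * (a - j) * D with hxa
    set xb := P + 2 * (b - j) * D with hxb
    rcases le_or_gt xa xb with h2 | h2
    · refine hL.aff j xa xb h2 ?_ l hl0 hl1
      rintro t ht ⟨h3, h4⟩
      have h5 : 0 < xb - xa := by linarith
      refine key t ht ((t - xa) / (xb - xa)) 0 (by apply div_nonneg <;> linarith)
        (by rw [div_lt_one h5]; linarith) (by apply div_pos <;> linarith) ?_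
      field_simp
      ring
    · have h6 := hL.aff j xb xa h2.le ?_ (1 - l) (by linarith) (by linarith)
      · have e1 : (1 - (1 - l)) * xb + (1 - l) * xa = (1 - l) * xa + l * xb := by ring
        rw [e1] at h6
        rw [h6]; ring
      · rintro t ht ⟨h3, h4⟩
        have h5 : 0 < xa - xb := by linarith
        refine key t ht ((xa - t) / (xa - xb)) 0 (by apply div_nonneg <;> linarith)
          (by rw [div_lt_one h5]; linarith) (by apply div_pos <;> linarith) ?_
        field_simp
        ring
  · have hbj : b ≤ (j : ℝ) + 1 := by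
      by_contra hcon
      push Not at hcon
      have h2 : (j : ℝ) + 1 < (k : ℝ) + 1 := by linarith
      have h3 : j + 1 < k + 1 := by exact_mod_cast h2
      refine hno _ haj hcon ⟨j + 1, by omega, Or.inl ?_⟩
      push_cast
      ring
    rw [vpart k X L g j hjk a h1 haj.le, vpart k X L g j hjk b (by linarith) hbj,
      vpart k X L g j hjk _ (by linarith) (by linarith)]
    refine Prod.ext ?_ ?_
    · simp only [Prod.fst_add, Prod.smul_fst, smul_eq_mul]
      ring
    · simp only [Prod.snd_add, Prod.smul_snd, smul_eq_mul]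
      ring

end Pool.Agent.H172R2.UT
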