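import Pool.Agent.H172R2.UT.LDefs

open Classical

namespace Pool.Agent.H172R2.UT

namespace LDRWxaux

/-- numbers of vertices in the time intervals -/
def cnt (n k : ℕ) (i : ℕ → ℕ) (j : ℕ) : ℕ :=
  if j = 0 then i 1 else if j < k then i (j+1) - i j else if j = k then n - i k else 0

/-- break times in `[j, j+1)` -/
noncomputable def PB (k : ℕ) (X : ℕ → ℝ) (L : ℝ) (T : Finset ℝ) (j : ℕ) : Finset ℝ :=
  {(j:ℝ), (j:ℝ) + 1/2} ∪
    (T.image (fun t => (j:ℝ) + (t - XX k X L j) / (2 * (XX k X L (j+1) - XX k X L j)))).filter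
      (fun τ => (j:ℝ) < τ ∧ τ < j + 1/2)

lemma PB_mem {k : ℕ} {X : ℕ → ℝ} {L : ℝ} {T : Finset ℝ} {j : ℕ} {τ : ℝ}
    (h : τ ∈ PB k X L T j) : (j:ℝ) ≤ τ ∧ τ < j + 1 := by
  unfold PB at h
  rw [Finset.mem_union, Finset.mem_filter] at h
  rcases h with h | h
  · rw [Finset.mem_insert, Finset.mem_singleton] at h
    rcases h with h | h <;> constructor <;> linarith
  · constructor <;> linarith [h.2.1, h.2.2]

lemma PB_card {k : ℕ} {X : ℕ → ℝ} {L : ℝ} {T : Finset ℝ} {j : ℕ} :
    (PB k X L T j).card ≤ T.card + 2 := by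
  unfold PB
  refine (Finset.card_union_le _ _).trans ?_
  have h1 : ({(j:ℝ), (j:ℝ) + 1/2} : Finset ℝ).card ≤ 2 := Finset.card_le_two
  have h2 := (Finset.card_filter_le (T.image (fun t => (j:ℝ) + (t - XX k X L j) /
    (2 * (XX k X L (j+1) - XX k X L j)))) (fun τ => (j:ℝ) < τ ∧ τ < j + 1/2)).trans
    Finset.card_image_le
  omega

lemma XX_ne {k : ℕ} {X Y : ℕ → ℝ} {L : ℝ} {T : Finset ℝ} {g : ℕ → ℝ → ℝ} (hk : 1 ≤ k)
    (h : Lay k X Y L T g) {j : ℕ} (hj : j ≤ k) : XX k X L (j+1) - XX k X L j ≠ 0 := by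
  unfold XX
  by_cases h0 : j = 0
  · subst h0
    rw [if_pos ⟨by omega, by omega⟩, if_neg (by omega)]
    have h1 := h.left 1 le_rfl hk
    simp only [zero_add]
    intro h2
    linarith
  · by_cases h1 : j = k
    · subst h1
      rw [if_neg (by omega), if_pos ⟨by omega, by omega⟩]
      have := h.left j (by omega) le_rfl
      intro h2
      linarith
    · rw [if_pos ⟨by omega, by omega⟩, if_pos ⟨by omega, by omega⟩]
      have := h.ne j (by omega) (by omega)
      intro h2
      exact this (by linarith)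

lemma PB_card' {k : ℕ} {X Y : ℕ → ℝ} {L : ℝ} {T : Finset ℝ} {g : ℕ → ℝ → ℝ} (hk : 1 ≤ k)
    (h : Lay k X Y L T g) {j : ℕ} (hj : 1 ≤ j) (hjk : j < k)
    (ht : ∀ t ∈ T, ¬ (min (X j) (X (j+1)) < t ∧ t < max (X j) (X (j+1)))) :
    (PB k X L T j).card ≤ 2 := by
  have hd := XX_ne hk h (j := j) (by omega)
  have e1 : XX k X L j = X j := by unfold XX; rw [if_pos ⟨hj, by omega⟩]
  have e2 : XX k X L (j+1) = X (j+1) := by unfold XX; rw [if_pos ⟨by omega, by omega⟩]
  have hem : (T.image (fun t => (j:ℝ) + (t - XX k X L j) /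
      (2 * (XX k X L (j+1) - XX k X L j)))).filter (fun τ => (j:ℝ) < τ ∧ τ < j + 1/2) = ∅ := by
    rw [Finset.filter_eq_empty_iff]
    intro τ hτ hc
    rw [Finset.mem_image] at hτ
    obtain ⟨t, htT, rfl⟩ := hτ
    apply ht t htT
    rw [e1, e2] at hc hd
    set d := X (j+1) - X j with hdd
    set u := (t - X j) / (2 * d) with hu
    have hu1 : 0 < u := by linarith [hc.1]
    have hu2 : u < 1/2 := by linarith [hc.2]
    have ht' : t = X j + 2 * u * d := by
      rw [hu]
      field_simp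
      ring
    rcases lt_or_gt_of_ne hd with h0 | h0
    · have : X (j+1) < X j := by linarith
      rw [min_eq_right this.le, max_eq_left this.le]
      constructor <;> nlinarith
    · have : X j < X (j+1) := by linarith
      rw [min_eq_left this.le, max_eq_right this.le]
      constructor <;> nlinarith
  unfold PB
  rw [hem, Finset.union_empty]
  exact Finset.card_le_two

lemma sum_cnt {n S k : ℕ} {i : ℕ → ℕ} {X Y : ℕ → ℝ} {st : ℕ → ℕ} (h : Strip n S k i X Y st)
    (j : ℕ) (hj : 1 ≤ j) (hjk : j ≤ k) : ∑ l ∈ Finset.range j, cnt n k i l = i j := by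
  induction j, hj using Nat.le_induction with
  | base => simp [cnt]
  | succ j hj ih =>
    rw [Finset.sum_range_succ, ih (by omega)]
    have := h.gap j hj (by omega)
    unfold cnt
    rw [if_neg (by omega), if_pos (by omega)]
    omega

lemma sum_cnt_all {n S k : ℕ} {i : ℕ → ℕ} {X Y : ℕ → ℝ} {st : ℕ → ℕ} (h : Strip n S k i X Y st) :
    ∑ l ∈ Finset.range (k+1), cnt n k i l = n := by
  have hk := h.kpos
  rw [Finset.sum_range_succ, sum_cnt h k hk le_rfl]
  have := h.last
  unfold cnt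
  rw [if_neg (by omega), if_neg (by omega), if_pos rfl]
  omega

end LDRWxaux

open LDRWxaux

theorem LDRW_ok (h1 : S_LLAY) (h2 : S_LGAM) (h3 : S_LAFF) (h4 : S_LTIM) (h5 : S_LSUP) :
    S_LDRW := by
  intro n S k i X Y st hs
  obtain ⟨L, T, g, hl, hTc, hT⟩ := h1 n S k i X Y st hs
  have hk := hs.kpos
  obtain ⟨hinj, hcl, hval⟩ := h2 k X Y L T g hk hl
  set B : Finset ℝ := (Finset.range (k+1)).biUnion (PB k X L T) with hB
  have hBm : ∀ τ ∈ B, ∃ j ≤ k, τ ∈ PB k X L T j := by
    intro τ hτ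
    rw [hB, Finset.mem_biUnion] at hτ
    obtain ⟨j, hj, hτ⟩ := hτ
    exact ⟨j, by rw [Finset.mem_range] at hj; omega, hτ⟩
  have hPB : ∀ j ≤ k, ∀ τ ∈ PB k X L T j, τ ∈ B := by
    intro j hj τ hτ
    rw [hB, Finset.mem_biUnion]
    exact ⟨j, Finset.mem_range.mpr (by omega), hτ⟩
  have hjB : ∀ j ≤ k, (j:ℝ) ∈ B := by
    intro j hj
    apply hPB j hj
    unfold PB
    simp
  have hrange : ∀ τ ∈ B, 0 ≤ τ ∧ τ < k + 1 := by
    intro τ hτ
    obtain ⟨j, hj, hτ⟩ := hBm τ hτ
    have h6 := PB_mem hτ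
    have h7 : (0:ℝ) ≤ j := Nat.cast_nonneg j
    have h8 : (j:ℝ) ≤ k := by exact_mod_cast hj
    constructor <;> linarith [h6.1, h6.2]
  have hfilt : ∀ j ≤ k, B.filter (fun τ => (j:ℝ) ≤ τ ∧ τ < j + 1) ⊆ PB k X L T j := by
    intro j hj τ hτ
    rw [Finset.mem_filter] at hτ
    obtain ⟨j', hj', hτ'⟩ := hBm τ hτ.1
    have h6 := PB_mem hτ'
    have h7 : j = j' := by
      have a1 : (j:ℝ) < j' + 1 := by linarith [hτ.2.1, h6.2]
      have a2 : (j':ℝ) < j + 1 := by linarith [hτ.2.2, h6.1]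
      have a3 : j < j' + 1 := by exact_mod_cast a1
      have a4 : j' < j + 1 := by exact_mod_cast a2
      omega
    rw [h7]
    exact hτ'
  have hcard : ∀ j ≤ k, (B.filter (fun τ => (j:ℝ) ≤ τ ∧ τ < j + 1)).card ≤ cnt n k i j := by
    intro j hj
    refine (Finset.card_le_card (hfilt j hj)).trans ?_
    have h6 : (PB k X L T j).card ≤ 2 * S + 2 := PB_card.trans (by omega)
    by_cases h0 : j = 0
    · subst h0
      have := hs.first
      unfold cnt
      rw [if_pos rfl]
      omega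
    · by_cases hjk : j = k
      · have := hs.last
        unfold cnt
        rw [if_neg h0, if_neg (by omega), if_pos hjk]
        omega
      · unfold cnt
        rw [if_neg h0, if_pos (by omega)]
        by_cases hst : st j = st (j+1)
        · have h7 := PB_card' hk hl (j := j) (by omega) (by omega) (hT j (by omega) (by omega) hst)
          have := hs.gap j (by omega) (by omega)
          omega
        · have := hs.gap' j (by omega) (by omega) hst
          omega
  obtain ⟨θ, hθ0, hθm, hθn, hθj, hθB⟩ := h5 k (cnt n k i) B hjB hrange hcard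
  rw [sum_cnt_all hs] at hθm hθn hθB
  have hmono : ∀ a b : ℕ, a < b → b ≤ n → θ a < θ b := by
    intro a b hab
    induction b, (Nat.succ_le_of_lt hab) using Nat.le_induction with
    | base => intro hb; exact hθm a (by omega)
    | succ b hb ih =>
      intro hbn
      exact (ih (by omega) (by omega)).trans (hθm b (by omega))
  have hmono' : ∀ a b : ℕ, a ≤ b → b ≤ n → θ a ≤ θ b := by
    intro a b hab hb
    rcases Nat.eq_or_lt_of_le hab with h | h
    · rw [h]
    · exact (hmono a b h hb).le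
  have hbrk : ∀ τ, Brk k X L T τ → τ ∈ B := by
    rintro τ ⟨j, hj, h6⟩
    apply hPB j hj
    unfold PB
    rw [Finset.mem_union, Finset.mem_filter, Finset.mem_insert, Finset.mem_singleton]
    rcases h6 with h6 | h6 | ⟨h6, h7, h8⟩
    · exact Or.inl (Or.inl h6)
    · exact Or.inl (Or.inr h6)
    · refine Or.inr ⟨?_, h6, h7⟩
      rw [Finset.mem_image]
      refine ⟨_, h8, ?_⟩
      have hd := XX_ne hk hl hj
      field_simp
      ring
  have hn2 : 2 ≤ n := by have := hs.last; omega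
  refine ⟨fun t => gma k X L g (θ t), ?_, ?_⟩
  · refine h4 n ((k:ℝ)+1) (gma k X L g) θ hn2 hθ0 hθm hθn hcl hinj ?_
    intro t ht l hl0 hl1
    refine h3 k X Y L T g hk hl (θ t) (θ (t+1)) ?_ (hθm t ht) ?_ ?_ l hl0 hl1
    · rw [← hθ0]
      exact hmono' 0 t (by omega) (by omega)
    · rw [← hθn]
      exact hmono' (t+1) n (by omega) le_rfl
    · intro τ hτ1 hτ2 hb
      obtain ⟨t', ht', he⟩ := hθB τ (hbrk τ hb)
      rw [← he] at hτ1 hτ2
      have a1 : t < t' := by
        by_contra hc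
        exact absurd (hmono' t' t (by omega) (by omega)) (not_le.mpr hτ1)
      have a2 : t' < t + 1 := by
        by_contra hc
        exact absurd (hmono' (t+1) t' (by omega) (by omega)) (not_le.mpr hτ2)
      omega
  · intro j hj hjk
    have h6 := hθj j hjk
    rw [sum_cnt hs j hj hjk] at h6
    simp only
    rw [h6]
    exact hval j hj hjk

end Pool.Agent.H172R2.UT
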