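import Pool.Agent.H172R2.UT.Defs

/-!
Lower bound `fix(C_n) ≥ c n^{2/3}` (Cibulka's theorem, known; included so that the hand-in
determines the order of growth).  Exact statements of the tasks (table `h172v_tasks`).
-/

open Classical

namespace Pool.Agent.H172R2.UT

/-- LMAIN -/
def S_LMAIN : Prop := ∃ c : ℝ, 0 < c ∧ ∀ n : ℕ, 3 ≤ n →
  c * (n : ℝ) ^ (2/3 : ℝ) ≤ (fixGraph (SimpleGraph.cycleGraph n) : ℝ)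

/-- LFIN -/
def S_LFIN : Prop := ∃ c : ℝ, 0 < c ∧ ∀ n : ℕ, 3 ≤ n → ∀ p : ℕ → ℝ × ℝ,
  (∀ i < n, ∀ j < n, p i = p j → i = j) →
  ∃ (q : ℕ → ℝ × ℝ) (S : Finset ℕ), CFN n q ∧ S ⊆ Finset.range n ∧ (∀ i ∈ S, q i = p i) ∧
    c * (n : ℝ) ^ (2/3 : ℝ) ≤ (S.card : ℝ)

/-- The combinatorial data of a layered drawing: fixed indices `i 1 < ... < i k`, abscissas
`X j`, ordinates `Y j`, strips `st j < S`. -/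
structure Strip (n S k : ℕ) (i : ℕ → ℕ) (X Y : ℕ → ℝ) (st : ℕ → ℕ) : Prop where
  kpos : 1 ≤ k
  lt : ∀ j, 1 ≤ j → j ≤ k → st j < S
  xmono : ∀ j j', 1 ≤ j → j ≤ k → 1 ≤ j' → j' ≤ k → st j < st j' → X j < X j'
  ymono : ∀ j j', 1 ≤ j → j < j' → j' ≤ k → st j = st j' → Y j < Y j'
  xne : ∀ j j', 1 ≤ j → j < j' → j' ≤ k → X j ≠ X j'
  first : 2 * S + 3 ≤ i 1
  last : i k + 2 * S + 3 ≤ n
  gap : ∀ j, 1 ≤ j → j < k → i j + 2 ≤ i (j+1)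
  gap' : ∀ j, 1 ≤ j → j < k → st j ≠ st (j+1) → i j + 2 * S + 3 ≤ i (j+1)

/-- LDRW: the layered drawing -/
def S_LDRW : Prop := ∀ (n S k : ℕ) (i : ℕ → ℕ) (X Y : ℕ → ℝ) (st : ℕ → ℕ),
  Strip n S k i X Y st → ∃ q : ℕ → ℝ × ℝ, CFN n q ∧ ∀ j, 1 ≤ j → j ≤ k → q (i j) = (X j, Y j)

/-- layers: `g j` is the height function of time `j`; `T` the common set of breakpoints -/
structure Lay (k : ℕ) (X Y : ℕ → ℝ) (L : ℝ) (T : Finset ℝ) (g : ℕ → ℝ → ℝ) : Prop where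
  mono : ∀ j x, g j x < g (j+1) x
  val : ∀ j, 1 ≤ j → j ≤ k → g j (X j) = Y j
  aff : ∀ j a b, a ≤ b → (∀ t ∈ T, ¬ (a < t ∧ t < b)) → ∀ l : ℝ, 0 ≤ l → l ≤ 1 →
    g j ((1 - l) * a + l * b) = (1 - l) * g j a + l * g j b
  left : ∀ j, 1 ≤ j → j ≤ k → L < X j
  ne : ∀ j, 1 ≤ j → j < k → X j ≠ X (j+1)

/-- LEXT: extension of a strictly increasing function from a finite set -/
def S_LEXT : Prop := ∀ (J : Finset ℕ) (f : ℕ → ℝ), (∀ a ∈ J, ∀ b ∈ J, a < b → f a < f b) →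
  ∃ h : ℕ → ℝ, StrictMono h ∧ ∀ a ∈ J, h a = f a

/-- LLAY: existence of layers -/
def S_LLAY : Prop := ∀ (n S k : ℕ) (i : ℕ → ℕ) (X Y : ℕ → ℝ) (st : ℕ → ℕ),
  Strip n S k i X Y st → ∃ (L : ℝ) (T : Finset ℝ) (g : ℕ → ℝ → ℝ), Lay k X Y L T g ∧
    T.card ≤ 2 * S ∧
    (∀ j, 1 ≤ j → j < k → st j = st (j+1) →
      ∀ t ∈ T, ¬ (min (X j) (X (j+1)) < t ∧ t < max (X j) (X (j+1))))

/-- the abscissas including the virtual first and last one -/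
noncomputable def XX (k : ℕ) (X : ℕ → ℝ) (L : ℝ) (j : ℕ) : ℝ := if 1 ≤ j ∧ j ≤ k then X j else L

/-- the closed curve on `[0, k+1]`: on `[j, j+1/2]` along the graph of `g j` from `XX j` to
`XX (j+1)`, on `[j+1/2, j+1]` vertically up to the graph of `g (j+1)` (down to `g 0` for `j = k`) -/
noncomputable def gma (k : ℕ) (X : ℕ → ℝ) (L : ℝ) (g : ℕ → ℝ → ℝ) (τ : ℝ) : ℝ × ℝ :=
  if (k : ℝ) + 1 ≤ τ then (L, g 0 L)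
  else if τ - ⌊τ⌋₊ ≤ 1/2 then
    (XX k X L ⌊τ⌋₊ + 2 * (τ - ⌊τ⌋₊) * (XX k X L (⌊τ⌋₊ + 1) - XX k X L ⌊τ⌋₊),
     g ⌊τ⌋₊ (XX k X L ⌊τ⌋₊ + 2 * (τ - ⌊τ⌋₊) * (XX k X L (⌊τ⌋₊ + 1) - XX k X L ⌊τ⌋₊)))
  else
    (XX k X L (⌊τ⌋₊ + 1),
     (2 - 2 * (τ - ⌊τ⌋₊)) * g ⌊τ⌋₊ (XX k X L (⌊τ⌋₊ + 1)) +
     (2 * (τ - ⌊τ⌋₊) - 1) *
       (if ⌊τ⌋₊ = k then g 0 L else g (⌊τ⌋₊ + 1) (XX k X L (⌊τ⌋₊ + 1))))

/-- LGAM: the curve is simple, closed, and passes through the fixed points -/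
def S_LGAM : Prop := ∀ (k : ℕ) (X Y : ℕ → ℝ) (L : ℝ) (T : Finset ℝ) (g : ℕ → ℝ → ℝ), 1 ≤ k →
  Lay k X Y L T g →
  Set.InjOn (gma k X L g) (Set.Ico (0:ℝ) (k + 1)) ∧ gma k X L g (k + 1) = gma k X L g 0 ∧
  ∀ j : ℕ, 1 ≤ j → j ≤ k → gma k X L g j = (X j, Y j)

/-- break times of the curve -/
def Brk (k : ℕ) (X : ℕ → ℝ) (L : ℝ) (T : Finset ℝ) (τ : ℝ) : Prop :=
  ∃ j : ℕ, j ≤ k ∧ (τ = j ∨ τ = j + 1/2 ∨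
    ((j : ℝ) < τ ∧ τ < j + 1/2 ∧ XX k X L j + 2 * (τ - j) * (XX k X L (j+1) - XX k X L j) ∈ T))

/-- LAFF: the curve is affine between break times -/
def S_LAFF : Prop := ∀ (k : ℕ) (X Y : ℕ → ℝ) (L : ℝ) (T : Finset ℝ) (g : ℕ → ℝ → ℝ), 1 ≤ k →
  Lay k X Y L T g → ∀ a b : ℝ, 0 ≤ a → a < b → b ≤ k + 1 →
  (∀ τ, a < τ → τ < b → ¬ Brk k X L T τ) → ∀ l : ℝ, 0 ≤ l → l ≤ 1 →
  gma k X L g ((1 - l) * a + l * b) = (1 - l) • gma k X L g a + l • gma k X L g b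

/-- LTIM: vertex times give a crossing-free polygon -/
def S_LTIM : Prop := ∀ (n : ℕ) (K : ℝ) (γ : ℝ → ℝ × ℝ) (θ : ℕ → ℝ), 2 ≤ n → θ 0 = 0 →
  (∀ t < n, θ t < θ (t+1)) → θ n = K → γ K = γ 0 → Set.InjOn γ (Set.Ico (0:ℝ) K) →
  (∀ t < n, ∀ l : ℝ, 0 ≤ l → l ≤ 1 →
    γ ((1 - l) * θ t + l * θ (t+1)) = (1 - l) • γ (θ t) + l • γ (θ (t+1))) →
  CFN n (fun t => γ (θ t))

/-- LSUP: choice of the vertex times: `c j` times in `[j, j+1)`, containing the finite set `B` -/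
def S_LSUP : Prop := ∀ (k : ℕ) (c : ℕ → ℕ) (B : Finset ℝ), (∀ j ≤ k, (j : ℝ) ∈ B) →
  (∀ τ ∈ B, 0 ≤ τ ∧ τ < k + 1) →
  (∀ j ≤ k, (B.filter (fun τ => (j : ℝ) ≤ τ ∧ τ < j + 1)).card ≤ c j) →
  ∃ θ : ℕ → ℝ, θ 0 = 0 ∧ (∀ t < ∑ j ∈ Finset.range (k+1), c j, θ t < θ (t+1)) ∧
    θ (∑ j ∈ Finset.range (k+1), c j) = k + 1 ∧
    (∀ j ≤ k, θ (∑ l ∈ Finset.range j, c l) = j) ∧
    (∀ τ ∈ B, ∃ t < ∑ j ∈ Finset.range (k+1), c j, θ t = τ)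

/-- LSEL: selection of the fixed vertices -/
def S_LSEL : Prop := ∃ (c : ℝ) (N₀ : ℕ), 0 < c ∧ ∀ n : ℕ, N₀ ≤ n → ∀ x y : ℕ → ℝ,
  (∀ i < n, ∀ j < n, x i = x j → i = j) → (∀ i < n, ∀ j < n, y i = y j → i = j) →
  ∃ (S k : ℕ) (i st : ℕ → ℕ) (σ : ℝ), (σ = 1 ∨ σ = -1) ∧ c * (n : ℝ) ^ (2/3 : ℝ) ≤ k ∧
    Strip n S k i (fun j => x (i j)) (fun j => σ * y (i j)) st

/-- LGRE: greedy choice of monotone subsequences, every block used by one strip only -/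
def S_LGRE : Prop := ∀ (C : Finset ℕ) (blk st : ℕ → ℕ) (y : ℕ → ℝ) (h w S : ℕ),
  (∀ a ∈ C, ∀ b ∈ C, y a = y b → a = b) →
  (∀ b, (C.filter (fun a => blk a = b)).card ≤ h) →
  (∀ s, (C.filter (fun a => st a = s)).card ≤ w) → (∀ a ∈ C, st a < S) →
  ∃ (σ : ℝ) (Sel : Finset ℕ), (σ = 1 ∨ σ = -1) ∧ Sel ⊆ C ∧
    (∀ a ∈ Sel, ∀ b ∈ Sel, blk a = blk b → st a = st b) ∧
    (∀ a ∈ Sel, ∀ b ∈ Sel, a < b → st a = st b → σ * y a < σ * y b) ∧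
    (C.card : ℝ) ≤ 2 * (Sel.card : ℝ) * (Real.sqrt w + h)

/-- LSTR: strips of almost equal size -/
def S_LSTR : Prop := ∀ (C : Finset ℕ) (x : ℕ → ℝ) (S : ℕ), 1 ≤ S →
  (∀ a ∈ C, ∀ b ∈ C, x a = x b → a = b) →
  ∃ st : ℕ → ℕ, (∀ a ∈ C, st a < S) ∧
    (∀ s, (C.filter (fun a => st a = s)).card ≤ C.card / S + 1) ∧
    (∀ a ∈ C, ∀ b ∈ C, st a < st b → x a < x b)

/-- LGEN: generic position by a linear map -/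
def S_LGEN : Prop := ∀ (n : ℕ) (p : ℕ → ℝ × ℝ), (∀ i < n, ∀ j < n, p i = p j → i = j) →
  ∃ e : (ℝ × ℝ) ≃ₗ[ℝ] (ℝ × ℝ), (∀ i < n, ∀ j < n, (e (p i)).1 = (e (p j)).1 → i = j) ∧
    (∀ i < n, ∀ j < n, (e (p i)).2 = (e (p j)).2 → i = j)

/-- LINV: invariance of `CFN` -/
def S_LINV : Prop := (∀ (n : ℕ) (q : ℕ → ℝ × ℝ) (e : (ℝ × ℝ) ≃ₗ[ℝ] (ℝ × ℝ)), CFN n q →
    CFN n (fun i => e (q i))) ∧
  (∀ (n : ℕ) (q : ℕ → ℝ × ℝ) (v : ℝ × ℝ), CFN n q → CFN n (fun i => q i + v)) ∧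
  (∀ n : ℕ, 3 ≤ n → ∃ q : ℕ → ℝ × ℝ, CFN n q)

end Pool.Agent.H172R2.UT
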