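import Pool.Agent.H172R2.UT.LDefs

/-! LEXT: extension of a strictly increasing function from a finite set of naturals. -/

open Classical

namespace Pool.Agent.H172R2.UT

theorem LEXT_ok : S_LEXT := by
  intro J
  induction J using Finset.induction_on_max with
  | empty =>
    intro f _
    exact ⟨fun a => (a : ℝ), Nat.strictMono_cast, fun a ha => absurd ha (Finset.notMem_empty a)⟩
  | insert M J hM ih =>
    intro f hf
    rcases J.eq_empty_or_nonempty with hJ | hJ
    · subst hJ
      refine ⟨fun a => f M + ((a : ℝ) - M), ?_, ?_⟩
      · refine strictMono_nat_of_lt_succ fun a => ?_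
        push_cast
        linarith
      · intro a ha
        have : a = M := by simpa using ha
        subst this
        simp
    · obtain ⟨h0, hh0, hv⟩ := ih f fun a ha b hb hab =>
        hf a (Finset.mem_insert_of_mem ha) b (Finset.mem_insert_of_mem hb) hab
      set m := J.max' hJ with hm
      have hmJ : m ∈ J := J.max'_mem hJ
      have hmM : m < M := hM m hmJ
      have hlt : f m < f M := hf m (Finset.mem_insert_of_mem hmJ) M (Finset.mem_insert_self _ _) hmM
      have hMm : (0 : ℝ) < (M : ℝ) - m := by
        have : (m : ℝ) < M := by exact_mod_cast hmM
        linarith
      have hs : 0 < (f M - f m) / ((M : ℝ) - m) := div_pos (by linarith) hMm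
      refine ⟨fun a => if a ≤ m then h0 a else f m + (f M - f m) / ((M : ℝ) - m) * ((a : ℝ) - m),
        ?_, ?_⟩
      · refine strictMono_nat_of_lt_succ fun a => ?_
        by_cases h1 : a + 1 ≤ m
        · have h2 : a ≤ m := by omega
          simp only [if_pos h1, if_pos h2]
          exact hh0 (Nat.lt_succ_self a)
        · by_cases h2 : a ≤ m
          · have h3 : a = m := by omega
            simp only [if_neg h1, if_pos h2]
            rw [h3, hv m hmJ]
            push_cast
            nlinarith
          · simp only [if_neg h1, if_neg h2]
            push_cast
            nlinarith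
      · intro a ha
        rcases Finset.mem_insert.1 ha with h1 | h1
        · subst h1
          have h2 : ¬ a ≤ m := by omega
          simp only [if_neg h2]
          rw [div_mul_cancel₀ _ hMm.ne']
          ring
        · have h2 : a ≤ m := J.le_max' a h1
          simp only [if_pos h2]
          exact hv a h1

end Pool.Agent.H172R2.UT
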