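import Pool.Agent.H172R2.UT.LDefs

open Classical

namespace Pool.Agent.H172R2.UT

namespace LFINaux

/-- reflection -/
noncomputable def refl (σ : ℝ) (h : σ * σ = 1) : (ℝ × ℝ) ≃ₗ[ℝ] (ℝ × ℝ) :=
  LinearEquiv.ofInvolutive
    { toFun := fun z => (z.1, σ * z.2)
      map_add' := by
        intro a b
        ext
        · rfl
        · change σ * (a.2 + b.2) = σ * a.2 + σ * b.2
          ring
      map_smul' := by
        intro a b
        ext
        · rfl
        · change σ * (a * b.2) = a * (σ * b.2)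
          ring }
    (by
      intro z
      change (z.1, σ * (σ * z.2)) = z
      rw [← mul_assoc, h, one_mul])

theorem refl_apply (σ : ℝ) (h : σ * σ = 1) (z : ℝ × ℝ) : refl σ h z = (z.1, σ * z.2) := rfl

theorem lt_of_gap {n S k : ℕ} {i : ℕ → ℕ} {X Y : ℕ → ℝ} {st : ℕ → ℕ}
    (h : Strip n S k i X Y st) : ∀ d j, 1 ≤ j → j + d + 1 ≤ k → i j < i (j + d + 1) := by
  intro d
  induction d with
  | zero =>
    intro j hj hjk
    have := h.gap j hj (by omega)
    simp only [add_zero] at *
    omega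
  | succ d ih =>
    intro j hj hjk
    have h1 := ih j hj (by omega)
    have h2 := h.gap (j + d + 1) (by omega) (by omega)
    have e : j + (d + 1) + 1 = j + d + 1 + 1 := by ring
    rw [e]
    omega

theorem lt_of_lt {n S k : ℕ} {i : ℕ → ℕ} {X Y : ℕ → ℝ} {st : ℕ → ℕ}
    (h : Strip n S k i X Y st) {j j' : ℕ} (hj : 1 ≤ j) (hjj : j < j') (hk : j' ≤ k) :
    i j < i j' := by
  obtain ⟨d, rfl⟩ := Nat.exists_eq_add_of_lt hjj
  exact lt_of_gap h d j hj hk

end LFINaux

open LFINaux in
theorem LFIN_ok (h1 : S_LDRW) (h2 : S_LSEL) (h3 : S_LGEN) (h4 : S_LINV) : S_LFIN := by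
  obtain ⟨c0, N0, hc0, hsel⟩ := h2
  obtain ⟨hI1, hI2, hI3⟩ := h4
  refine ⟨min c0 (((N0 : ℝ) + 1) ^ (-(2/3 : ℝ))), lt_min hc0 (by positivity), ?_⟩
  intro n hn p hp
  by_cases hN : N0 ≤ n
  · obtain ⟨e, hex, hey⟩ := h3 n p hp
    obtain ⟨S, k, i, st, σ, hσ, hk, hst⟩ :=
      hsel n hN (fun i => (e (p i)).1) (fun i => (e (p i)).2) hex hey
    obtain ⟨q', hq', hq'v⟩ := h1 n S k i _ _ st hst
    have hσ1 : σ * σ = 1 := by
      rcases hσ with rfl | rfl <;> norm_num
    have hq2 := hI1 n _ e.symm (hI1 n q' (refl σ hσ1) hq')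
    have hinj : Set.InjOn i (Finset.Icc 1 k : Finset ℕ) := by
      intro a ha b hb hab
      rw [Finset.coe_Icc, Set.mem_Icc] at ha hb
      rcases lt_trichotomy a b with h | h | h
      · exact absurd hab (lt_of_lt hst ha.1 h hb.2).ne
      · exact h
      · exact absurd hab (lt_of_lt hst hb.1 h ha.2).ne'
    refine ⟨fun t => e.symm (refl σ hσ1 (q' t)), (Finset.Icc 1 k).image i, hq2, ?_, ?_, ?_⟩
    · intro a ha
      rw [Finset.mem_image] at ha
      obtain ⟨j, hj, rfl⟩ := ha
      rw [Finset.mem_Icc] at hj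
      rw [Finset.mem_range]
      have h5 : i j ≤ i k := by
        rcases eq_or_lt_of_le hj.2 with h | h
        · rw [h]
        · exact (lt_of_lt hst hj.1 h le_rfl).le
      have := hst.last
      omega
    · intro a ha
      rw [Finset.mem_image] at ha
      obtain ⟨j, hj, rfl⟩ := ha
      rw [Finset.mem_Icc] at hj
      have h5 := hq'v j hj.1 hj.2
      change e.symm (refl σ hσ1 (q' (i j))) = p (i j)
      rw [h5, refl_apply]
      simp only
      rw [← mul_assoc, hσ1, one_mul, Prod.mk.eta, LinearEquiv.symm_apply_apply]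
    · rw [Finset.card_image_of_injOn hinj, Nat.card_Icc, Nat.add_sub_cancel]
      refine le_trans ?_ hk
      exact mul_le_mul_of_nonneg_right (min_le_left _ _) (by positivity)
  · obtain ⟨q, hq⟩ := hI3 n hn
    refine ⟨fun i => q i + (p 0 - q 0), {0}, hI2 n q _ hq, ?_, ?_, ?_⟩
    · intro a ha
      rw [Finset.mem_singleton] at ha
      rw [Finset.mem_range, ha]
      omega
    · intro a ha
      rw [Finset.mem_singleton] at ha
      rw [ha]
      change q 0 + (p 0 - q 0) = p 0
      abel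
    · rw [Finset.card_singleton, Nat.cast_one]
      have h5 : (n : ℝ) ≤ (N0 : ℝ) + 1 := by
        have : (n : ℝ) < N0 := by exact_mod_cast not_le.1 hN
        linarith
      calc min c0 (((N0 : ℝ) + 1) ^ (-(2/3 : ℝ))) * (n : ℝ) ^ (2/3 : ℝ)
          ≤ ((N0 : ℝ) + 1) ^ (-(2/3 : ℝ)) * ((N0 : ℝ) + 1) ^ (2/3 : ℝ) := by
            apply mul_le_mul (min_le_right _ _) (Real.rpow_le_rpow (by positivity) h5 (by norm_num))
              (by positivity) (by positivity)
        _ = 1 := by
            rw [← Real.rpow_add (by positivity)]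
            norm_num

end Pool.Agent.H172R2.UT
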