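import Pool.Agent.H172R2.UT.LDefs

set_option autoImplicit false

open Classical

namespace Pool.Agent.H172R2.UT

namespace LGAMaux

variable {k : ℕ} {X Y : ℕ → ℝ} {L : ℝ} {T : Finset ℝ} {g : ℕ → ℝ → ℝ}

lemma gmono (h : Lay k X Y L T g) (x : ℝ) : StrictMono (fun j => g j x) :=
  strictMono_nat_of_lt_succ fun j => h.mono j x

lemma XX_in {j : ℕ} (h1 : 1 ≤ j) (h2 : j ≤ k) : XX k X L j = X j := by
  unfold XX; rw [if_pos ⟨h1, h2⟩]

lemma XX_zero : XX k X L 0 = L := by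
  unfold XX; rw [if_neg]; omega

lemma XX_last : XX k X L (k + 1) = L := by
  unfold XX; rw [if_neg]; omega

lemma XX_gt (h : Lay k X Y L T g) {j : ℕ} (h1 : 1 ≤ j) (h2 : j ≤ k) : L < XX k X L j := by
  rw [XX_in h1 h2]; exact h.left j h1 h2

lemma XX_ne (hk : 1 ≤ k) (h : Lay k X Y L T g) {j : ℕ} (h2 : j ≤ k) :
    XX k X L (j + 1) - XX k X L j ≠ 0 := by
  rcases Nat.eq_zero_or_pos j with rfl | hj
  · rw [XX_zero]
    have := XX_gt h (j := 0 + 1) (by omega) (by omega)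
    linarith
  · rcases h2.lt_or_eq with h3 | rfl
    · rw [XX_in (by omega) (by omega), XX_in hj h2]
      have := h.ne j hj h3
      intro e
      exact this (by linarith)
    · rw [XX_last]
      have := XX_gt h (j := j) hj le_rfl
      linarith

/-- the three kinds of points -/
def HH (k : ℕ) (X : ℕ → ℝ) (L : ℝ) (g : ℕ → ℝ → ℝ) (j : ℕ) (r : ℝ) (p : ℝ × ℝ) : Prop :=
  j ≤ k ∧ 0 ≤ r ∧ r ≤ 1 / 2 ∧ p.1 = XX k X L j + 2 * r * (XX k X L (j + 1) - XX k X L j) ∧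
    p.2 = g j p.1

def VV (k : ℕ) (X : ℕ → ℝ) (L : ℝ) (g : ℕ → ℝ → ℝ) (j : ℕ) (r : ℝ) (p : ℝ × ℝ) : Prop :=
  j < k ∧ 1 / 2 < r ∧ r < 1 ∧ p.1 = XX k X L (j + 1) ∧
    p.2 = (2 - 2 * r) * g j p.1 + (2 * r - 1) * g (j + 1) p.1

def WW (k : ℕ) (L : ℝ) (g : ℕ → ℝ → ℝ) (j : ℕ) (r : ℝ) (p : ℝ × ℝ) : Prop :=
  j = k ∧ 1 / 2 < r ∧ r < 1 ∧ p.1 = L ∧ p.2 = (2 - 2 * r) * g k L + (2 * r - 1) * g 0 L

lemma cls {τ : ℝ} (h0 : 0 ≤ τ) (h1 : τ < k + 1) :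
    HH k X L g ⌊τ⌋₊ (τ - ⌊τ⌋₊) (gma k X L g τ) ∨ VV k X L g ⌊τ⌋₊ (τ - ⌊τ⌋₊) (gma k X L g τ) ∨
    WW k L g ⌊τ⌋₊ (τ - ⌊τ⌋₊) (gma k X L g τ) := by
  have hf : (⌊τ⌋₊ : ℝ) ≤ τ := Nat.floor_le h0
  have hf' : τ < ⌊τ⌋₊ + 1 := Nat.lt_floor_add_one τ
  have hj : ⌊τ⌋₊ ≤ k := by
    have : ⌊τ⌋₊ < k + 1 := (Nat.floor_lt h0).2 (by push_cast; exact h1)
    omega
  have hn : ¬ ((k : ℝ) + 1 ≤ τ) := not_le.2 h1
  unfold gma
  rw [if_neg hn]
  by_cases hr : τ - ⌊τ⌋₊ ≤ 1 / 2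
  · left
    rw [if_pos hr]
    exact ⟨hj, by linarith, hr, rfl, rfl⟩
  · right
    rw [if_neg hr]
    push Not at hr
    rcases hj.lt_or_eq with hlt | heq
    · left
      rw [if_neg hlt.ne]
      exact ⟨hlt, hr, by linarith, rfl, rfl⟩
    · right
      rw [if_pos heq]
      refine ⟨heq, hr, by linarith, ?_, ?_⟩
      · show XX k X L (⌊τ⌋₊ + 1) = L
        rw [heq]; exact XX_last
      · show (2 - 2 * (τ - ⌊τ⌋₊)) * g ⌊τ⌋₊ (XX k X L (⌊τ⌋₊ + 1)) +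
          (2 * (τ - ⌊τ⌋₊) - 1) * g 0 L = _
        have : XX k X L (⌊τ⌋₊ + 1) = L := by rw [heq]; exact XX_last
        rw [this]
        congr 3

lemma hh (hk : 1 ≤ k) (h : Lay k X Y L T g) {j j' : ℕ} {r r' : ℝ} {p : ℝ × ℝ}
    (h1 : HH k X L g j r p) (h2 : HH k X L g j' r' p) : (j : ℝ) + r = j' + r' := by
  obtain ⟨a1, a2, a3, a4, a5⟩ := h1
  obtain ⟨b1, b2, b3, b4, b5⟩ := h2
  have hj : j = j' := (gmono h p.1).injective (show g j p.1 = g j' p.1 by rw [← a5, ← b5])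
  subst hj
  have hd := XX_ne hk h a1
  have he : (2 * r - 2 * r') * (XX k X L (j + 1) - XX k X L j) = 0 := by linarith
  rcases mul_eq_zero.1 he with h3 | h3
  · linarith
  · exact absurd h3 hd

lemma hv (h : Lay k X Y L T g) {j j' : ℕ} {r r' : ℝ} {p : ℝ × ℝ}
    (h1 : HH k X L g j r p) (h2 : VV k X L g j' r' p) : False := by
  obtain ⟨a1, a2, a3, a4, a5⟩ := h1
  obtain ⟨b1, b2, b3, b4, b5⟩ := h2
  have hm := h.mono j' p.1
  have c1 : g j' p.1 < g j p.1 := by rw [← a5, b5]; nlinarith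
  have c2 : g j p.1 < g (j' + 1) p.1 := by rw [← a5, b5]; nlinarith
  have d1 := (gmono h p.1).lt_iff_lt.1 c1
  have d2 := (gmono h p.1).lt_iff_lt.1 c2
  omega

lemma hw (h : Lay k X Y L T g) (hk : 1 ≤ k) {j j' : ℕ} {r r' : ℝ} {p : ℝ × ℝ}
    (h1 : HH k X L g j r p) (h2 : WW k L g j' r' p) : False := by
  obtain ⟨a1, a2, a3, a4, a5⟩ := h1
  obtain ⟨b1, b2, b3, b4, b5⟩ := h2
  have hm : g 0 L < g k L := gmono h L (show 0 < k by omega)
  have c1 : g 0 L < g j L := by rw [b4] at a5; rw [← a5, b5]; nlinarith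
  have c2 : g j L < g k L := by rw [b4] at a5; rw [← a5, b5]; nlinarith
  have d1 := (gmono h L).lt_iff_lt.1 c1
  have d2 := (gmono h L).lt_iff_lt.1 c2
  have e1 := XX_gt h (j := j) (by omega) (by omega)
  have e2 := XX_gt h (j := j + 1) (by omega) (by omega)
  rw [b4] at a4
  rcases a2.eq_or_lt with h0 | h0
  · rw [← h0] at a4
    linarith
  · nlinarith [mul_pos h0 (sub_pos.2 e2),
      mul_nonneg (show (0 : ℝ) ≤ 1 - 2 * r by linarith) (sub_pos.2 e1).le]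

lemma vv (h : Lay k X Y L T g) {j j' : ℕ} {r r' : ℝ} {p : ℝ × ℝ}
    (h1 : VV k X L g j r p) (h2 : VV k X L g j' r' p) : (j : ℝ) + r = j' + r' := by
  obtain ⟨a1, a2, a3, a4, a5⟩ := h1
  obtain ⟨b1, b2, b3, b4, b5⟩ := h2
  have hm := h.mono j p.1
  have hm' := h.mono j' p.1
  have l1 : g j p.1 < p.2 := by rw [a5]; nlinarith
  have l2 : p.2 < g (j + 1) p.1 := by rw [a5]; nlinarith
  have l3 : g j' p.1 < p.2 := by rw [b5]; nlinarith
  have l4 : p.2 < g (j' + 1) p.1 := by rw [b5]; nlinarith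
  have d1 := (gmono h p.1).lt_iff_lt.1 (l1.trans l4)
  have d2 := (gmono h p.1).lt_iff_lt.1 (l3.trans l2)
  have hj : j = j' := by omega
  subst hj
  have he : (2 * r - 2 * r') * (g (j + 1) p.1 - g j p.1) = 0 := by linarith
  rcases mul_eq_zero.1 he with h3 | h3
  · linarith
  · linarith

lemma vw (h : Lay k X Y L T g) {j j' : ℕ} {r r' : ℝ} {p : ℝ × ℝ}
    (h1 : VV k X L g j r p) (h2 : WW k L g j' r' p) : False := by
  obtain ⟨a1, a2, a3, a4, a5⟩ := h1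
  obtain ⟨b1, b2, b3, b4, b5⟩ := h2
  have e2 := XX_gt h (j := j + 1) (by omega) (by omega)
  linarith

lemma ww (h : Lay k X Y L T g) (hk : 1 ≤ k) {j j' : ℕ} {r r' : ℝ} {p : ℝ × ℝ}
    (h1 : WW k L g j r p) (h2 : WW k L g j' r' p) : (j : ℝ) + r = j' + r' := by
  obtain ⟨a1, a2, a3, a4, a5⟩ := h1
  obtain ⟨b1, b2, b3, b4, b5⟩ := h2
  have hm : g 0 L < g k L := gmono h L (show 0 < k by omega)
  have he : (2 * r - 2 * r') * (g k L - g 0 L) = 0 := by linarith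
  rw [a1, b1]
  rcases mul_eq_zero.1 he with h3 | h3
  · linarith
  · linarith

lemma val (h : Lay k X Y L T g) {j : ℕ} (hj : j ≤ k) :
    gma k X L g j = (XX k X L j, g j (XX k X L j)) := by
  have hn : ¬ ((k : ℝ) + 1 ≤ (j : ℝ)) := by
    have : (j : ℝ) ≤ k := by exact_mod_cast hj
    linarith
  unfold gma
  rw [if_neg hn, Nat.floor_natCast, sub_self, if_pos (by norm_num)]
  simp

end LGAMaux

open LGAMaux in
theorem LGAM_ok : S_LGAM := by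
  intro k X Y L T g hk h
  refine ⟨?_, ?_, ?_⟩
  · intro τ hτ τ' hτ' e
    have c1 := cls (X := X) (L := L) (g := g) hτ.1 hτ.2
    have c2 := cls (X := X) (L := L) (g := g) hτ'.1 hτ'.2
    rw [← e] at c2
    have key : (⌊τ⌋₊ : ℝ) + (τ - ⌊τ⌋₊) = ⌊τ'⌋₊ + (τ' - ⌊τ'⌋₊) := by
      rcases c1 with c1 | c1 | c1 <;> rcases c2 with c2 | c2 | c2
      · exact LGAMaux.hh hk h c1 c2
      · exact (hv h c1 c2).elim
      · exact (hw h hk c1 c2).elim
      · exact (hv h c2 c1).elim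
      · exact vv h c1 c2
      · exact (vw h c1 c2).elim
      · exact (hw h hk c2 c1).elim
      · exact (vw h c2 c1).elim
      · exact ww h hk c1 c2
    linarith
  · have h0 := val h (j := 0) (by omega)
    rw [Nat.cast_zero] at h0
    rw [h0, XX_zero]
    unfold gma
    rw [if_pos le_rfl]
  · intro j h1 h2
    rw [val h h2, XX_in h1 h2, h.val j h1 h2]

end Pool.Agent.H172R2.UT
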