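import Pool.Agent.H172R2.UT.LDefs

open Classical

namespace Pool.Agent.H172R2.UT

namespace LGENaux

/-- the linear map `(x,y) ↦ (x + t y, y - t x)` -/
noncomputable def rot (t : ℝ) : (ℝ × ℝ) ≃ₗ[ℝ] (ℝ × ℝ) where
  toFun v := (v.1 + t * v.2, v.2 - t * v.1)
  invFun v := ((v.1 - t * v.2) / (1 + t ^ 2), (v.2 + t * v.1) / (1 + t ^ 2))
  map_add' v w := by
    ext
    · simp; ring
    · simp; ring
  map_smul' c v := by
    ext
    · simp; ring
    · simp; ring
  left_inv v := by
    have h : (1 + t ^ 2 : ℝ) ≠ 0 := by positivity
    ext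
    · simp only
      field_simp
      ring
    · simp only
      field_simp
      ring
  right_inv v := by
    have h : (1 + t ^ 2 : ℝ) ≠ 0 := by positivity
    ext
    · simp only
      field_simp
      ring
    · simp only
      field_simp
      ring

end LGENaux

theorem LGEN_ok : S_LGEN := by
  intro n p hp
  set bad : Finset ℝ := (Finset.range n ×ˢ Finset.range n).image
      (fun ij => -((p ij.1).1 - (p ij.2).1) / ((p ij.1).2 - (p ij.2).2)) ∪
    (Finset.range n ×ˢ Finset.range n).image
      (fun ij => ((p ij.1).2 - (p ij.2).2) / ((p ij.1).1 - (p ij.2).1)) with hbad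
  obtain ⟨t, ht⟩ := Infinite.exists_notMem_finset bad
  refine ⟨LGENaux.rot t, ?_, ?_⟩
  · intro i hi j hj hij
    by_contra hne
    change (p i).1 + t * (p i).2 = (p j).1 + t * (p j).2 at hij
    by_cases hy : (p i).2 - (p j).2 = 0
    · have hy' : (p i).2 = (p j).2 := by linarith
      rw [hy'] at hij
      have hx' : (p i).1 = (p j).1 := by linarith
      exact hne (hp i hi j hj (Prod.ext hx' hy'))
    · apply ht
      rw [hbad, Finset.mem_union]
      left
      rw [Finset.mem_image]
      refine ⟨(i, j), by simp [hi, hj], ?_⟩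
      simp only
      rw [div_eq_iff hy]
      linarith
  · intro i hi j hj hij
    by_contra hne
    change (p i).2 - t * (p i).1 = (p j).2 - t * (p j).1 at hij
    by_cases hx : (p i).1 - (p j).1 = 0
    · have hx' : (p i).1 = (p j).1 := by linarith
      rw [hx'] at hij
      have hy' : (p i).2 = (p j).2 := by linarith
      exact hne (hp i hi j hj (Prod.ext hx' hy'))
    · apply ht
      rw [hbad, Finset.mem_union]
      right
      rw [Finset.mem_image]
      refine ⟨(i, j), by simp [hi, hj], ?_⟩
      simp only
      rw [div_eq_iff hx]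
      linarith

end Pool.Agent.H172R2.UT
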