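import Pool.Agent.H172R2.UT.LDefs

open Classical

namespace Pool.Agent.H172R2.UT

namespace LGREaux

/-- chains ending in `a` -/
noncomputable def fam (A : Finset ℕ) (R : ℕ → ℕ → Prop) (a : ℕ) : Finset (Finset ℕ) :=
  A.powerset.filter (fun T => a ∈ T ∧ (∀ b ∈ T, b ≤ a) ∧ (∀ b ∈ T, ∀ c ∈ T, b < c → R b c))

noncomputable def F (A : Finset ℕ) (R : ℕ → ℕ → Prop) (a : ℕ) : ℕ := (fam A R a).sup Finset.card

theorem single_mem (A : Finset ℕ) (R : ℕ → ℕ → Prop) (a : ℕ) (ha : a ∈ A) : {a} ∈ fam A R a := by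
  unfold fam
  rw [Finset.mem_filter, Finset.mem_powerset]
  refine ⟨by simpa using ha, by simp, by simp, ?_⟩
  intro b hb c hc hbc
  rw [Finset.mem_singleton] at hb hc
  omega

theorem F_pos (A : Finset ℕ) (R : ℕ → ℕ → Prop) (a : ℕ) (ha : a ∈ A) : 1 ≤ F A R a := by
  have h1 := Finset.le_sup (f := Finset.card) (single_mem A R a ha)
  rw [Finset.card_singleton] at h1
  exact h1

theorem F_att (A : Finset ℕ) (R : ℕ → ℕ → Prop) (a : ℕ) (ha : a ∈ A) :
    ∃ T ∈ fam A R a, F A R a = T.card :=
  Finset.exists_mem_eq_sup _ ⟨_, single_mem A R a ha⟩ _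

theorem F_lt (A : Finset ℕ) (R : ℕ → ℕ → Prop) (hR : ∀ a b c, R a b → R b c → R a c) (a b : ℕ)
    (ha : a ∈ A) (hb : b ∈ A) (hab : a < b) (h : R a b) : F A R a < F A R b := by
  obtain ⟨T, hT, hF⟩ := F_att A R a ha
  unfold fam at hT
  rw [Finset.mem_filter, Finset.mem_powerset] at hT
  obtain ⟨hTA, haT, hle, hch⟩ := hT
  have hbT : b ∉ T := fun h => by have := hle b h; omega
  have h1 : insert b T ∈ fam A R b := by
    unfold fam
    rw [Finset.mem_filter, Finset.mem_powerset]
    refine ⟨Finset.insert_subset hb hTA, Finset.mem_insert_self _ _, ?_, ?_⟩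
    · intro c hc
      rcases Finset.mem_insert.1 hc with h | h
      · exact h.le
      · have := hle c h; omega
    · intro c hc d hd hcd
      rcases Finset.mem_insert.1 hc with h1 | h1
      · rcases Finset.mem_insert.1 hd with h2 | h2
        · omega
        · have := hle d h2; omega
      · rcases Finset.mem_insert.1 hd with h2 | h2
        · subst h2
          rcases (hle c h1).lt_or_eq with h3 | h3
          · exact hR _ _ _ (hch c h1 a haT h3) h
          · rw [h3]; exact h
        · exact hch c h1 d h2 hcd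
  have h2 := Finset.le_sup (f := Finset.card) h1
  rw [Finset.card_insert_of_notMem hbT] at h2
  have h3 : T.card + 1 ≤ F A R b := h2
  omega

theorem ES (A : Finset ℕ) (y : ℕ → ℝ) (hinj : ∀ a ∈ A, ∀ b ∈ A, y a = y b → a = b) :
    ∃ M ⊆ A, A.card ≤ M.card ^ 2 ∧ ((∀ a ∈ M, ∀ b ∈ M, a < b → y a < y b) ∨
      (∀ a ∈ M, ∀ b ∈ M, a < b → y b < y a)) := by
  rcases A.eq_empty_or_nonempty with rfl | hne
  · exact ⟨∅, subset_rfl, by simp, Or.inl (by simp)⟩
  set R1 : ℕ → ℕ → Prop := fun a b => y a < y b with hR1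
  set R2 : ℕ → ℕ → Prop := fun a b => y b < y a with hR2
  have hT1 : ∀ a b c, R1 a b → R1 b c → R1 a c := fun a b c h1 h2 => lt_trans h1 h2
  have hT2 : ∀ a b c, R2 a b → R2 b c → R2 a c := fun a b c h1 h2 => lt_trans h2 h1
  obtain ⟨a1, ha1, hr⟩ := Finset.exists_mem_eq_sup A hne (F A R1)
  obtain ⟨a2, ha2, hq⟩ := Finset.exists_mem_eq_sup A hne (F A R2)
  have hmaps : ∀ a ∈ A, (F A R1 a, F A R2 a) ∈
      Finset.Icc 1 (A.sup (F A R1)) ×ˢ Finset.Icc 1 (A.sup (F A R2)) := by
    intro a ha
    rw [Finset.mem_product, Finset.mem_Icc, Finset.mem_Icc]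
    exact ⟨⟨F_pos A R1 a ha, Finset.le_sup (f := F A R1) ha⟩,
      ⟨F_pos A R2 a ha, Finset.le_sup (f := F A R2) ha⟩⟩
  have key : ∀ a ∈ A, ∀ b ∈ A, a < b → F A R1 a = F A R1 b → F A R2 a = F A R2 b → False := by
    intro a ha b hb hab h1 h2
    rcases lt_trichotomy (y a) (y b) with h | h | h
    · have := F_lt A R1 hT1 a b ha hb hab h
      omega
    · have := hinj a ha b hb h
      omega
    · have := F_lt A R2 hT2 a b ha hb hab h
      omega
  have hcard := Finset.card_le_card_of_injOn (fun a => (F A R1 a, F A R2 a)) hmaps (by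
    intro a ha b hb hab
    have h1 : F A R1 a = F A R1 b := (Prod.ext_iff.1 hab).1
    have h2 : F A R2 a = F A R2 b := (Prod.ext_iff.1 hab).2
    rcases lt_trichotomy a b with h | h | h
    · exact (key a ha b hb h h1 h2).elim
    · exact h
    · exact (key b hb a ha h h1.symm h2.symm).elim)
  rw [Finset.card_product, Nat.card_Icc, Nat.card_Icc, Nat.add_sub_cancel, Nat.add_sub_cancel,
    hr, hq] at hcard
  obtain ⟨T1, hT1f, hc1⟩ := F_att A R1 a1 ha1
  obtain ⟨T2, hT2f, hc2⟩ := F_att A R2 a2 ha2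
  unfold fam at hT1f hT2f
  rw [Finset.mem_filter, Finset.mem_powerset] at hT1f hT2f
  rcases le_total (F A R1 a1) (F A R2 a2) with h | h
  · refine ⟨T2, hT2f.1, ?_, Or.inr hT2f.2.2.2⟩
    rw [← hc2, sq]
    exact hcard.trans (Nat.mul_le_mul_right _ h)
  · refine ⟨T1, hT1f.1, ?_, Or.inl hT1f.2.2.2⟩
    rw [← hc1, sq]
    exact hcard.trans (Nat.mul_le_mul_left _ h)

/-- the invariant -/
structure Inv (C : Finset ℕ) (blk st : ℕ → ℕ) (y : ℕ → ℝ) (w s : ℕ) (I D : Finset ℕ) : Prop where
  subI : I ⊆ C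
  subD : D ⊆ C
  lt : ∀ a ∈ I ∪ D, st a < s
  bl : ∀ a ∈ I ∪ D, ∀ b ∈ I ∪ D, blk a = blk b → st a = st b
  mI : ∀ a ∈ I, ∀ b ∈ I, a < b → st a = st b → y a < y b
  mD : ∀ a ∈ D, ∀ b ∈ D, a < b → st a = st b → y b < y a
  cnt : ((C.filter (fun a => st a < s ∧ blk a ∉ (I ∪ D).image blk)).card : ℝ) ≤
    ((I.card : ℝ) + D.card) * Real.sqrt w

theorem step (C : Finset ℕ) (blk st : ℕ → ℕ) (y : ℕ → ℝ) (w : ℕ)
    (hinj : ∀ a ∈ C, ∀ b ∈ C, y a = y b → a = b)
    (hst : ∀ s, (C.filter (fun a => st a = s)).card ≤ w) (s : ℕ) (I D : Finset ℕ)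
    (h : Inv C blk st y w s I D) : ∃ I' D', Inv C blk st y w (s+1) I' D' := by
  set A : Finset ℕ := C.filter (fun a => st a = s ∧ blk a ∉ (I ∪ D).image blk) with hA
  obtain ⟨M, hMA, hcard, hM⟩ := ES A y (fun a ha b hb =>
    hinj a (Finset.mem_filter.1 ha).1 b (Finset.mem_filter.1 hb).1)
  have hMC : M ⊆ C := fun a ha => (Finset.mem_filter.1 (hMA ha)).1
  have hMs : ∀ a ∈ M, st a = s := fun a ha => (Finset.mem_filter.1 (hMA ha)).2.1
  have hMb : ∀ a ∈ M, blk a ∉ (I ∪ D).image blk := fun a ha => (Finset.mem_filter.1 (hMA ha)).2.2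
  have hAw : A.card ≤ w := by
    refine le_trans (Finset.card_le_card ?_) (hst s)
    intro a ha
    rw [hA, Finset.mem_filter] at ha
    exact Finset.mem_filter.2 ⟨ha.1, ha.2.1⟩
  have hAM : (A.card : ℝ) ≤ M.card * Real.sqrt w := by
    have h1 : (A.card : ℝ) = Real.sqrt A.card * Real.sqrt A.card :=
      (Real.mul_self_sqrt (Nat.cast_nonneg _)).symm
    have h2 : Real.sqrt A.card ≤ M.card := by
      apply Real.sqrt_le_iff.2
      exact ⟨Nat.cast_nonneg _, by exact_mod_cast hcard⟩
    have h3 : Real.sqrt A.card ≤ Real.sqrt w := Real.sqrt_le_sqrt (by exact_mod_cast hAw)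
    rw [h1]
    exact mul_le_mul h2 h3 (Real.sqrt_nonneg _) (Nat.cast_nonneg _)
  have hcount : ∀ U : Finset ℕ, I ∪ D ⊆ U →
      ((C.filter (fun a => st a < s + 1 ∧ blk a ∉ U.image blk)).card : ℝ) ≤
      ((I.card : ℝ) + D.card) * Real.sqrt w + M.card * Real.sqrt w := by
    intro U hU
    have h1 : C.filter (fun a => st a < s + 1 ∧ blk a ∉ U.image blk) ⊆
        C.filter (fun a => st a < s ∧ blk a ∉ (I ∪ D).image blk) ∪ A := by
      intro a ha
      rw [Finset.mem_filter] at ha
      have h2 : blk a ∉ (I ∪ D).image blk := fun h => ha.2.2 (Finset.image_subset_image hU h)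
      rw [Finset.mem_union, hA, Finset.mem_filter, Finset.mem_filter]
      rcases (Nat.lt_succ_iff.1 ha.2.1).lt_or_eq with h3 | h3
      · exact Or.inl ⟨ha.1, h3, h2⟩
      · exact Or.inr ⟨ha.1, h3, h2⟩
    have h2 := (Finset.card_le_card h1).trans (Finset.card_union_le _ _)
    have h3 : ((C.filter (fun a => st a < s + 1 ∧ blk a ∉ U.image blk)).card : ℝ) ≤
        ((C.filter (fun a => st a < s ∧ blk a ∉ (I ∪ D).image blk)).card : ℝ) + A.card := by
      exact_mod_cast h2
    linarith [h.cnt]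
  have hblk : ∀ U : Finset ℕ, (∀ a ∈ U, a ∈ I ∪ D ∨ a ∈ M) → ∀ a ∈ U, ∀ b ∈ U, blk a = blk b →
      st a = st b := by
    intro U hU a ha b hb hab
    rcases hU a ha with h1 | h1
    · rcases hU b hb with h2 | h2
      · exact h.bl a h1 b h2 hab
      · exact absurd (Finset.mem_image.2 ⟨a, h1, hab⟩) (hMb b h2)
    · rcases hU b hb with h2 | h2
      · exact absurd (Finset.mem_image.2 ⟨b, h2, hab.symm⟩) (hMb a h1)
      · rw [hMs a h1, hMs b h2]
  have hltU : ∀ a, (a ∈ I ∪ D ∨ a ∈ M) → st a < s + 1 := by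
    intro a ha
    rcases ha with h1 | h1
    · have := h.lt a h1; omega
    · have := hMs a h1; omega
  have hdis : ∀ J : Finset ℕ, J ⊆ I ∪ D → Disjoint J M := by
    intro J hJ
    rw [Finset.disjoint_left]
    intro a ha1 ha2
    have h1 := h.lt a (hJ ha1)
    have h2 := hMs a ha2
    omega
  rcases hM with hM | hM
  · refine ⟨I ∪ M, D, ?_⟩
    have hU : ∀ a ∈ (I ∪ M) ∪ D, a ∈ I ∪ D ∨ a ∈ M := by
      intro a ha
      simp only [Finset.mem_union] at ha ⊢
      tauto
    refine ⟨Finset.union_subset h.subI hMC, h.subD, fun a ha => hltU a (hU a ha),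
      hblk _ hU, ?_, h.mD, ?_⟩
    · intro a ha b hb hab hst'
      rw [Finset.mem_union] at ha hb
      rcases ha with ha | ha
      · rcases hb with hb | hb
        · exact h.mI a ha b hb hab hst'
        · have h1 := h.lt a (Finset.mem_union_left _ ha)
          have h2 := hMs b hb
          omega
      · rcases hb with hb | hb
        · have h1 := h.lt b (Finset.mem_union_left _ hb)
          have h2 := hMs a ha
          omega
        · exact hM a ha b hb hab
    · rw [Finset.card_union_of_disjoint (hdis I Finset.subset_union_left)]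
      have := hcount ((I ∪ M) ∪ D) (by
        intro a ha
        simp only [Finset.mem_union] at ha ⊢
        tauto)
      push_cast
      linarith
  · refine ⟨I, D ∪ M, ?_⟩
    have hU : ∀ a ∈ I ∪ (D ∪ M), a ∈ I ∪ D ∨ a ∈ M := by
      intro a ha
      simp only [Finset.mem_union] at ha ⊢
      tauto
    refine ⟨h.subI, Finset.union_subset h.subD hMC, fun a ha => hltU a (hU a ha),
      hblk _ hU, h.mI, ?_, ?_⟩
    · intro a ha b hb hab hst'
      rw [Finset.mem_union] at ha hb
      rcases ha with ha | ha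
      · rcases hb with hb | hb
        · exact h.mD a ha b hb hab hst'
        · have h1 := h.lt a (Finset.mem_union_right _ ha)
          have h2 := hMs b hb
          omega
      · rcases hb with hb | hb
        · have h1 := h.lt b (Finset.mem_union_right _ hb)
          have h2 := hMs a ha
          omega
        · exact hM a ha b hb hab
    · rw [Finset.card_union_of_disjoint (hdis D Finset.subset_union_right)]
      have := hcount (I ∪ (D ∪ M)) (by
        intro a ha
        simp only [Finset.mem_union] at ha ⊢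
        tauto)
      push_cast
      linarith

theorem exi (C : Finset ℕ) (blk st : ℕ → ℕ) (y : ℕ → ℝ) (w : ℕ)
    (hinj : ∀ a ∈ C, ∀ b ∈ C, y a = y b → a = b)
    (hst : ∀ s, (C.filter (fun a => st a = s)).card ≤ w) (s : ℕ) :
    ∃ I D, Inv C blk st y w s I D := by
  induction s with
  | zero =>
    refine ⟨∅, ∅, by simp, by simp, by simp, by simp, by simp, by simp, ?_⟩
    simp
  | succ s ih =>
    obtain ⟨I, D, h⟩ := ih
    exact step C blk st y w hinj hst s I D h

end LGREaux

open LGREaux in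
theorem LGRE_ok : S_LGRE := by
  intro C blk st y h w S hinj hblk hst hS
  obtain ⟨I, D, hInv⟩ := exi C blk st y w hinj hst S
  have hUcard : ((I ∪ D).image blk).card ≤ I.card + D.card :=
    Finset.card_image_le.trans (Finset.card_union_le _ _)
  have hused : (C.filter (fun a => blk a ∈ (I ∪ D).image blk)).card ≤
      ((I ∪ D).image blk).card * h := by
    have h1 : C.filter (fun a => blk a ∈ (I ∪ D).image blk) ⊆
        ((I ∪ D).image blk).biUnion (fun b => C.filter (fun a => blk a = b)) := by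
      intro a ha
      rw [Finset.mem_filter] at ha
      rw [Finset.mem_biUnion]
      exact ⟨blk a, ha.2, Finset.mem_filter.2 ⟨ha.1, rfl⟩⟩
    refine (Finset.card_le_card h1).trans ?_
    exact Finset.card_biUnion_le_card_mul _ _ _ (fun b _ => hblk b)
  have hsplit : C.card ≤ (C.filter (fun a => blk a ∈ (I ∪ D).image blk)).card +
      (C.filter (fun a => st a < S ∧ blk a ∉ (I ∪ D).image blk)).card := by
    have h1 : C ⊆ C.filter (fun a => blk a ∈ (I ∪ D).image blk) ∪
        C.filter (fun a => st a < S ∧ blk a ∉ (I ∪ D).image blk) := by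
      intro a ha
      rw [Finset.mem_union, Finset.mem_filter, Finset.mem_filter]
      by_cases hb : blk a ∈ (I ∪ D).image blk
      · exact Or.inl ⟨ha, hb⟩
      · exact Or.inr ⟨ha, hS a ha, hb⟩
    exact (Finset.card_le_card h1).trans (Finset.card_union_le _ _)
  have hN : (C.card : ℝ) ≤ ((I.card : ℝ) + D.card) * (Real.sqrt w + h) := by
    have h1 : (C.card : ℝ) ≤ ((C.filter (fun a => blk a ∈ (I ∪ D).image blk)).card : ℝ) +
      ((C.filter (fun a => st a < S ∧ blk a ∉ (I ∪ D).image blk)).card : ℝ) := by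
      exact_mod_cast hsplit
    have h2 : ((C.filter (fun a => blk a ∈ (I ∪ D).image blk)).card : ℝ) ≤
        ((I.card : ℝ) + D.card) * h := by
      have := hused.trans (Nat.mul_le_mul_right h hUcard)
      exact_mod_cast this
    linarith [hInv.cnt]
  have hpos : 0 ≤ Real.sqrt w + (h : ℝ) := add_nonneg (Real.sqrt_nonneg _) (Nat.cast_nonneg _)
  rcases le_total I.card D.card with hle | hle
  · refine ⟨-1, D, Or.inr rfl, hInv.subD, ?_, ?_, ?_⟩
    · intro a ha b hb hab
      exact hInv.bl a (Finset.mem_union_right _ ha) b (Finset.mem_union_right _ hb) hab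
    · intro a ha b hb hab hst'
      have := hInv.mD a ha b hb hab hst'
      linarith
    · have h1 : (I.card : ℝ) ≤ D.card := by exact_mod_cast hle
      refine hN.trans ?_
      apply mul_le_mul_of_nonneg_right _ hpos
      linarith
  · refine ⟨1, I, Or.inl rfl, hInv.subI, ?_, ?_, ?_⟩
    · intro a ha b hb hab
      exact hInv.bl a (Finset.mem_union_left _ ha) b (Finset.mem_union_left _ hb) hab
    · intro a ha b hb hab hst'
      have := hInv.mI a ha b hb hab hst'
      linarith
    · have h1 : (D.card : ℝ) ≤ I.card := by exact_mod_cast hle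
      refine hN.trans ?_
      apply mul_le_mul_of_nonneg_right _ hpos
      linarith

end Pool.Agent.H172R2.UT
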