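import Pool.Agent.H172R2.UT.LDefs

/-! Task LINV: invariance of `CFN`, existence. -/

open Classical

namespace Pool.Agent.H172R2.UT

namespace LINVaux

theorem mem_lin (e : (ℝ × ℝ) ≃ₗ[ℝ] (ℝ × ℝ)) (a b z : ℝ × ℝ)
    (h : z ∈ openSegment ℝ (e a) (e b)) : ∃ w ∈ openSegment ℝ a b, e w = z := by
  obtain ⟨s, t, hs, ht, hst, rfl⟩ := h
  exact ⟨s • a + t • b, ⟨s, t, hs, ht, hst, rfl⟩, by rw [map_add, map_smul, map_smul]⟩

theorem mem_tr (v a b z : ℝ × ℝ)
    (h : z ∈ openSegment ℝ (a + v) (b + v)) : ∃ w ∈ openSegment ℝ a b, w + v = z := by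
  obtain ⟨s, t, hs, ht, hst, rfl⟩ := h
  refine ⟨s • a + t • b, ⟨s, t, hs, ht, hst, rfl⟩, ?_⟩
  have h1 : v = s • v + t • v := by rw [← add_smul, hst, one_smul]
  rw [smul_add, smul_add]
  nth_rewrite 1 [h1]
  abel

/-- the polygon -/
noncomputable def q (n i : ℕ) : ℝ × ℝ := if i < n then ((i : ℝ), (i : ℝ) ^ 2) else (0, 0)

theorem edge (n : ℕ) (hn : 3 ≤ n) (i : ℕ) (hi : i + 1 < n) (z : ℝ × ℝ)
    (h : z ∈ openSegment ℝ (q n i) (q n (i + 1))) :
    (i : ℝ) < z.1 ∧ z.1 < i + 1 ∧ z.2 < ((n : ℝ) - 1) * z.1 := by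
  obtain ⟨s, t, hs, ht, hst, rfl⟩ := h
  have h1 : q n i = ((i : ℝ), (i : ℝ) ^ 2) := if_pos (by omega)
  have h2 : q n (i + 1) = (((i : ℝ) + 1), ((i : ℝ) + 1) ^ 2) := by
    unfold q
    rw [if_pos hi]
    push_cast
    rfl
  rw [h1, h2]
  simp only [Prod.smul_mk, Prod.mk_add_mk, smul_eq_mul]
  have hi0 : (0 : ℝ) ≤ i := Nat.cast_nonneg i
  have hi' : (i : ℝ) + 2 ≤ n := by exact_mod_cast hi
  have hn' : (3 : ℝ) ≤ n := by exact_mod_cast hn
  have hs' : s = 1 - t := by linarith
  refine ⟨?_, ?_, ?_⟩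
  · rw [hs']; linarith
  · rw [hs']; linarith
  · have e1 : ((n : ℝ) - 1) * (s * i + t * (i + 1)) - (s * (i : ℝ) ^ 2 + t * ((i : ℝ) + 1) ^ 2) =
        s * (i * (n - 1 - i)) + t * ((i + 1) * (n - 2 - i)) := by ring
    have e2 : 0 ≤ (i : ℝ) * (n - 1 - i) := mul_nonneg hi0 (by linarith)
    have e3 : 0 ≤ ((i : ℝ) + 1) * (n - 2 - i) := mul_nonneg (by linarith) (by linarith)
    have e4 : 0 < s * (i * (n - 1 - i)) + t * ((i + 1) * (n - 2 - i)) := by
      rcases Nat.eq_zero_or_pos i with h0 | h0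
      · have h3 : (i : ℝ) = 0 := by rw [h0]; norm_num
        have h4 : 0 < t * (((i : ℝ) + 1) * (n - 2 - i)) := by
          apply mul_pos ht
          rw [h3]
          nlinarith
        have h5 : 0 ≤ s * ((i : ℝ) * (n - 1 - i)) := mul_nonneg hs.le e2
        linarith
      · have h3 : (0 : ℝ) < i := by exact_mod_cast h0
        have h4 : 0 < s * ((i : ℝ) * (n - 1 - i)) :=
          mul_pos hs (mul_pos h3 (by linarith))
        have h5 : 0 ≤ t * (((i : ℝ) + 1) * (n - 2 - i)) := mul_nonneg ht.le e3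
        linarith
    linarith

theorem closing (n : ℕ) (hn : 3 ≤ n) (z : ℝ × ℝ)
    (h : z ∈ openSegment ℝ (q n (n - 1)) (q n (n - 1 + 1))) :
    0 < z.1 ∧ z.1 < (n : ℝ) - 1 ∧ z.2 = ((n : ℝ) - 1) * z.1 := by
  obtain ⟨s, t, hs, ht, hst, rfl⟩ := h
  have h1 : q n (n - 1) = (((n : ℝ) - 1), ((n : ℝ) - 1) ^ 2) := by
    unfold q
    rw [if_pos (by omega), Nat.cast_sub (by omega), Nat.cast_one]
  have h2 : q n (n - 1 + 1) = (0, 0) := if_neg (by omega)
  rw [h1, h2]
  simp only [Prod.smul_mk, Prod.mk_add_mk, smul_eq_mul, mul_zero, add_zero]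
  have hn' : (3 : ℝ) ≤ n := by exact_mod_cast hn
  have hn1 : (0 : ℝ) < n - 1 := by linarith
  refine ⟨mul_pos hs hn1, ?_, by ring⟩
  have h3 : s < 1 := by linarith
  nlinarith

end LINVaux

open LINVaux

theorem LINV_ok : S_LINV := by
  refine ⟨?_, ?_, ?_⟩
  · rintro n q e ⟨h1, h2, h3, h4⟩
    refine ⟨congrArg e h1, fun i hi j hj h => h2 i hi j hj (e.injective h), ?_, ?_⟩
    · intro i hi j hj hij
      rw [Set.disjoint_left]
      intro z hz hz'
      obtain ⟨w, hw, hwz⟩ := mem_lin e _ _ _ hz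
      obtain ⟨w', hw', hwz'⟩ := mem_lin e _ _ _ hz'
      have : w = w' := e.injective (hwz.trans hwz'.symm)
      subst this
      exact Set.disjoint_left.1 (h3 i hi j hj hij) hw hw'
    · intro i hi j hj hz
      obtain ⟨w, hw, hwz⟩ := mem_lin e _ _ _ hz
      have : w = q j := e.injective hwz
      subst this
      exact h4 i hi j hj hw
  · rintro n q v ⟨h1, h2, h3, h4⟩
    refine ⟨congrArg (fun z => z + v) h1, fun i hi j hj h => h2 i hi j hj (add_right_cancel h),
      ?_, ?_⟩
    · intro i hi j hj hij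
      rw [Set.disjoint_left]
      intro z hz hz'
      obtain ⟨w, hw, hwz⟩ := mem_tr v _ _ _ hz
      obtain ⟨w', hw', hwz'⟩ := mem_tr v _ _ _ hz'
      have : w = w' := add_right_cancel (hwz.trans hwz'.symm)
      subst this
      exact Set.disjoint_left.1 (h3 i hi j hj hij) hw hw'
    · intro i hi j hj hz
      obtain ⟨w, hw, hwz⟩ := mem_tr v _ _ _ hz
      have : w = q j := add_right_cancel hwz
      subst this
      exact h4 i hi j hj hw
  · intro n hn
    refine ⟨q n, ?_, ?_, ?_, ?_⟩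
    · unfold q
      rw [if_neg (lt_irrefl n), if_pos (by omega)]
      norm_num
    · intro i hi j hj h
      unfold q at h
      rw [if_pos hi, if_pos hj] at h
      have := (Prod.mk.inj h).1
      exact_mod_cast this
    · intro i hi j hj hij
      rw [Set.disjoint_left]
      intro z hz hz'
      by_cases h1 : i + 1 < n
      · by_cases h2 : j + 1 < n
        · obtain ⟨a1, a2, -⟩ := edge n hn i h1 z hz
          obtain ⟨b1, b2, -⟩ := edge n hn j h2 z hz'
          have c1 : (i : ℝ) < (j : ℝ) + 1 := by linarith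
          have c2 : (j : ℝ) < (i : ℝ) + 1 := by linarith
          have c1' : i < j + 1 := by exact_mod_cast c1
          have c2' : j < i + 1 := by exact_mod_cast c2
          omega
        · have h3 : j = n - 1 := by omega
          subst h3
          have a := (edge n hn i h1 z hz).2.2
          have b := (closing n hn z hz').2.2
          linarith
      · have h3 : i = n - 1 := by omega
        subst h3
        have h2 : j + 1 < n := by omega
        have a := (edge n hn j h2 z hz').2.2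
        have b := (closing n hn z hz).2.2
        linarith
    · intro i hi j hj hz
      have hq : q n j = ((j : ℝ), (j : ℝ) ^ 2) := if_pos hj
      by_cases h1 : i + 1 < n
      · obtain ⟨a1, a2, -⟩ := edge n hn i h1 _ hz
        rw [hq] at a1 a2
        simp only at a1 a2
        have c1 : i < j := by exact_mod_cast a1
        have c2 : j < i + 1 := by exact_mod_cast a2
        omega
      · have h3 : i = n - 1 := by omega
        subst h3
        obtain ⟨a1, a2, a3⟩ := closing n hn _ hz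
        rw [hq] at a1 a2 a3
        simp only at a1 a2 a3
        have c1 : (j : ℝ) * ((j : ℝ) - (n - 1)) = 0 := by linarith
        rcases mul_eq_zero.1 c1 with h | h <;> linarith

end Pool.Agent.H172R2.UT
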