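import Pool.Agent.H172R2.UT.LDefs

open Classical

namespace Pool.Agent.H172R2.UT

namespace LLAYaux

theorem exists_gap (F : Finset ℝ) : ∃ ε : ℝ, 0 < ε ∧ ∀ u ∈ F, ∀ v ∈ F, u < v → u + ε ≤ v := by
  set D : Finset ℝ := ((F ×ˢ F).filter fun p => p.1 < p.2).image fun p => p.2 - p.1 with hD
  by_cases hne : D.Nonempty
  · refine ⟨D.min' hne, ?_, ?_⟩
    · have hpos : ∀ y ∈ D, 0 < y := by
        intro y hy
        rw [hD, Finset.mem_image] at hy
        obtain ⟨p, hp, h⟩ := hy
        rw [Finset.mem_filter] at hp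
        have := hp.2
        linarith
      exact hpos _ (D.min'_mem hne)
    · intro u hu v hv huv
      have hm : v - u ∈ D := by
        rw [hD, Finset.mem_image]
        exact ⟨(u, v), Finset.mem_filter.mpr ⟨Finset.mem_product.mpr ⟨hu, hv⟩, huv⟩, rfl⟩
      have := D.min'_le _ hm
      linarith
  · refine ⟨1, one_pos, ?_⟩
    intro u hu v hv huv
    exfalso
    apply hne
    refine ⟨v - u, ?_⟩
    rw [hD, Finset.mem_image]
    exact ⟨(u, v), Finset.mem_filter.mpr ⟨Finset.mem_product.mpr ⟨hu, hv⟩, huv⟩, rfl⟩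

/-- the ramp from `0` at `p` to `1` at `p + ε` -/
noncomputable def ph (ε p x : ℝ) : ℝ := max 0 (min 1 ((x - p) / ε))

theorem ph_zero {ε p x : ℝ} (hε : 0 < ε) (h : x ≤ p) : ph ε p x = 0 := by
  unfold ph
  have h1 : (x - p) / ε ≤ 0 := div_nonpos_of_nonpos_of_nonneg (by linarith) hε.le
  rw [max_eq_left]
  exact (min_le_right _ _).trans h1

theorem ph_one {ε p x : ℝ} (hε : 0 < ε) (h : p + ε ≤ x) : ph ε p x = 1 := by
  unfold ph
  have h1 : 1 ≤ (x - p) / ε := by
    rw [le_div_iff₀ hε]
    linarith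
  rw [min_eq_left h1, max_eq_right zero_le_one]

theorem ph_mid {ε p x : ℝ} (hε : 0 < ε) (h1 : p ≤ x) (h2 : x ≤ p + ε) :
    ph ε p x = (x - p) / ε := by
  unfold ph
  have h3 : (x - p) / ε ≤ 1 := by
    rw [div_le_one hε]
    linarith
  have h4 : 0 ≤ (x - p) / ε := div_nonneg (by linarith) hε.le
  rw [min_eq_right h3, max_eq_right h4]

theorem ph_nonneg (ε p x : ℝ) : 0 ≤ ph ε p x := le_max_left _ _

theorem ph_le_one (ε p x : ℝ) : ph ε p x ≤ 1 := max_le zero_le_one (min_le_left _ _)

theorem ph_anti {ε p p' x : ℝ} (hε : 0 < ε) (h : p ≤ p') : ph ε p' x ≤ ph ε p x := by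
  unfold ph
  apply max_le_max le_rfl
  apply min_le_min le_rfl
  exact div_le_div_of_nonneg_right (by linarith) hε.le

theorem ph_aff {ε p a b l : ℝ} (hε : 0 < ε) (hab : a ≤ b) (h1 : ¬ (a < p ∧ p < b))
    (h2 : ¬ (a < p + ε ∧ p + ε < b)) (hl0 : 0 ≤ l) (hl1 : l ≤ 1) :
    ph ε p ((1 - l) * a + l * b) = (1 - l) * ph ε p a + l * ph ε p b := by
  have hx1 : a ≤ (1 - l) * a + l * b := by nlinarith
  have hx2 : (1 - l) * a + l * b ≤ b := by nlinarith
  by_cases hb : b ≤ p
  · rw [ph_zero hε (hx2.trans hb), ph_zero hε (hab.trans hb), ph_zero hε hb]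
    ring
  · push Not at hb
    have ha : p ≤ a := by
      by_contra h
      push Not at h
      exact h1 ⟨h, hb⟩
    by_cases hb' : b ≤ p + ε
    · rw [ph_mid hε (ha.trans hx1) (hx2.trans hb'), ph_mid hε ha (hab.trans hb'),
        ph_mid hε hb.le hb']
      field_simp
      ring
    · push Not at hb'
      have ha' : p + ε ≤ a := by
        by_contra h
        push Not at h
        exact h2 ⟨h, hb'⟩
      rw [ph_one hε (ha'.trans hx1), ph_one hε ha', ph_one hε hb'.le]
      ring

/-- the steps -/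
noncomputable def ps (S : ℕ) (ε : ℝ) (A : ℕ → ℝ) (s : ℕ) (x : ℝ) : ℝ :=
  if s = 0 then 1 else if S ≤ s then 0 else ph ε (A s) x

theorem ps_anti {S : ℕ} {ε : ℝ} {A : ℕ → ℝ} (hε : 0 < ε) (hA : ∀ s, A s ≤ A (s+1)) (s : ℕ)
    (x : ℝ) : ps S ε A (s+1) x ≤ ps S ε A s x := by
  unfold ps
  rw [if_neg (Nat.succ_ne_zero s)]
  by_cases h0 : s = 0
  · rw [if_pos h0]
    split_ifs
    · exact zero_le_one
    · exact ph_le_one _ _ _
  · rw [if_neg h0]
    by_cases h1 : S ≤ s
    · rw [if_pos h1, if_pos (by omega)]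
    · rw [if_neg h1]
      split_ifs
      · exact ph_nonneg _ _ _
      · exact ph_anti hε (hA s)

theorem ps_aff {S : ℕ} {ε : ℝ} {A : ℕ → ℝ} (hε : 0 < ε) {a b l : ℝ} (hab : a ≤ b)
    (h1 : ∀ s < S, ¬ (a < A s ∧ A s < b)) (h2 : ∀ s < S, ¬ (a < A s + ε ∧ A s + ε < b))
    (hl0 : 0 ≤ l) (hl1 : l ≤ 1) (s : ℕ) :
    ps S ε A s ((1 - l) * a + l * b) = (1 - l) * ps S ε A s a + l * ps S ε A s b := by
  unfold ps
  by_cases h0 : s = 0
  · simp only [if_pos h0]
    ring
  · simp only [if_neg h0]
    by_cases hs : S ≤ s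
    · simp only [if_pos hs]
      ring
    · simp only [if_neg hs]
      push Not at hs
      exact ph_aff hε hab (h1 s hs) (h2 s hs) hl0 hl1

end LLAYaux

open LLAYaux in
theorem LLAY_ok (hext : S_LEXT) : S_LLAY := by
  intro n S k i X Y st hs
  have hSpos : 0 < S := lt_of_le_of_lt (Nat.zero_le _) (hs.lt 1 le_rfl hs.kpos)
  -- left end
  set L : ℝ := -(∑ j ∈ Finset.Icc 1 k, |X j|) - 1 with hL
  have hLX : ∀ j, 1 ≤ j → j ≤ k → L < X j := by
    intro j h1 h2
    have h3 : |X j| ≤ ∑ j ∈ Finset.Icc 1 k, |X j| :=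
      Finset.single_le_sum (f := fun j => |X j|) (fun _ _ => abs_nonneg _)
        (Finset.mem_Icc.mpr ⟨h1, h2⟩)
    have h4 := neg_abs_le (X j)
    rw [hL]
    linarith
  -- the gap
  obtain ⟨ε, hε, hgap⟩ := exists_gap (insert L ((Finset.Icc 1 k).image X))
  -- positions
  set A : ℕ → ℝ := fun s =>
    (insert L (((Finset.Icc 1 k).filter fun j => st j < s).image X)).max'
      (Finset.insert_nonempty _ _) with hA
  have hAmem : ∀ s, A s ∈ insert L (((Finset.Icc 1 k).filter fun j => st j < s).image X) :=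
    fun s => Finset.max'_mem _ _
  have hAF : ∀ s, A s ∈ insert L ((Finset.Icc 1 k).image X) := by
    intro s
    have h := hAmem s
    rw [Finset.mem_insert] at h ⊢
    rcases h with h | h
    · exact Or.inl h
    · right
      exact Finset.image_subset_image (Finset.filter_subset _ _) h
  have hAmono : ∀ s, A s ≤ A (s+1) := by
    intro s
    apply Finset.max'_subset
    apply Finset.insert_subset_insert
    apply Finset.image_subset_image
    intro j hj
    rw [Finset.mem_filter] at hj ⊢
    exact ⟨hj.1, by omega⟩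
  have hAlow : ∀ s j, 1 ≤ j → j ≤ k → st j < s → X j ≤ A s := by
    intro s j h1 h2 h3
    apply Finset.le_max'
    rw [Finset.mem_insert]
    right
    exact Finset.mem_image_of_mem _ (Finset.mem_filter.mpr ⟨Finset.mem_Icc.mpr ⟨h1, h2⟩, h3⟩)
  have hAup : ∀ s j, 1 ≤ j → j ≤ k → s ≤ st j → A s + ε ≤ X j := by
    intro s j h1 h2 h3
    apply hgap _ (hAF s) _ (Finset.mem_insert_of_mem
      (Finset.mem_image_of_mem _ (Finset.mem_Icc.mpr ⟨h1, h2⟩)))
    have h := hAmem s
    rw [Finset.mem_insert, Finset.mem_image] at h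
    rcases h with h | ⟨j', hj', h⟩
    · rw [h]
      exact hLX j h1 h2
    · rw [Finset.mem_filter, Finset.mem_Icc] at hj'
      rw [← h]
      exact hs.xmono j' j hj'.1.1 hj'.1.2 h1 h2 (by omega)
  -- heights in the strips
  have hH : ∀ s, ∃ h : ℕ → ℝ, StrictMono h ∧
      ∀ a ∈ (Finset.Icc 1 k).filter (fun j => st j = s), h a = Y a := by
    intro s
    apply hext
    intro a ha b hb hab
    rw [Finset.mem_filter, Finset.mem_Icc] at ha hb
    exact hs.ymono a b ha.1.1 hab hb.1.2 (by rw [ha.2, hb.2])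
  choose H hHm hHv using hH
  -- values of the steps
  have hps : ∀ j, 1 ≤ j → j ≤ k → ∀ s, ps S ε A s (X j) = if s ≤ st j then 1 else 0 := by
    intro j h1 h2 s
    unfold ps
    by_cases h0 : s = 0
    · rw [if_pos h0, if_pos (by omega)]
    · rw [if_neg h0]
      by_cases h3 : S ≤ s
      · have := hs.lt j h1 h2
        rw [if_pos h3, if_neg (by omega)]
      · rw [if_neg h3]
        by_cases h4 : s ≤ st j
        · rw [if_pos h4, ph_one hε (hAup s j h1 h2 h4)]
        · rw [if_neg h4, ph_zero hε (hAlow s j h1 h2 (by omega))]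
  have hsum1 : ∀ x, ∑ s ∈ Finset.range S, (ps S ε A s x - ps S ε A (s+1) x) = 1 := by
    intro x
    rw [Finset.sum_range_sub' (fun s => ps S ε A s x)]
    have e0 : ps S ε A 0 x = 1 := by unfold ps; rw [if_pos rfl]
    have eS : ps S ε A S x = 0 := by unfold ps; rw [if_neg (by omega), if_pos le_rfl]
    rw [e0, eS, sub_zero]
  refine ⟨L, (Finset.range S).image A ∪ (Finset.range S).image (fun s => A s + ε),
    fun j x => ∑ s ∈ Finset.range S, H s j * (ps S ε A s x - ps S ε A (s+1) x), ?_, ?_, ?_⟩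
  · refine ⟨?_, ?_, ?_, hLX, ?_⟩
    · -- mono
      intro j x
      apply Finset.sum_lt_sum
      · intro s _
        exact mul_le_mul_of_nonneg_right ((hHm s).monotone (Nat.le_succ j))
          (sub_nonneg.mpr (ps_anti hε hAmono s x))
      · by_contra hcon
        push Not at hcon
        have hz : ∀ s ∈ Finset.range S, ps S ε A s x - ps S ε A (s+1) x = 0 := by
          intro s hs'
          have h1 := hcon s hs'
          have h2 : 0 ≤ ps S ε A s x - ps S ε A (s+1) x := sub_nonneg.mpr (ps_anti hε hAmono s x)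
          have h3 : H s j < H s (j+1) := hHm s (Nat.lt_succ_self j)
          by_contra hne
          have h4 : 0 < ps S ε A s x - ps S ε A (s+1) x := lt_of_le_of_ne h2 (Ne.symm hne)
          have := mul_lt_mul_of_pos_right h3 h4
          linarith
        have := hsum1 x
        rw [Finset.sum_eq_zero hz] at this
        exact zero_ne_one this
    · -- val
      intro j h1 h2
      have hst := hs.lt j h1 h2
      rw [Finset.sum_eq_single (st j)]
      · rw [hps j h1 h2, hps j h1 h2, if_pos le_rfl, if_neg (by omega), sub_zero, mul_one]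
        exact hHv (st j) j (Finset.mem_filter.mpr ⟨Finset.mem_Icc.mpr ⟨h1, h2⟩, rfl⟩)
      · intro s _ hne
        rw [hps j h1 h2, hps j h1 h2]
        by_cases h3 : s ≤ st j
        · rw [if_pos h3, if_pos (by omega), sub_self, mul_zero]
        · rw [if_neg h3, if_neg (by omega), sub_self, mul_zero]
      · intro h
        exact absurd (Finset.mem_range.mpr hst) h
    · -- aff
      intro j a b hab hT l hl0 hl1
      have hT1 : ∀ s < S, ¬ (a < A s ∧ A s < b) := fun s hs' =>
        hT _ (Finset.mem_union_left _ (Finset.mem_image_of_mem _ (Finset.mem_range.mpr hs')))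
      have hT2 : ∀ s < S, ¬ (a < A s + ε ∧ A s + ε < b) := fun s hs' =>
        hT _ (Finset.mem_union_right _ (Finset.mem_image_of_mem (fun s => A s + ε)
          (Finset.mem_range.mpr hs')))
      simp only [ps_aff hε hab hT1 hT2 hl0 hl1]
      rw [Finset.mul_sum, Finset.mul_sum, ← Finset.sum_add_distrib]
      refine Finset.sum_congr rfl fun s _ => ?_
      ring
    · -- ne
      intro j h1 h2
      exact hs.xne j (j+1) h1 (Nat.lt_succ_self j) h2
  · -- card
    refine (Finset.card_union_le _ _).trans ?_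
    have h1 : ((Finset.range S).image A).card ≤ S :=
      Finset.card_image_le.trans (by rw [Finset.card_range])
    have h2 : ((Finset.range S).image (fun s => A s + ε)).card ≤ S :=
      Finset.card_image_le.trans (by rw [Finset.card_range])
    omega
  · intro j h1 h2 hst t ht ⟨h3, h4⟩
    rw [Finset.mem_union, Finset.mem_image, Finset.mem_image] at ht
    rw [min_lt_iff] at h3
    rw [lt_max_iff] at h4
    rcases ht with ⟨s, _, rfl⟩ | ⟨s, _, rfl⟩
    · by_cases hc : s ≤ st j
      · have e1 := hAup s j h1 h2.le hc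
        have e2 := hAup s (j+1) (by omega) h2 (by rw [← hst]; exact hc)
        rcases h3 with h3 | h3 <;> linarith
      · push Not at hc
        have e1 := hAlow s j h1 h2.le hc
        have e2 := hAlow s (j+1) (by omega) h2 (by rw [← hst]; exact hc)
        rcases h4 with h4 | h4 <;> linarith
    · by_cases hc : s ≤ st j
      · have e1 := hAup s j h1 h2.le hc
        have e2 := hAup s (j+1) (by omega) h2 (by rw [← hst]; exact hc)
        rcases h3 with h3 | h3 <;> linarith
      · push Not at hc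
        have e1 := hAlow s j h1 h2.le hc
        have e2 := hAlow s (j+1) (by omega) h2 (by rw [← hst]; exact hc)
        rcases h4 with h4 | h4 <;> linarith

end Pool.Agent.H172R2.UT
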