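import Pool.Agent.H172R2.UT.LDefs

/-! Task LMAIN: the lower bound for fixGraph. -/

open Classical

namespace Pool.Agent.H172R2.UT

namespace LMAINaux

theorem edge {m : ℕ} {q : ℕ → ℝ × ℝ} (hq : q (m + 2) = q 0) {u v : Fin (m + 2)}
    (h : (SimpleGraph.cycleGraph (m + 2)).Adj u v) :
    ∃ i : Fin (m + 2), s(u, v) = s(i, i + 1) ∧
      openSegment ℝ (q u.val) (q v.val) = openSegment ℝ (q i.val) (q (i.val + 1)) := by
  have key : ∀ i : Fin (m + 2), q (i + 1 : Fin (m + 2)).val = q (i.val + 1) := by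
    intro i
    by_cases hi : i.val + 1 < m + 2
    · have e : (i + 1 : Fin (m + 2)).val = i.val + 1 := by
        rw [Fin.val_add, Fin.val_one, Nat.mod_eq_of_lt hi]
      rw [e]
    · have e0 : i.val + 1 = m + 2 := by omega
      have e : (i + 1 : Fin (m + 2)).val = 0 := by
        rw [Fin.val_add, Fin.val_one, e0, Nat.mod_self]
      rw [e, e0, hq]
  rw [SimpleGraph.cycleGraph_adj] at h
  rcases h with h | h
  · have huv : u = v + 1 := by rw [← h]; abel
    refine ⟨v, by rw [huv]; exact Sym2.eq_swap, ?_⟩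
    rw [openSegment_symm, huv, key v]
  · have huv : v = u + 1 := by rw [← h]; abel
    refine ⟨u, by rw [huv], ?_⟩
    rw [huv, key u]

theorem crossingFree {m : ℕ} {q : ℕ → ℝ × ℝ} (hq : CFN (m + 2) q) :
    CrossingFree (SimpleGraph.cycleGraph (m + 2)) (fun v : Fin (m + 2) => q v.val) := by
  obtain ⟨h0, h1, h2, h3⟩ := hq
  refine ⟨?_, ?_, ?_⟩
  · intro u v huv
    exact Fin.ext (h1 u.val u.2 v.val v.2 huv)
  · intro u v w z huv hwz hne
    obtain ⟨i, hi1, hi2⟩ := edge h0 huv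
    obtain ⟨j, hj1, hj2⟩ := edge h0 hwz
    rw [hi2, hj2]
    apply h2 i.val i.2 j.val j.2
    intro hij
    apply hne
    rw [hi1, hj1, Fin.ext hij]
  · intro u v w huv
    obtain ⟨i, hi1, hi2⟩ := edge h0 huv
    rw [hi2]
    exact h3 i.val i.2 w.val w.2

end LMAINaux

open LMAINaux in
theorem LMAIN_ok (h : S_LFIN) : S_LMAIN := by
  obtain ⟨c, hc, h⟩ := h
  refine ⟨c, hc, ?_⟩
  intro n hn
  obtain ⟨m, rfl⟩ : ∃ m, n = m + 2 := ⟨n - 2, by omega⟩
  have hne : {k | ∃ p : Fin (m + 2) → ℝ × ℝ, Function.Injective p ∧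
      k = fixDrawing (SimpleGraph.cycleGraph (m + 2)) p}.Nonempty := by
    refine ⟨_, fun i => ((i.val : ℝ), 0), ?_, rfl⟩
    intro i j hij
    simp only [Prod.mk.injEq, Nat.cast_inj, and_true] at hij
    exact Fin.ext hij
  obtain ⟨p, hp, hfix⟩ := Nat.sInf_mem hne
  have hfix' : fixGraph (SimpleGraph.cycleGraph (m + 2)) =
      fixDrawing (SimpleGraph.cycleGraph (m + 2)) p := hfix
  rw [hfix']
  obtain ⟨q, S, hq, hS, hqp, hcard⟩ := h (m + 2) hn
    (fun i => if hi : i < m + 2 then p ⟨i, hi⟩ else 0) (by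
      intro i hi j hj hij
      rw [dif_pos hi, dif_pos hj] at hij
      have := hp hij
      exact congrArg Fin.val this)
  have hSlt : ∀ i ∈ S, i < m + 2 := fun i hi => Finset.mem_range.1 (hS hi)
  have hle : S.card ≤ fixDrawing (SimpleGraph.cycleGraph (m + 2)) p := by
    apply le_csSup
    · refine ⟨m + 2, ?_⟩
      rintro k ⟨S', hS', -⟩
      rw [← hS']
      have := Finset.card_le_univ S'
      rwa [Fintype.card_fin] at this
    · refine ⟨S.attachFin hSlt, Finset.card_attachFin S hSlt, fun v => q v.val,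
        crossingFree hq, ?_⟩
      intro v hv
      rw [Finset.mem_attachFin] at hv
      show q v.val = p v
      rw [hqp v.val hv, dif_pos v.2]
  calc c * ((m + 2 : ℕ) : ℝ) ^ (2/3 : ℝ) ≤ (S.card : ℝ) := hcard
    _ ≤ (fixDrawing (SimpleGraph.cycleGraph (m + 2)) p : ℝ) := by exact_mod_cast hle

end Pool.Agent.H172R2.UT
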