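import Pool.Agent.H172R2.UT.LDefs

open Classical

namespace Pool.Agent.H172R2.UT

namespace LSELaux

/-- the candidates -/
noncomputable def CC (S B : ℕ) : Finset ℕ :=
  ((Finset.range B) ×ˢ (Finset.range (S + 2))).image
    (fun p => (2 * S + 4) * (2 * p.1 + 1) + 2 * p.2)

lemma mem_CC {S B a : ℕ} : a ∈ CC S B ↔
    ∃ b j, b < B ∧ j < S + 2 ∧ a = (2 * S + 4) * (2 * b + 1) + 2 * j := by
  unfold CC
  simp only [Finset.mem_image, Finset.mem_product, Finset.mem_range, Prod.exists]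
  constructor
  · rintro ⟨b, j, ⟨hb, hj⟩, rfl⟩
    exact ⟨b, j, hb, hj, rfl⟩
  · rintro ⟨b, j, hb, hj, rfl⟩
    exact ⟨b, j, ⟨hb, hj⟩, rfl⟩

lemma div_eq {S b j : ℕ} (hj : j < S + 2) :
    ((2 * S + 4) * (2 * b + 1) + 2 * j) / (2 * S + 4) = 2 * b + 1 := by
  rw [Nat.mul_add_div (by omega), Nat.div_eq_of_lt (by omega), Nat.add_zero]

lemma card_CC (S B : ℕ) : (CC S B).card = B * (S + 2) := by
  unfold CC
  rw [Finset.card_image_of_injOn, Finset.card_product, Finset.card_range, Finset.card_range]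
  rintro ⟨b, j⟩ h1 ⟨b', j'⟩ h2 h
  simp only [Finset.coe_product, Finset.coe_range, Set.mem_prod, Set.mem_Iio] at h1 h2
  simp only at h
  have e : 2 * b + 1 = 2 * b' + 1 := by
    rw [← div_eq (S := S) (b := b) h1.2, ← div_eq (S := S) (b := b') h2.2, h]
  have e2 : b = b' := by omega
  subst e2
  have e3 : j = j' := by omega
  rw [e3]

lemma card_blk (S B β : ℕ) :
    ((CC S B).filter (fun a => a / (2 * S + 4) = β)).card ≤ S + 2 := by
  have hsub : (CC S B).filter (fun a => a / (2 * S + 4) = β) ⊆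
      (Finset.range (S + 2)).image (fun j => (2 * S + 4) * β + 2 * j) := by
    intro a ha
    rw [Finset.mem_filter, mem_CC] at ha
    obtain ⟨⟨b, j, hb, hj, rfl⟩, hβ⟩ := ha
    rw [div_eq hj] at hβ
    subst hβ
    exact Finset.mem_image.2 ⟨j, Finset.mem_range.2 hj, rfl⟩
  calc _ ≤ _ := Finset.card_le_card hsub
    _ ≤ (Finset.range (S + 2)).card := Finset.card_image_le
    _ = S + 2 := Finset.card_range _

lemma far {S b j b' j' : ℕ} (hj : j < S + 2) (hj' : j' < S + 2)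
    (hlt : (2 * S + 4) * (2 * b + 1) + 2 * j < (2 * S + 4) * (2 * b' + 1) + 2 * j')
    (hne : b ≠ b') :
    (2 * S + 4) * (2 * b + 1) + 2 * j + 2 * S + 3 ≤ (2 * S + 4) * (2 * b' + 1) + 2 * j' := by
  have hbb : b < b' := by
    by_contra hcon
    have h1 : b' + 1 ≤ b := by omega
    have h2 : (2 * S + 4) * (2 * (b' + 1) + 1) ≤ (2 * S + 4) * (2 * b + 1) :=
      Nat.mul_le_mul_left _ (by omega)
    have h3 : (2 * S + 4) * (2 * (b' + 1) + 1) =
        (2 * S + 4) * (2 * b' + 1) + 2 * (2 * S + 4) := by ring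
    omega
  have h2 : (2 * S + 4) * (2 * (b + 1) + 1) ≤ (2 * S + 4) * (2 * b' + 1) :=
    Nat.mul_le_mul_left _ (by omega)
  have h3 : (2 * S + 4) * (2 * (b + 1) + 1) =
      (2 * S + 4) * (2 * b + 1) + 2 * (2 * S + 4) := by ring
  omega

end LSELaux

open LSELaux

theorem LSEL_ok (h1 : S_LGRE) (h2 : S_LSTR) : S_LSEL := by
  refine ⟨1 / 400, 512, by norm_num, ?_⟩
  intro n hn x y hx hy
  -- the cube root
  obtain ⟨S, hS3, hS3', hS8⟩ : ∃ S : ℕ, S ^ 3 ≤ n ∧ n < (S + 1) ^ 3 ∧ 8 ≤ S := by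
    refine ⟨Nat.findGreatest (fun s => s ^ 3 ≤ n) n, ?_, ?_, ?_⟩
    · exact Nat.findGreatest_spec (P := fun s => s ^ 3 ≤ n) (m := 0) (Nat.zero_le _) (by simp)
    · by_contra hcon
      push Not at hcon
      set r := Nat.findGreatest (fun s => s ^ 3 ≤ n) n with hr
      have hle : r + 1 ≤ n := by
        calc r + 1 ≤ (r + 1) ^ 3 := Nat.le_self_pow (by norm_num) _
          _ ≤ n := hcon
      have := Nat.le_findGreatest (P := fun s => s ^ 3 ≤ n) hle hcon
      omega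
    · exact Nat.le_findGreatest (P := fun s => s ^ 3 ≤ n) (by omega) (by norm_num; omega)
  set B : ℕ := n / (2 * (2 * S + 4)) - 1 with hB
  set C := CC S B with hC
  -- size of B
  have hdiv : S ^ 2 / 5 ≤ n / (2 * (2 * S + 4)) := by
    rw [Nat.le_div_iff_mul_le (by omega)]
    calc S ^ 2 / 5 * (2 * (2 * S + 4)) ≤ S ^ 2 / 5 * (5 * S) :=
          Nat.mul_le_mul_left _ (by omega)
      _ = (S ^ 2 / 5 * 5) * S := by ring
      _ ≤ S ^ 2 * S := Nat.mul_le_mul_right _ (Nat.div_mul_le_self _ _)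
      _ = S ^ 3 := by ring
      _ ≤ n := hS3
  have hS2 : 64 ≤ S ^ 2 := by nlinarith
  have hB10 : S ^ 2 ≤ 10 * B := by omega
  have hBpos : 1 ≤ B := by omega
  have hBn : 2 * (2 * S + 4) * (B + 1) ≤ n := by
    have : B + 1 = n / (2 * (2 * S + 4)) := by omega
    rw [this]
    exact Nat.mul_div_le _ _
  have hCn : ∀ a ∈ C, a + 2 * S + 3 ≤ n := by
    intro a ha
    rw [hC, mem_CC] at ha
    obtain ⟨b, j, hb, hj, rfl⟩ := ha
    have h3 : (2 * S + 4) * (2 * b + 1) ≤ (2 * S + 4) * (2 * B - 1) :=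
      Nat.mul_le_mul_left _ (by omega)
    have h4 : (2 * S + 4) * (2 * B - 1) + (2 * S + 4) = (2 * S + 4) * (2 * B) := by
      rw [← Nat.mul_succ]; congr 1; omega
    have h5 : 2 * (2 * S + 4) * (B + 1) = (2 * S + 4) * (2 * B) + 2 * (2 * S + 4) := by ring
    omega
  have hClt : ∀ a ∈ C, a < n := fun a ha => by have := hCn a ha; omega
  have hcard : C.card = B * (S + 2) := card_CC S B
  obtain ⟨st, hst1, hst2, hst3⟩ := h2 C x S (by omega)
    (fun a ha b hb h => hx a (hClt a ha) b (hClt b hb) h)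
  obtain ⟨σ, Sel, hσ, hsub, hblk, hmon, hcount⟩ := h1 C (fun a => a / (2 * S + 4)) st y (S + 2)
    (C.card / S + 1) S (fun a ha b hb h => hy a (hClt a ha) b (hClt b hb) h)
    (fun β => card_blk S B β) hst2 hst1
  -- count
  have hw : C.card / S + 1 ≤ 4 * S ^ 2 := by
    have h6 : C.card * 4 ≤ n := by
      rw [hcard]
      have h5 : 2 * (2 * S + 4) * (B + 1) = B * (S + 2) * 4 + 2 * (2 * S + 4) := by ring
      omega
    have h7 : C.card / S ≤ 2 * S ^ 2 := by
      apply Nat.div_le_of_le_mul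
      have h8 : (S + 1) ^ 3 ≤ 8 * S ^ 3 := by
        calc (S + 1) ^ 3 ≤ (2 * S) ^ 3 := Nat.pow_le_pow_left (by omega) 3
          _ = 8 * S ^ 3 := by ring
      have h9 : S * (2 * S ^ 2) = 2 * S ^ 3 := by ring
      omega
    omega
  have hsqrt : Real.sqrt ((C.card / S + 1 : ℕ) : ℝ) ≤ 2 * S := by
    rw [show (2 * (S : ℝ)) = Real.sqrt ((2 * S) ^ 2) from (Real.sqrt_sq (by positivity)).symm]
    apply Real.sqrt_le_sqrt
    have : ((C.card / S + 1 : ℕ) : ℝ) ≤ ((4 * S ^ 2 : ℕ) : ℝ) := by exact_mod_cast hw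
    refine this.trans ?_
    push_cast
    nlinarith
  have hSr : (8 : ℝ) ≤ S := by exact_mod_cast hS8
  have hCr : (S : ℝ) ^ 3 ≤ 10 * (C.card : ℝ) := by
    have h10 : S ^ 3 ≤ 10 * C.card := by
      rw [hcard]
      calc S ^ 3 = S ^ 2 * S := by ring
        _ ≤ (10 * B) * (S + 2) := Nat.mul_le_mul hB10 (by omega)
        _ = 10 * (B * (S + 2)) := by ring
    exact_mod_cast h10
  have hSel0 : (0 : ℝ) ≤ Sel.card := Nat.cast_nonneg _
  have hkey : (S : ℝ) ^ 2 ≤ 100 * (Sel.card : ℝ) := by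
    have h11 : (C.card : ℝ) ≤ 2 * (Sel.card : ℝ) * (5 * S) := by
      refine hcount.trans ?_
      apply mul_le_mul_of_nonneg_left _ (by positivity)
      push_cast at hsqrt ⊢
      nlinarith
    have h12 : (S : ℝ) ^ 3 ≤ 100 * (Sel.card : ℝ) * S := by nlinarith
    have h13 : (S : ℝ) ^ 2 * S ≤ 100 * (Sel.card : ℝ) * S := by nlinarith
    exact le_of_mul_le_mul_right h13 (by linarith)
  have hkpos : 1 ≤ Sel.card := by
    by_contra hcon
    have : Sel.card = 0 := by omega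
    rw [this] at hkey
    push_cast at hkey
    nlinarith
  -- enumeration
  set k := Sel.card with hk
  let i : ℕ → ℕ := fun j => if h : j - 1 < k then Sel.orderEmbOfFin hk.symm ⟨j - 1, h⟩ else 0
  have hi : ∀ j, 1 ≤ j → j ≤ k → ∃ h : j - 1 < k, i j = Sel.orderEmbOfFin hk.symm ⟨j - 1, h⟩ := by
    intro j hj1 hj2
    have h : j - 1 < k := by omega
    exact ⟨h, by simp only [i, dif_pos h]⟩
  have himem : ∀ j, 1 ≤ j → j ≤ k → i j ∈ Sel := by
    intro j hj1 hj2
    obtain ⟨h, e⟩ := hi j hj1 hj2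
    rw [e]
    exact Finset.orderEmbOfFin_mem _ _ _
  have hilt : ∀ j j', 1 ≤ j → j < j' → j' ≤ k → i j < i j' := by
    intro j j' hj1 hjj hj2
    obtain ⟨h, e⟩ := hi j hj1 (by omega)
    obtain ⟨h', e'⟩ := hi j' (by omega) hj2
    rw [e, e']
    exact (Sel.orderEmbOfFin hk.symm).strictMono (by
      rw [Fin.lt_def]; simp only; omega)
  have hiC : ∀ j, 1 ≤ j → j ≤ k → ∃ b t, b < B ∧ t < S + 2 ∧
      i j = (2 * S + 4) * (2 * b + 1) + 2 * t := by
    intro j hj1 hj2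
    exact mem_CC.1 (hsub (himem j hj1 hj2))
  refine ⟨S, k, i, fun j => st (i j), σ, hσ, ?_, ?_⟩
  · -- the size
    have hn13 : (n : ℝ) ^ (2 / 3 : ℝ) ≤ 4 * (S : ℝ) ^ 2 := by
      have h14 : (n : ℝ) ≤ (2 * S) ^ 3 := by
        have : n ≤ (2 * S) ^ 3 := by
          calc n ≤ (S + 1) ^ 3 := hS3'.le
            _ ≤ (2 * S) ^ 3 := Nat.pow_le_pow_left (by omega) 3
        exact_mod_cast this
      calc (n : ℝ) ^ (2 / 3 : ℝ) ≤ ((2 * (S : ℝ)) ^ 3) ^ (2 / 3 : ℝ) :=
            Real.rpow_le_rpow (by positivity) h14 (by norm_num)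
        _ = (2 * (S : ℝ)) ^ (2 : ℝ) := by
            rw [← Real.rpow_natCast, ← Real.rpow_mul (by positivity)]
            norm_num
        _ = 4 * (S : ℝ) ^ 2 := by
            rw [show (2 : ℝ) = ((2 : ℕ) : ℝ) from by norm_num, Real.rpow_natCast]
            push_cast
            ring
    linarith
  · refine ⟨hkpos, ?_, ?_, ?_, ?_, ?_, ?_, ?_, ?_⟩
    · intro j hj1 hj2
      exact hst1 _ (hsub (himem j hj1 hj2))
    · intro j j' hj1 hj2 hj1' hj2' hlt
      exact hst3 _ (hsub (himem j hj1 hj2)) _ (hsub (himem j' hj1' hj2')) hlt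
    · intro j j' hj1 hjj hj2 hst
      exact hmon _ (himem j hj1 (by omega)) _ (himem j' (by omega) hj2) (hilt j j' hj1 hjj hj2) hst
    · intro j j' hj1 hjj hj2 hxx
      have := hx _ (hClt _ (hsub (himem j hj1 (by omega)))) _
        (hClt _ (hsub (himem j' (by omega) hj2))) hxx
      have := hilt j j' hj1 hjj hj2
      omega
    · obtain ⟨b, t, hb, ht, e⟩ := hiC 1 le_rfl hkpos
      rw [e]
      have : (2 * S + 4) * 1 ≤ (2 * S + 4) * (2 * b + 1) := Nat.mul_le_mul_left _ (by omega)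
      omega
    · exact hCn _ (hsub (himem k hkpos le_rfl))
    · intro j hj1 hj2
      obtain ⟨b, t, hb, ht, e⟩ := hiC j hj1 (by omega)
      obtain ⟨b', t', hb', ht', e'⟩ := hiC (j + 1) (by omega) (by omega)
      have hlt := hilt j (j + 1) hj1 (by omega) (by omega)
      have ev : (2 * S + 4) * (2 * b + 1) = 2 * ((S + 2) * (2 * b + 1)) := by ring
      have ev' : (2 * S + 4) * (2 * b' + 1) = 2 * ((S + 2) * (2 * b' + 1)) := by ring
      omega
    · intro j hj1 hj2 hne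
      obtain ⟨b, t, hb, ht, e⟩ := hiC j hj1 (by omega)
      obtain ⟨b', t', hb', ht', e'⟩ := hiC (j + 1) (by omega) (by omega)
      have hlt := hilt j (j + 1) hj1 (by omega) (by omega)
      have hbb : b ≠ b' := by
        intro hbb
        apply hne
        apply hblk _ (himem j hj1 (by omega)) _ (himem (j + 1) (by omega) (by omega))
        rw [e, e', div_eq ht, div_eq ht', hbb]
      rw [e, e'] at hlt ⊢
      exact far ht ht' hlt hbb

end Pool.Agent.H172R2.UT
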