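import Pool.Agent.H172R2.UT.LDefs

open Classical

namespace Pool.Agent.H172R2.UT

theorem LSTR_ok : S_LSTR := by
  intro C x S hS hinj
  set r : ℕ → ℕ := fun a => (C.filter (fun b => x b < x a)).card with hr
  set w : ℕ := C.card / S + 1 with hw
  have hw0 : 0 < w := Nat.succ_pos _
  have hrlt : ∀ a ∈ C, r a < C.card := by
    intro a ha
    apply Finset.card_lt_card
    refine ⟨Finset.filter_subset _ _, fun h => ?_⟩
    have := (Finset.mem_filter.1 (h ha)).2
    exact lt_irrefl _ this
  have hrmono : ∀ a ∈ C, ∀ b ∈ C, x a < x b → r a < r b := by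
    intro a ha b hb hab
    apply Finset.card_lt_card
    refine ⟨?_, fun h => ?_⟩
    · intro c hc
      rw [Finset.mem_filter] at hc ⊢
      exact ⟨hc.1, hc.2.trans hab⟩
    · have := (Finset.mem_filter.1 (h (Finset.mem_filter.2 ⟨ha, hab⟩))).2
      exact lt_irrefl _ this
  have hrlt2 : ∀ a ∈ C, ∀ b ∈ C, r a < r b → x a < x b := by
    intro a ha b hb hab
    rcases lt_trichotomy (x a) (x b) with h | h | h
    · exact h
    · have := hinj a ha b hb h
      subst this
      exact absurd hab (lt_irrefl _)
    · have := hrmono b hb a ha h
      omega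
  refine ⟨fun a => r a / w, ?_, ?_, ?_⟩
  · intro a ha
    have h1 := hrlt a ha
    rw [Nat.div_lt_iff_lt_mul hw0]
    have h2 : C.card < S * w := by
      rw [hw]
      have := Nat.div_add_mod C.card S
      have := Nat.mod_lt C.card (by omega : S > 0)
      nlinarith
    omega
  · intro s
    have h1 : ((C.filter (fun a => r a / w = s)).image r) ⊆ Finset.Ico (s * w) (s * w + w) := by
      intro m hm
      obtain ⟨a, ha, rfl⟩ := Finset.mem_image.1 hm
      have h2 := (Finset.mem_filter.1 ha).2
      rw [Finset.mem_Ico]
      have h3 := Nat.div_add_mod (r a) w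
      have h4 := Nat.mod_lt (r a) hw0
      rw [h2, mul_comm] at h3
      constructor <;> omega
    have h2 : ((C.filter (fun a => r a / w = s)).image r).card
        = (C.filter (fun a => r a / w = s)).card := by
      apply Finset.card_image_of_injOn
      intro a ha b hb hab
      have ha' := (Finset.mem_filter.1 (Finset.mem_coe.1 ha)).1
      have hb' := (Finset.mem_filter.1 (Finset.mem_coe.1 hb)).1
      have hab' : r a = r b := hab
      apply hinj a ha' b hb'
      rcases lt_trichotomy (x a) (x b) with h | h | h
      · have := hrmono a ha' b hb' h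
        omega
      · exact h
      · have := hrmono b hb' a ha' h
        omega
    have h3 := Finset.card_le_card h1
    rw [h2, Nat.card_Ico, Nat.add_sub_cancel_left] at h3
    exact h3
  · intro a ha b hb hab
    apply hrlt2 a ha b hb
    by_contra hcon
    push Not at hcon
    have := Nat.div_le_div_right (c := w) hcon
    have h5 : r a / w < r b / w := hab
    omega

end Pool.Agent.H172R2.UT
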