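import Pool.Agent.H172R2.UT.LDefs

open Classical

namespace Pool.Agent.H172R2.UT

theorem LSUPaux.rank (D : Finset ℝ) (x : ℝ) (hx : x ∈ D) :
    ∃ h : (D.filter (fun y => y < x)).card < D.card,
      D.orderEmbOfFin rfl ⟨(D.filter (fun y => y < x)).card, h⟩ = x := by
  have hx' : x ∈ Set.range (D.orderEmbOfFin rfl) := by
    rw [Finset.range_orderEmbOfFin]; exact hx
  obtain ⟨t, ht⟩ := hx'
  have hD : D.filter (fun y => y < x) = (Finset.Iio t).map (D.orderEmbOfFin rfl).toEmbedding := by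
    ext y
    simp only [Finset.mem_filter, Finset.mem_map, Finset.mem_Iio]
    constructor
    · rintro ⟨hy, hyx⟩
      have hy' : y ∈ Set.range (D.orderEmbOfFin rfl) := by
        rw [Finset.range_orderEmbOfFin]; exact hy
      obtain ⟨s, hs⟩ := hy'
      refine ⟨s, ?_, hs⟩
      rw [← ht, ← hs] at hyx
      exact (D.orderEmbOfFin rfl).lt_iff_lt.1 hyx
    · rintro ⟨s, hs, rfl⟩
      refine ⟨Finset.orderEmbOfFin_mem D rfl s, ?_⟩
      rw [← ht]
      exact (D.orderEmbOfFin rfl).lt_iff_lt.2 hs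
  have hc : (D.filter (fun y => y < x)).card = t.val := by
    rw [hD, Finset.card_map, Fin.card_Iio]
  have h1 : (D.filter (fun y => y < x)).card < D.card := hc ▸ t.isLt
  refine ⟨h1, ?_⟩
  have h2 : (⟨(D.filter (fun y => y < x)).card, h1⟩ : Fin D.card) = t := Fin.ext hc
  exact (congrArg _ h2).trans ht

theorem LSUPaux.ext (j : ℕ) (B : Finset ℝ) (hB : ∀ τ ∈ B, (j : ℝ) ≤ τ ∧ τ < j + 1) (c : ℕ)
    (hc : B.card ≤ c) : ∃ D : Finset ℝ, B ⊆ D ∧ (∀ τ ∈ D, (j : ℝ) ≤ τ ∧ τ < j + 1) ∧ D.card = c := by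
  have hinf : (Set.Ico (j : ℝ) (j + 1)).Infinite := Set.Ico_infinite (by linarith)
  obtain ⟨D, h1, h2, h3⟩ := Set.Infinite.exists_superset_ncard_eq (s := (B : Set ℝ)) hinf
    (fun τ hτ => hB τ hτ) B.finite_toSet (k := c) (by rw [Set.ncard_coe_finset]; exact hc)
  by_cases hc0 : c = 0
  · refine ⟨∅, ?_, by simp, by simp [hc0]⟩
    have : B.card = 0 := by omega
    rw [Finset.card_eq_zero] at this
    rw [this]
  have hfin : D.Finite := Set.finite_of_ncard_ne_zero (by rw [h3]; exact hc0)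
  refine ⟨hfin.toFinset, ?_, ?_, ?_⟩
  · intro τ hτ
    rw [Set.Finite.mem_toFinset]
    exact h1 hτ
  · intro τ hτ
    rw [Set.Finite.mem_toFinset] at hτ
    exact h2 hτ
  · rw [← h3, Set.ncard_eq_toFinset_card D hfin]

theorem LSUP_ok : S_LSUP := by
  intro k c B hB1 hB2 hB3
  have hex : ∀ j : ℕ, ∃ D : Finset ℝ, j ≤ k → (B.filter (fun τ => (j : ℝ) ≤ τ ∧ τ < j + 1) ⊆ D ∧
      (∀ τ ∈ D, (j : ℝ) ≤ τ ∧ τ < j + 1) ∧ D.card = c j) := by
    intro j
    by_cases hj : j ≤ k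
    · obtain ⟨D, h⟩ := LSUPaux.ext j (B.filter (fun τ => (j : ℝ) ≤ τ ∧ τ < j + 1))
        (fun τ hτ => (Finset.mem_filter.1 hτ).2) (c j) (hB3 j hj)
      exact ⟨D, fun _ => h⟩
    · exact ⟨∅, fun h => absurd h hj⟩
  choose E hE using hex
  set D : Finset ℝ := (Finset.range (k+1)).biUnion E with hD
  have hmemD : ∀ τ, τ ∈ D ↔ ∃ j ≤ k, τ ∈ E j := by
    intro τ
    rw [hD, Finset.mem_biUnion]
    constructor
    · rintro ⟨j, hj, h⟩
      exact ⟨j, by rw [Finset.mem_range] at hj; omega, h⟩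
    · rintro ⟨j, hj, h⟩
      exact ⟨j, by rw [Finset.mem_range]; omega, h⟩
  have hdisj : ∀ i ≤ k, ∀ j ≤ k, i ≠ j → Disjoint (E i) (E j) := by
    intro i hi j hj hij
    rw [Finset.disjoint_left]
    intro τ h1 h2
    have e1 := (hE i hi).2.1 τ h1
    have e2 := (hE j hj).2.1 τ h2
    rcases lt_or_gt_of_ne hij with h | h
    · have : (i : ℝ) + 1 ≤ j := by exact_mod_cast h
      linarith
    · have : (j : ℝ) + 1 ≤ i := by exact_mod_cast h
      linarith
  have hcard : ∀ m ≤ k + 1, ((Finset.range m).biUnion E).card = ∑ j ∈ Finset.range m, c j := by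
    intro m hm
    rw [Finset.card_biUnion]
    · refine Finset.sum_congr rfl fun j hj => ?_
      rw [Finset.mem_range] at hj
      exact (hE j (by omega)).2.2
    · intro i hi j hj hij
      rw [Finset.mem_coe, Finset.mem_range] at hi hj
      exact hdisj i (by omega) j (by omega) hij
  have hDcard : D.card = ∑ j ∈ Finset.range (k+1), c j := hcard (k+1) le_rfl
  have hfilt : ∀ m ≤ k, D.filter (fun y => y < (m : ℝ)) = (Finset.range m).biUnion E := by
    intro m hm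
    ext τ
    rw [Finset.mem_filter, hmemD, Finset.mem_biUnion]
    constructor
    · rintro ⟨⟨j, hj, h⟩, hlt⟩
      refine ⟨j, ?_, h⟩
      rw [Finset.mem_range]
      have := ((hE j hj).2.1 τ h).1
      have h2 : (j : ℝ) < m := this.trans_lt hlt
      exact_mod_cast h2
    · rintro ⟨j, hj, h⟩
      rw [Finset.mem_range] at hj
      refine ⟨⟨j, by omega, h⟩, ?_⟩
      have h1 := ((hE j (by omega)).2.1 τ h).2
      have h2 : (j : ℝ) + 1 ≤ m := by exact_mod_cast hj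
      linarith
  set θ : ℕ → ℝ := fun t => if h : t < D.card then D.orderEmbOfFin rfl ⟨t, h⟩ else (k : ℝ) + 1
    with hθ
  have hDlt : ∀ τ ∈ D, τ < (k : ℝ) + 1 := by
    intro τ hτ
    obtain ⟨j, hj, h⟩ := (hmemD τ).1 hτ
    have h1 := ((hE j hj).2.1 τ h).2
    have h2 : (j : ℝ) ≤ k := by exact_mod_cast hj
    linarith
  have hBD : ∀ τ ∈ B, τ ∈ D := by
    intro τ hτ
    obtain ⟨h0, h1⟩ := hB2 τ hτ
    have h2 := Nat.floor_le h0
    have h3 := Nat.lt_floor_add_one τ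
    have h4 : ⌊τ⌋₊ ≤ k := by
      have : (⌊τ⌋₊ : ℝ) < k + 1 := h2.trans_lt h1
      have : ⌊τ⌋₊ < k + 1 := by exact_mod_cast this
      omega
    rw [hmemD]
    exact ⟨⌊τ⌋₊, h4, (hE _ h4).1 (Finset.mem_filter.2 ⟨hτ, h2, h3⟩)⟩
  have hval : ∀ m ≤ k, θ (∑ l ∈ Finset.range m, c l) = m := by
    intro m hm
    obtain ⟨h1, h2⟩ := LSUPaux.rank D (m : ℝ) (hBD _ (hB1 m hm))
    have h3 : (D.filter (fun y => y < (m : ℝ))).card = ∑ l ∈ Finset.range m, c l := by
      rw [hfilt m hm, hcard m (by omega)]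
    have h4 : ∑ l ∈ Finset.range m, c l < D.card := h3 ▸ h1
    simp only [hθ]
    rw [dif_pos h4]
    have h5 : (⟨∑ l ∈ Finset.range m, c l, h4⟩ : Fin D.card)
        = ⟨(D.filter (fun y => y < (m : ℝ))).card, h1⟩ := Fin.ext h3.symm
    rw [h5]
    exact h2
  refine ⟨θ, ?_, ?_, ?_, hval, ?_⟩
  · have := hval 0 (Nat.zero_le _)
    simpa using this
  · intro t ht
    rw [← hDcard] at ht
    simp only [hθ]
    rw [dif_pos ht]
    by_cases h : t + 1 < D.card
    · rw [dif_pos h]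
      exact (D.orderEmbOfFin rfl).lt_iff_lt.2 (by simp [Fin.lt_def])
    · rw [dif_neg h]
      exact hDlt _ (Finset.orderEmbOfFin_mem D rfl _)
  · simp only [hθ]
    rw [dif_neg (by rw [hDcard]; exact lt_irrefl _)]
  · intro τ hτ
    obtain ⟨h1, h2⟩ := LSUPaux.rank D τ (hBD _ hτ)
    refine ⟨_, hDcard ▸ h1, ?_⟩
    simp only [hθ]
    rw [dif_pos h1]
    exact h2

end Pool.Agent.H172R2.UT
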