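import Pool.Agent.H172R2.UT.Defs

/-! Task LT: separator theorem for two page graphs (helper862). -/

set_option autoImplicit false

open Classical

namespace Pool.Agent.H172R2.UT

namespace LTaux

theorem sum_eq (m : ℕ) (w : ℕ → ℕ) (P : ℕ → Prop) (Q : Fin (m + 1) → Prop)
    (dP : DecidablePred P) (dQ : DecidablePred Q) (h : ∀ v : Fin (m + 1), P v.val ↔ Q v) :
    ∑ i ∈ (Finset.range (m + 1)).filter P, w i = ∑ v ∈ Finset.univ.filter Q, w v.val := by
  rw [Finset.sum_filter, Finset.sum_filter, Finset.sum_range]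
  refine Finset.sum_congr rfl fun v _ => ?_
  by_cases hv : P v.val
  · rw [if_pos hv, if_pos ((h v).1 hv)]
  · rw [if_neg hv, if_neg (fun hq => hv ((h v).2 hq))]

end LTaux

open LTaux in
theorem LT_ok (h1 : S_SPH) (h2 : S_TRI) (h3 : S_TWP) : S_LT := by
  obtain ⟨C₁, hC₁, hs⟩ := h1
  refine ⟨C₁ + 2, by omega, ?_⟩
  intro M U L hU hL hNU hNL w
  rcases Nat.lt_or_ge M 3 with hM | hM
  · -- small cases
    refine ⟨Finset.range M, fun _ => false, Finset.Subset.refl _, ?_, ?_, ?_, ?_⟩
    · rw [Finset.card_range]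
      have h4 : (M : ℝ) ≤ 2 := by
        have : M ≤ 2 := by omega
        exact_mod_cast this
      have h5 : √(M : ℝ) * √(M : ℝ) = M := Real.mul_self_sqrt (Nat.cast_nonneg M)
      have h6 : 0 ≤ √(M : ℝ) := Real.sqrt_nonneg _
      have h7 : √(M : ℝ) ≤ 2 := by
        rw [Real.sqrt_le_left (by norm_num)]
        linarith
      have h8 : (2 : ℝ) ≤ ((C₁ + 2 : ℕ) : ℝ) := by
        push_cast
        have : (0 : ℝ) ≤ C₁ := Nat.cast_nonneg _
        linarith
      calc (M : ℝ) = √(M : ℝ) * √(M : ℝ) := h5.symm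
        _ ≤ ((C₁ + 2 : ℕ) : ℝ) * √(M : ℝ) := mul_le_mul_of_nonneg_right (h7.trans h8) h6
    · intro i hi hiX
      exact absurd (Finset.mem_range.2 (by omega)) hiX
    · intro e he heX
      rw [Finset.mem_union] at he
      rcases he with he | he
      · have := hU e he
        exact absurd (Finset.mem_range.2 (by omega)) heX
      · have := hL e he
        exact absurd (Finset.mem_range.2 (by omega)) heX
    · intro b
      have h4 : (Finset.range M).filter (fun i => i ∉ Finset.range M ∧ false = b) = ∅ := by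
        apply Finset.filter_eq_empty_iff.2
        intro i hi h
        exact h.1 hi
      rw [h4, Finset.sum_empty, mul_zero]
      exact Nat.zero_le _
  · obtain ⟨m, rfl⟩ : ∃ m, M = m + 1 := ⟨M - 1, by omega⟩
    have hm : 2 ≤ m := by omega
    obtain ⟨T, c, hT, hUT⟩ := h2 m U (by omega)
      (fun e he => ⟨(hU e he).1, Nat.lt_succ_iff.1 (hU e he).2⟩) hNU
    obtain ⟨T', c', hT', hLT⟩ := h2 m L (by omega)
      (fun e he => ⟨(hL e he).1, Nat.lt_succ_iff.1 (hL e he).2⟩) hNL
    obtain ⟨F, E, iF, iE, S, hS⟩ := h3 m T T' c c' hm hT hT'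
    obtain ⟨X₀, lab₀, hX, hlab, hw⟩ := hs (Fin (m + 1)) F E S (fun v => w v.val)
    set X : Finset ℕ := X₀.map Fin.valEmbedding with hXdef
    set lab : ℕ → Bool := fun i => if h : i < m + 1 then lab₀ ⟨i, h⟩ else false with hlabdef
    have memX : ∀ v : Fin (m + 1), v.val ∈ X ↔ v ∈ X₀ := by
      intro v
      rw [hXdef, Finset.mem_map]
      constructor
      · rintro ⟨u, hu, huv⟩
        have : u = v := Fin.ext huv
        rwa [← this]
      · intro hv
        exact ⟨v, hv, rfl⟩
    have labv : ∀ v : Fin (m + 1), lab v.val = lab₀ v := by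
      intro v
      simp only [hlabdef]
      rw [dif_pos v.isLt]
    -- edges
    have edge : ∀ i j : ℕ, i < m + 1 → j < m + 1 → (i, j) ∈ T ∪ T' → i ∉ X → j ∉ X →
        lab i = lab j := by
      intro i j hi hj hij hiX hjX
      obtain ⟨e, he1, he2⟩ := hS ⟨i, hi⟩ ⟨j, hj⟩ hij
      have h4 := hlab e
      rw [he1, he2] at h4
      have h5 := h4 (fun h => hiX ((memX ⟨i, hi⟩).2 h)) (fun h => hjX ((memX ⟨j, hj⟩).2 h))
      rw [← labv ⟨i, hi⟩, ← labv ⟨j, hj⟩] at h5
      exact h5
    refine ⟨X, lab, ?_, ?_, ?_, ?_, ?_⟩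
    · intro i hi
      rw [hXdef, Finset.mem_map] at hi
      obtain ⟨u, -, rfl⟩ := hi
      exact Finset.mem_range.2 u.isLt
    · have h4 : X.card = X₀.card := by rw [hXdef, Finset.card_map]
      rw [h4]
      refine hX.trans ?_
      rw [Fintype.card_fin]
      refine mul_le_mul_of_nonneg_right ?_ (Real.sqrt_nonneg _)
      push_cast
      linarith
    · intro i hi hiX hiX'
      exact edge i (i + 1) (by omega) hi
        (Finset.mem_union_left _ (hT.unit i (by omega))) hiX hiX'
    · intro e he heX heX'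
      rw [Finset.mem_union] at he
      rcases he with he | he
      · have h4 := hU e he
        exact edge e.1 e.2 (by omega) (by omega) (Finset.mem_union_left _ (hUT he)) heX heX'
      · have h4 := hL e he
        exact edge e.1 e.2 (by omega) (by omega) (Finset.mem_union_right _ (hLT he)) heX heX'
    · intro b
      have h4 := hw b
      rw [Finset.sum_range]
      rw [sum_eq m w (fun i => i ∉ X ∧ lab i = b) (fun v => v ∉ X₀ ∧ lab₀ v = b) _ _ ?_]
      · exact h4
      · intro v
        rw [memX, labv]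

end Pool.Agent.H172R2.UT
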