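import Pool.Agent.H172R2.UT.LDefs

open Classical

namespace Pool.Agent.H172R2.UT

theorem LTIMaux.mono (n : ℕ) (θ : ℕ → ℝ) (h : ∀ t < n, θ t < θ (t+1)) (i j : ℕ) (hij : i ≤ j)
    (hj : j ≤ n) : θ i ≤ θ j := by
  induction j, hij using Nat.le_induction with
  | base => exact le_rfl
  | succ j hij ih => exact (ih (by omega)).trans (h j (by omega)).le

theorem LTIMaux.smono (n : ℕ) (θ : ℕ → ℝ) (h : ∀ t < n, θ t < θ (t+1)) (i j : ℕ) (hij : i < j)
    (hj : j ≤ n) : θ i < θ j :=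
  (h i (by omega)).trans_le (LTIMaux.mono n θ h (i+1) j hij hj)

theorem LTIMaux.eq (n : ℕ) (θ : ℕ → ℝ) (h : ∀ t < n, θ t < θ (t+1)) (i j : ℕ) (hi : i < n)
    (hj : j < n) (l l' : ℝ) (hl0 : 0 ≤ l) (hl1 : l < 1) (hl0' : 0 ≤ l') (hl1' : l' < 1)
    (he : (1 - l) * θ i + l * θ (i+1) = (1 - l') * θ j + l' * θ (j+1)) : i = j := by
  have hi' := h i hi
  have hj' := h j hj
  rcases lt_trichotomy i j with hlt | heq | hgt
  · have h1 := LTIMaux.mono n θ h (i+1) j hlt hj.le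
    nlinarith
  · exact heq
  · have h1 := LTIMaux.mono n θ h (j+1) i hgt hi.le
    nlinarith

theorem LTIM_ok : S_LTIM := by
  intro n K γ θ hn hθ0 hθ hθn hγ hinj haff
  have hrange : ∀ i < n, ∀ l : ℝ, 0 ≤ l → l < 1 →
      (1 - l) * θ i + l * θ (i+1) ∈ Set.Ico (0:ℝ) K := by
    intro i hi l hl0 hl1
    have h1 := LTIMaux.mono n θ hθ 0 i (Nat.zero_le _) hi.le
    have h2 := LTIMaux.mono n θ hθ (i+1) n hi le_rfl
    have h3 := hθ i hi
    rw [hθ0] at h1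
    rw [hθn] at h2
    constructor
    · nlinarith
    · nlinarith
  have key : ∀ i < n, ∀ j < n, ∀ l l' : ℝ, 0 ≤ l → l < 1 → 0 ≤ l' → l' < 1 →
      γ ((1 - l) * θ i + l * θ (i+1)) = γ ((1 - l') * θ j + l' * θ (j+1)) →
      (1 - l) * θ i + l * θ (i+1) = (1 - l') * θ j + l' * θ (j+1) ∧ i = j := by
    intro i hi j hj l l' h0 h1 h0' h1' he
    have h2 := hinj (hrange i hi l h0 h1) (hrange j hj l' h0' h1') he
    exact ⟨h2, LTIMaux.eq n θ hθ i j hi hj l l' h0 h1 h0' h1' h2⟩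
  have hzero : ∀ i, (1 - (0:ℝ)) * θ i + 0 * θ (i+1) = θ i := fun i => by ring
  have hseg : ∀ i < n, ∀ z ∈ openSegment ℝ (γ (θ i)) (γ (θ (i+1))),
      ∃ l : ℝ, 0 < l ∧ l < 1 ∧ z = γ ((1 - l) * θ i + l * θ (i+1)) := by
    intro i hi z hz
    obtain ⟨a, b, ha, hb, hab, rfl⟩ := hz
    refine ⟨b, hb, by linarith, ?_⟩
    rw [haff i hi b hb.le (by linarith)]
    have : 1 - b = a := by linarith
    rw [this]
  refine ⟨?_, ?_, ?_, ?_⟩
  · show γ (θ n) = γ (θ 0)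
    rw [hθn, hθ0, hγ]
  · intro i hi j hj he
    have he' : γ (θ i) = γ (θ j) := he
    rw [← hzero i, ← hzero j] at he'
    exact (key i hi j hj 0 0 le_rfl one_pos le_rfl one_pos he').2
  · intro i hi j hj hij
    rw [Set.disjoint_left]
    intro z hz hz'
    obtain ⟨l, h0, h1, hl⟩ := hseg i hi z hz
    obtain ⟨l', h0', h1', hl'⟩ := hseg j hj z hz'
    exact hij (key i hi j hj l l' h0.le h1 h0'.le h1' (hl ▸ hl')).2
  · intro i hi j hj hz
    obtain ⟨l, h0, h1, hl⟩ := hseg i hi _ hz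
    have hl2 : γ (θ j) = γ ((1 - l) * θ i + l * θ (i+1)) := hl
    rw [← hzero j] at hl2
    obtain ⟨h3, h4⟩ := key i hi j hj l 0 h0.le h1 le_rfl one_pos hl2.symm
    subst h4
    have h5 := hθ i hi
    nlinarith

end Pool.Agent.H172R2.UT
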