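import Pool.Agent.H172R2.UT.Defs

open Classical

namespace Pool.Agent.H172R2.UT

namespace MAINTaux

theorem mod_cases (n i : ℕ) (hi : i < n) :
    (i + 1 < n ∧ (i + 1) % n = i + 1) ∨ (i + 1 = n ∧ (i + 1) % n = 0) := by
  rcases Nat.lt_or_ge (i + 1) n with h | h
  · exact Or.inl ⟨h, Nat.mod_eq_of_lt h⟩
  · have : i + 1 = n := by omega
    exact Or.inr ⟨this, by rw [this, Nat.mod_self]⟩

theorem adj (n i : ℕ) (hn : 3 ≤ n) (hi : i < n) (h1 : (i + 1) % n < n) :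
    (SimpleGraph.cycleGraph n).Adj ⟨i, hi⟩ ⟨(i + 1) % n, h1⟩ := by
  rw [SimpleGraph.cycleGraph_adj']
  right
  rw [Fin.sub_def]
  show (n - i + (i + 1) % n) % n = 1
  rcases mod_cases n i hi with ⟨h2, h3⟩ | ⟨h2, h3⟩
  · rw [h3]
    have : n - i + (i + 1) = n + 1 := by omega
    rw [this, Nat.add_mod_left, Nat.mod_eq_of_lt (by omega)]
  · rw [h3]
    have : n - i + 0 = 1 := by omega
    rw [this, Nat.mod_eq_of_lt (by omega)]

theorem edges (n i j : ℕ) (hn : 3 ≤ n) (hi : i < n) (hj : j < n) (hij : i ≠ j)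
    (h1 : (i + 1) % n < n) (h2 : (j + 1) % n < n) :
    s((⟨i, hi⟩ : Fin n), (⟨(i + 1) % n, h1⟩ : Fin n))
      ≠ s((⟨j, hj⟩ : Fin n), (⟨(j + 1) % n, h2⟩ : Fin n)) := by
  intro h
  rw [Sym2.eq_iff] at h
  rcases h with ⟨h, _⟩ | ⟨h, h'⟩
  · exact hij (congrArg Fin.val h)
  · have e1 : i = (j + 1) % n := congrArg Fin.val h
    have e2 : (i + 1) % n = j := congrArg Fin.val h'
    rcases mod_cases n i hi with ⟨a1, a2⟩ | ⟨a1, a2⟩ <;>
    rcases mod_cases n j hj with ⟨b1, b2⟩ | ⟨b1, b2⟩ <;> omega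

end MAINTaux

theorem MAINT_ok (h : S_FIN) : S_MAINT := by
  obtain ⟨C, hC, hfin⟩ := h
  refine ⟨C, hC, ?_⟩
  intro n hn
  obtain ⟨π, hπ⟩ := hfin n hn
  set p : Fin n → ℝ × ℝ := fun v => (((π v).val : ℝ), ((π v).val : ℝ) ^ 2) with hp
  have hpinj : Function.Injective p := by
    intro u v huv
    have h1 : ((π u).val : ℝ) = ((π v).val : ℝ) := congrArg Prod.fst huv
    have h2 : (π u).val = (π v).val := Nat.cast_injective h1
    exact π.injective (Fin.ext h2)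
  have h1 : fixGraph (SimpleGraph.cycleGraph n) ≤ fixDrawing (SimpleGraph.cycleGraph n) p :=
    Nat.sInf_le ⟨p, hpinj, rfl⟩
  have h2 : fixDrawing (SimpleGraph.cycleGraph n) p ≤ ⌊C * (n : ℝ) ^ (2/3 : ℝ)⌋₊ := by
    apply csSup_le'
    rintro k ⟨S, hSk, p', hcf, hfix⟩
    apply Nat.le_floor
    rw [← hSk]
    have hn0 : 0 < n := by omega
    have hCFN : CFN n (fun i => p' ⟨i % n, Nat.mod_lt i hn0⟩) := by
      obtain ⟨hinj, hdis, hver⟩ := hcf
      have hq : ∀ i (hi : i < n), (⟨i % n, Nat.mod_lt i hn0⟩ : Fin n) = ⟨i, hi⟩ := by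
        intro i hi
        apply Fin.ext
        exact Nat.mod_eq_of_lt hi
      refine ⟨?_, ?_, ?_, ?_⟩
      · show p' ⟨n % n, _⟩ = p' ⟨0 % n, _⟩
        congr 1
        apply Fin.ext
        simp
      · intro i hi j hj hij
        have h3 := hinj hij
        rw [hq i hi, hq j hj] at h3
        exact congrArg Fin.val h3
      · intro i hi j hj hij
        show Disjoint (openSegment ℝ (p' ⟨i % n, _⟩) (p' ⟨(i + 1) % n, _⟩))
          (openSegment ℝ (p' ⟨j % n, _⟩) (p' ⟨(j + 1) % n, _⟩))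
        rw [hq i hi, hq j hj]
        exact hdis _ _ _ _ (MAINTaux.adj n i hn hi _) (MAINTaux.adj n j hn hj _)
          (MAINTaux.edges n i j hn hi hj hij _ _)
      · intro i hi j hj
        show p' ⟨j % n, _⟩ ∉ openSegment ℝ (p' ⟨i % n, _⟩) (p' ⟨(i + 1) % n, _⟩)
        rw [hq i hi]
        exact hver _ _ _ (MAINTaux.adj n i hn hi _)
    refine hπ _ hCFN S ?_
    intro i hi
    show p' ⟨i.val % n, _⟩ = _
    have h3 : (⟨i.val % n, Nat.mod_lt _ hn0⟩ : Fin n) = i := by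
      apply Fin.ext
      exact Nat.mod_eq_of_lt i.2
    rw [h3]
    exact hfix i hi
  have hpos : 0 ≤ C * (n : ℝ) ^ (2/3 : ℝ) := by positivity
  calc (fixGraph (SimpleGraph.cycleGraph n) : ℝ)
      ≤ (⌊C * (n : ℝ) ^ (2/3 : ℝ)⌋₊ : ℝ) := by exact_mod_cast h1.trans h2
    _ ≤ C * (n : ℝ) ^ (2/3 : ℝ) := Nat.floor_le hpos

end Pool.Agent.H172R2.UT
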