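import Pool.Agent.H172R2.UT.Defs

/-!
# Real inequalities for the recursion
-/

set_option autoImplicit false

open Classical

namespace Pool.Agent.H172R2.UT

namespace NUMaux

theorem quart (u : ℝ) (hu : 0 ≤ u) : ∃ s : ℝ, 0 ≤ s ∧ u = s ^ 4 ∧ u ^ (3 / 4 : ℝ) = s ^ 3 ∧
    √u = s ^ 2 := by
  refine ⟨u ^ (1 / 4 : ℝ), Real.rpow_nonneg hu _, ?_, ?_, ?_⟩
  · rw [← Real.rpow_natCast, ← Real.rpow_mul hu]
    norm_num
  · rw [← Real.rpow_natCast (u ^ (1 / 4 : ℝ)) 3, ← Real.rpow_mul hu]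
    norm_num
  · rw [← Real.rpow_natCast (u ^ (1 / 4 : ℝ)) 2, ← Real.rpow_mul hu, Real.sqrt_eq_rpow]
    norm_num

theorem lo (s t : ℝ) (hs : 0 ≤ s) (h : 3 / 10 * t ^ 4 ≤ s ^ 4) :
    0.74 * t ≤ s := by
  by_contra hc
  push Not at hc
  have h1 : s ^ 4 < (0.74 * t) ^ 4 := pow_lt_pow_left₀ hc hs (by norm_num)
  have h2 : 0 ≤ t ^ 4 := by positivity
  nlinarith [h1, h2]

theorem hi (s t : ℝ) (ht : 0 ≤ t) (h : s ^ 4 ≤ 7 / 10 * t ^ 4) :
    s ≤ 0.915 * t := by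
  by_contra hc
  push Not at hc
  have h1 : (0.915 * t) ^ 4 < s ^ 4 := pow_lt_pow_left₀ hc (by positivity) (by norm_num)
  have h2 : 0 ≤ t ^ 4 := by positivity
  nlinarith [h1, h2]

theorem poly1 (v : ℝ) (h1 : 0.74 ≤ v) (h2 : v ≤ 0.915) : 0.9 * v ^ 4 + 0.125 ≤ v ^ 3 := by
  have h3 : 0 ≤ (v - 0.74) * (0.915 - v) := mul_nonneg (by linarith) (by linarith)
  nlinarith [mul_nonneg h3 (sq_nonneg (v - 0.5)), mul_nonneg h3 (sq_nonneg v), h3,
    mul_nonneg h3 (by linarith : (0:ℝ) ≤ v - 0.74), mul_nonneg h3 (by linarith : (0:ℝ) ≤ 0.915 - v)]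

theorem poly (s t : ℝ) (hs : 0 ≤ s) (ht : 0 < t) (h1 : 3 / 10 * t ^ 4 ≤ s ^ 4)
    (h2 : s ^ 4 ≤ 7 / 10 * t ^ 4) : 0.9 * s ^ 4 + 0.125 * t ^ 4 ≤ s ^ 3 * t := by
  have a1 := lo s t hs h1
  have a2 := hi s t ht.le h2
  have b1 : 0.74 ≤ s / t := by rw [le_div_iff₀ ht]; exact a1
  have b2 : s / t ≤ 0.915 := by rw [div_le_iff₀ ht]; exact a2
  have h3 := poly1 (s / t) b1 b2
  have h4 : 0 < t ^ 4 := by positivity
  have h5 := mul_le_mul_of_nonneg_right h3 h4.le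
  have e1 : (0.9 * (s / t) ^ 4 + 0.125) * t ^ 4 = 0.9 * s ^ 4 + 0.125 * t ^ 4 := by
    field_simp
  have e2 : (s / t) ^ 3 * t ^ 4 = s ^ 3 * t := by
    field_simp
  rw [e1, e2] at h5
  exact h5

theorem two (s s₁ s₂ : ℝ) (hs : 0 < s) (h1 : 0 ≤ s₁) (h2 : 0 ≤ s₂)
    (a1 : 3 / 10 * s ^ 4 ≤ s₁ ^ 4) (b1 : s₁ ^ 4 ≤ 7 / 10 * s ^ 4)
    (a2 : 3 / 10 * s ^ 4 ≤ s₂ ^ 4) (b2 : s₂ ^ 4 ≤ 7 / 10 * s ^ 4)
    (h : s ^ 4 ≤ s₁ ^ 4 + s₂ ^ 4) : 1.15 * s ^ 3 ≤ s₁ ^ 3 + s₂ ^ 3 := by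
  have c1 := poly s₁ s h1 hs a1 b1
  have c2 := poly s₂ s h2 hs a2 b2
  have c3 : 1.15 * s ^ 3 * s ≤ (s₁ ^ 3 + s₂ ^ 3) * s := by nlinarith
  exact le_of_mul_le_mul_right c3 hs

theorem fin2 (C D t s l α : ℝ) (hC : 1 ≤ C) (hD : 0 < D) (ht : 1 ≤ t) (hs : 0 ≤ s)
    (hl : 1 ≤ l) (hls : l ^ 2 ≤ 64 * s) (hα : α = 1280 * (64 * C + 6 * D * C)) :
    64 * C + 4 * D * C * l + 2 * D * C * l ^ 2 ≤ 0.05 * α * (t * s) := by
  have DC : 0 < D * C := by positivity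
  have u1 : l ≤ l ^ 2 := by nlinarith
  have u2 : 1 ≤ l ^ 2 := by nlinarith
  have v1 := mul_le_mul_of_nonneg_left u1 DC.le
  have v2 := mul_le_mul_of_nonneg_left u2 (by linarith : (0:ℝ) ≤ C)
  have u3 : 64 * C + 4 * D * C * l + 2 * D * C * l ^ 2 ≤ (64 * C + 6 * D * C) * l ^ 2 := by
    linarith
  have hp : 0 ≤ 64 * C + 6 * D * C := by positivity
  have u4 : (64 * C + 6 * D * C) * l ^ 2 ≤ (64 * C + 6 * D * C) * (64 * s) :=
    mul_le_mul_of_nonneg_left hls hp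
  have u5 : (64 * C + 6 * D * C) * (64 * s) = 0.05 * α * (1 * s) := by
    rw [hα]; ring
  have hα0 : 0 ≤ 0.05 * α := by rw [hα]; positivity
  have u6 : 0.05 * α * (1 * s) ≤ 0.05 * α * (t * s) :=
    mul_le_mul_of_nonneg_left (mul_le_mul_of_nonneg_right ht hs) hα0
  linarith

/-- `log u ≤ 8 √(u^{1/4})`, squared -/
theorem logsq (s : ℝ) (hs : 1 ≤ s) : (1 + Real.log (s ^ 4)) ^ 2 ≤ 64 * s := by
  have h0 : 0 < √s := Real.sqrt_pos.mpr (by linarith)
  have h1 : Real.log (s ^ 4) = 8 * Real.log (√s) := by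
    have : s ^ 4 = √s ^ 8 := by
      have : √s ^ 8 = (√s ^ 2) ^ 4 := by ring
      rw [this, Real.sq_sqrt (by linarith)]
    rw [this, Real.log_pow]
    norm_num
  have h2 : Real.log (√s) ≤ √s - 1 := Real.log_le_sub_one_of_pos h0
  have h3 : 0 ≤ Real.log (s ^ 4) := Real.log_nonneg (one_le_pow₀ hs)
  have h4 : 1 + Real.log (s ^ 4) ≤ 8 * √s := by rw [h1]; linarith
  calc (1 + Real.log (s ^ 4)) ^ 2 ≤ (8 * √s) ^ 2 := pow_le_pow_left₀ (by linarith) h4 2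
    _ = 64 * √s ^ 2 := by ring
    _ = 64 * s := by rw [Real.sq_sqrt (by linarith)]

/-- bound for the cost -/
theorem cost (D C a u r : ℝ) (hD : 0 < D) (hC : 1 ≤ C) (ha : 1 ≤ a) (hu : 10 ≤ u) (hr : 0 ≤ r) :
    Ecost D C a u r ≤ 64 * C * (a * √u) + 4 * D * C * (a * √u) * (1 + Real.log u) +
      D * r * (1 + Real.log u) := by
  have hu0 : 0 < u := by linarith
  have hsq : √u ^ 2 = u := Real.sq_sqrt hu0.le
  have hs3 : 3 ≤ √u := by
    apply Real.le_sqrt_of_sq_le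
    linarith
  have hq : 1 + √u ≤ u := by nlinarith
  have hau : 1 ≤ a * √u := by nlinarith
  have hCau : a * √u ≤ C * a * √u := by nlinarith
  have hL : 0 ≤ Real.log u := Real.log_nonneg (by linarith)
  -- first term
  have t1 : 8 * Real.log ((4 + 2 * C) * (a ^ 2 * u)) ≤ 64 * C * (a * √u) := by
    have e : (4 + 2 * C) * (a ^ 2 * u) = (4 + 2 * C) * (a * √u) ^ 2 := by
      rw [mul_pow, hsq]
    have hp : 0 < a * √u := by linarith
    rw [e, Real.log_mul (by linarith) (by positivity), Real.log_pow]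
    have l1 : Real.log (4 + 2 * C) ≤ (4 + 2 * C) - 1 := Real.log_le_sub_one_of_pos (by linarith)
    have l2 : Real.log (a * √u) ≤ a * √u - 1 := Real.log_le_sub_one_of_pos hp
    push_cast
    nlinarith
  -- the logarithms
  have lg : ∀ x : ℝ, a * √u ≤ x → Real.log (1 + a * u / x) ≤ Real.log u := by
    intro x hx
    have hx0 : 0 < x := by linarith
    apply Real.log_le_log
    · have : 0 ≤ a * u / x := by positivity
      linarith
    · have h1 : a * u / x ≤ √u := by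
        rw [div_le_iff₀ hx0]
        nlinarith [mul_le_mul_of_nonneg_left hx (Real.sqrt_nonneg u)]
      linarith
  have g1 := lg (C * a * √u + 1) (by linarith)
  have g2 := lg (C * a * √u + r + 1) (by linarith)
  have t2 : D * (C * a * √u + 1) * (1 + Real.log (1 + a * u / (C * a * √u + 1))) ≤
      D * (C * a * √u + 1) * (1 + Real.log u) := by
    apply mul_le_mul_of_nonneg_left (by linarith)
    have : 0 ≤ C * a * √u := by linarith
    positivity
  have t3 : D * (C * a * √u + r + 1) * (1 + Real.log (1 + a * u / (C * a * √u + r + 1))) ≤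
      D * (C * a * √u + r + 1) * (1 + Real.log u) := by
    apply mul_le_mul_of_nonneg_left (by linarith)
    have : 0 ≤ C * a * √u := by linarith
    positivity
  have t4 : D * (C * a * √u + 1) * (1 + Real.log u) + D * (C * a * √u + r + 1) * (1 + Real.log u)
      ≤ 4 * D * C * (a * √u) * (1 + Real.log u) + D * r * (1 + Real.log u) := by
    have : 0 ≤ D * (1 + Real.log u) := by positivity
    nlinarith [mul_le_mul_of_nonneg_left (hau.trans hCau) this]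
  unfold Ecost
  linarith

end NUMaux

open NUMaux in
theorem NUM_ok : S_NUM := by
  intro C θ₀ D hC hθ₀ hD
  set t : ℝ := 40 * C + θ₀ with ht
  have ht41 : 41 ≤ t := by linarith
  have ht0 : 0 < t := by linarith
  have htt : 40 * C ≤ t * t := by nlinarith
  have ht4 : t ≤ t ^ 4 := by
    calc t = t ^ 1 := (pow_one t).symm
      _ ≤ t ^ 4 := pow_le_pow_right₀ (by linarith) (by norm_num)
  set α : ℝ := 1280 * (64 * C + 6 * D * C) with hα
  have hα0 : 0 < α := by positivity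
  -- data for `u ≥ θ`
  have key : ∀ u u₁ u₂ : ℝ, t ^ 4 ≤ u → 3/10 * u ≤ u₁ → u₁ ≤ 7/10 * u → 3/10 * u ≤ u₂ →
      u₂ ≤ 7/10 * u → u ≤ u₁ + u₂ → ∃ s : ℝ, t ≤ s ∧ u = s ^ 4 ∧ u ^ (3/4 : ℝ) = s ^ 3 ∧
        √u = s ^ 2 ∧ 1.15 * s ^ 3 ≤ u₁ ^ (3/4 : ℝ) + u₂ ^ (3/4 : ℝ) := by
    intro u u₁ u₂ h0 h1 h2 h3 h4 h5
    have hu : 0 ≤ u := by linarith
    obtain ⟨s, hs, e1, e2, e3⟩ := quart u hu
    obtain ⟨s₁, hs₁, e11, e12, -⟩ := quart u₁ (by linarith)
    obtain ⟨s₂, hs₂, e21, e22, -⟩ := quart u₂ (by linarith)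
    have hts : t ≤ s := by
      have : t ^ 4 ≤ s ^ 4 := by rw [← e1]; exact h0
      exact le_of_pow_le_pow_left₀ (by norm_num) hs this
    refine ⟨s, hts, e1, e2, e3, ?_⟩
    rw [e12, e22]
    rw [e1] at h1 h2 h3 h4 h5
    rw [e11] at h1 h2 h5
    rw [e21] at h3 h4 h5
    exact two s s₁ s₂ (by linarith) hs₁ hs₂ h1 h2 h3 h4 h5
  refine ⟨t ^ 4, α, α * (0.74 * t), 2 * D, 2 * t ^ 4, 0.37 * t, by linarith, by linarith, hα0,
    by positivity, by positivity, by positivity, by positivity, ?_, ?_, ?_, ?_⟩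
  · intro u hu
    obtain ⟨s, hs, e1, e2, -⟩ := quart u (by linarith)
    have h1 : 0.74 * t ≤ s := lo s t hs (by rw [← e1]; exact hu)
    rw [e2, e1]
    have : α * s ^ 4 - α * (0.74 * t) * s ^ 3 = α * s ^ 3 * (s - 0.74 * t) := by ring
    rw [this]
    have : 0 ≤ s - 0.74 * t := by linarith
    positivity
  · intro u hu hu2
    obtain ⟨s, hs, e1, e2, -⟩ := quart u (by linarith)
    have h1 : 0.74 * t ≤ s := lo s t hs (by rw [← e1]; exact hu)
    unfold Spot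
    rw [e2]
    have h2 : u / 2 ≤ u - 0.37 * t * s ^ 3 := by
      rw [e1]
      have h3 : 0 ≤ s ^ 3 * (s - 0.74 * t) := mul_nonneg (by positivity) (by linarith)
      nlinarith
    have hu0 : 0 ≤ u := by linarith
    calc u ^ 2 = u * u := by ring
      _ ≤ t ^ 4 * u := mul_le_mul_of_nonneg_right hu2 hu0
      _ = 2 * t ^ 4 * (u / 2) := by ring
      _ ≤ 2 * t ^ 4 * (u - 0.37 * t * s ^ 3) := mul_le_mul_of_nonneg_left h2 (by positivity)
  · intro u u₁ u₂ h0 h1 h2 h3 h4 h5 h6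
    obtain ⟨s, hts, e1, e2, e3, hk⟩ := key u u₁ u₂ h0 h1 h2 h3 h4 h5
    unfold Spot
    rw [← mul_add]
    apply mul_le_mul_of_nonneg_left _ (by positivity)
    rw [e2]
    rw [e3] at h6
    have hs0 : 0 < s := by linarith
    have h7 : 2 * C * s ^ 2 ≤ 0.15 * (0.37 * t) * s ^ 3 := by
      have h8 : 2 * C ≤ 0.15 * (0.37 * t) * s := by
        have : t * t ≤ t * s := mul_le_mul_of_nonneg_left hts ht0.le
        nlinarith
      have := mul_le_mul_of_nonneg_right h8 (by positivity : 0 ≤ s ^ 2)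
      calc 2 * C * s ^ 2 ≤ 0.15 * (0.37 * t) * s * s ^ 2 := this
        _ = _ := by ring
    have h9 := mul_le_mul_of_nonneg_left hk (by positivity : 0 ≤ 0.37 * t)
    nlinarith
  · intro a u r u₁ u₂ r₁ r₂ ha h0 hr hr₁ hr₂ h1 h2 h3 h4 h5 h6 h7
    obtain ⟨s, hts, e1, e2, e3, hk⟩ := key u u₁ u₂ h0 h1 h2 h3 h4 h5
    have hs0 : 0 < s := by linarith
    have hu10 : 10 ≤ u := by linarith
    have hc := cost D C a u r hD hC ha hu10 hr
    set ℓ : ℝ := 1 + Real.log u with hℓ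
    have hL : 1 ≤ Real.log u := by
      rw [Real.le_log_iff_exp_le (by linarith)]
      have := Real.exp_one_lt_d9
      linarith
    have hℓ2 : 2 ≤ ℓ := by linarith
    have hℓsq : ℓ ^ 2 ≤ 64 * s := by
      rw [hℓ, e1]
      exact logsq s (by linarith)
    -- logarithms of `u₁`, `u₂`
    have lg : ∀ w : ℝ, 3/10 * u ≤ w → w ≤ 7/10 * u → (1 + Real.log w) ^ 2 ≤ ℓ ^ 2 - ℓ / 2 := by
      intro w hw1 hw2
      have hw0 : 0 < w := by linarith
      have l0 : 0 ≤ Real.log w := Real.log_nonneg (by linarith)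
      have l1 : Real.log w ≤ Real.log (7/10 * u) := Real.log_le_log hw0 hw2
      rw [Real.log_mul (by norm_num) (by linarith)] at l1
      have l2 : Real.log (7/10 : ℝ) ≤ 7/10 - 1 := Real.log_le_sub_one_of_pos (by norm_num)
      have l3 : 1 + Real.log w ≤ ℓ - 0.3 := by rw [hℓ]; linarith
      calc (1 + Real.log w) ^ 2 ≤ (ℓ - 0.3) ^ 2 := pow_le_pow_left₀ (by linarith) l3 2
        _ ≤ ℓ ^ 2 - ℓ / 2 := by nlinarith
    have g1 := lg u₁ h1 h2
    have g2 := lg u₂ h3 h4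
    have hm : 0 ≤ ℓ ^ 2 - ℓ / 2 := by nlinarith
    -- the `γ` part
    have p1 : r₁ * (1 + Real.log u₁) ^ 2 + r₂ * (1 + Real.log u₂) ^ 2 ≤
        r * ℓ ^ 2 - r * ℓ / 2 + C * a * √u * ℓ ^ 2 := by
      have q1 := mul_le_mul_of_nonneg_left g1 hr₁
      have q2 := mul_le_mul_of_nonneg_left g2 hr₂
      have q3 := mul_le_mul_of_nonneg_right h7 hm
      have q4 : 0 ≤ C * a * √u * (ℓ / 2) := by positivity
      nlinarith
    -- the `a` part
    have hau : 0 ≤ a * s ^ 2 := by positivity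
    have p2 : a * (α * u₁ - α * (0.74 * t) * u₁ ^ (3/4 : ℝ)) +
        a * (α * u₂ - α * (0.74 * t) * u₂ ^ (3/4 : ℝ)) ≤
        a * (α * u - α * (0.74 * t) * u ^ (3/4 : ℝ)) + 2 * α * C * (a * s ^ 2) -
          0.111 * α * t * s * (a * s ^ 2) := by
      rw [e2]
      rw [e3] at h6
      have q1 := mul_le_mul_of_nonneg_left hk (by positivity : 0 ≤ a * (α * (0.74 * t)))
      have q2 := mul_le_mul_of_nonneg_left h6 (by positivity : 0 ≤ a * α)
      nlinarith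
    -- final numerical inequality
    have hts2 : 40 * C ≤ t * s := by nlinarith
    have f0 := mul_le_mul_of_nonneg_left hts2 hα0.le
    have f1 : 2 * α * C ≤ 0.05 * α * (t * s) := by linarith
    have f2 : 64 * C + 4 * D * C * ℓ + 2 * D * C * ℓ ^ 2 ≤ 0.05 * α * (t * s) :=
      fin2 C D t s ℓ α hC hD (by linarith) hs0.le (by linarith) hℓsq hα
    have f3 := mul_le_mul_of_nonneg_right (add_le_add f1 f2) hau
    have f4 : 0.05 * α * (t * s) + 0.05 * α * (t * s) ≤ 0.111 * α * t * s := by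
      have : 0 ≤ α * (t * s) := by positivity
      linarith
    have f5 := mul_le_mul_of_nonneg_right f4 hau
    have p3 := mul_le_mul_of_nonneg_left p1 (by positivity : 0 ≤ 2 * D)
    rw [e3] at hc p3
    unfold Epot
    rw [← hℓ]
    linarith

end Pool.Agent.H172R2.UT
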