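import Pool.Agent.H172R2.UT.Defs

/-!
# PERM: union bound for random permutations (helper398, project of helper172)
-/

set_option autoImplicit false

namespace Pool.Agent.H172R2.UT

open Classical

namespace PERMaux

/-- `n^t (n-t)! ≤ e^t n!` -/
theorem fall (t : ℕ) : ∀ n : ℕ, t ≤ n →
    (n : ℝ) ^ t * ((n - t).factorial : ℝ) ≤ Real.exp 1 ^ t * (n.factorial : ℝ) := by
  induction t with
  | zero => intro n _; simp
  | succ t ih =>
    intro n hn
    obtain ⟨m, rfl⟩ : ∃ m, n = m + 1 := ⟨n - 1, by omega⟩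
    have hm : t ≤ m := by omega
    have h1 := ih m hm
    have h2 : m + 1 - (t + 1) = m - t := by omega
    rw [h2]
    have hf : (0 : ℝ) < ((m - t).factorial : ℝ) := by exact_mod_cast Nat.factorial_pos _
    have h3 : ((m + 1 : ℕ) : ℝ) ^ t ≤ (m : ℝ) ^ t * Real.exp 1 := by
      rcases Nat.eq_zero_or_pos m with h0 | h0
      · have : t = 0 := by omega
        subst this
        rw [pow_zero, pow_zero, one_mul]
        exact Real.one_le_exp (by norm_num)
      · have hm0 : (0 : ℝ) < m := by exact_mod_cast h0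
        have h4 : ((m + 1 : ℕ) : ℝ) = m * (1 / m + 1) := by
          push_cast
          field_simp
          ring
        rw [h4, mul_pow]
        apply mul_le_mul_of_nonneg_left _ (by positivity)
        calc (1 / (m : ℝ) + 1) ^ t ≤ (Real.exp (1 / m)) ^ t := by
              apply pow_le_pow_left₀ (by positivity)
              exact Real.add_one_le_exp _
          _ = Real.exp (t * (1 / m)) := by rw [← Real.exp_nat_mul]
          _ ≤ Real.exp 1 := by
              apply Real.exp_le_exp.2
              rw [mul_one_div, div_le_one hm0]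
              exact_mod_cast hm
    rw [pow_succ, pow_succ, Nat.factorial_succ]
    push_cast
    push_cast at h3
    have hm1 : (0 : ℝ) ≤ (m : ℝ) + 1 := by positivity
    calc ((m : ℝ) + 1) ^ t * ((m : ℝ) + 1) * ((m - t).factorial : ℝ)
        = ((m : ℝ) + 1) * (((m : ℝ) + 1) ^ t * ((m - t).factorial : ℝ)) := by ring
      _ ≤ ((m : ℝ) + 1) * (((m : ℝ) ^ t * Real.exp 1) * ((m - t).factorial : ℝ)) := by
          apply mul_le_mul_of_nonneg_left _ hm1
          exact mul_le_mul_of_nonneg_right h3 hf.le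
      _ = ((m : ℝ) + 1) * Real.exp 1 * ((m : ℝ) ^ t * ((m - t).factorial : ℝ)) := by ring
      _ ≤ ((m : ℝ) + 1) * Real.exp 1 * (Real.exp 1 ^ t * (m.factorial : ℝ)) := by
          apply mul_le_mul_of_nonneg_left h1 (by positivity)
      _ = Real.exp 1 ^ t * Real.exp 1 * (((m : ℝ) + 1) * (m.factorial : ℝ)) := by ring

/-- `C(M,t) ≤ (e M / t)^t` -/
theorem choose_le (M t : ℕ) (ht : 0 < t) :
    ((M.choose t : ℕ) : ℝ) ≤ (Real.exp 1 * M / t) ^ t := by
  have h1 : ((M.choose t : ℕ) : ℝ) ≤ (M : ℝ) ^ t / (t.factorial : ℝ) := Nat.choose_le_pow_div t M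
  have h2 : (t : ℝ) ^ t / (t.factorial : ℝ) ≤ Real.exp t :=
    Real.pow_div_factorial_le_exp (t : ℝ) (by positivity) t
  have ht0 : (0 : ℝ) < t := by exact_mod_cast ht
  have hf : (0 : ℝ) < (t.factorial : ℝ) := by exact_mod_cast Nat.factorial_pos _
  have h3 : Real.exp t = Real.exp 1 ^ t := by rw [← Real.exp_nat_mul, mul_one]
  rw [h3] at h2
  refine h1.trans ?_
  rw [div_pow, mul_pow, div_le_div_iff₀ hf (by positivity)]
  rw [div_le_iff₀ hf] at h2
  calc (M : ℝ) ^ t * (t : ℝ) ^ t ≤ (M : ℝ) ^ t * (Real.exp 1 ^ t * (t.factorial : ℝ)) :=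
        mul_le_mul_of_nonneg_left h2 (by positivity)
    _ = Real.exp 1 ^ t * (M : ℝ) ^ t * (t.factorial : ℝ) := by ring

/-- the number of permutations which fix a set pointwise -/
theorem card_fix {n : ℕ} (I : Finset (Fin n)) :
    (Finset.univ.filter (fun σ : Equiv.Perm (Fin n) => ∀ i ∈ I, σ i = i)).card =
      (n - I.card).factorial := by
  have h1 : (Finset.univ.filter (fun σ : Equiv.Perm (Fin n) => ∀ i ∈ I, σ i = i)).card =
      Fintype.card {σ : Equiv.Perm (Fin n) // ∀ i, ¬ (i ∉ I) → σ i = i} := by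
    rw [Fintype.card_subtype]
    congr 1
    ext σ
    simp
  rw [h1, ← Fintype.card_congr (Equiv.Perm.subtypeEquivSubtypePerm (fun i : Fin n => i ∉ I)),
    Fintype.card_perm]
  congr 1
  rw [Fintype.card_subtype_compl, Fintype.card_fin]
  simp

/-- the number of permutations with given values -/
theorem card_val {n t : ℕ} (T : Finset (Fin n × Fin n)) (hT : T.card = t) :
    (Finset.univ.filter (fun π : Equiv.Perm (Fin n) => ∀ p ∈ T, π p.2 = p.1)).card ≤
      (n - t).factorial := by
  rcases (Finset.univ.filter (fun π : Equiv.Perm (Fin n) => ∀ p ∈ T, π p.2 = p.1)).eq_empty_or_nonempty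
    with h0 | ⟨π₀, h0⟩
  · rw [h0, Finset.card_empty]; exact Nat.zero_le _
  · rw [Finset.mem_filter] at h0
    have hI : (T.image Prod.snd).card = t := by
      rw [← hT]
      apply Finset.card_image_of_injOn
      intro p hp q hq hpq
      have h1 := h0.2 p hp
      have h2 := h0.2 q hq
      have h3 : p.2 = q.2 := hpq
      rw [h3, h2] at h1
      exact Prod.ext h1.symm h3
    rw [← hI, ← card_fix]
    apply Finset.card_le_card_of_injOn (fun π => π₀⁻¹ * π)
    · intro π hπ
      rw [Finset.mem_coe, Finset.mem_filter] at hπ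
      rw [Finset.mem_coe, Finset.mem_filter]
      refine ⟨Finset.mem_univ _, ?_⟩
      intro i hi
      obtain ⟨p, hp, rfl⟩ := Finset.mem_image.1 hi
      rw [Equiv.Perm.mul_apply, hπ.2 p hp, Equiv.Perm.inv_eq_iff_eq, h0.2 p hp]
    · intro π _ π' _ h
      exact mul_left_cancel h

/-- the number of bad permutations -/
theorem card_bad {n t M : ℕ} (U : Finset (Fin n × Fin n)) (hU : U.card ≤ M) :
    (Finset.univ.filter (fun π : Equiv.Perm (Fin n) =>
      t ≤ (Finset.univ.filter (fun i => (π i, i) ∈ U)).card)).card ≤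
      M.choose t * (n - t).factorial := by
  have hsub : Finset.univ.filter (fun π : Equiv.Perm (Fin n) =>
      t ≤ (Finset.univ.filter (fun i => (π i, i) ∈ U)).card) ⊆
      (U.powersetCard t).biUnion (fun T =>
        Finset.univ.filter (fun π : Equiv.Perm (Fin n) => ∀ p ∈ T, π p.2 = p.1)) := by
    intro π hπ
    rw [Finset.mem_filter] at hπ
    obtain ⟨I, hI, hIc⟩ := Finset.exists_subset_card_eq hπ.2
    rw [Finset.mem_biUnion]
    refine ⟨I.image (fun i => (π i, i)), ?_, ?_⟩
    · rw [Finset.mem_powersetCard]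
      constructor
      · intro p hp
        obtain ⟨i, hi, rfl⟩ := Finset.mem_image.1 hp
        exact (Finset.mem_filter.1 (hI hi)).2
      · rw [← hIc]
        apply Finset.card_image_of_injective
        intro i j hij
        exact (Prod.ext_iff.1 hij).2
    · rw [Finset.mem_filter]
      refine ⟨Finset.mem_univ _, ?_⟩
      intro p hp
      obtain ⟨i, _, rfl⟩ := Finset.mem_image.1 hp
      rfl
  calc _ ≤ _ := Finset.card_le_card hsub
    _ ≤ ∑ T ∈ U.powersetCard t,
        (Finset.univ.filter (fun π : Equiv.Perm (Fin n) => ∀ p ∈ T, π p.2 = p.1)).card :=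
      Finset.card_biUnion_le
    _ ≤ ∑ T ∈ U.powersetCard t, (n - t).factorial := by
      apply Finset.sum_le_sum
      intro T hT
      exact card_val T (Finset.mem_powersetCard.1 hT).2
    _ = U.card.choose t * (n - t).factorial := by
      rw [Finset.sum_const, Finset.card_powersetCard, smul_eq_mul]
    _ ≤ M.choose t * (n - t).factorial :=
      Nat.mul_le_mul_right _ (Nat.choose_le_choose t hU)

end PERMaux

open PERMaux in
theorem PERM_ok : S_PERM := by
  intro n t M F hF ht htn hlt
  by_contra hcon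
  push Not at hcon
  have hn : 0 < n := lt_of_lt_of_le ht htn
  have h1 : (Finset.univ : Finset (Equiv.Perm (Fin n))) ⊆ F.biUnion (fun U =>
      Finset.univ.filter (fun π : Equiv.Perm (Fin n) =>
        t ≤ (Finset.univ.filter (fun i => (π i, i) ∈ U)).card)) := by
    intro π _
    obtain ⟨U, hU, h2⟩ := hcon π
    rw [Finset.mem_biUnion]
    exact ⟨U, hU, Finset.mem_filter.2 ⟨Finset.mem_univ _, h2⟩⟩
  have h2 : n.factorial ≤ F.card * (M.choose t * (n - t).factorial) := by
    calc n.factorial = (Finset.univ : Finset (Equiv.Perm (Fin n))).card := by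
          rw [Finset.card_univ, Fintype.card_perm, Fintype.card_fin]
      _ ≤ _ := Finset.card_le_card h1
      _ ≤ ∑ U ∈ F, (Finset.univ.filter (fun π : Equiv.Perm (Fin n) =>
        t ≤ (Finset.univ.filter (fun i => (π i, i) ∈ U)).card)).card := Finset.card_biUnion_le
      _ ≤ ∑ U ∈ F, M.choose t * (n - t).factorial :=
          Finset.sum_le_sum (fun U hU => card_bad U (hF U hU))
      _ = _ := by rw [Finset.sum_const, smul_eq_mul]
  have h3 : (n.factorial : ℝ) ≤ F.card * ((M.choose t : ℕ) * ((n - t).factorial : ℝ)) := by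
    exact_mod_cast h2
  have hn0 : (0 : ℝ) < n := by exact_mod_cast hn
  have ht0 : (0 : ℝ) < t := by exact_mod_cast ht
  have hfn : (0 : ℝ) < (n.factorial : ℝ) := by exact_mod_cast Nat.factorial_pos _
  have h4 := fall t n htn
  have h5 := choose_le M t ht
  have h6 : ((n - t).factorial : ℝ) ≤ (Real.exp 1 / n) ^ t * (n.factorial : ℝ) := by
    rw [div_pow, div_mul_eq_mul_div, le_div_iff₀ (by positivity), mul_comm]
    exact h4
  have h7 : ((M.choose t : ℕ) : ℝ) * ((n - t).factorial : ℝ) ≤
      (Real.exp 2 * M / (t * n)) ^ t * (n.factorial : ℝ) := by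
    have h8 : Real.exp 2 = Real.exp 1 * Real.exp 1 := by rw [← Real.exp_add]; norm_num
    calc ((M.choose t : ℕ) : ℝ) * ((n - t).factorial : ℝ)
        ≤ (Real.exp 1 * M / t) ^ t * ((Real.exp 1 / n) ^ t * (n.factorial : ℝ)) := by
          apply mul_le_mul h5 h6 (by positivity) (by positivity)
      _ = (Real.exp 2 * M / (t * n)) ^ t * (n.factorial : ℝ) := by
          rw [← mul_assoc, ← mul_pow, h8]
          congr 2
          field_simp
  have h9 : (n.factorial : ℝ) ≤
      (F.card : ℝ) * (Real.exp 2 * M / (t * n)) ^ t * (n.factorial : ℝ) := by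
    refine h3.trans ?_
    rw [mul_assoc]
    exact mul_le_mul_of_nonneg_left h7 (by positivity)
  have h10 : (F.card : ℝ) * (Real.exp 2 * M / (t * n)) ^ t * (n.factorial : ℝ) <
      1 * (n.factorial : ℝ) := mul_lt_mul_of_pos_right hlt hfn
  linarith

end Pool.Agent.H172R2.UT
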