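import Pool.Agent.H172R2.UT.Defs

open Classical

namespace Pool.Agent.H172R2.UT

namespace RECaux

/-- covering property -/
def Cov (a φ ρ : ℕ) (X Y : Finset ℕ) (F : Finset (Finset (ℕ × ℕ))) : Prop :=
  ∀ (N : ℕ) (x : ℕ → ℝ) (up : ℕ → Bool) (xb yb : ℕ → ℕ), TwoPage N x up →
      (∀ s < N, ∀ t < N, x s ≤ x t → xb s ≤ xb t) →
      (∀ s < N, ∀ t < N, s ≤ t → yb s ≤ yb t) →
      ∀ V : Finset ℕ, V ⊆ Finset.range N → V.image xb = X → V.image yb = Y →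
        Phi a xb yb V = φ → rho V = ρ → ∃ R ∈ F, ∀ t ∈ V, (xb t, yb t) ∈ R

theorem image_le_eta (yb : ℕ → ℕ) (V : Finset ℕ) : (V.image yb).card ≤ eta yb V := by
  unfold eta
  have h : V.image yb ⊆ (V.filter (fun t => ¬ ∃ s ∈ V, s + 1 = t ∧ yb s = yb t)).image yb := by
    intro y hy
    rw [Finset.mem_image] at hy
    obtain ⟨t0, ht0, ht0y⟩ := hy
    obtain ⟨t, ht, hmin⟩ := Finset.exists_min_image (V.filter (fun t => yb t = y)) id
      ⟨t0, by rw [Finset.mem_filter]; exact ⟨ht0, ht0y⟩⟩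
    rw [Finset.mem_filter] at ht
    rw [Finset.mem_image]
    refine ⟨t, ?_, ht.2⟩
    rw [Finset.mem_filter]
    refine ⟨ht.1, ?_⟩
    rintro ⟨s, hs, hst, hy⟩
    have h1 : t ≤ s := hmin s (by rw [Finset.mem_filter]; exact ⟨hs, hy.trans ht.2⟩)
    omega
  exact (Finset.card_le_card h).trans Finset.card_image_le

theorem le_Phi_X (a : ℕ) (xb yb : ℕ → ℕ) (V : Finset ℕ) :
    a * (V.image xb).card ≤ Phi a xb yb V := by
  unfold Phi xi
  have h1 : a * (V.image xb).card ≤ a * ((V.image xb).card + eta yb V) :=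
    Nat.mul_le_mul_left a (Nat.le_add_right _ _)
  omega

theorem le_Phi_Y (a : ℕ) (xb yb : ℕ → ℕ) (V : Finset ℕ) :
    a * (V.image yb).card ≤ Phi a xb yb V := by
  unfold Phi
  have h0 := image_le_eta yb V
  have h1 : a * (V.image yb).card ≤ a * (xi xb V + eta yb V) :=
    Nat.mul_le_mul_left a (h0.trans (Nat.le_add_left _ _))
  omega

theorem rho_le (a : ℕ) (xb yb : ℕ → ℕ) (V : Finset ℕ) : rho V ≤ Phi a xb yb V := by
  have h1 : rho V ≤ V.card := Finset.card_filter_le _ _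
  unfold Phi
  omega

/-- the family of small parts -/
noncomputable def base (a φ : ℕ) (X Y : Finset ℕ) : Finset (Finset (ℕ × ℕ)) :=
  if a * X.card ≤ φ ∧ a * Y.card ≤ φ then {X ×ˢ Y} else ∅

theorem base_cov (a φ ρ : ℕ) (X Y : Finset ℕ) : Cov a φ ρ X Y (base a φ X Y) := by
  intro N x up xb yb _ _ _ V _ hX hY hφ _
  have h1 : a * X.card ≤ φ := by rw [← hX, ← hφ]; exact le_Phi_X a xb yb V
  have h2 : a * Y.card ≤ φ := by rw [← hY, ← hφ]; exact le_Phi_Y a xb yb V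
  unfold base
  rw [if_pos ⟨h1, h2⟩]
  refine ⟨X ×ˢ Y, Finset.mem_singleton_self _, ?_⟩
  intro t ht
  rw [Finset.mem_product]
  constructor
  · rw [← hX]; exact Finset.mem_image_of_mem _ ht
  · rw [← hY]; exact Finset.mem_image_of_mem _ ht

theorem base_card (a φ : ℕ) (X Y : Finset ℕ) : (base a φ X Y).card ≤ 1 := by
  unfold base
  split_ifs
  · simp
  · simp

theorem base_size (a φ : ℕ) (X Y : Finset ℕ) (R : Finset (ℕ × ℕ)) (hR : R ∈ base a φ X Y) :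
    a ^ 2 * R.card ≤ φ ^ 2 := by
  unfold base at hR
  split_ifs at hR with h
  · rw [Finset.mem_singleton] at hR
    subst hR
    rw [Finset.card_product]
    calc a ^ 2 * (X.card * Y.card) = (a * X.card) * (a * Y.card) := by ring
      _ ≤ φ * φ := Nat.mul_le_mul h.1 h.2
      _ = φ ^ 2 := by ring
  · simp at hR

/-- monotonicity of `m (1 + log (1 + y / m))` -/
theorem mlog {m m' y y' : ℝ} (hm : 0 < m) (hmm : m ≤ m') (hy : 0 ≤ y) (hyy : y ≤ y') :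
    m * (1 + Real.log (1 + y / m)) ≤ m' * (1 + Real.log (1 + y' / m')) := by
  have hm' : 0 < m' := lt_of_lt_of_le hm hmm
  have hy' : 0 ≤ y' := hy.trans hyy
  have h1 : Real.log (1 + y / m) ≤ Real.log (1 + y' / m) := by
    apply Real.log_le_log (by positivity)
    have : y / m ≤ y' / m := div_le_div_of_nonneg_right hyy hm.le
    linarith
  have hp : 1 ≤ m' / m := by rw [le_div_iff₀ hm]; linarith
  have h2 : 1 + (m' / m) * (y' / m') ≤ (1 + y' / m') ^ (m' / m) :=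
    one_add_mul_self_le_rpow_one_add (by
      have : 0 ≤ y' / m' := by positivity
      linarith) hp
  have h3 : (m' / m) * (y' / m') = y' / m := by field_simp
  rw [h3] at h2
  have h4 : Real.log (1 + y' / m) ≤ (m' / m) * Real.log (1 + y' / m') := by
    rw [← Real.log_rpow (by positivity)]
    exact Real.log_le_log (by positivity) h2
  have h5 : m * Real.log (1 + y' / m) ≤ m' * Real.log (1 + y' / m') := by
    calc m * Real.log (1 + y' / m) ≤ m * ((m' / m) * Real.log (1 + y' / m')) :=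
          mul_le_mul_of_nonneg_left h4 hm.le
      _ = m' * Real.log (1 + y' / m') := by field_simp
  have h6 : m * Real.log (1 + y / m) ≤ m * Real.log (1 + y' / m) :=
    mul_le_mul_of_nonneg_left h1 hm.le
  linarith

def Good (α β γ σ κ : ℝ) (a φ ρ : ℕ) (X Y : Finset ℕ) (F : Finset (Finset (ℕ × ℕ))) : Prop :=
  (F.card : ℝ) ≤ Real.exp (Epot α β γ a ((φ : ℝ) / (a : ℝ) ^ 2) ρ) ∧
  (∀ R ∈ F, (R.card : ℝ) ≤ (a : ℝ) ^ 2 * Spot σ κ ((φ : ℝ) / (a : ℝ) ^ 2)) ∧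
  Cov a φ ρ X Y F

/-- number of index quadruples -/
theorem cnt4 (C₀ φ ρ sn : ℕ) (hφ : 1 ≤ φ) (hρ : ρ ≤ φ) (hsn : (sn : ℝ) ≤ C₀ * √(φ : ℝ)) :
    (((φ + 1) * (φ + 1) * ((ρ + sn + 1) * (ρ + sn + 1)) : ℕ) : ℝ)
      ≤ Real.exp (8 * Real.log ((4 + 2 * (C₀ : ℝ)) * (φ : ℝ))) := by
  have hφr : (1 : ℝ) ≤ φ := by exact_mod_cast hφ
  have hρr : (ρ : ℝ) ≤ φ := by exact_mod_cast hρ
  have hC : (0 : ℝ) ≤ C₀ := Nat.cast_nonneg _
  have hsq : √(φ : ℝ) ≤ φ := by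
    rw [Real.sqrt_le_left (by linarith)]
    nlinarith
  have hsn' : (sn : ℝ) ≤ C₀ * φ := hsn.trans (mul_le_mul_of_nonneg_left hsq hC)
  set z : ℝ := (4 + 2 * (C₀ : ℝ)) * (φ : ℝ) with hz
  have hz1 : 1 ≤ z := by rw [hz]; nlinarith
  have h1 : ((φ : ℝ) + 1) ≤ z := by rw [hz]; nlinarith
  have h2 : ((ρ : ℝ) + sn + 1) ≤ z := by rw [hz]; nlinarith
  have h3 : (0 : ℝ) ≤ (φ : ℝ) + 1 := by positivity
  have h4 : (0 : ℝ) ≤ (ρ : ℝ) + sn + 1 := by positivity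
  have hz0 : 0 ≤ z := by linarith
  have e : Real.exp (8 * Real.log z) = z ^ 8 := by
    rw [mul_comm, ← Real.rpow_def_of_pos (by linarith)]
    exact_mod_cast Real.rpow_natCast z 8
  rw [e]
  push_cast
  calc ((φ : ℝ) + 1) * (φ + 1) * (((ρ : ℝ) + sn + 1) * (ρ + sn + 1))
      ≤ z * z * (z * z) := by
        apply mul_le_mul (mul_le_mul h1 h1 h3 hz0) (mul_le_mul h2 h2 h4 hz0) (by positivity)
          (by positivity)
    _ = z ^ 4 := by ring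
    _ ≤ z ^ 8 := pow_le_pow_right₀ hz1 (by norm_num)

theorem step (C₀ θ₀ : ℕ) (D θ α β γ σ κ : ℝ) (hC₀ : 1 ≤ C₀) (hθ₀ : (θ₀ : ℝ) ≤ θ) (hθ10 : 10 ≤ θ)
    (hD : 0 < D)
    (hstep : ∀ (a N : ℕ) (x : ℕ → ℝ) (up : ℕ → Bool) (xb yb : ℕ → ℕ), 1 ≤ a → TwoPage N x up →
      (∀ s < N, ∀ t < N, x s ≤ x t → xb s ≤ xb t) → (∀ s < N, ∀ t < N, s ≤ t → yb s ≤ yb t) →
      ∀ V : Finset ℕ, V ⊆ Finset.range N → θ₀ * a ^ 2 < Phi a xb yb V →
      ∃ A : Finset ℕ, A ⊆ V ∧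
        10 * Phi a xb yb A ≤ 7 * Phi a xb yb V ∧ 10 * Phi a xb yb (V \ A) ≤ 7 * Phi a xb yb V ∧
        Phi a xb yb V ≤ Phi a xb yb A + Phi a xb yb (V \ A) ∧
        ((Phi a xb yb A : ℝ) + Phi a xb yb (V \ A)
          ≤ Phi a xb yb V + 2 * a * (C₀ * √(Phi a xb yb V : ℝ))) ∧
        ((rho A : ℝ) + rho (V \ A) ≤ rho V + C₀ * √(Phi a xb yb V : ℝ)) ∧
        ((chg x V A : ℝ) ≤ C₀ * √(Phi a xb yb V : ℝ)) ∧
        ((chg (fun t => (t : ℝ)) V A : ℝ) ≤ C₀ * √(Phi a xb yb V : ℝ) + rho V))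
    (hspl : ∀ (Y : Finset ℕ) (c : ℕ),
      ∃ G : Finset (Finset ℕ × Finset ℕ),
        (G.card : ℝ) ≤ Real.exp (D * (c + 1) * (1 + Real.log (1 + (Y.card : ℝ) / (c + 1)))) ∧
        ∀ (V A : Finset ℕ) (key : ℕ → ℝ) (bl : ℕ → ℕ), A ⊆ V →
          (∀ s ∈ V, ∀ t ∈ V, key s = key t → s = t) →
          (∀ s ∈ V, ∀ t ∈ V, key s ≤ key t → bl s ≤ bl t) →
          V.image bl = Y → chg key V A ≤ c → (A.image bl, (V \ A).image bl) ∈ G)
    (hS : ∀ u u₁ u₂ : ℝ, θ ≤ u → 3/10 * u ≤ u₁ → u₁ ≤ 7/10 * u → 3/10 * u ≤ u₂ →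
      u₂ ≤ 7/10 * u → u ≤ u₁ + u₂ → u₁ + u₂ ≤ u + 2 * C₀ * √u →
      Spot σ κ u₁ + Spot σ κ u₂ ≤ Spot σ κ u)
    (hE : ∀ a u r u₁ u₂ r₁ r₂ : ℝ, 1 ≤ a → θ ≤ u → 0 ≤ r → 0 ≤ r₁ → 0 ≤ r₂ →
      3/10 * u ≤ u₁ → u₁ ≤ 7/10 * u → 3/10 * u ≤ u₂ → u₂ ≤ 7/10 * u →
      u ≤ u₁ + u₂ → u₁ + u₂ ≤ u + 2 * C₀ * √u → r₁ + r₂ ≤ r + C₀ * a * √u →
      Ecost D C₀ a u r + Epot α β γ a u₁ r₁ + Epot α β γ a u₂ r₂ ≤ Epot α β γ a u r)
    (a : ℕ) (ha : 1 ≤ a) (φ : ℕ) (hφ : θ * (a : ℝ) ^ 2 < φ)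
    (ih : ∀ m < φ, 3/10 * θ * (a : ℝ) ^ 2 ≤ (m : ℝ) → ∀ (ρ : ℕ) (X Y : Finset ℕ),
      ∃ F, Good α β γ σ κ a m ρ X Y F)
    (ρ : ℕ) (X Y : Finset ℕ) : ∃ F, Good α β γ σ κ a φ ρ X Y F := by
  have har : (1 : ℝ) ≤ a := by exact_mod_cast ha
  have ha2 : (0 : ℝ) < (a : ℝ) ^ 2 := by positivity
  by_cases hsm : ρ ≤ φ ∧ a * X.card ≤ φ ∧ a * Y.card ≤ φ
  swap
  · refine ⟨∅, ?_, ?_, ?_⟩
    · rw [Finset.card_empty, Nat.cast_zero]; exact (Real.exp_pos _).le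
    · intro R hR; simp at hR
    · intro N x up xb yb _ _ _ V _ hX hY hφ' hρ'
      exfalso
      apply hsm
      refine ⟨?_, ?_, ?_⟩
      · rw [← hφ', ← hρ']; exact rho_le a xb yb V
      · rw [← hX, ← hφ']; exact le_Phi_X a xb yb V
      · rw [← hY, ← hφ']; exact le_Phi_Y a xb yb V
  obtain ⟨hρφ, hXφ, hYφ⟩ := hsm
  have hφ10 : (10 : ℝ) < φ := by
    have : (10 : ℝ) * 1 ≤ θ * (a : ℝ) ^ 2 := by
      apply mul_le_mul hθ10 _ (by norm_num) (by linarith)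
      nlinarith
    linarith
  have hφ1 : 1 ≤ φ := by
    have : (1 : ℝ) ≤ φ := by linarith
    exact_mod_cast this
  -- notation
  set u : ℝ := (φ : ℝ) / (a : ℝ) ^ 2 with hu
  have hφu : (φ : ℝ) = (a : ℝ) ^ 2 * u := by rw [hu]; field_simp
  have hu0 : 0 < u := by rw [hu]; positivity
  have hθu : θ ≤ u := by rw [hu, le_div_iff₀ ha2]; exact hφ.le
  have hsq : √(φ : ℝ) = a * √u := by
    rw [hφu, Real.sqrt_mul ha2.le, Real.sqrt_sq (by linarith)]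
  have hC₀r : (1 : ℝ) ≤ C₀ := by exact_mod_cast hC₀
  set sn : ℕ := ⌊(C₀ : ℝ) * √(φ : ℝ)⌋₊ with hsn
  have hsnle : (sn : ℝ) ≤ C₀ * √(φ : ℝ) := Nat.floor_le (by positivity)
  obtain ⟨GX, hGX1, hGX2⟩ := hspl X sn
  obtain ⟨GY, hGY1, hGY2⟩ := hspl Y (sn + ρ)
  choose! Fam hFam using ih
  -- the index set
  set I : Finset (((Finset ℕ × Finset ℕ) × (Finset ℕ × Finset ℕ)) × ((ℕ × ℕ) × (ℕ × ℕ))) :=
    (GX ×ˢ GY) ×ˢ ((Finset.range (φ + 1) ×ˢ Finset.range (φ + 1)) ×ˢ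
      (Finset.range (ρ + sn + 1) ×ˢ Finset.range (ρ + sn + 1))) with hI
  let cond : (((Finset ℕ × Finset ℕ) × (Finset ℕ × Finset ℕ)) × ((ℕ × ℕ) × (ℕ × ℕ))) → Prop :=
    fun z => 10 * z.2.1.1 ≤ 7 * φ ∧ 10 * z.2.1.2 ≤ 7 * φ ∧ φ ≤ z.2.1.1 + z.2.1.2 ∧
      ((z.2.1.1 : ℝ) + z.2.1.2 ≤ φ + 2 * a * (C₀ * √(φ : ℝ))) ∧
      ((z.2.2.1 : ℝ) + z.2.2.2 ≤ ρ + C₀ * √(φ : ℝ))
  let Fz : (((Finset ℕ × Finset ℕ) × (Finset ℕ × Finset ℕ)) × ((ℕ × ℕ) × (ℕ × ℕ))) →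
      Finset (Finset (ℕ × ℕ)) := fun z =>
    ((Fam z.2.1.1 z.2.2.1 z.1.1.1 z.1.2.1) ×ˢ (Fam z.2.1.2 z.2.2.2 z.1.1.2 z.1.2.2)).image
      (fun w => w.1 ∪ w.2)
  -- facts about the parts
  have part : ∀ z, cond z → z.2.1.1 < φ ∧ z.2.1.2 < φ ∧
      3/10 * θ * (a : ℝ) ^ 2 ≤ (z.2.1.1 : ℝ) ∧ 3/10 * θ * (a : ℝ) ^ 2 ≤ (z.2.1.2 : ℝ) ∧
      3/10 * u ≤ (z.2.1.1 : ℝ) / (a : ℝ) ^ 2 ∧ (z.2.1.1 : ℝ) / (a : ℝ) ^ 2 ≤ 7/10 * u ∧
      3/10 * u ≤ (z.2.1.2 : ℝ) / (a : ℝ) ^ 2 ∧ (z.2.1.2 : ℝ) / (a : ℝ) ^ 2 ≤ 7/10 * u ∧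
      u ≤ (z.2.1.1 : ℝ) / (a : ℝ) ^ 2 + (z.2.1.2 : ℝ) / (a : ℝ) ^ 2 ∧
      (z.2.1.1 : ℝ) / (a : ℝ) ^ 2 + (z.2.1.2 : ℝ) / (a : ℝ) ^ 2 ≤ u + 2 * C₀ * √u ∧
      (z.2.2.1 : ℝ) + z.2.2.2 ≤ ρ + C₀ * a * √u := by
    rintro z ⟨h1, h2, h3, h4, h5⟩
    have h1r : (10 : ℝ) * z.2.1.1 ≤ 7 * φ := by exact_mod_cast h1
    have h2r : (10 : ℝ) * z.2.1.2 ≤ 7 * φ := by exact_mod_cast h2
    have h3r : (φ : ℝ) ≤ z.2.1.1 + z.2.1.2 := by exact_mod_cast h3
    have e1 : (3:ℝ)/10 * u = 3/10 * φ / (a : ℝ) ^ 2 := by rw [hu]; ring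
    have e2 : (7:ℝ)/10 * u = 7/10 * φ / (a : ℝ) ^ 2 := by rw [hu]; ring
    refine ⟨by omega, by omega, by linarith, by linarith, ?_, ?_, ?_, ?_, ?_, ?_, ?_⟩
    · rw [e1]; exact div_le_div_of_nonneg_right (by linarith) ha2.le
    · rw [e2]; exact div_le_div_of_nonneg_right (by linarith) ha2.le
    · rw [e1]; exact div_le_div_of_nonneg_right (by linarith) ha2.le
    · rw [e2]; exact div_le_div_of_nonneg_right (by linarith) ha2.le
    · rw [hu, ← add_div]; exact div_le_div_of_nonneg_right h3r ha2.le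
    · rw [← add_div, div_le_iff₀ ha2]
      rw [hsq] at h4
      have : (u + 2 * C₀ * √u) * (a : ℝ) ^ 2 = φ + 2 * a * (C₀ * (a * √u)) := by
        rw [hφu]; ring
      rw [this]
      exact h4
    · rw [hsq] at h5
      calc (z.2.2.1 : ℝ) + z.2.2.2 ≤ ρ + C₀ * (a * √u) := h5
        _ = ρ + C₀ * a * √u := by ring
  refine ⟨(I.filter cond).biUnion Fz, ?_, ?_, ?_⟩
  · -- cardinality
    have hIcard : (I.card : ℝ) ≤ Real.exp (Ecost D C₀ a u ρ) := by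
      have e : I.card = GX.card * GY.card *
          ((φ + 1) * (φ + 1) * ((ρ + sn + 1) * (ρ + sn + 1))) := by
        rw [hI]
        simp only [Finset.card_product, Finset.card_range]
      rw [e, Nat.cast_mul, Nat.cast_mul]
      have k1 := cnt4 C₀ φ ρ sn hφ1 hρφ hsnle
      rw [hφu] at k1
      have hXr : (X.card : ℝ) ≤ a * u := by
        have h1 : (a : ℝ) * X.card ≤ φ := by exact_mod_cast hXφ
        rw [hφu] at h1
        have h2 : (a : ℝ) * X.card ≤ a * (a * u) := by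
          calc (a : ℝ) * X.card ≤ (a : ℝ) ^ 2 * u := h1
            _ = a * (a * u) := by ring
        exact le_of_mul_le_mul_left h2 (by linarith)
      have hYr : (Y.card : ℝ) ≤ a * u := by
        have h1 : (a : ℝ) * Y.card ≤ φ := by exact_mod_cast hYφ
        rw [hφu] at h1
        have h2 : (a : ℝ) * Y.card ≤ a * (a * u) := by
          calc (a : ℝ) * Y.card ≤ (a : ℝ) ^ 2 * u := h1
            _ = a * (a * u) := by ring
        exact le_of_mul_le_mul_left h2 (by linarith)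
      have hsn2 : (sn : ℝ) ≤ C₀ * a * √u := by
        rw [hsq] at hsnle
        calc (sn : ℝ) ≤ C₀ * (a * √u) := hsnle
          _ = C₀ * a * √u := by ring
      have k2 : (GX.card : ℝ) ≤ Real.exp (D * (C₀ * a * √u + 1) *
          (1 + Real.log (1 + a * u / (C₀ * a * √u + 1)))) := by
        refine hGX1.trans (Real.exp_le_exp.mpr ?_)
        rw [mul_assoc, mul_assoc]
        refine mul_le_mul_of_nonneg_left ?_ hD.le
        exact mlog (by positivity) (by linarith) (Nat.cast_nonneg _) hXr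
      have k3 : (GY.card : ℝ) ≤ Real.exp (D * (C₀ * a * √u + ρ + 1) *
          (1 + Real.log (1 + a * u / (C₀ * a * √u + ρ + 1)))) := by
        refine hGY1.trans (Real.exp_le_exp.mpr ?_)
        rw [mul_assoc, mul_assoc]
        refine mul_le_mul_of_nonneg_left ?_ hD.le
        refine mlog (by positivity) ?_ (Nat.cast_nonneg _) hYr
        push_cast
        linarith
      have k4 := mul_le_mul (mul_le_mul k2 k3 (Nat.cast_nonneg _) (Real.exp_pos _).le) k1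
        (Nat.cast_nonneg _) (by positivity)
      refine k4.trans (le_of_eq ?_)
      rw [← Real.exp_add, ← Real.exp_add]
      congr 1
      unfold Ecost
      ring
    have hz : ∀ z ∈ I.filter cond, ((Fz z).card : ℝ)
        ≤ Real.exp (Epot α β γ a u ρ - Ecost D C₀ a u ρ) := by
      intro z hz
      rw [Finset.mem_filter] at hz
      obtain ⟨p1, p2, p3, p4, p5, p6, p7, p8, p9, p10, p11⟩ := part z hz.2
      have g1 := (hFam _ p1 p3 z.2.2.1 z.1.1.1 z.1.2.1).1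
      have g2 := (hFam _ p2 p4 z.2.2.2 z.1.1.2 z.1.2.2).1
      have k1 : (Fz z).card ≤ (Fam z.2.1.1 z.2.2.1 z.1.1.1 z.1.2.1).card *
          (Fam z.2.1.2 z.2.2.2 z.1.1.2 z.1.2.2).card := by
        refine Finset.card_image_le.trans ?_
        rw [Finset.card_product]
      have k2 : ((Fz z).card : ℝ) ≤ ((Fam z.2.1.1 z.2.2.1 z.1.1.1 z.1.2.1).card : ℝ) *
          (Fam z.2.1.2 z.2.2.2 z.1.1.2 z.1.2.2).card := by exact_mod_cast k1
      refine k2.trans ((mul_le_mul g1 g2 (Nat.cast_nonneg _) (Real.exp_pos _).le).trans ?_)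
      rw [← Real.exp_add]
      apply Real.exp_le_exp.mpr
      have k3 := hE a u ρ _ _ z.2.2.1 z.2.2.2 har hθu (Nat.cast_nonneg _) (Nat.cast_nonneg _)
        (Nat.cast_nonneg _) p5 p6 p7 p8 p9 p10 p11
      linarith
    calc (((I.filter cond).biUnion Fz).card : ℝ)
        ≤ ((∑ z ∈ I.filter cond, (Fz z).card : ℕ) : ℝ) := by
          exact_mod_cast Finset.card_biUnion_le
      _ = ∑ z ∈ I.filter cond, ((Fz z).card : ℝ) := by push_cast; rfl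
      _ ≤ ∑ z ∈ I.filter cond, Real.exp (Epot α β γ a u ρ - Ecost D C₀ a u ρ) :=
          Finset.sum_le_sum hz
      _ = (I.filter cond).card * Real.exp (Epot α β γ a u ρ - Ecost D C₀ a u ρ) := by
          rw [Finset.sum_const, nsmul_eq_mul]
      _ ≤ I.card * Real.exp (Epot α β γ a u ρ - Ecost D C₀ a u ρ) := by
          apply mul_le_mul_of_nonneg_right _ (Real.exp_pos _).le
          exact_mod_cast Finset.card_filter_le _ _
      _ ≤ Real.exp (Ecost D C₀ a u ρ) * Real.exp (Epot α β γ a u ρ - Ecost D C₀ a u ρ) :=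
          mul_le_mul_of_nonneg_right hIcard (Real.exp_pos _).le
      _ = Real.exp (Epot α β γ a u ρ) := by
          rw [← Real.exp_add]; congr 1; ring
  · -- sizes
    intro R hR
    rw [Finset.mem_biUnion] at hR
    obtain ⟨z, hz, hRz⟩ := hR
    rw [Finset.mem_filter] at hz
    rw [Finset.mem_image] at hRz
    obtain ⟨w, hw, rfl⟩ := hRz
    rw [Finset.mem_product] at hw
    obtain ⟨p1, p2, p3, p4, p5, p6, p7, p8, p9, p10, p11⟩ := part z hz.2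
    have g1 := (hFam _ p1 p3 z.2.2.1 z.1.1.1 z.1.2.1).2.1 _ hw.1
    have g2 := (hFam _ p2 p4 z.2.2.2 z.1.1.2 z.1.2.2).2.1 _ hw.2
    have k1 : ((w.1 ∪ w.2).card : ℝ) ≤ w.1.card + w.2.card := by
      exact_mod_cast Finset.card_union_le _ _
    have k2 := hS u _ _ hθu p5 p6 p7 p8 p9 p10
    have k3 := mul_le_mul_of_nonneg_left k2 ha2.le
    rw [mul_add] at k3
    linarith
  · -- covering
    intro N x up xb yb hTP hxb hyb V hV hX hY hφ' hρ'
    have hlarge : θ₀ * a ^ 2 < Phi a xb yb V := by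
      rw [hφ']
      have h1 : (θ₀ : ℝ) * (a : ℝ) ^ 2 < φ :=
        lt_of_le_of_lt (mul_le_mul_of_nonneg_right hθ₀ ha2.le) hφ
      exact_mod_cast h1
    obtain ⟨A, hAV, s1, s2, s3, s4, s5, s6, s7⟩ :=
      hstep a N x up xb yb ha hTP hxb hyb V hV hlarge
    rw [hφ'] at s1 s2 s3 s4 s5 s6 s7
    rw [hρ'] at s5 s7
    have hVN : ∀ t ∈ V, t < N := fun t ht => Finset.mem_range.mp (hV ht)
    have c1 : chg x V A ≤ sn := Nat.le_floor s6
    have c2 : chg (fun t => (t : ℝ)) V A ≤ sn + ρ := by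
      have : chg (fun t => (t : ℝ)) V A ≤ ⌊(C₀ : ℝ) * √(φ : ℝ) + ρ⌋₊ := Nat.le_floor s7
      rw [Nat.floor_add_natCast (by positivity)] at this
      exact this
    have m1 : (A.image xb, (V \ A).image xb) ∈ GX :=
      hGX2 V A x xb hAV (fun s hs t ht h => hTP.inj s (hVN s hs) t (hVN t ht) h)
        (fun s hs t ht h => hxb s (hVN s hs) t (hVN t ht) h) hX c1
    have m2 : (A.image yb, (V \ A).image yb) ∈ GY :=
      hGY2 V A (fun t => (t : ℝ)) yb hAV (fun s _ t _ h => Nat.cast_injective h)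
        (fun s hs t ht h => hyb s (hVN s hs) t (hVN t ht) (by exact_mod_cast h)) hY c2
    have hAN : A ⊆ Finset.range N := hAV.trans hV
    have hBN : V \ A ⊆ Finset.range N := Finset.sdiff_subset.trans hV
    have r1 : rho A < ρ + sn + 1 := by
      have h1 : (rho A : ℝ) ≤ C₀ * √(φ : ℝ) + ρ := by
        have : (0 : ℝ) ≤ rho (V \ A) := Nat.cast_nonneg _
        linarith
      have h2 : rho A ≤ ⌊(C₀ : ℝ) * √(φ : ℝ) + ρ⌋₊ := Nat.le_floor h1
      rw [Nat.floor_add_natCast (by positivity)] at h2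
      omega
    have r2 : rho (V \ A) < ρ + sn + 1 := by
      have h1 : (rho (V \ A) : ℝ) ≤ C₀ * √(φ : ℝ) + ρ := by
        have : (0 : ℝ) ≤ rho A := Nat.cast_nonneg _
        linarith
      have h2 : rho (V \ A) ≤ ⌊(C₀ : ℝ) * √(φ : ℝ) + ρ⌋₊ := Nat.le_floor h1
      rw [Nat.floor_add_natCast (by positivity)] at h2
      omega
    set z : (((Finset ℕ × Finset ℕ) × (Finset ℕ × Finset ℕ)) × ((ℕ × ℕ) × (ℕ × ℕ))) :=
      (((A.image xb, (V \ A).image xb), (A.image yb, (V \ A).image yb)),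
        ((Phi a xb yb A, Phi a xb yb (V \ A)), (rho A, rho (V \ A)))) with hz
    have hcond : cond z := ⟨s1, s2, s3, s4, s5⟩
    have hzI : z ∈ I.filter cond := by
      rw [Finset.mem_filter]
      refine ⟨?_, hcond⟩
      rw [hI]
      simp only [Finset.mem_product, Finset.mem_range]
      exact ⟨⟨m1, m2⟩, ⟨by show Phi a xb yb A < φ + 1; omega,
        by show Phi a xb yb (V \ A) < φ + 1; omega⟩, ⟨r1, r2⟩⟩
    obtain ⟨p1, p2, p3, p4, p5, p6, p7, p8, p9, p10, p11⟩ := part z hcond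
    obtain ⟨R1, hR1, hc1⟩ := (hFam _ p1 p3 (rho A) (A.image xb) (A.image yb)).2.2 N x up xb yb
      hTP hxb hyb A hAN rfl rfl rfl rfl
    obtain ⟨R2, hR2, hc2⟩ := (hFam _ p2 p4 (rho (V \ A)) ((V \ A).image xb)
      ((V \ A).image yb)).2.2 N x up xb yb hTP hxb hyb (V \ A) hBN rfl rfl rfl rfl
    refine ⟨R1 ∪ R2, ?_, ?_⟩
    · rw [Finset.mem_biUnion]
      refine ⟨z, hzI, ?_⟩
      rw [Finset.mem_image]
      exact ⟨(R1, R2), Finset.mem_product.mpr ⟨hR1, hR2⟩, rfl⟩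
    · intro t ht
      rw [Finset.mem_union]
      by_cases htA : t ∈ A
      · exact Or.inl (hc1 t htA)
      · exact Or.inr (hc2 t (Finset.mem_sdiff.mpr ⟨ht, htA⟩))

end RECaux

open RECaux in
theorem REC_ok (h1 : S_STEP) (h2 : S_SPL) (h3 : S_NUM) : S_REC := by
  obtain ⟨C₀, θ₀, hC₀, hθ₀1, hstep⟩ := h1
  obtain ⟨D, hD, hspl⟩ := h2
  obtain ⟨θ, α, β, γ, σ, κ, hθ₀, hθ10, hα, hβ, hγ, hσ, hκ, hpos, hsq, hS, hE⟩ :=
    h3 C₀ θ₀ D (by exact_mod_cast hC₀) (by exact_mod_cast hθ₀1) hD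
  -- main claim
  have main : ∀ a : ℕ, 1 ≤ a → ∀ φ : ℕ, 3/10 * θ * (a : ℝ) ^ 2 ≤ (φ : ℝ) →
      ∀ (ρ : ℕ) (X Y : Finset ℕ), ∃ F, Good α β γ σ κ a φ ρ X Y F := by
    intro a ha φ
    have ha2 : (0 : ℝ) < (a : ℝ) ^ 2 := by
      have : (0 : ℝ) < a := by exact_mod_cast ha
      positivity
    induction φ using Nat.strong_induction_on with
    | _ φ ih =>
      intro hφ ρ X Y
      have hu3 : 3/10 * θ ≤ (φ : ℝ) / (a : ℝ) ^ 2 := by
        rw [le_div_iff₀ ha2]; exact hφ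
      rcases le_or_gt (φ : ℝ) (θ * (a : ℝ) ^ 2) with hle | hgt
      · refine ⟨base a φ X Y, ?_, ?_, base_cov a φ ρ X Y⟩
        · have h4 : ((base a φ X Y).card : ℝ) ≤ 1 := by exact_mod_cast base_card a φ X Y
          refine h4.trans (Real.one_le_exp ?_)
          unfold Epot
          have h5 := hpos _ hu3
          have h6 : (0 : ℝ) ≤ a := Nat.cast_nonneg _
          have h7 : (0 : ℝ) ≤ ρ := Nat.cast_nonneg _
          have h8 : 0 ≤ γ * ρ * (1 + Real.log ((φ : ℝ) / (a : ℝ) ^ 2)) ^ 2 := by positivity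
          have h9 := mul_nonneg h6 h5
          linarith
        · intro R hR
          have h4 : (a : ℝ) ^ 2 * R.card ≤ (φ : ℝ) ^ 2 := by
            exact_mod_cast base_size a φ X Y R hR
          have h5 := hsq _ hu3 (by rw [div_le_iff₀ ha2]; exact hle)
          have h6 := mul_le_mul_of_nonneg_left h5 ha2.le
          refine le_trans ?_ h6
          have e : (a : ℝ) ^ 2 * ((φ : ℝ) / (a : ℝ) ^ 2) ^ 2 = (φ : ℝ) ^ 2 / (a : ℝ) ^ 2 := by
            field_simp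
          rw [e, le_div_iff₀ ha2]
          linarith
      · exact step C₀ θ₀ D θ α β γ σ κ hC₀ hθ₀ hθ10 hD hstep hspl hS hE a ha φ hgt
          (fun m hm hm2 => ih m hm hm2) ρ X Y
  -- conclusion
  refine ⟨α + γ + σ + θ, by linarith, ?_⟩
  intro a ha φ ρ X Y
  have har : (0 : ℝ) < a := by exact_mod_cast ha
  have ha2 : (0 : ℝ) < (a : ℝ) ^ 2 := by positivity
  have hφ0 : (0 : ℝ) ≤ φ := Nat.cast_nonneg _
  have hρ0 : (0 : ℝ) ≤ ρ := Nat.cast_nonneg _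
  have hC0 : 0 < α + γ + σ + θ := by linarith
  rcases le_or_gt (3/10 * θ * (a : ℝ) ^ 2) (φ : ℝ) with hle | hgt
  · obtain ⟨F, hF1, hF2, hF3⟩ := main a ha φ hle ρ X Y
    have hu3 : 3/10 * θ ≤ (φ : ℝ) / (a : ℝ) ^ 2 := by
      rw [le_div_iff₀ ha2]; exact hle
    have hu1 : 1 ≤ (φ : ℝ) / (a : ℝ) ^ 2 := by linarith
    refine ⟨F, ?_, ?_, hF3⟩
    · refine hF1.trans (Real.exp_le_exp.mpr ?_)
      unfold Epot
      set u : ℝ := (φ : ℝ) / (a : ℝ) ^ 2 with hu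
      have hφu : (φ : ℝ) / a = a * u := by rw [hu]; field_simp
      rw [hφu]
      have k1 : 0 ≤ u ^ (3/4 : ℝ) := by positivity
      have k2 : Real.log u ≤ Real.log (1 + u) := Real.log_le_log (by linarith) (by linarith)
      have k3 : 0 ≤ Real.log u := Real.log_nonneg hu1
      have k4 : (1 + Real.log u) ^ 2 ≤ (1 + Real.log (1 + u)) ^ 2 :=
        pow_le_pow_left₀ (by linarith) (by linarith) 2
      have k5 : γ * ρ * (1 + Real.log u) ^ 2
          ≤ (α + γ + σ + θ) * ρ * (1 + Real.log (1 + u)) ^ 2 := by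
        apply mul_le_mul _ k4 (by positivity) (by positivity)
        apply mul_le_mul_of_nonneg_right _ hρ0
        linarith
      have k6 : a * (α * u - β * u ^ (3/4 : ℝ)) ≤ (α + γ + σ + θ) * (a * u + 1) := by
        have k7 : 0 ≤ a * (β * u ^ (3/4 : ℝ)) := by positivity
        have k8 : 0 ≤ (γ + σ + θ) * (a * u) := by
          have : 0 ≤ γ + σ + θ := by linarith
          positivity
        nlinarith
      linarith
    · intro R hR
      refine (hF2 R hR).trans ?_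
      unfold Spot
      set u : ℝ := (φ : ℝ) / (a : ℝ) ^ 2 with hu
      have hφu : (φ : ℝ) = (a : ℝ) ^ 2 * u := by rw [hu]; field_simp
      have k1 : 0 ≤ u ^ (3/4 : ℝ) := by positivity
      have k2 : 0 ≤ (a : ℝ) ^ 2 * (σ * (κ * u ^ (3/4 : ℝ))) := by positivity
      have k3 : 0 ≤ (α + γ + θ) * ((a : ℝ) ^ 2 * u) := by
        have : 0 ≤ α + γ + θ := by linarith
        positivity
      rw [hφu]
      nlinarith
  · refine ⟨base a φ X Y, ?_, ?_, base_cov a φ ρ X Y⟩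
    · have h4 : ((base a φ X Y).card : ℝ) ≤ 1 := by exact_mod_cast base_card a φ X Y
      refine h4.trans (Real.one_le_exp ?_)
      positivity
    · intro R hR
      have h4 : (a : ℝ) ^ 2 * R.card ≤ (φ : ℝ) ^ 2 := by
        exact_mod_cast base_size a φ X Y R hR
      have h5 : (φ : ℝ) ^ 2 ≤ (a : ℝ) ^ 2 * ((α + γ + σ + θ) * φ) := by
        have h6 : (φ : ℝ) * φ ≤ (3/10 * θ * (a : ℝ) ^ 2) * φ :=
          mul_le_mul_of_nonneg_right hgt.le hφ0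
        have h7 : 0 ≤ (a : ℝ) ^ 2 * φ := by positivity
        nlinarith
      exact le_of_mul_le_mul_left (h4.trans h5) ha2

end Pool.Agent.H172R2.UT
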