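import Pool.Agent.H172R2.UT.Defs

/-! SEPV: separator for a subset of a two page sequence. -/

open Classical

namespace Pool.Agent.H172R2.UT

namespace SEPVaux

noncomputable def rk (x : ℕ → ℝ) (V : Finset ℕ) (t : ℕ) : ℕ := (V.filter (fun s => x s < x t)).card

lemma rk_le {x : ℕ → ℝ} {V : Finset ℕ} {s t : ℕ} (h : x s ≤ x t) : rk x V s ≤ rk x V t := by
  apply Finset.card_le_card
  intro u hu
  rw [Finset.mem_filter] at hu ⊢
  exact ⟨hu.1, lt_of_lt_of_le hu.2 h⟩

lemma rk_lt {x : ℕ → ℝ} {V : Finset ℕ} {s t : ℕ} (hs : s ∈ V) (h : x s < x t) :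
    rk x V s < rk x V t := by
  apply Finset.card_lt_card
  rw [Finset.ssubset_iff_of_subset]
  · refine ⟨s, Finset.mem_filter.2 ⟨hs, h⟩, fun h2 => ?_⟩
    exact lt_irrefl _ (Finset.mem_filter.1 h2).2
  · intro u hu
    rw [Finset.mem_filter] at hu ⊢
    exact ⟨hu.1, hu.2.trans h⟩

lemma rk_lt_iff {x : ℕ → ℝ} {V : Finset ℕ} {s t : ℕ} (hs : s ∈ V) :
    rk x V s < rk x V t ↔ x s < x t := by
  constructor
  · intro h
    by_contra h2
    exact absurd h (not_lt.2 (rk_le (not_lt.1 h2)))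
  · exact rk_lt hs

lemma rk_card {x : ℕ → ℝ} {V : Finset ℕ} {t : ℕ} (ht : t ∈ V) : rk x V t < V.card := by
  apply Finset.card_lt_card
  rw [Finset.ssubset_iff_of_subset (Finset.filter_subset _ _)]
  exact ⟨t, ht, fun h => lt_irrefl _ (Finset.mem_filter.1 h).2⟩

lemma rk_inj {x : ℕ → ℝ} {V : Finset ℕ} (hinj : ∀ s ∈ V, ∀ t ∈ V, x s = x t → s = t)
    {s t : ℕ} (hs : s ∈ V) (ht : t ∈ V) (h : rk x V s = rk x V t) : s = t := by
  apply hinj s hs t ht
  rcases lt_trichotomy (x s) (x t) with h1 | h1 | h1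
  · exact absurd h (rk_lt hs h1).ne
  · exact h1
  · exact absurd h (rk_lt ht h1).ne'

lemma rk_succ {x : ℕ → ℝ} {V : Finset ℕ} (hinj : ∀ s ∈ V, ∀ t ∈ V, x s = x t → s = t)
    {s t : ℕ} (hs : s ∈ V) (hlt : x s < x t)
    (hno : ∀ u ∈ V, ¬ (x s < x u ∧ x u < x t)) : rk x V t = rk x V s + 1 := by
  have h1 : V.filter (fun u => x u < x t) = insert s (V.filter (fun u => x u < x s)) := by
    ext u
    rw [Finset.mem_insert, Finset.mem_filter, Finset.mem_filter]
    constructor
    · rintro ⟨hu, hut⟩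
      have h2 : x u ≤ x s := by
        by_contra h3
        exact hno u hu ⟨not_le.1 h3, hut⟩
      rcases h2.lt_or_eq with h3 | h3
      · exact Or.inr ⟨hu, h3⟩
      · exact Or.inl (hinj u hu s hs h3)
    · rintro (rfl | ⟨hu, hus⟩)
      · exact ⟨hs, hlt⟩
      · exact ⟨hu, hus.trans hlt⟩
  unfold rk
  rw [h1, Finset.card_insert_of_notMem]
  intro h
  exact lt_irrefl _ (Finset.mem_filter.1 h).2

/-- distribute the elements of `S` to the lighter side -/
lemma distribute (w : ℕ → ℕ) (m W : ℕ) (S : Finset ℕ) : (∀ t ∈ S, w t ≤ m) → ∀ a b : ℕ,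
    a + b + ∑ t ∈ S, w t ≤ W → 3 * a ≤ 2 * W + 3 * m → 3 * b ≤ 2 * W + 3 * m →
    ∃ Z ⊆ S, 3 * (a + ∑ t ∈ Z, w t) ≤ 2 * W + 3 * m ∧
      3 * (b + ∑ t ∈ S \ Z, w t) ≤ 2 * W + 3 * m := by
  induction S using Finset.induction_on with
  | empty =>
    intro _ a b _ ha hb
    exact ⟨∅, Finset.Subset.refl _, by simpa using ha, by simpa using hb⟩
  | insert s S hs ih =>
    intro hw a b hab ha hb
    rw [Finset.sum_insert hs] at hab
    have hws := hw s (Finset.mem_insert_self _ _)
    have hw' : ∀ t ∈ S, w t ≤ m := fun t ht => hw t (Finset.mem_insert_of_mem ht)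
    rcases le_total a b with h | h
    · obtain ⟨Z, hZ, h1, h2⟩ := ih hw' (a + w s) b (by omega) (by omega) hb
      have hsZ : s ∉ Z := fun h3 => hs (hZ h3)
      refine ⟨insert s Z, Finset.insert_subset_insert _ hZ, ?_, ?_⟩
      · rw [Finset.sum_insert hsZ]
        rw [← add_assoc]; exact h1
      · have h3 : insert s S \ insert s Z = S \ Z := by
          ext u
          simp only [Finset.mem_sdiff, Finset.mem_insert, not_or]
          constructor
          · rintro ⟨h4 | h4, h5, h6⟩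
            · exact absurd h4 h5
            · exact ⟨h4, h6⟩
          · rintro ⟨h4, h5⟩
            exact ⟨Or.inr h4, fun h6 => hs (h6 ▸ h4), h5⟩
        rw [h3]; exact h2
    · obtain ⟨Z, hZ, h1, h2⟩ := ih hw' a (b + w s) (by omega) ha (by omega)
      have hsZ : s ∉ Z := fun h3 => hs (hZ h3)
      refine ⟨Z, hZ.trans (Finset.subset_insert _ _), h1, ?_⟩
      have h3 : insert s S \ Z = insert s (S \ Z) := by
        ext u
        simp only [Finset.mem_sdiff, Finset.mem_insert]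
        constructor
        · rintro ⟨h4 | h4, h5⟩
          · exact Or.inl h4
          · exact Or.inr ⟨h4, h5⟩
        · rintro (h4 | ⟨h4, h5⟩)
          · exact ⟨Or.inl h4, h4 ▸ hsZ⟩
          · exact ⟨Or.inr h4, h5⟩
      rw [h3, Finset.sum_insert (fun h4 => hs (Finset.mem_sdiff.1 h4).1), ← add_assoc]
      exact h2

lemma sum_fib (x : ℕ → ℝ) (V : Finset ℕ) (w : ℕ → ℕ) (P : ℕ → Prop) :
    ∑ i ∈ (Finset.range V.card).filter P, ∑ t ∈ V.filter (fun t => rk x V t = i), w t =
      ∑ t ∈ V.filter (fun t => P (rk x V t)), w t := by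
  have hmaps : ∀ t ∈ V.filter (fun t => P (rk x V t)),
      rk x V t ∈ (Finset.range V.card).filter P := by
    intro t ht
    rw [Finset.mem_filter] at ht ⊢
    exact ⟨Finset.mem_range.2 (rk_card ht.1), ht.2⟩
  rw [← Finset.sum_fiberwise_of_maps_to hmaps w]
  apply Finset.sum_congr rfl
  intro i hi
  apply Finset.sum_congr _ fun _ _ => rfl
  ext t
  simp only [Finset.mem_filter]
  constructor
  · rintro ⟨h1, h2⟩
    exact ⟨⟨h1, h2 ▸ (Finset.mem_filter.1 hi).2⟩, h2⟩
  · rintro ⟨⟨h1, _⟩, h2⟩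
    exact ⟨h1, h2⟩

lemma nc_aux {a b c d : ℝ} (h1 : min a b < min c d) (h2 : min c d < max a b)
    (h3 : max a b < max c d) : Cross a b c d := by
  rcases le_total c d with h | h
  · rw [min_eq_left h] at h1 h2
    rw [max_eq_right h] at h3
    exact Or.inl ⟨⟨h1, h2⟩, Or.inr h3⟩
  · rw [min_eq_right h] at h1 h2
    rw [max_eq_left h] at h3
    exact Or.inr ⟨⟨h1, h2⟩, Or.inr h3⟩

/-- the arcs in ranks -/
noncomputable def arcs (x : ℕ → ℝ) (up : ℕ → Bool) (V : Finset ℕ) (b : Bool) : Finset (ℕ × ℕ) :=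
  (V.filter (fun t => t + 1 ∈ V ∧ up t = b)).image
    (fun t => (min (rk x V t) (rk x V (t+1)), max (rk x V t) (rk x V (t+1))))

lemma rk_min {x : ℕ → ℝ} {V : Finset ℕ} (s t : ℕ) :
    ∃ u, (u = s ∨ u = t) ∧ min (rk x V s) (rk x V t) = rk x V u ∧ min (x s) (x t) = x u := by
  rcases le_total (x s) (x t) with h | h
  · exact ⟨s, Or.inl rfl, min_eq_left (rk_le h), min_eq_left h⟩
  · exact ⟨t, Or.inr rfl, min_eq_right (rk_le h), min_eq_right h⟩

lemma rk_max {x : ℕ → ℝ} {V : Finset ℕ} (s t : ℕ) :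
    ∃ u, (u = s ∨ u = t) ∧ max (rk x V s) (rk x V t) = rk x V u ∧ max (x s) (x t) = x u := by
  rcases le_total (x s) (x t) with h | h
  · exact ⟨t, Or.inr rfl, max_eq_right (rk_le h), max_eq_right h⟩
  · exact ⟨s, Or.inl rfl, max_eq_left (rk_le h), max_eq_left h⟩

lemma arcs_nc {N : ℕ} {x : ℕ → ℝ} {up : ℕ → Bool} (h : TwoPage N x up) {V : Finset ℕ}
    (hV : V ⊆ Finset.range N) (b : Bool) : NC (arcs x up V b) := by
  intro e he f hf
  obtain ⟨s, hs, rfl⟩ := Finset.mem_image.1 he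
  obtain ⟨t, ht, rfl⟩ := Finset.mem_image.1 hf
  rw [Finset.mem_filter] at hs ht
  obtain ⟨hs0, hs1, hs2⟩ := hs
  obtain ⟨ht0, ht1, ht2⟩ := ht
  rintro ⟨h1, h2, h3⟩
  simp only at h1 h2 h3
  refine h.nc s t (Finset.mem_range.1 (hV hs1)) (Finset.mem_range.1 (hV ht1))
    (hs2.trans ht2.symm) ?_
  obtain ⟨u1, hu1, e1, e1'⟩ := rk_min (x := x) (V := V) s (s+1)
  obtain ⟨u2, hu2, e2, e2'⟩ := rk_min (x := x) (V := V) t (t+1)
  obtain ⟨u3, hu3, e3, e3'⟩ := rk_max (x := x) (V := V) s (s+1)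
  obtain ⟨u4, hu4, e4, e4'⟩ := rk_max (x := x) (V := V) t (t+1)
  rw [e1, e2] at h1
  rw [e2, e3] at h2
  rw [e3, e4] at h3
  have m1 : u1 ∈ V := by rcases hu1 with rfl | rfl <;> assumption
  have m2 : u2 ∈ V := by rcases hu2 with rfl | rfl <;> assumption
  have m3 : u3 ∈ V := by rcases hu3 with rfl | rfl <;> assumption
  apply nc_aux
  · rw [e1', e2']; exact (rk_lt_iff m1).1 h1
  · rw [e2', e3']; exact (rk_lt_iff m2).1 h2
  · rw [e3', e4']; exact (rk_lt_iff m3).1 h3

lemma arcs_lt {N : ℕ} {x : ℕ → ℝ} {up : ℕ → Bool} (h : TwoPage N x up) {V : Finset ℕ}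
    (hV : V ⊆ Finset.range N) (b : Bool) :
    ∀ e ∈ arcs x up V b, e.1 < e.2 ∧ e.2 < V.card := by
  intro e he
  obtain ⟨s, hs, rfl⟩ := Finset.mem_image.1 he
  rw [Finset.mem_filter] at hs
  obtain ⟨hs0, hs1, hs2⟩ := hs
  have hinj : ∀ s ∈ V, ∀ t ∈ V, x s = x t → s = t := fun s hs t ht =>
    h.inj s (Finset.mem_range.1 (hV hs)) t (Finset.mem_range.1 (hV ht))
  have hne : rk x V s ≠ rk x V (s+1) := fun h1 => by
    have := rk_inj hinj hs0 hs1 h1
    omega
  constructor
  · exact min_lt_max.2 hne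
  · exact max_lt (rk_card hs0) (rk_card hs1)

end SEPVaux

open SEPVaux in
theorem SEPV_ok (hLT : S_LT) : S_SEPV := by
  obtain ⟨C₀, hC₀, hLT⟩ := hLT
  refine ⟨2 * C₀, by omega, fun N x up hTP V hV w m hw => ?_⟩
  have hinj : ∀ s ∈ V, ∀ t ∈ V, x s = x t → s = t := fun s hs t ht =>
    hTP.inj s (Finset.mem_range.1 (hV hs)) t (Finset.mem_range.1 (hV ht))
  obtain ⟨X, lab, hXM, hXc, hadj, harc, hwt⟩ := hLT V.card (arcs x up V true)
    (arcs x up V false) (arcs_lt hTP hV true) (arcs_lt hTP hV false) (arcs_nc hTP hV true)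
    (arcs_nc hTP hV false) (fun i => ∑ t ∈ V.filter (fun t => rk x V t = i), w t)
  -- weights
  have hW : ∑ i ∈ Finset.range V.card, ∑ t ∈ V.filter (fun t => rk x V t = i), w t =
      ∑ t ∈ V, w t :=
    Finset.sum_fiberwise_of_maps_to (fun t ht => Finset.mem_range.2 (rk_card ht)) w
  rw [hW] at hwt
  have hwt' : ∀ b : Bool, 3 * (∑ t ∈ V.filter (fun t => rk x V t ∉ X ∧ lab (rk x V t) = b), w t)
      ≤ 2 * ∑ t ∈ V, w t := by
    intro b
    have h1 := hwt b
    have e := sum_fib x V w (fun i => i ∉ X ∧ lab i = b)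
    convert h1 using 2
    convert e.symm
  set A0 : Finset ℕ := V.filter (fun t => rk x V t ∉ X ∧ lab (rk x V t) = true) with hA0
  set B0 : Finset ℕ := V.filter (fun t => rk x V t ∉ X ∧ lab (rk x V t) = false) with hB0
  set XX : Finset ℕ := V.filter (fun t => rk x V t ∈ X) with hXX
  set W : ℕ := ∑ t ∈ V, w t with hWdef
  have hAX : Disjoint A0 XX := by
    rw [Finset.disjoint_left]
    intro t h1 h2
    exact (Finset.mem_filter.1 h1).2.1 (Finset.mem_filter.1 h2).2
  have hBX : Disjoint B0 XX := by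
    rw [Finset.disjoint_left]
    intro t h1 h2
    exact (Finset.mem_filter.1 h1).2.1 (Finset.mem_filter.1 h2).2
  have hAB : Disjoint A0 B0 := by
    rw [Finset.disjoint_left]
    intro t h1 h2
    have h3 := (Finset.mem_filter.1 h1).2.2
    have h4 := (Finset.mem_filter.1 h2).2.2
    rw [h3] at h4
    exact absurd h4 (by decide)
  have hVeq : V = (A0 ∪ B0) ∪ XX := by
    ext t
    simp only [hA0, hB0, hXX, Finset.mem_union, Finset.mem_filter]
    constructor
    · intro ht
      by_cases h1 : rk x V t ∈ X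
      · exact Or.inr ⟨ht, h1⟩
      · left
        rcases Bool.eq_false_or_eq_true (lab (rk x V t)) with h2 | h2
        · exact Or.inl ⟨ht, h1, h2⟩
        · exact Or.inr ⟨ht, h1, h2⟩
    · rintro ((h1 | h1) | h1) <;> exact h1.1
  have hsum : (∑ t ∈ A0, w t) + (∑ t ∈ B0, w t) + ∑ t ∈ XX, w t = W := by
    rw [← Finset.sum_union hAB, ← Finset.sum_union (Finset.disjoint_union_left.2 ⟨hAX, hBX⟩),
      ← hVeq]
  have hA1 : 3 * ∑ t ∈ A0, w t ≤ 2 * W := hwt' true
  have hB1 : 3 * ∑ t ∈ B0, w t ≤ 2 * W := hwt' false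
  obtain ⟨Z, hZ, hZ1, hZ2⟩ := distribute w m W XX
    (fun t ht => hw t (Finset.mem_filter.1 ht).1) (∑ t ∈ A0, w t) (∑ t ∈ B0, w t)
    hsum.le (by omega) (by omega)
  have hAZ : Disjoint A0 Z := hAX.mono_right hZ
  have hcompl : V \ (A0 ∪ Z) = B0 ∪ (XX \ Z) := by
    ext t
    constructor
    · intro ht
      rw [Finset.mem_sdiff, Finset.mem_union, not_or] at ht
      have h1 : t ∈ (A0 ∪ B0) ∪ XX := hVeq ▸ ht.1
      rw [Finset.mem_union, Finset.mem_union] at h1
      rw [Finset.mem_union, Finset.mem_sdiff]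
      rcases h1 with (h1 | h1) | h1
      · exact absurd h1 ht.2.1
      · exact Or.inl h1
      · exact Or.inr ⟨h1, ht.2.2⟩
    · intro ht
      rw [Finset.mem_union, Finset.mem_sdiff] at ht
      rw [Finset.mem_sdiff, Finset.mem_union, not_or]
      rcases ht with h1 | ⟨h1, h2⟩
      · exact ⟨(Finset.mem_filter.1 h1).1, fun h3 => Finset.disjoint_left.1 hAB h3 h1,
          fun h3 => Finset.disjoint_left.1 hBX h1 (hZ h3)⟩
      · exact ⟨(Finset.mem_filter.1 h1).1, fun h3 => Finset.disjoint_left.1 hAX h3 h1, h2⟩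
  have hmem : ∀ t ∈ V, rk x V t ∉ X → (t ∈ A0 ∪ Z ↔ lab (rk x V t) = true) := by
    intro t ht hX
    rw [Finset.mem_union]
    constructor
    · rintro (h1 | h1)
      · exact (Finset.mem_filter.1 h1).2.2
      · exact absurd (Finset.mem_filter.1 (hZ h1)).2 hX
    · intro h1
      exact Or.inl (Finset.mem_filter.2 ⟨ht, hX, h1⟩)
  have hM0 : (0 : ℝ) ≤ √(V.card : ℝ) := Real.sqrt_nonneg _
  refine ⟨A0 ∪ Z, ?_, ?_, ?_, ?_, ?_⟩
  · exact Finset.union_subset (Finset.filter_subset _ _) (hZ.trans (Finset.filter_subset _ _))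
  · -- changes along x
    have h1 : chg x V (A0 ∪ Z) ≤ 2 * X.card := by
      unfold chg
      have hsub : (V.filter (fun t => ∃ s ∈ V, x s < x t ∧
          (∀ u ∈ V, ¬ (x s < x u ∧ x u < x t)) ∧ ¬ (s ∈ A0 ∪ Z ↔ t ∈ A0 ∪ Z))).image
          (fun t => rk x V t) ⊆ X ∪ X.image (fun i => i + 1) := by
        intro i hi
        obtain ⟨t, ht, rfl⟩ := Finset.mem_image.1 hi
        rw [Finset.mem_filter] at ht
        obtain ⟨htV, s, hsV, hlt, hno, hdiff⟩ := ht
        have hr := rk_succ hinj hsV hlt hno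
        rw [Finset.mem_union, Finset.mem_image]
        by_cases h2 : rk x V t ∈ X
        · exact Or.inl h2
        · right
          refine ⟨rk x V s, ?_, hr.symm⟩
          by_contra h3
          apply hdiff
          rw [hmem s hsV h3, hmem t htV h2]
          have h4 := hadj (rk x V s) (by rw [← hr]; exact rk_card htV) h3 (by rw [← hr]; exact h2)
          rw [← hr] at h4
          rw [h4]
      rw [← Finset.card_image_of_injOn (f := fun t => rk x V t)]
      · calc _ ≤ (X ∪ X.image (fun i => i + 1)).card := Finset.card_le_card hsub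
          _ ≤ X.card + (X.image (fun i => i + 1)).card := Finset.card_union_le _ _
          _ ≤ X.card + X.card := Nat.add_le_add_left Finset.card_image_le _
          _ = 2 * X.card := by ring
      · intro s hs t ht hst
        exact rk_inj hinj (Finset.mem_filter.1 (Finset.mem_coe.1 hs)).1
          (Finset.mem_filter.1 (Finset.mem_coe.1 ht)).1 hst
    have h2 : (chg x V (A0 ∪ Z) : ℝ) ≤ 2 * X.card := by exact_mod_cast h1
    push_cast
    nlinarith
  · -- cut arcs
    have hXXc : XX.card ≤ X.card := by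
      rw [← Finset.card_image_of_injOn (f := fun t => rk x V t)]
      · apply Finset.card_le_card
        intro i hi
        obtain ⟨t, ht, rfl⟩ := Finset.mem_image.1 hi
        exact (Finset.mem_filter.1 ht).2
      · intro s hs t ht hst
        exact rk_inj hinj (Finset.mem_filter.1 (Finset.mem_coe.1 hs)).1
          (Finset.mem_filter.1 (Finset.mem_coe.1 ht)).1 hst
    have h1 : cuty V (A0 ∪ Z) ≤ 2 * X.card := by
      unfold cuty
      have hsub : V.filter (fun t => t + 1 ∈ V ∧ ¬ (t ∈ A0 ∪ Z ↔ t + 1 ∈ A0 ∪ Z)) ⊆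
          XX ∪ XX.image (fun i => i - 1) := by
        intro t ht
        rw [Finset.mem_filter] at ht
        obtain ⟨htV, ht1, hdiff⟩ := ht
        rw [Finset.mem_union, Finset.mem_image]
        by_cases h2 : rk x V t ∈ X
        · exact Or.inl (Finset.mem_filter.2 ⟨htV, h2⟩)
        · right
          refine ⟨t + 1, ?_, by omega⟩
          rw [hXX, Finset.mem_filter]
          refine ⟨ht1, ?_⟩
          by_contra h3
          apply hdiff
          rw [hmem t htV h2, hmem (t+1) ht1 h3]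
          have harcmem : (min (rk x V t) (rk x V (t+1)), max (rk x V t) (rk x V (t+1))) ∈
              arcs x up V true ∪ arcs x up V false := by
            rw [Finset.mem_union]
            rcases Bool.eq_false_or_eq_true (up t) with h4 | h4
            · exact Or.inl (Finset.mem_image.2 ⟨t, Finset.mem_filter.2 ⟨htV, ht1, h4⟩, rfl⟩)
            · exact Or.inr (Finset.mem_image.2 ⟨t, Finset.mem_filter.2 ⟨htV, ht1, h4⟩, rfl⟩)
          have h5 := harc _ harcmem
          simp only at h5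
          rcases le_total (rk x V t) (rk x V (t+1)) with h6 | h6
          · rw [min_eq_left h6, max_eq_right h6] at h5
            rw [h5 h2 h3]
          · rw [min_eq_right h6, max_eq_left h6] at h5
            rw [h5 h3 h2]
      calc _ ≤ (XX ∪ XX.image (fun i => i - 1)).card := Finset.card_le_card hsub
        _ ≤ XX.card + (XX.image (fun i => i - 1)).card := Finset.card_union_le _ _
        _ ≤ XX.card + XX.card := Nat.add_le_add_left Finset.card_image_le _
        _ ≤ 2 * X.card := by omega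
    have h2 : (cuty V (A0 ∪ Z) : ℝ) ≤ 2 * X.card := by exact_mod_cast h1
    push_cast
    nlinarith
  · rw [Finset.sum_union hAZ]
    exact hZ1
  · rw [hcompl, Finset.sum_union (hBX.mono_right Finset.sdiff_subset)]
    exact hZ2

end Pool.Agent.H172R2.UT
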