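import Pool.Agent.H172R2.UT.Defs

/-!
Separator theorem for triangulated spheres (SPH), from fundamental cycles (CYC).
-/

set_option autoImplicit false

open Classical

namespace Pool.Agent.H172R2.UT

namespace SPHaux

/-- grouping four classes into two -/
theorem group4 (a : Fin 4 → ℕ) (W : ℕ) (h : ∀ i, 3 * a i ≤ 2 * W) (hs : ∑ i, a i ≤ W) :
    ∃ T : Fin 4 → Bool, ∀ b : Bool, 3 * ∑ i, (if T i = b then a i else 0) ≤ 2 * W := by
  simp only [Fin.sum_univ_four] at hs ⊢
  have h0 := h 0
  have h1 := h 1
  have h2 := h 2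
  have h3 := h 3
  by_cases c0 : W ≤ 3 * a 0
  · refine ⟨![true, false, false, false], fun b => ?_⟩
    cases b <;> simp <;> omega
  by_cases c1 : W ≤ 3 * a 1
  · refine ⟨![false, true, false, false], fun b => ?_⟩
    cases b <;> simp <;> omega
  by_cases c2 : W ≤ 3 * a 2
  · refine ⟨![false, false, true, false], fun b => ?_⟩
    cases b <;> simp <;> omega
  by_cases c3 : W ≤ 3 * a 3
  · refine ⟨![false, false, false, true], fun b => ?_⟩
    cases b <;> simp <;> omega
  by_cases c4 : W ≤ 3 * (a 0 + a 1)
  · refine ⟨![true, true, false, false], fun b => ?_⟩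
    cases b <;> simp <;> omega
  by_cases c5 : W ≤ 3 * (a 0 + a 1 + a 2)
  · refine ⟨![true, true, true, false], fun b => ?_⟩
    cases b <;> simp <;> omega
  · refine ⟨![true, true, true, true], fun b => ?_⟩
    cases b <;> simp <;> omega

/-- a small level among `k` consecutive ones -/
theorem small_level {V : Type} [Fintype V] (L : V → ℕ) (k t : ℕ) (hk : Fintype.card V < k * k) :
    ∃ l, t ≤ l ∧ l < t + k ∧ (Finset.univ.filter (fun v => L v = l)).card + 1 ≤ k := by
  obtain ⟨l, hl, hc⟩ := Finset.exists_card_fiber_lt_of_card_lt_mul (s := (Finset.univ : Finset V))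
    (t := Finset.Ico t (t + k)) (f := L) (n := k) (by simpa using hk)
  rw [Finset.mem_Ico] at hl
  exact ⟨l, hl.1, hl.2, hc⟩

/-- the median level -/
theorem median {V : Type} [Fintype V] (lev : V → ℕ) (w : V → ℕ) :
    ∃ l : ℕ, 2 * (∑ v ∈ Finset.univ.filter (fun v => lev v < l), w v) ≤ ∑ v, w v ∧
      2 * (∑ v ∈ Finset.univ.filter (fun v => l < lev v), w v) ≤ ∑ v, w v := by
  have hex : ∃ l : ℕ, ∑ v, w v ≤ 2 * (∑ v ∈ Finset.univ.filter (fun v => lev v ≤ l), w v) := by
    refine ⟨Finset.univ.sup lev, ?_⟩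
    have : Finset.univ.filter (fun v => lev v ≤ Finset.univ.sup lev) = (Finset.univ : Finset V) := by
      rw [Finset.filter_eq_self]
      intro v _
      exact Finset.le_sup (f := lev) (Finset.mem_univ v)
    rw [this]
    omega
  refine ⟨Nat.find hex, ?_, ?_⟩
  · rcases Nat.eq_zero_or_pos (Nat.find hex) with h | h
    · rw [h]
      simp
    · have h1 := Nat.find_min hex (m := Nat.find hex - 1) (by omega)
      have h2 : Finset.univ.filter (fun v => lev v < Nat.find hex) =
          Finset.univ.filter (fun v => lev v ≤ Nat.find hex - 1) := by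
        ext v
        simp only [Finset.mem_filter, Finset.mem_univ, true_and]
        omega
      rw [h2]
      omega
  · have h1 := Nat.find_spec hex
    have h2 := Finset.sum_filter_add_sum_filter_not Finset.univ (fun v => lev v ≤ Nat.find hex) w
    have h3 : Finset.univ.filter (fun v => Nat.find hex < lev v) =
        Finset.univ.filter (fun v => ¬ lev v ≤ Nat.find hex) := by
      ext v
      simp only [Finset.mem_filter, Finset.mem_univ, true_and]
      omega
    rw [h3]
    omega

theorem main_card (h : S_CYC) {V F E : Type} [Fintype V] [Fintype F] [Fintype E]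
    (S : Sph V F E) (w : V → ℕ) (hV : 3 ≤ Fintype.card V) :
    ∃ (X : Finset V) (lab : V → Bool), X.card ≤ 6 * (Nat.sqrt (Fintype.card V) + 1) ∧
    (∀ e, S.e1 e ∉ X → S.e2 e ∉ X → lab (S.e1 e) = lab (S.e2 e)) ∧
    (∀ b : Bool, 3 * (∑ v ∈ Finset.univ.filter (fun v => v ∉ X ∧ lab v = b), w v)
      ≤ 2 * ∑ v, w v) := by
  obtain ⟨lev, hlip, hcyc⟩ := h V F E S hV
  obtain ⟨ls, hlo, hhi⟩ := median lev w
  set n := Fintype.card V with hn
  set k := Nat.sqrt n + 1 with hk
  have hkk : n < k * k := by
    rw [hk]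
    exact Nat.lt_succ_sqrt n
  obtain ⟨l0, hl0a, hl0b, hl0c⟩ := small_level (fun v => lev v + k) k (ls + 1) hkk
  obtain ⟨l1, hl1a, hl1b, hl1c⟩ := small_level (fun v => lev v + k) k (ls + k + 1) hkk
  -- an edge at every vertex
  have hedge : ∀ v : V, ∃ e, S.e1 e = v ∨ S.e2 e = v := by
    intro v
    have hne : ({v} : Set V)ᶜ.Nonempty := by
      have : 1 < Fintype.card V := by omega
      obtain ⟨u, hu⟩ := Fintype.exists_ne_of_one_lt_card this v
      exact ⟨u, hu⟩
    obtain ⟨e, he⟩ := S.pconn {v} (Set.singleton_nonempty v) hne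
    refine ⟨e, ?_⟩
    simp only [Set.mem_singleton_iff] at he
    tauto
  choose ed hed using hedge
  set phi : V → F := fun v => S.f1 (ed v) with hphi
  set Mid : Finset V := Finset.univ.filter (fun v => l0 < lev v + k ∧ lev v + k < l1) with hMid
  obtain ⟨A, c, D, hD1, hD2, hA, hAc⟩ :=
    hcyc (fun f => ∑ v ∈ Mid.filter (fun v => phi v = f), w v)
  set Ec : Finset E := Finset.univ.filter (fun e : E => S.f1 e = c ∨ S.f2 e = c) with hEc
  set X : Finset V := Finset.univ.filter (fun v => lev v + k = l0) ∪
    Finset.univ.filter (fun v => lev v + k = l1) ∪ (D ∩ Mid) ∪ (Ec.image S.e1 ∪ Ec.image S.e2)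
    with hX
  -- the weights of sets of faces
  have hWsum : ∀ B : Finset F, ∑ f ∈ B, ∑ v ∈ Mid.filter (fun v => phi v = f), w v =
      ∑ v ∈ Mid.filter (fun v => phi v ∈ B), w v := by
    intro B
    have e1 := Finset.sum_fiberwise_of_maps_to (s := Mid.filter (fun v => phi v ∈ B)) (t := B)
      (g := phi) (by intro v hv; exact (Finset.mem_filter.1 hv).2) w
    rw [← e1]
    refine Finset.sum_congr rfl (fun f hf => ?_)
    refine Finset.sum_congr ?_ (fun _ _ => rfl)
    ext v
    simp only [Finset.mem_filter]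
    constructor
    · rintro ⟨h1, h2⟩
      exact ⟨⟨h1, by rw [h2]; exact hf⟩, h2⟩
    · rintro ⟨⟨h1, -⟩, h2⟩
      exact ⟨h1, h2⟩
  have hWtot : ∑ f, ∑ v ∈ Mid.filter (fun v => phi v = f), w v ≤ ∑ v, w v := by
    rw [hWsum Finset.univ]
    exact Finset.sum_le_sum_of_subset (Finset.subset_univ _)
  rw [hWsum A] at hA
  rw [hWsum (Finset.univ.filter (fun f => f ∉ A ∧ f ≠ c))] at hAc
  -- membership in `X`
  have hnX : ∀ v, v ∉ X → lev v + k ≠ l0 ∧ lev v + k ≠ l1 ∧ (v ∈ Mid → v ∉ D) ∧ phi v ≠ c := by
    intro v hv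
    rw [hX] at hv
    simp only [Finset.mem_union, Finset.mem_filter, Finset.mem_univ, true_and, Finset.mem_inter,
      Finset.mem_image, not_or] at hv
    obtain ⟨⟨⟨h1, h2⟩, h3⟩, h4, h5⟩ := hv
    refine ⟨h1, h2, fun hM hDv => h3 ⟨hDv, hM⟩, fun hc => ?_⟩
    have hin : ed v ∈ Ec := by
      rw [hEc, Finset.mem_filter]
      exact ⟨Finset.mem_univ _, Or.inl hc⟩
    rcases hed v with h6 | h6
    · exact h4 ⟨ed v, hin, h6⟩
    · exact h5 ⟨ed v, hin, h6⟩
  -- the classes
  set cls : V → Fin 4 := fun v => if lev v + k ≤ l0 then 0 else if l1 ≤ lev v + k then 1 else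
    if phi v ∈ A then 2 else 3 with hcls
  set a : Fin 4 → ℕ := fun i => ∑ v ∈ Finset.univ.filter (fun v => v ∉ X ∧ cls v = i), w v with ha
  have ha0 : 3 * a 0 ≤ 2 * ∑ v, w v := by
    have : a 0 ≤ ∑ v ∈ Finset.univ.filter (fun v => lev v < ls), w v := by
      refine Finset.sum_le_sum_of_subset ?_
      intro v hv
      rw [Finset.mem_filter] at hv ⊢
      refine ⟨Finset.mem_univ _, ?_⟩
      obtain ⟨-, h1, h2⟩ := hv
      have h3 := hnX v h1
      simp only [hcls] at h2
      split_ifs at h2 with h4 h5 h6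
      · omega
      all_goals exact absurd h2 (by decide)
    omega
  have ha1 : 3 * a 1 ≤ 2 * ∑ v, w v := by
    have : a 1 ≤ ∑ v ∈ Finset.univ.filter (fun v => ls < lev v), w v := by
      refine Finset.sum_le_sum_of_subset ?_
      intro v hv
      rw [Finset.mem_filter] at hv ⊢
      refine ⟨Finset.mem_univ _, ?_⟩
      obtain ⟨-, h1, h2⟩ := hv
      have h3 := hnX v h1
      simp only [hcls] at h2
      split_ifs at h2 with h4 h5 h6
      · exact absurd h2 (by decide)
      · omega
      all_goals exact absurd h2 (by decide)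
    omega
  have ha2 : 3 * a 2 ≤ 2 * ∑ v, w v := by
    have : a 2 ≤ ∑ v ∈ Mid.filter (fun v => phi v ∈ A), w v := by
      refine Finset.sum_le_sum_of_subset ?_
      intro v hv
      rw [Finset.mem_filter] at hv ⊢
      obtain ⟨-, h1, h2⟩ := hv
      have h3 := hnX v h1
      simp only [hcls] at h2
      split_ifs at h2 with h4 h5 h6
      · exact absurd h2 (by decide)
      · exact absurd h2 (by decide)
      · refine ⟨?_, h6⟩
        rw [hMid, Finset.mem_filter]
        exact ⟨Finset.mem_univ _, by omega, by omega⟩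
      · exact absurd h2 (by decide)
    omega
  have ha3 : 3 * a 3 ≤ 2 * ∑ v, w v := by
    have : a 3 ≤ ∑ v ∈ Mid.filter (fun v => phi v ∈ Finset.univ.filter (fun f => f ∉ A ∧ f ≠ c)),
        w v := by
      refine Finset.sum_le_sum_of_subset ?_
      intro v hv
      rw [Finset.mem_filter] at hv ⊢
      obtain ⟨-, h1, h2⟩ := hv
      have h3 := hnX v h1
      simp only [hcls] at h2
      split_ifs at h2 with h4 h5 h6
      · exact absurd h2 (by decide)
      · exact absurd h2 (by decide)
      · exact absurd h2 (by decide)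
      · refine ⟨?_, ?_⟩
        · rw [hMid, Finset.mem_filter]
          exact ⟨Finset.mem_univ _, by omega, by omega⟩
        · rw [Finset.mem_filter]
          exact ⟨Finset.mem_univ _, h6, h3.2.2.2⟩
    omega
  have hfib : ∀ P : Fin 4 → Bool, ∀ b : Bool,
      ∑ v ∈ Finset.univ.filter (fun v => v ∉ X ∧ P (cls v) = b), w v =
      ∑ i, (if P i = b then a i else 0) := by
    intro P b
    rw [← Finset.sum_fiberwise_of_maps_to
      (s := Finset.univ.filter (fun v => v ∉ X ∧ P (cls v) = b)) (t := Finset.univ)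
      (g := cls) (fun v _ => Finset.mem_univ _) w]
    refine Finset.sum_congr rfl (fun i _ => ?_)
    by_cases hPi : P i = b
    · rw [if_pos hPi]
      refine Finset.sum_congr ?_ (fun _ _ => rfl)
      ext v
      simp only [Finset.mem_filter, Finset.mem_univ, true_and]
      constructor
      · rintro ⟨⟨h1, -⟩, h2⟩
        exact ⟨h1, h2⟩
      · rintro ⟨h1, h2⟩
        exact ⟨⟨h1, by rw [h2]; exact hPi⟩, h2⟩
    · rw [if_neg hPi]
      refine Finset.sum_eq_zero (fun v hv => ?_)
      exfalso
      simp only [Finset.mem_filter, Finset.mem_univ, true_and] at hv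
      obtain ⟨⟨-, h1⟩, h2⟩ := hv
      rw [h2] at h1
      exact hPi h1
  have hasum : ∑ i, a i ≤ ∑ v, w v := by
    have h1 := hfib (fun _ => true) true
    simp only [if_true] at h1
    rw [← h1]
    exact Finset.sum_le_sum_of_subset (Finset.subset_univ _)
  obtain ⟨T, hT⟩ := group4 a (∑ v, w v) (by
    intro i
    fin_cases i
    · exact ha0
    · exact ha1
    · exact ha2
    · exact ha3) hasum
  refine ⟨X, fun v => T (cls v), ?_, ?_, ?_⟩
  · -- cardinality
    have c1 : (D ∩ Mid).card ≤ 2 * (l1 - l0 - 1) := by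
      have h1 := Finset.card_le_mul_card_image_of_maps_to (s := D ∩ Mid)
        (t := Finset.Ioo l0 l1) (f := fun v => lev v + k)
        (fun v hv => by
          have := (Finset.mem_inter.1 hv).2
          rw [hMid, Finset.mem_filter] at this
          rw [Finset.mem_Ioo]
          exact this.2) 2
        (fun l hl => by
          refine le_trans (Finset.card_le_card ?_) (hD1 (l - k))
          intro v hv
          rw [Finset.mem_filter] at hv ⊢
          refine ⟨(Finset.mem_inter.1 hv.1).1, ?_⟩
          have h3 := hv.2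
          omega)
      rw [Nat.card_Ioo] at h1
      exact h1
    have c2 : Ec.card ≤ 3 := S.three c
    have c3 : (Ec.image S.e1 ∪ Ec.image S.e2).card ≤ 6 := by
      have h1 := Finset.card_union_le (Ec.image S.e1) (Ec.image S.e2)
      have h2 : (Ec.image S.e1).card ≤ Ec.card := Finset.card_image_le
      have h3 : (Ec.image S.e2).card ≤ Ec.card := Finset.card_image_le
      omega
    have c4 := Finset.card_union_le (Finset.univ.filter (fun v => lev v + k = l0) ∪
      Finset.univ.filter (fun v => lev v + k = l1) ∪ (D ∩ Mid)) (Ec.image S.e1 ∪ Ec.image S.e2)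
    have c5 := Finset.card_union_le (Finset.univ.filter (fun v => lev v + k = l0) ∪
      Finset.univ.filter (fun v => lev v + k = l1)) (D ∩ Mid)
    have c6 := Finset.card_union_le (Finset.univ.filter (fun v => lev v + k = l0))
      (Finset.univ.filter (fun v => lev v + k = l1))
    rw [← hX] at c4
    omega
  · -- edges
    intro e h1 h2
    have g1 := hnX _ h1
    have g2 := hnX _ h2
    have hl := hlip e
    have hc : cls (S.e1 e) = cls (S.e2 e) := by
      simp only [hcls]
      by_cases q1 : lev (S.e1 e) + k ≤ l0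
      · have q2 : lev (S.e2 e) + k ≤ l0 := by omega
        rw [if_pos q1, if_pos q2]
      · have q2 : ¬ lev (S.e2 e) + k ≤ l0 := by omega
        rw [if_neg q1, if_neg q2]
        by_cases q3 : l1 ≤ lev (S.e1 e) + k
        · have q4 : l1 ≤ lev (S.e2 e) + k := by omega
          rw [if_pos q3, if_pos q4]
        · have q4 : ¬ l1 ≤ lev (S.e2 e) + k := by omega
          rw [if_neg q3, if_neg q4]
          have m1 : S.e1 e ∈ Mid := by
            rw [hMid, Finset.mem_filter]
            exact ⟨Finset.mem_univ _, by omega, by omega⟩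
          have m2 : S.e2 e ∈ Mid := by
            rw [hMid, Finset.mem_filter]
            exact ⟨Finset.mem_univ _, by omega, by omega⟩
          have key : ∀ v, v ∉ D → (S.e1 e = v ∨ S.e2 e = v) → (S.f1 e ∈ A ↔ phi v ∈ A) := by
            intro v hvD hv
            have := S.link v (A : Set F) (by
              intro e' he'
              by_contra hcon
              have hh := hD2 e' (by simpa using hcon)
              rcases he' with he' | he'
              · rw [he'] at hh
                exact hvD hh.1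
              · rw [he'] at hh
                exact hvD hh.2) e (ed v) hv (hed v)
            simpa using this
          have k1 := key _ (g1.2.2.1 m1) (Or.inl rfl)
          have k2 := key _ (g2.2.2.1 m2) (Or.inr rfl)
          by_cases q5 : phi (S.e1 e) ∈ A
          · have q6 : phi (S.e2 e) ∈ A := k2.1 (k1.2 q5)
            rw [if_pos q5, if_pos q6]
          · have q6 : phi (S.e2 e) ∉ A := fun hq => q5 (k1.1 (k2.2 hq))
            rw [if_neg q5, if_neg q6]
    show T (cls (S.e1 e)) = T (cls (S.e2 e))
    rw [hc]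
  · intro b
    have := hT b
    rw [← hfib T b] at this
    exact this

end SPHaux

theorem SPH_ok (h : S_CYC) : S_SPH := by
  refine ⟨12, by norm_num, ?_⟩
  intro V F E _ _ _ S w
  rcases Nat.lt_or_ge (Fintype.card V) 3 with hV | hV
  · refine ⟨Finset.univ, fun _ => true, ?_, ?_, ?_⟩
    · rw [Finset.card_univ]
      have h1 : ((Fintype.card V : ℕ) : ℝ) = √(Fintype.card V : ℝ) * √(Fintype.card V : ℝ) :=
        (Real.mul_self_sqrt (Nat.cast_nonneg _)).symm
      have h2 : √(Fintype.card V : ℝ) ≤ 12 := by
        have h3 : (Fintype.card V : ℝ) ≤ 144 := by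
          have : (Fintype.card V : ℝ) < 3 := by exact_mod_cast hV
          linarith
        rw [Real.sqrt_le_left (by norm_num)]
        linarith
      calc ((Fintype.card V : ℕ) : ℝ) = √(Fintype.card V : ℝ) * √(Fintype.card V : ℝ) := h1
        _ ≤ 12 * √(Fintype.card V : ℝ) :=
          mul_le_mul_of_nonneg_right h2 (Real.sqrt_nonneg _)
        _ = ((12 : ℕ) : ℝ) * √(Fintype.card V : ℝ) := by norm_num
    · intro e h1 _
      exact absurd (Finset.mem_univ _) h1
    · intro b
      simp
  · obtain ⟨X, lab, hX, h1, h2⟩ := SPHaux.main_card h S w hV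
    refine ⟨X, lab, ?_, h1, h2⟩
    have h3 : (X.card : ℝ) ≤ 6 * ((Nat.sqrt (Fintype.card V) : ℝ) + 1) := by exact_mod_cast hX
    have h4 : (Nat.sqrt (Fintype.card V) : ℝ) ≤ √(Fintype.card V : ℝ) := Real.nat_sqrt_le_real_sqrt
    have h5 : (1 : ℝ) ≤ √(Fintype.card V : ℝ) := by
      rw [Real.one_le_sqrt]
      have : (3 : ℝ) ≤ (Fintype.card V : ℝ) := by exact_mod_cast hV
      linarith
    have h6 : ((12 : ℕ) : ℝ) = 12 := by norm_num
    rw [h6]
    linarith

end Pool.Agent.H172R2.UT
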