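import Pool.Agent.H172R2.UT.Defs

/-! Task SPL (helper605): the number of ways to split a set of blocks with few changes. -/

set_option autoImplicit false

namespace Pool.Agent.H172R2.UT

open Classical

namespace SPLaux

/-- label changes along a set of integers -/
noncomputable def chgP (Y : Finset ℕ) (L : ℕ → Prop) : Finset ℕ :=
  @Finset.filter ℕ (fun t => ∃ s ∈ Y, s < t ∧ (∀ u ∈ Y, ¬ (s < u ∧ u < t)) ∧ ¬ (L s ↔ L t))
    (fun _ => propDecidable _) Y

theorem mem_chgP {Y : Finset ℕ} {L : ℕ → Prop} {t : ℕ} : t ∈ chgP Y L ↔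
    t ∈ Y ∧ ∃ s ∈ Y, s < t ∧ (∀ u ∈ Y, ¬ (s < u ∧ u < t)) ∧ ¬ (L s ↔ L t) := by
  unfold chgP
  exact @Finset.mem_filter ℕ _ (fun _ => propDecidable _) Y t

/-- a labelling is determined by few boundaries -/
theorem decode (Y : Finset ℕ) (L : ℕ → Prop) : ∃ S ⊆ Y, S.card ≤ (chgP Y L).card + 1 ∧
    ∀ z ∈ Y, (L z ↔ Odd (S.filter (fun u => u ≤ z)).card) := by
  induction Y using Finset.induction_on_max with
  | empty => exact ⟨∅, by simp, by simp, by simp⟩
  | insert y Y0 hy ih =>
    obtain ⟨S0, hS0, hc, hL⟩ := ih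
    have hyY : y ∉ Y0 := fun h => lt_irrefl _ (hy y h)
    have hyS : y ∉ S0 := fun h => hyY (hS0 h)
    have hsub : chgP Y0 L ⊆ chgP (insert y Y0) L := by
      intro t ht
      rw [mem_chgP] at ht ⊢
      obtain ⟨htY, s, hsY, hst, hb, hne⟩ := ht
      refine ⟨Finset.mem_insert_of_mem htY, s, Finset.mem_insert_of_mem hsY, hst, ?_, hne⟩
      intro u hu
      rcases Finset.mem_insert.1 hu with rfl | hu
      · intro h
        exact lt_asymm h.2 (hy t htY)
      · exact hb u hu
    have hcard : (chgP Y0 L).card ≤ (chgP (insert y Y0) L).card := Finset.card_le_card hsub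
    have hfy : S0.filter (fun u => u ≤ y) = S0 :=
      Finset.filter_true_of_mem fun u hu => (hy u (hS0 hu)).le
    by_cases hcase : L y ↔ Odd S0.card
    · refine ⟨S0, hS0.trans (Finset.subset_insert _ _), by omega, ?_⟩
      intro z hz
      rcases Finset.mem_insert.1 hz with rfl | hz
      · rw [hfy]
        exact hcase
      · exact hL z hz
    · refine ⟨insert y S0, Finset.insert_subset_insert _ hS0, ?_, ?_⟩
      · rw [Finset.card_insert_of_notMem hyS]
        rcases Finset.eq_empty_or_nonempty Y0 with h0 | h0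
        · have : S0 = ∅ := by
            rw [h0] at hS0
            exact Finset.subset_empty.1 hS0
          rw [this]
          simp
        · -- `y` is a change
          have hm := Finset.max'_mem Y0 h0
          have hfm : S0.filter (fun u => u ≤ Y0.max' h0) = S0 :=
            Finset.filter_true_of_mem fun u hu => Finset.le_max' _ _ (hS0 hu)
          have hLm := hL _ hm
          rw [hfm] at hLm
          have hych : y ∈ chgP (insert y Y0) L := by
            rw [mem_chgP]
            refine ⟨Finset.mem_insert_self _ _, Y0.max' h0, Finset.mem_insert_of_mem hm,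
              hy _ hm, ?_, ?_⟩
            · intro u hu
              rcases Finset.mem_insert.1 hu with rfl | hu
              · exact fun h => lt_irrefl _ h.2
              · exact fun h => absurd (Finset.le_max' _ _ hu) (not_le.2 h.1)
            · intro h
              apply hcase
              rw [← h, hLm]
          have hyn : y ∉ chgP Y0 L := fun h => hyY (mem_chgP.1 h).1
          have h1 : insert y (chgP Y0 L) ⊆ chgP (insert y Y0) L := by
            intro u hu
            rcases Finset.mem_insert.1 hu with rfl | hu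
            · exact hych
            · exact hsub hu
          have h2 := Finset.card_le_card h1
          rw [Finset.card_insert_of_notMem hyn] at h2
          omega
      · intro z hz
        rcases Finset.mem_insert.1 hz with rfl | hz
        · rw [Finset.filter_insert, if_pos le_rfl, hfy, Finset.card_insert_of_notMem hyS,
            Nat.odd_add_one]
          tauto
        · rw [Finset.filter_insert, if_neg (not_le.2 (hy z hz))]
          exact hL z hz

/-- there is a change between two elements with different labels -/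
theorem exists_change {V A : Finset ℕ} {key : ℕ → ℝ}
    (hinj : ∀ s ∈ V, ∀ t ∈ V, key s = key t → s = t) {v' v : ℕ} (hv' : v' ∈ V) (hv : v ∈ V)
    (hlt : key v' < key v) (hne : ¬ (v' ∈ A ↔ v ∈ A)) :
    ∃ t ∈ V.filter (fun t => ∃ s ∈ V, key s < key t ∧
      (∀ u ∈ V, ¬ (key s < key u ∧ key u < key t)) ∧ ¬ (s ∈ A ↔ t ∈ A)),
      key v' ≤ key t ∧ key t ≤ key v := by
  have hW : (V.filter (fun u => key v' < key u ∧ key u ≤ key v ∧ ¬ (v' ∈ A ↔ u ∈ A))).Nonempty :=
    ⟨v, Finset.mem_filter.2 ⟨hv, hlt, le_rfl, hne⟩⟩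
  obtain ⟨t, htW, htmin⟩ := Finset.exists_min_image _ key hW
  obtain ⟨htV, ht1, ht2, ht3⟩ := Finset.mem_filter.1 htW
  have hZ : (V.filter (fun u => key u < key t)).Nonempty := ⟨v', Finset.mem_filter.2 ⟨hv', ht1⟩⟩
  obtain ⟨s, hsZ, hsmax⟩ := Finset.exists_max_image _ key hZ
  obtain ⟨hsV, hs1⟩ := Finset.mem_filter.1 hsZ
  have hs2 : key v' ≤ key s := hsmax v' (Finset.mem_filter.2 ⟨hv', ht1⟩)
  have hs3 : v' ∈ A ↔ s ∈ A := by
    by_contra hcon
    have h1 : v' ≠ s := by
      rintro rfl
      exact hcon Iff.rfl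
    have h2 : key v' < key s := lt_of_le_of_ne hs2 fun h => h1 (hinj _ hv' _ hsV h)
    have h3 := htmin s (Finset.mem_filter.2 ⟨hsV, h2, by linarith, hcon⟩)
    linarith
  refine ⟨t, Finset.mem_filter.2 ⟨htV, s, hsV, hs1, ?_, ?_⟩, ht1.le, ht2⟩
  · rintro u hu ⟨h1, h2⟩
    have := hsmax u (Finset.mem_filter.2 ⟨hu, h2⟩)
    linarith
  · rw [← hs3]
    exact ht3

/-- the blocks have at most twice as many changes -/
theorem transfer {V A : Finset ℕ} {key : ℕ → ℝ} {bl : ℕ → ℕ} (hAV : A ⊆ V)
    (hinj : ∀ s ∈ V, ∀ t ∈ V, key s = key t → s = t)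
    (hmono : ∀ s ∈ V, ∀ t ∈ V, key s ≤ key t → bl s ≤ bl t) :
    (chgP (V.image bl) (fun y => y ∈ A.image bl)).card ≤ 2 * chg key V A := by
  set T := V.filter (fun t => ∃ s ∈ V, key s < key t ∧
      (∀ u ∈ V, ¬ (key s < key u ∧ key u < key t)) ∧ ¬ (s ∈ A ↔ t ∈ A)) with hT
  have hTc : T.card = chg key V A := rfl
  set nx : ℕ → ℕ := fun y' => if h : ∃ y ∈ V.image bl, y' < y ∧
    ∀ u ∈ V.image bl, ¬ (y' < u ∧ u < y) then h.choose else 0 with hnx
  have hsub : chgP (V.image bl) (fun y => y ∈ A.image bl) ⊆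
      T.image bl ∪ T.image (fun t => nx (bl t)) := by
    intro y hy
    obtain ⟨hyY, y', hy'Y, hlt, hb, hne⟩ := mem_chgP.1 hy
    obtain ⟨v', hv'V, v, hvV, hbv', hbv, hvv⟩ : ∃ v' ∈ V, ∃ v ∈ V, bl v' = y' ∧ bl v = y ∧
        ¬ (v' ∈ A ↔ v ∈ A) := by
      by_cases h1 : y' ∈ A.image bl
      · have h2 : y ∉ A.image bl := fun h => hne ⟨fun _ => h, fun _ => h1⟩
        obtain ⟨v', hv'A, hbv'⟩ := Finset.mem_image.1 h1
        obtain ⟨v, hvV, hbv⟩ := Finset.mem_image.1 hyY
        refine ⟨v', hAV hv'A, v, hvV, hbv', hbv, fun h => h2 ?_⟩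
        exact Finset.mem_image.2 ⟨v, h.1 hv'A, hbv⟩
      · have h2 : y ∈ A.image bl := by
          by_contra h
          exact hne ⟨fun h' => absurd h' h1, fun h' => absurd h' h⟩
        obtain ⟨v, hvA, hbv⟩ := Finset.mem_image.1 h2
        obtain ⟨v', hv'V, hbv'⟩ := Finset.mem_image.1 hy'Y
        refine ⟨v', hv'V, v, hAV hvA, hbv', hbv, fun h => h1 ?_⟩
        exact Finset.mem_image.2 ⟨v', h.2 hvA, hbv'⟩
    have hkey : key v' < key v := by
      by_contra h
      have := hmono v hvV v' hv'V (not_lt.1 h)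
      omega
    obtain ⟨t, htT, h1, h2⟩ := exists_change hinj hv'V hvV hkey hvv
    have htV : t ∈ V := (Finset.mem_filter.1 htT).1
    have h3 := hmono v' hv'V t htV h1
    have h4 := hmono t htV v hvV h2
    have htY : bl t ∈ V.image bl := Finset.mem_image_of_mem _ htV
    have h5 := hb (bl t) htY
    rw [Finset.mem_union, Finset.mem_image, Finset.mem_image]
    by_cases h6 : bl t = y
    · exact Or.inl ⟨t, htT, h6⟩
    · right
      refine ⟨t, htT, ?_⟩
      have h7 : bl t = y' := by omega
      rw [h7]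
      have hex : ∃ y ∈ V.image bl, y' < y ∧ ∀ u ∈ V.image bl, ¬ (y' < u ∧ u < y) :=
        ⟨y, hyY, hlt, hb⟩
      simp only [hnx, dif_pos hex]
      obtain ⟨g1, g2, g3⟩ := hex.choose_spec
      have g4 := hb _ g1
      have g5 := g3 y hyY
      omega
  refine (Finset.card_le_card hsub).trans ((Finset.card_union_le _ _).trans ?_)
  have h1 := Finset.card_image_le (s := T) (f := bl)
  have h2 := Finset.card_image_le (s := T) (f := fun t => nx (bl t))
  omega

/-- number of small subsets -/
theorem count (Y : Finset ℕ) (m : ℕ) (hm : 1 ≤ m) :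
    ((Y.powerset.filter (fun S => S.card ≤ m)).card : ℝ) ≤
      Real.exp (m * (1 + Real.log (1 + (Y.card : ℝ) / m))) := by
  have hm0 : (0 : ℝ) < m := by exact_mod_cast hm
  have hk0 : (0 : ℝ) ≤ Y.card := Nat.cast_nonneg _
  set k : ℝ := (Y.card : ℝ) with hk
  set t : ℝ := m / (m + k) with ht
  have ht0 : 0 < t := by positivity
  have ht1 : t ≤ 1 := by
    rw [ht, div_le_one (by positivity)]
    linarith
  have h1 : ((Y.powerset.filter (fun S => S.card ≤ m)).card : ℝ) * t ^ m ≤ (t + 1) ^ Y.card := by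
    rw [← Finset.sum_pow_mul_eq_add_pow t 1 Y, ← nsmul_eq_mul, ← Finset.sum_const]
    refine le_trans (Finset.sum_le_sum (f := fun _ => t ^ m)
      (g := fun S => t ^ S.card * 1 ^ (Y.card - S.card)) fun S hS => ?_)
      (Finset.sum_le_sum_of_subset_of_nonneg (Finset.filter_subset _ _) fun S _ _ => ?_)
    · rw [one_pow, mul_one]
      exact pow_le_pow_of_le_one ht0.le ht1 (Finset.mem_filter.1 hS).2
    · positivity
  have h2 : (t + 1) ^ Y.card ≤ Real.exp (t * k) := by
    calc (t + 1) ^ Y.card ≤ (Real.exp t) ^ Y.card :=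
          pow_le_pow_left₀ (by positivity) (Real.add_one_le_exp t) _
      _ = Real.exp (t * k) := by
          rw [← Real.exp_nat_mul, mul_comm]
  have h3 : t * k ≤ m := by
    rw [ht, div_mul_eq_mul_div, div_le_iff₀ (by positivity)]
    nlinarith
  have h4 : Real.exp (m * Real.log (1 + k / m)) * t ^ m = 1 := by
    rw [Real.exp_nat_mul, Real.exp_log (by positivity), ← mul_pow, ht]
    have : (1 + k / m) * (m / (m + k)) = 1 := by
      field_simp
    rw [this, one_pow]
  have h5 : (0 : ℝ) < t ^ m := by positivity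
  refine le_of_mul_le_mul_right ?_ h5
  calc ((Y.powerset.filter (fun S => S.card ≤ m)).card : ℝ) * t ^ m
      ≤ Real.exp (t * k) := h1.trans h2
    _ ≤ Real.exp m := Real.exp_le_exp.2 h3
    _ = Real.exp m * (Real.exp (m * Real.log (1 + k / m)) * t ^ m) := by rw [h4, mul_one]
    _ = _ := by
        rw [mul_add, mul_one, Real.exp_add]
        ring

end SPLaux

open SPLaux in
theorem SPL_ok : S_SPL := by
  refine ⟨4, by norm_num, fun Y c => ?_⟩
  set F : Finset (Finset ℕ) := (Y.powerset.filter (fun S => S.card ≤ 2 * c + 1)).image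
    (fun S => Y.filter (fun z => Odd (S.filter (fun u => u ≤ z)).card)) with hF
  have hmem : ∀ (V A : Finset ℕ) (key : ℕ → ℝ) (bl : ℕ → ℕ), A ⊆ V →
      (∀ s ∈ V, ∀ t ∈ V, key s = key t → s = t) →
      (∀ s ∈ V, ∀ t ∈ V, key s ≤ key t → bl s ≤ bl t) →
      V.image bl = Y → chg key V A ≤ c → A.image bl ∈ F := by
    intro V A key bl hAV hinj hmono hY hc
    obtain ⟨S, hS, hSc, hSL⟩ := decode Y (fun y => y ∈ A.image bl)
    have h1 := transfer hAV hinj hmono
    rw [hY] at h1
    rw [hF, Finset.mem_image]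
    refine ⟨S, Finset.mem_filter.2 ⟨Finset.mem_powerset.2 hS, by omega⟩, ?_⟩
    ext z
    rw [Finset.mem_filter]
    constructor
    · rintro ⟨hz, ho⟩
      exact (hSL z hz).2 ho
    · intro hz
      have hzY : z ∈ Y := by
        rw [← hY]
        exact Finset.image_subset_image hAV hz
      exact ⟨hzY, (hSL z hzY).1 hz⟩
  refine ⟨F ×ˢ F, ?_, ?_⟩
  · have hFc : (F.card : ℝ) ≤
        Real.exp (2 * (c + 1) * (1 + Real.log (1 + (Y.card : ℝ) / (c + 1)))) := by
      have h1 : (F.card : ℝ) ≤ ((Y.powerset.filter (fun S => S.card ≤ 2 * c + 1)).card : ℝ) := by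
        exact_mod_cast Finset.card_image_le
      refine h1.trans ((count Y (2 * c + 1) (by omega)).trans (Real.exp_le_exp.2 ?_))
      have hc0 : (0 : ℝ) ≤ c := Nat.cast_nonneg _
      have hk0 : (0 : ℝ) ≤ Y.card := Nat.cast_nonneg _
      have h2 : (Y.card : ℝ) / ((2 * c + 1 : ℕ) : ℝ) ≤ (Y.card : ℝ) / (c + 1) := by
        apply div_le_div_of_nonneg_left hk0 (by positivity)
        push_cast
        linarith
      have h3 : Real.log (1 + (Y.card : ℝ) / ((2 * c + 1 : ℕ) : ℝ)) ≤
          Real.log (1 + (Y.card : ℝ) / (c + 1)) :=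
        Real.log_le_log (by positivity) (by linarith)
      have h4 : 0 ≤ Real.log (1 + (Y.card : ℝ) / ((2 * c + 1 : ℕ) : ℝ)) := by
        apply Real.log_nonneg
        have : 0 ≤ (Y.card : ℝ) / ((2 * c + 1 : ℕ) : ℝ) := by positivity
        linarith
      apply mul_le_mul _ (by linarith) (by linarith) (by positivity)
      push_cast
      linarith
    rw [Finset.card_product]
    push_cast
    calc (F.card : ℝ) * F.card
        ≤ Real.exp (2 * (c + 1) * (1 + Real.log (1 + (Y.card : ℝ) / (c + 1)))) *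
          Real.exp (2 * (c + 1) * (1 + Real.log (1 + (Y.card : ℝ) / (c + 1)))) := by gcongr
      _ = _ := by
        rw [← Real.exp_add]
        congr 1
        ring
  · intro V A key bl hAV hinj hmono hY hc
    rw [Finset.mem_product]
    refine ⟨hmem V A key bl hAV hinj hmono hY hc,
      hmem V (V \ A) key bl Finset.sdiff_subset hinj hmono hY ?_⟩
    have h1 : chg key V (V \ A) = chg key V A := by
      unfold chg
      congr 1
      refine Finset.filter_congr fun t ht => ?_
      constructor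
      · rintro ⟨s, hs, h1, h2, h3⟩
        refine ⟨s, hs, h1, h2, fun h => h3 ?_⟩
        simp only [Finset.mem_sdiff, hs, ht, true_and, h]
      · rintro ⟨s, hs, h1, h2, h3⟩
        refine ⟨s, hs, h1, h2, fun h => h3 ?_⟩
        simp only [Finset.mem_sdiff, hs, ht, true_and] at h
        exact not_iff_not.1 h
    rw [h1]
    exact hc

end Pool.Agent.H172R2.UT
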