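import Pool.Agent.H172R2.UT.Defs

open Classical

namespace Pool.Agent.H172R2.UT

namespace STEPaux

/-- smallest of its block -/
def P1 (x : ℕ → ℝ) (xb : ℕ → ℕ) (V : Finset ℕ) (t : ℕ) : Prop :=
  ∀ s ∈ V, xb s = xb t → x t ≤ x s
def P2 (yb : ℕ → ℕ) (V : Finset ℕ) (t : ℕ) : Prop :=
  ¬ ∃ s ∈ V, s + 1 = t ∧ yb s = yb t
def Q (x : ℕ → ℝ) (V A : Finset ℕ) (t : ℕ) : Prop :=
  ∃ s ∈ V, x s < x t ∧ (∀ u ∈ V, ¬ (x s < x u ∧ x u < x t)) ∧ s ∉ A
def R (V A : Finset ℕ) (t : ℕ) : Prop := ∃ s ∈ V, s + 1 = t ∧ s ∉ A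
def P3 (V : Finset ℕ) (t : ℕ) : Prop := ¬ ∃ s ∈ V, s + 1 = t

lemma card_P1_le (x : ℕ → ℝ) (xb : ℕ → ℕ) (V : Finset ℕ)
    (hinj : ∀ s ∈ V, ∀ t ∈ V, x s = x t → s = t) :
    (V.filter (P1 x xb V)).card ≤ xi xb V := by
  unfold xi
  apply Finset.card_le_card_of_injOn xb
  · intro t ht
    rw [Finset.mem_coe, Finset.mem_filter] at ht
    exact Finset.mem_coe.2 (Finset.mem_image_of_mem _ ht.1)
  · intro s hs t ht hst
    rw [Finset.mem_coe, Finset.mem_filter] at hs ht
    exact hinj s hs.1 t ht.1 (le_antisymm (hs.2 t ht.1 hst.symm) (ht.2 s hs.1 hst))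

lemma xi_le (x : ℕ → ℝ) (xb : ℕ → ℕ) (V A : Finset ℕ) (hA : A ⊆ V)
    (hmono : ∀ s ∈ V, ∀ t ∈ V, x s ≤ x t → xb s ≤ xb t) :
    xi xb A ≤ (A.filter (P1 x xb V)).card + (A.filter (Q x V A)).card := by
  have hsub : A.image xb ⊆ (A.filter (P1 x xb V) ∪ A.filter (Q x V A)).image xb := by
    intro b hb
    rw [Finset.mem_image] at hb
    obtain ⟨t₀, ht₀, hb⟩ := hb
    obtain ⟨t, ht, htmin⟩ := Finset.exists_min_image (A.filter (fun t => xb t = b)) x
      ⟨t₀, by rw [Finset.mem_filter]; exact ⟨ht₀, hb⟩⟩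
    rw [Finset.mem_filter] at ht
    obtain ⟨htA, htb⟩ := ht
    rw [Finset.mem_image]
    refine ⟨t, ?_, htb⟩
    rw [Finset.mem_union, Finset.mem_filter, Finset.mem_filter]
    by_cases hP : P1 x xb V t
    · exact Or.inl ⟨htA, hP⟩
    · right
      refine ⟨htA, ?_⟩
      unfold P1 at hP
      push Not at hP
      obtain ⟨s₀, hs₀V, hs₀b, hs₀x⟩ := hP
      obtain ⟨s, hs, hsmax⟩ := Finset.exists_max_image (V.filter (fun s => x s < x t)) x
        ⟨s₀, by rw [Finset.mem_filter]; exact ⟨hs₀V, hs₀x⟩⟩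
      rw [Finset.mem_filter] at hs
      have hs0s : x s₀ ≤ x s := hsmax s₀ (by rw [Finset.mem_filter]; exact ⟨hs₀V, hs₀x⟩)
      refine ⟨s, hs.1, hs.2, ?_, ?_⟩
      · intro u hu hh
        have := hsmax u (by rw [Finset.mem_filter]; exact ⟨hu, hh.2⟩)
        linarith [hh.1]
      · intro hsA
        have h1 : xb s₀ ≤ xb s := hmono s₀ hs₀V s hs.1 hs0s
        have h2 : xb s ≤ xb t := hmono s hs.1 t (hA htA) hs.2.le
        have h3 : xb s = b := by omega
        have := htmin s (by rw [Finset.mem_filter]; exact ⟨hsA, h3⟩)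
        linarith [hs.2]
  calc xi xb A ≤ ((A.filter (P1 x xb V) ∪ A.filter (Q x V A)).image xb).card :=
        Finset.card_le_card hsub
    _ ≤ (A.filter (P1 x xb V) ∪ A.filter (Q x V A)).card := Finset.card_image_le
    _ ≤ _ := Finset.card_union_le _ _

lemma eta_le (yb : ℕ → ℕ) (V A : Finset ℕ) :
    eta yb A ≤ (A.filter (P2 yb V)).card + (A.filter (R V A)).card := by
  refine le_trans (Finset.card_le_card ?_) (Finset.card_union_le _ _)
  intro t ht
  rw [Finset.mem_filter] at ht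
  rw [Finset.mem_union, Finset.mem_filter, Finset.mem_filter]
  by_cases hP : P2 yb V t
  · exact Or.inl ⟨ht.1, hP⟩
  · right
    refine ⟨ht.1, ?_⟩
    unfold P2 at hP
    push Not at hP
    obtain ⟨s, hsV, hst, hsy⟩ := hP
    exact ⟨s, hsV, hst, fun hsA => ht.2 ⟨s, hsA, hst, hsy⟩⟩

lemma rho_le (V A : Finset ℕ) :
    rho A ≤ (A.filter (P3 V)).card + (A.filter (R V A)).card := by
  refine le_trans (Finset.card_le_card ?_) (Finset.card_union_le _ _)
  intro t ht
  rw [Finset.mem_filter] at ht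
  rw [Finset.mem_union, Finset.mem_filter, Finset.mem_filter]
  by_cases hP : P3 V t
  · exact Or.inl ⟨ht.1, hP⟩
  · right
    refine ⟨ht.1, ?_⟩
    unfold P3 at hP
    push Not at hP
    obtain ⟨s, hsV, hst⟩ := hP
    exact ⟨s, hsV, hst, fun hsA => ht.2 ⟨s, hsA, hst⟩⟩

lemma split (V A : Finset ℕ) (hA : A ⊆ V) (p : ℕ → Prop) :
    (A.filter p).card + ((V \ A).filter p).card = (V.filter p).card := by
  rw [← Finset.card_union_of_disjoint]
  · congr 1
    rw [← Finset.filter_union, Finset.union_sdiff_of_subset hA]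
  · exact Finset.disjoint_filter_filter Finset.disjoint_sdiff

lemma Q_sum (x : ℕ → ℝ) (V A : Finset ℕ) (hA : A ⊆ V) :
    (A.filter (Q x V A)).card + ((V \ A).filter (Q x V (V \ A))).card ≤ chg x V A := by
  rw [← Finset.card_union_of_disjoint]
  · unfold chg
    apply Finset.card_le_card
    intro t ht
    rw [Finset.mem_union, Finset.mem_filter, Finset.mem_filter, Finset.mem_sdiff] at ht
    rw [Finset.mem_filter]
    rcases ht with ⟨htA, s, hsV, hlt, hno, hsA⟩ | ⟨⟨htV, htA⟩, s, hsV, hlt, hno, hsA⟩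
    · exact ⟨hA htA, s, hsV, hlt, hno, by tauto⟩
    · rw [Finset.mem_sdiff] at hsA
      exact ⟨htV, s, hsV, hlt, hno, by tauto⟩
  · exact Finset.disjoint_filter_filter Finset.disjoint_sdiff

lemma R_sum (V A : Finset ℕ) (hA : A ⊆ V) :
    (A.filter (R V A)).card + ((V \ A).filter (R V (V \ A))).card ≤ cuty V A := by
  rw [← Finset.card_union_of_disjoint]
  · unfold cuty
    have hsub : A.filter (R V A) ∪ (V \ A).filter (R V (V \ A)) ⊆
        (V.filter (fun t => t + 1 ∈ V ∧ ¬ (t ∈ A ↔ t + 1 ∈ A))).image (fun t => t + 1) := by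
      intro t ht
      rw [Finset.mem_union, Finset.mem_filter, Finset.mem_filter, Finset.mem_sdiff] at ht
      rw [Finset.mem_image]
      rcases ht with ⟨htA, s, hsV, hst, hsA⟩ | ⟨⟨htV, htA⟩, s, hsV, hst, hsA⟩
      · refine ⟨s, ?_, hst⟩
        rw [Finset.mem_filter]
        subst hst
        exact ⟨hsV, hA htA, by tauto⟩
      · refine ⟨s, ?_, hst⟩
        rw [Finset.mem_filter]
        rw [Finset.mem_sdiff] at hsA
        subst hst
        exact ⟨hsV, htV, by tauto⟩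
    exact le_trans (Finset.card_le_card hsub) Finset.card_image_le
  · exact Finset.disjoint_filter_filter Finset.disjoint_sdiff

lemma chg_nat (V A : Finset ℕ) :
    chg (fun t => (t : ℝ)) V A ≤ cuty V A + rho V := by
  have hsub : (V.filter (fun t => ∃ s ∈ V, ((s:ℕ) : ℝ) < ((t:ℕ) : ℝ) ∧
      (∀ u ∈ V, ¬ ((s : ℝ) < (u : ℝ) ∧ (u : ℝ) < (t : ℝ))) ∧
      ¬ (s ∈ A ↔ t ∈ A))) ⊆
      (V.filter (fun t => t + 1 ∈ V ∧ ¬ (t ∈ A ↔ t + 1 ∈ A))).image (fun t => t + 1) ∪
      (V.filter (fun t => ¬ ∃ s ∈ V, s + 1 = t)) := by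
    intro t ht
    rw [Finset.mem_filter] at ht
    obtain ⟨htV, s, hsV, hlt, hno, hne⟩ := ht
    have hlt' : s < t := by exact_mod_cast hlt
    rw [Finset.mem_union, Finset.mem_image]
    by_cases hst : s + 1 = t
    · left
      refine ⟨s, ?_, hst⟩
      rw [Finset.mem_filter]
      subst hst
      exact ⟨hsV, htV, hne⟩
    · right
      rw [Finset.mem_filter]
      refine ⟨htV, ?_⟩
      rintro ⟨u, huV, hut⟩
      apply hno u huV
      constructor
      · have : s < u := by omega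
        exact_mod_cast this
      · have : u < t := by omega
        exact_mod_cast this
  calc chg (fun t => (t : ℝ)) V A ≤ _ := Finset.card_le_card hsub
    _ ≤ _ := Finset.card_union_le _ _
    _ ≤ cuty V A + rho V := Nat.add_le_add Finset.card_image_le le_rfl

lemma xi_sub (xb : ℕ → ℕ) (V A : Finset ℕ) (hA : A ⊆ V) :
    xi xb V ≤ xi xb A + xi xb (V \ A) := by
  unfold xi
  calc (V.image xb).card = (A.image xb ∪ (V \ A).image xb).card := by
        rw [← Finset.image_union, Finset.union_sdiff_of_subset hA]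
    _ ≤ _ := Finset.card_union_le _ _

lemma eta_sub (yb : ℕ → ℕ) (V A : Finset ℕ) (_hA : A ⊆ V) :
    eta yb V ≤ eta yb A + eta yb (V \ A) := by
  unfold eta
  refine le_trans (Finset.card_le_card ?_) (Finset.card_union_le _ _)
  intro t ht
  rw [Finset.mem_filter] at ht
  rw [Finset.mem_union, Finset.mem_filter, Finset.mem_filter, Finset.mem_sdiff]
  by_cases htA : t ∈ A
  · left
    refine ⟨htA, ?_⟩
    rintro ⟨s, hs, h1, h2⟩
    exact ht.2 ⟨s, _hA hs, h1, h2⟩
  · right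
    refine ⟨⟨ht.1, htA⟩, ?_⟩
    rintro ⟨s, hs, h1, h2⟩
    rw [Finset.mem_sdiff] at hs
    exact ht.2 ⟨s, hs.1, h1, h2⟩

/-- the weights -/
noncomputable def wt (a : ℕ) (x : ℕ → ℝ) (xb yb : ℕ → ℕ) (V : Finset ℕ) (t : ℕ) : ℕ :=
  1 + a * ((if P1 x xb V t then 1 else 0) + (if P2 yb V t then 1 else 0))

lemma wt_le (a : ℕ) (x : ℕ → ℝ) (xb yb : ℕ → ℕ) (V : Finset ℕ) (t : ℕ) :
    wt a x xb yb V t ≤ 1 + 2 * a := by
  unfold wt
  split_ifs <;> omega

lemma sum_wt (a : ℕ) (x : ℕ → ℝ) (xb yb : ℕ → ℕ) (V B : Finset ℕ) :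
    ∑ t ∈ B, wt a x xb yb V t =
      B.card + a * ((B.filter (P1 x xb V)).card + (B.filter (P2 yb V)).card) := by
  unfold wt
  rw [Finset.sum_add_distrib, ← Finset.mul_sum, Finset.sum_add_distrib]
  simp only [Finset.sum_const, smul_eq_mul, mul_one, Finset.sum_boole, Nat.cast_id]

end STEPaux

open STEPaux

theorem STEP_ok (h : S_SEPV) : S_STEP := by
  obtain ⟨C, hC, h⟩ := h
  refine ⟨C, 10000 * C ^ 2, hC, by nlinarith, ?_⟩
  intro a N x up xb yb ha hT hx hy V hV hbig
  obtain ⟨A, hAV, hchg, hcut, hw1, hw2⟩ := h N x up hT V hV (wt a x xb yb V) (1 + 2 * a)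
    (fun t _ => wt_le a x xb yb V t)
  have hinj : ∀ s ∈ V, ∀ t ∈ V, x s = x t → s = t := by
    intro s hs t ht hst
    exact hT.inj s (Finset.mem_range.1 (hV hs)) t (Finset.mem_range.1 (hV ht)) hst
  have hmono : ∀ s ∈ V, ∀ t ∈ V, x s ≤ x t → xb s ≤ xb t := by
    intro s hs t ht hst
    exact hx s (Finset.mem_range.1 (hV hs)) t (Finset.mem_range.1 (hV ht)) hst
  rw [sum_wt, sum_wt] at hw1 hw2
  have e1 := card_P1_le x xb V hinj
  have e2 := xi_le x xb V A hAV hmono
  have e3 := xi_le x xb V (V \ A) Finset.sdiff_subset hmono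
  have e4 := eta_le yb V A
  have e5 := eta_le yb V (V \ A)
  have e6 := rho_le V A
  have e7 := rho_le V (V \ A)
  have e8 := split V A hAV (P1 x xb V)
  have e9 := split V A hAV (P2 yb V)
  have e10 := split V A hAV (P3 V)
  have e11 := Q_sum x V A hAV
  have e12 := R_sum V A hAV
  have e13 := chg_nat V A
  have e14 := xi_sub xb V A hAV
  have e15 := eta_sub yb V A hAV
  have e16 : (V.filter (P2 yb V)).card = eta yb V := by
    unfold eta
    exact congrArg Finset.card (Finset.filter_congr (fun t _ => Iff.rfl))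
  have e17 : (V.filter (P3 V)).card = rho V := by
    unfold rho
    exact congrArg Finset.card (Finset.filter_congr (fun t _ => Iff.rfl))
  have e18 : A.card + (V \ A).card = V.card := by
    rw [add_comm]; exact Finset.card_sdiff_add_card_eq_card hAV
  rw [e17] at e10
  rw [e16] at e9
  rw [e16] at hw1 hw2
  -- abbreviations
  set p := (A.filter (P1 x xb V)).card
  set p' := ((V \ A).filter (P1 x xb V)).card
  set q := (A.filter (P2 yb V)).card
  set q' := ((V \ A).filter (P2 yb V)).card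
  set c := (A.filter (Q x V A)).card
  set c' := ((V \ A).filter (Q x V (V \ A))).card
  set d := (A.filter (R V A)).card
  set d' := ((V \ A).filter (R V (V \ A))).card
  set P := (V.filter (P1 x xb V)).card
  set r := (A.filter (P3 V)).card
  set r' := ((V \ A).filter (P3 V)).card
  have hPhiA : Phi a xb yb A = A.card + a * (xi xb A + eta yb A) := rfl
  have hPhiB : Phi a xb yb (V \ A) = (V \ A).card + a * (xi xb (V \ A) + eta yb (V \ A)) := rfl
  have hPhiV : Phi a xb yb V = V.card + a * (xi xb V + eta yb V) := rfl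
  -- natural inequalities
  have n1 : Phi a xb yb A ≤ A.card + a * (p + q) + a * (chg x V A + cuty V A) := by
    rw [hPhiA]
    have : a * (xi xb A + eta yb A) ≤ a * (p + q) + a * (chg x V A + cuty V A) := by
      rw [← Nat.mul_add]
      exact Nat.mul_le_mul_left _ (by omega)
    omega
  have n2 : Phi a xb yb (V \ A) ≤ (V \ A).card + a * (p' + q') + a * (chg x V A + cuty V A) := by
    rw [hPhiB]
    have : a * (xi xb (V \ A) + eta yb (V \ A)) ≤
        a * (p' + q') + a * (chg x V A + cuty V A) := by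
      rw [← Nat.mul_add]
      exact Nat.mul_le_mul_left _ (by omega)
    omega
  have n3 : V.card + a * (P + eta yb V) ≤ Phi a xb yb V := by
    rw [hPhiV]
    have : a * (P + eta yb V) ≤ a * (xi xb V + eta yb V) :=
      Nat.mul_le_mul_left _ (by omega)
    omega
  have n4 : Phi a xb yb V ≤ Phi a xb yb A + Phi a xb yb (V \ A) := by
    rw [hPhiA, hPhiB, hPhiV]
    have : a * (xi xb V + eta yb V) ≤
        a * (xi xb A + eta yb A) + a * (xi xb (V \ A) + eta yb (V \ A)) := by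
      rw [← Nat.mul_add]
      exact Nat.mul_le_mul_left _ (by omega)
    omega
  have n5 : Phi a xb yb A + Phi a xb yb (V \ A) ≤
      Phi a xb yb V + a * (chg x V A + cuty V A) := by
    rw [hPhiA, hPhiB, hPhiV]
    have : a * (xi xb A + eta yb A) + a * (xi xb (V \ A) + eta yb (V \ A)) ≤
        a * (xi xb V + eta yb V) + a * (chg x V A + cuty V A) := by
      rw [← Nat.mul_add, ← Nat.mul_add]
      exact Nat.mul_le_mul_left _ (by omega)
    omega
  have n6 : rho A + rho (V \ A) ≤ rho V + cuty V A := by omega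
  have n7 : V.card ≤ Phi a xb yb V := by rw [hPhiV]; omega
  -- reals
  set F := Phi a xb yb V
  have hs : √(V.card : ℝ) ≤ √(F : ℝ) := Real.sqrt_le_sqrt (by exact_mod_cast n7)
  have hCr : (1 : ℝ) ≤ C := by exact_mod_cast hC
  have har : (1 : ℝ) ≤ a := by exact_mod_cast ha
  have hchg' : (chg x V A : ℝ) ≤ C * √(F : ℝ) :=
    le_trans hchg (mul_le_mul_of_nonneg_left hs (by linarith))
  have hcut' : (cuty V A : ℝ) ≤ C * √(F : ℝ) :=
    le_trans hcut (mul_le_mul_of_nonneg_left hs (by linarith))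
  have hF : ((10000 * C ^ 2 * a ^ 2 : ℕ) : ℝ) < (F : ℝ) := by exact_mod_cast hbig
  push_cast at hF
  have hS0 : (0 : ℝ) ≤ √(F : ℝ) := Real.sqrt_nonneg _
  have hSS : √(F : ℝ) * √(F : ℝ) = (F : ℝ) := Real.mul_self_sqrt (Nat.cast_nonneg _)
  have hSbig : 100 * C * a ≤ √(F : ℝ) := by
    apply Real.le_sqrt_of_sq_le
    nlinarith
  have key : 30 * (1 + 2 * (a : ℝ)) + 60 * a * (C * √(F : ℝ)) ≤ F := by
    have h1 : 60 * (a : ℝ) * (C * √(F : ℝ)) ≤ 0.6 * (√(F : ℝ) * √(F : ℝ)) := by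
      nlinarith
    have h2 : 30 * (1 + 2 * (a : ℝ)) ≤ 90 * a := by linarith
    have h3 : 90 * (a : ℝ) ≤ 0.4 * (√(F : ℝ) * √(F : ℝ)) := by
      have h4 : 100 * (a : ℝ) ≤ √(F : ℝ) := by nlinarith
      nlinarith
    linarith
  have hmul : (a : ℝ) * ((chg x V A : ℝ) + cuty V A) ≤ a * (2 * (C * √(F : ℝ))) :=
    mul_le_mul_of_nonneg_left (by linarith) (by linarith)
  refine ⟨A, hAV, ?_, ?_, n4, ?_, ?_, hchg', ?_⟩
  · have g1 : (Phi a xb yb A : ℝ) ≤ (A.card : ℝ) + a * (p + q) + a * (chg x V A + cuty V A) := by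
      exact_mod_cast n1
    have g2 : 3 * ((A.card : ℝ) + a * (p + q)) ≤
        2 * ((V.card : ℝ) + a * (P + eta yb V)) + 3 * (1 + 2 * a) := by
      exact_mod_cast hw1
    have g3 : (V.card : ℝ) + a * (P + eta yb V) ≤ F := by exact_mod_cast n3
    have g4 : (10 * (Phi a xb yb A : ℝ)) ≤ 7 * F := by linarith
    exact_mod_cast g4
  · have g1 : (Phi a xb yb (V \ A) : ℝ) ≤
        ((V \ A).card : ℝ) + a * (p' + q') + a * (chg x V A + cuty V A) := by
      exact_mod_cast n2
    have g2 : 3 * (((V \ A).card : ℝ) + a * (p' + q')) ≤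
        2 * ((V.card : ℝ) + a * (P + eta yb V)) + 3 * (1 + 2 * a) := by
      exact_mod_cast hw2
    have g3 : (V.card : ℝ) + a * (P + eta yb V) ≤ F := by exact_mod_cast n3
    have g4 : (10 * (Phi a xb yb (V \ A) : ℝ)) ≤ 7 * F := by linarith
    exact_mod_cast g4
  · have g1 : (Phi a xb yb A : ℝ) + Phi a xb yb (V \ A) ≤
        F + a * ((chg x V A : ℝ) + cuty V A) := by
      exact_mod_cast n5
    linarith
  · have g1 : (rho A : ℝ) + rho (V \ A) ≤ rho V + cuty V A := by exact_mod_cast n6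
    linarith
  · have g1 : (chg (fun t => (t : ℝ)) V A : ℝ) ≤ cuty V A + rho V := by exact_mod_cast e13
    linarith

end Pool.Agent.H172R2.UT
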