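import Pool.Agent.H172R2.UT.Defs

namespace Pool.Agent.H172R2.UT

open Classical

namespace TOPaux

open Filter Topology Pointwise

/-- the segment `ab` has a point on the vertical line through `z`, not below `z` -/
def A (a b z : ℝ × ℝ) : Prop := ∃ w ∈ segment ℝ a b, w.1 = z.1 ∧ z.2 ≤ w.2
/-- the segment `ab` has a point on the vertical line through `z`, not above `z` -/
def B (a b z : ℝ × ℝ) : Prop := ∃ w ∈ segment ℝ a b, w.1 = z.1 ∧ w.2 ≤ z.2

theorem isCompact_seg (a b : ℝ × ℝ) : IsCompact (segment ℝ a b) := by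
  rw [segment_eq_image_lineMap]
  exact isCompact_Icc.image (AffineMap.lineMap_continuous)

theorem isClosed_A (a b : ℝ × ℝ) : IsClosed {z | A a b z} := by
  have h : {z | A a b z} =
      segment ℝ a b + (({0} : Set ℝ) ×ˢ (Set.Iic 0 : Set ℝ)) := by
    ext z
    rw [Set.mem_add]
    constructor
    · rintro ⟨w, hw, h1, h2⟩
      refine ⟨w, hw, (0, z.2 - w.2), ⟨rfl, ?_⟩, ?_⟩
      · simp only [Set.mem_Iic]; linarith
      · ext
        · simp [h1]
        · simp
    · rintro ⟨w, hw, y, ⟨hy1, hy2⟩, hz⟩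
      refine ⟨w, hw, ?_, ?_⟩
      · rw [← hz, Prod.fst_add, Set.mem_singleton_iff.mp hy1, add_zero]
      · rw [← hz, Prod.snd_add]
        have : y.2 ≤ 0 := hy2
        linarith
  rw [h]
  exact (isClosed_singleton.prod isClosed_Iic).add_left_of_isCompact (isCompact_seg a b)

theorem isClosed_B (a b : ℝ × ℝ) : IsClosed {z | B a b z} := by
  have h : {z | B a b z} =
      segment ℝ a b + (({0} : Set ℝ) ×ˢ (Set.Ici 0 : Set ℝ)) := by
    ext z
    rw [Set.mem_add]
    constructor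
    · rintro ⟨w, hw, h1, h2⟩
      refine ⟨w, hw, (0, z.2 - w.2), ⟨rfl, ?_⟩, ?_⟩
      · simp only [Set.mem_Ici]; linarith
      · ext
        · simp [h1]
        · simp
    · rintro ⟨w, hw, y, ⟨hy1, hy2⟩, hz⟩
      refine ⟨w, hw, ?_, ?_⟩
      · rw [← hz, Prod.fst_add, Set.mem_singleton_iff.mp hy1, add_zero]
      · rw [← hz, Prod.snd_add]
        have : 0 ≤ y.2 := hy2
        linarith
  rw [h]
  exact (isClosed_singleton.prod isClosed_Ici).add_left_of_isCompact (isCompact_seg a b)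

/-- a point off the segment is not between two of its points -/
theorem not_A_and_B {a b z : ℝ × ℝ} (hz : z ∉ segment ℝ a b) (hA : A a b z) (hB : B a b z) :
    False := by
  obtain ⟨w, hw, h1, h2⟩ := hA
  obtain ⟨v, hv, h3, h4⟩ := hB
  apply hz
  have hsub : segment ℝ v w ⊆ segment ℝ a b := (convex_segment a b).segment_subset hv hw
  apply hsub
  rcases eq_or_lt_of_le (h4.trans h2) with h | h
  · have : z = v := by
      ext
      · exact h3.symm
      · linarith
    rw [this]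
    exact left_mem_segment ℝ v w
  · rw [segment_eq_image_lineMap]
    refine ⟨(z.2 - v.2) / (w.2 - v.2), ⟨?_, ?_⟩, ?_⟩
    · exact div_nonneg (by linarith) (by linarith)
    · rw [div_le_one (by linarith)]; linarith
    · have hne : w.2 - v.2 ≠ 0 := by linarith
      ext
      · simp [AffineMap.lineMap_apply, h1, h3]
      · simp only [AffineMap.lineMap_apply, vsub_eq_sub, vadd_eq_add, Prod.snd_add,
          Prod.smul_snd, Prod.snd_sub, smul_eq_mul]
        field_simp
        ring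

/-- `[x ≤ z.1]` mod 2 -/
noncomputable def u (x : ℝ) (z : ℝ × ℝ) : ZMod 2 := if x ≤ z.1 then 1 else 0

theorem exists_pt {a b z : ℝ × ℝ} (h : u a.1 z + u b.1 z ≠ 0) :
    ∃ w ∈ segment ℝ a b, w.1 = z.1 := by
  have hcase : (a.1 ≤ z.1 ∧ z.1 < b.1) ∨ (b.1 ≤ z.1 ∧ z.1 < a.1) := by
    by_cases h1 : a.1 ≤ z.1 <;> by_cases h2 : b.1 ≤ z.1
    · exfalso
      apply h
      simp only [u, h1, h2, if_true]
      decide
    · exact Or.inl ⟨h1, not_le.mp h2⟩
    · exact Or.inr ⟨h2, not_le.mp h1⟩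
    · exfalso
      apply h
      simp [u, h1, h2]
  have hlm : ∀ t : ℝ, ((AffineMap.lineMap a b t : ℝ × ℝ)).1 = t * (b.1 - a.1) + a.1 := by
    intro t
    simp [AffineMap.lineMap_apply]
  rw [segment_eq_image_lineMap]
  have hne : b.1 - a.1 ≠ 0 := by
    rcases hcase with h | h
    · have := h.1.trans_lt h.2
      intro h0; linarith
    · have := h.1.trans_lt h.2
      intro h0; linarith
  refine ⟨AffineMap.lineMap a b ((z.1 - a.1) / (b.1 - a.1)),
    ⟨(z.1 - a.1) / (b.1 - a.1), ⟨?_, ?_⟩, rfl⟩, ?_⟩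
  · rcases hcase with h | h
    · exact div_nonneg (by linarith) (by linarith)
    · exact div_nonneg_of_nonpos (by linarith) (by linarith)
  · rcases hcase with h | h
    · rw [div_le_one (by linarith)]; linarith
    · rw [div_le_one_of_neg (by linarith)]; linarith
  · rw [hlm, div_mul_cancel₀ _ hne]
    ring

theorem A_or_B {a b z : ℝ × ℝ} (h : u a.1 z + u b.1 z ≠ 0) : A a b z ∨ B a b z := by
  obtain ⟨w, hw, h1⟩ := exists_pt h
  rcases le_total z.2 w.2 with h2 | h2
  · exact Or.inl ⟨w, hw, h1, h2⟩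
  · exact Or.inr ⟨w, hw, h1, h2⟩

/-- one edge, near a point off the edge -/
theorem edge_loc {a b z0 : ℝ × ℝ} (hz : z0 ∉ segment ℝ a b) :
    ∀ᶠ z in 𝓝 z0, (if A a b z then (u a.1 z + u b.1 z) else 0) =
      (if A a b z0 then (u a.1 z + u b.1 z) else 0) := by
  by_cases h0 : A a b z0
  · have hB : ¬ B a b z0 := fun h => not_A_and_B hz h0 h
    have hev : ∀ᶠ z in 𝓝 z0, ¬ B a b z := (isClosed_B a b).isOpen_compl.mem_nhds hB
    filter_upwards [hev] with z hzB
    rw [if_pos h0]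
    split_ifs with hA
    · rfl
    · by_contra hne
      rcases A_or_B (fun h => hne h.symm) with h | h
      · exact hA h
      · exact hzB h
  · have hev : ∀ᶠ z in 𝓝 z0, ¬ A a b z := (isClosed_A a b).isOpen_compl.mem_nhds h0
    filter_upwards [hev] with z hzA
    rw [if_neg hzA, if_neg h0]

theorem u_loc {x : ℝ} {z0 : ℝ × ℝ} (h : x ≠ z0.1) : ∀ᶠ z in 𝓝 z0, u x z = u x z0 := by
  have hc : ContinuousAt (fun z : ℝ × ℝ => z.1) z0 := continuous_fst.continuousAt
  rcases lt_or_gt_of_ne h with h1 | h1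
  · have : ∀ᶠ z : ℝ × ℝ in 𝓝 z0, x < z.1 := hc.eventually (lt_mem_nhds h1)
    filter_upwards [this] with z hz
    rw [u, u, if_pos hz.le, if_pos h1.le]
  · have : ∀ᶠ z : ℝ × ℝ in 𝓝 z0, z.1 < x := hc.eventually (gt_mem_nhds h1)
    filter_upwards [this] with z hz
    rw [u, u, if_neg (not_le.mpr hz), if_neg (not_le.mpr h1)]

theorem z2_self (x : ZMod 2) : x + x = 0 := CharTwo.add_self_eq_zero x

theorem tele (c : ℕ → ZMod 2) (m : ℕ) :
    ∑ j ∈ Finset.range m, (c j + c (j+1)) = c 0 + c m := by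
  induction m with
  | zero => simp [z2_self]
  | succ k ih =>
    rw [Finset.sum_range_succ, ih]
    have := z2_self (c k)
    calc c 0 + c k + (c k + c (k+1)) = c 0 + (c k + c k) + c (k+1) := by ring
      _ = c 0 + c (k+1) := by rw [this, add_zero]

/-- the parity -/
noncomputable def f (m : ℕ) (p : ℕ → ℝ × ℝ) (z : ℝ × ℝ) : ZMod 2 :=
  ∑ j ∈ Finset.range m,
    if A (p j) (p (j+1)) z then (u (p j).1 z + u (p (j+1)).1 z) else 0

theorem f_loc (m : ℕ) (hm : 0 < m) (p : ℕ → ℝ × ℝ) (z0 : ℝ × ℝ)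
    (hz : ∀ j < m, z0 ∉ segment ℝ (p j) (p (j+1)))
    (h0 : (p 0).1 = z0.1 → (p 0).2 ≤ z0.2) (h1 : (p m).1 = z0.1 → (p m).2 ≤ z0.2) :
    ∀ᶠ z in 𝓝 z0, f m p z = f m p z0 := by
  -- edges
  have hE : ∀ᶠ z in 𝓝 z0, ∀ j ∈ Finset.range m,
      (if A (p j) (p (j+1)) z then (u (p j).1 z + u (p (j+1)).1 z) else 0) =
      (if A (p j) (p (j+1)) z0 then (u (p j).1 z + u (p (j+1)).1 z) else 0) := by
    rw [Filter.eventually_all_finset]
    intro j hj
    exact edge_loc (hz j (Finset.mem_range.mp hj))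
  have hV : ∀ᶠ z in 𝓝 z0, ∀ j ∈ Finset.range (m+1), (p j).1 ≠ z0.1 →
      u (p j).1 z = u (p j).1 z0 := by
    rw [Filter.eventually_all_finset]
    intro j _
    by_cases h : (p j).1 = z0.1
    · exact Filter.Eventually.of_forall (fun z hne => absurd h hne)
    · filter_upwards [u_loc h] with z hz _ using hz
  filter_upwards [hE, hV] with z hzE hzV
  have hpm : z0 ≠ p 0 := by
    intro h
    apply hz 0 hm
    rw [h]
    exact left_mem_segment ℝ _ _
  have hpm' : z0 ≠ p m := by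
    intro h
    apply hz (m-1) (by omega)
    have : m - 1 + 1 = m := by omega
    rw [this, h]
    exact right_mem_segment ℝ _ _
  -- beta
  set β : ℕ → ZMod 2 := fun i => if (p i).1 = z0.1 ∧ z0.2 ≤ (p i).2 then 1 else 0 with hβ
  set v : ℕ → ZMod 2 := fun i => u (p i).1 z + u (p i).1 z0 with hv
  have hdiff : f m p z + f m p z0 = ∑ j ∈ Finset.range m, (β j * v j + β (j+1) * v (j+1)) := by
    rw [f, f, ← Finset.sum_add_distrib]
    refine Finset.sum_congr rfl (fun j hj => ?_)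
    rw [hzE j hj]
    have hjm : j < m := Finset.mem_range.mp hj
    have hv0 : ∀ i ≤ m, (p i).1 ≠ z0.1 → v i = 0 := by
      intro i hi hne
      simp only [hv]
      rw [hzV i (Finset.mem_range.mpr (by omega)) hne]
      exact z2_self _
    -- key
    have key : ∀ i ≤ m, p i ∈ segment ℝ (p j) (p (j+1)) →
        (if A (p j) (p (j+1)) z0 then v i else 0) = β i * v i := by
      intro i hi hmem
      by_cases hx : (p i).1 = z0.1
      · by_cases hy : z0.2 ≤ (p i).2
        · have hA : A (p j) (p (j+1)) z0 := ⟨p i, hmem, hx, hy⟩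
          have hb : β i = 1 := by simp only [hβ]; rw [if_pos ⟨hx, hy⟩]
          rw [if_pos hA, hb, one_mul]
        · have hB : B (p j) (p (j+1)) z0 := ⟨p i, hmem, hx, (not_le.mp hy).le⟩
          have hA : ¬ A (p j) (p (j+1)) z0 := fun h => not_A_and_B (hz j hjm) h hB
          have hb : β i = 0 := by simp only [hβ]; rw [if_neg (fun h => hy h.2)]
          rw [if_neg hA, hb, zero_mul]
      · rw [hv0 i hi hx, mul_zero, ite_self]
    rw [← key j hjm.le (left_mem_segment ℝ _ _), ← key (j+1) hjm (right_mem_segment ℝ _ _)]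
    split_ifs
    · simp only [hv]; ring
    · simp
  have hzero : f m p z + f m p z0 = 0 := by
    rw [hdiff, tele (fun j => β j * v j)]
    have hb0 : β 0 = 0 := by
      simp only [hβ]
      rw [if_neg]
      rintro ⟨h2, h3⟩
      exact hpm (Prod.ext h2.symm (le_antisymm h3 (h0 h2)))
    have hbm : β m = 0 := by
      simp only [hβ]
      rw [if_neg]
      rintro ⟨h2, h3⟩
      exact hpm' (Prod.ext h2.symm (le_antisymm h3 (h1 h2)))
    simp only [hb0, hbm, zero_mul, add_zero]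
  calc f m p z = f m p z + (f m p z0 + f m p z0) := by rw [z2_self, add_zero]
    _ = (f m p z + f m p z0) + f m p z0 := by ring
    _ = f m p z0 := by rw [hzero, zero_add]

/-- value at a point of the graph -/
theorem f_graph (g : ℝ → ℝ) (m : ℕ) (p : ℕ → ℝ × ℝ) (z : ℝ × ℝ) (hz : z.2 = g z.1)
    (h : ∀ j < m, ∀ w ∈ segment ℝ (p j) (p (j+1)), g w.1 ≤ w.2) :
    f m p z = u (p 0).1 z + u (p m).1 z := by
  rw [f, ← tele (fun j => u (p j).1 z)]
  refine Finset.sum_congr rfl (fun j hj => ?_)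
  have hjm : j < m := Finset.mem_range.mp hj
  split_ifs with hA
  · rfl
  · by_contra hne
    obtain ⟨w, hw, hw1⟩ := exists_pt (fun h => hne h.symm)
    apply hA
    refine ⟨w, hw, hw1, ?_⟩
    rw [hz, ← hw1]
    exact h j hjm w hw

theorem u_SIn {a b : ℝ} {z : ℝ × ℝ} (h : SIn a b z.1) : u a z + u b z = 1 := by
  obtain ⟨h1, h2⟩ := h
  rcases le_total a b with hab | hab
  · rw [min_eq_left hab] at h1
    rw [max_eq_right hab] at h2
    rw [u, u, if_pos h1.le, if_neg (not_le.mpr h2), add_zero]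
  · rw [min_eq_right hab] at h1
    rw [max_eq_left hab] at h2
    rw [u, u, if_neg (not_le.mpr h2), if_pos h1.le, zero_add]

theorem u_SOut {a b : ℝ} {z : ℝ × ℝ} (h : SOut a b z.1) : u a z + u b z = 0 := by
  rcases h with h | h
  · rw [lt_min_iff] at h
    rw [u, u, if_neg (not_le.mpr h.1), if_neg (not_le.mpr h.2), add_zero]
  · rw [max_lt_iff] at h
    rw [u, u, if_pos h.1.le, if_pos h.2.le]
    exact z2_self 1

/-- the one sided version -/
theorem half (g : ℝ → ℝ) (m : ℕ) (p : ℕ → ℝ × ℝ) (d : ℝ → ℝ × ℝ)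
    (hd : ContinuousOn d (Set.Icc 0 1))
    (hp0 : (p 0).2 = g (p 0).1) (hpm : (p m).2 = g (p m).1)
    (hD : ∀ s ∈ Set.Icc (0:ℝ) 1, g (d s).1 ≤ (d s).2)
    (hdis : ∀ j < m, ∀ s ∈ Set.Icc (0:ℝ) 1, d s ∉ segment ℝ (p j) (p (j+1))) :
    f m p (d 0) = f m p (d 1) := by
  rcases Nat.eq_zero_or_pos m with h0 | hm
  · subst h0
    simp [f]
  have hcont : ContinuousOn (fun s => f m p (d s)) (Set.Icc 0 1) := by
    intro s hs
    have hloc := f_loc m hm p (d s) (fun j hj => hdis j hj s hs)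
      (fun h => by rw [hp0, h]; exact hD s hs) (fun h => by rw [hpm, h]; exact hD s hs)
    have hev : ∀ᶠ t in 𝓝[Set.Icc 0 1] s, f m p (d t) = f m p (d s) := (hd s hs).eventually hloc
    exact tendsto_const_nhds.congr' (hev.mono fun t ht => ht.symm)
  exact isPreconnected_Icc.constant hcont (Set.left_mem_Icc.mpr zero_le_one)
    (Set.right_mem_Icc.mpr zero_le_one)

end TOPaux

open TOPaux in
theorem TOP_ok : S_TOP := by
  intro g m p d hd hp0 hpm hd0 hd1 hP hD hdis hcross
  have hf := half g m p d hd hp0 hpm hD hdis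
  rw [f_graph g m p (d 0) hd0 hP, f_graph g m p (d 1) hd1 hP] at hf
  rcases hcross with ⟨h1, h2⟩ | ⟨h1, h2⟩
  · rw [u_SIn h1, u_SOut h2] at hf
    exact absurd hf (by decide)
  · rw [u_SIn h1, u_SOut h2] at hf
    exact absurd hf (by decide)

end Pool.Agent.H172R2.UT
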