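import Pool.Agent.H172R2.UT.Defs

/-!
# TRI: non-crossing families extend to triangulations
-/

open Classical

namespace Pool.Agent.H172R2.UT

namespace TRIaux

structure TriI (a b : ℕ) (T : Finset (ℕ × ℕ)) (c : ℕ × ℕ → ℕ) : Prop where
  lt : ∀ p ∈ T, a ≤ p.1 ∧ p.1 < p.2 ∧ p.2 ≤ b
  root : (a, b) ∈ T
  unit : ∀ i, a ≤ i → i < b → (i, i+1) ∈ T
  apex : ∀ p ∈ T, p.1 + 1 < p.2 → p.1 < c p ∧ c p < p.2 ∧ (p.1, c p) ∈ T ∧ (c p, p.2) ∈ T
  parent : ∀ p ∈ T, p ≠ (a, b) →
    ∃! q, q ∈ T ∧ q.1 + 1 < q.2 ∧ (p = (q.1, c q) ∨ p = (c q, q.2))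
  card : T.card = 2 * (b - a) - 1

theorem split {a b : ℕ} (hab : a + 1 < b) (U : Finset (ℕ × ℕ))
    (hU : ∀ e ∈ U, a ≤ e.1 ∧ e.1 < e.2 ∧ e.2 ≤ b) (hN : NC U) :
    ∃ c0, a < c0 ∧ c0 < b ∧ ∀ e ∈ U, e ≠ (a, b) → e.2 ≤ c0 ∨ c0 ≤ e.1 := by
  by_cases h : ∃ e ∈ U, e.1 = a ∧ e.2 < b
  · obtain ⟨e1, he1, h1⟩ := h
    obtain ⟨e0, he0, hmax⟩ := Finset.exists_max_image (U.filter fun e => e.1 = a ∧ e.2 < b)
      (fun e => e.2) ⟨e1, Finset.mem_filter.2 ⟨he1, h1⟩⟩
    rw [Finset.mem_filter] at he0
    obtain ⟨he0U, he0a, he0b⟩ := he0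
    have h2 := hU e0 he0U
    refine ⟨e0.2, by omega, he0b, fun e he hne => ?_⟩
    have h3 := hU e he
    by_contra hcon
    push Not at hcon
    obtain ⟨h4, h5⟩ := hcon
    by_cases h6 : e.1 = a
    · have h7 : e.2 < b := by
        refine lt_of_le_of_ne h3.2.2 fun h8 => hne ?_
        exact Prod.ext h6 h8
      have h8 := hmax e (Finset.mem_filter.2 ⟨he, h6, h7⟩)
      omega
    · exact hN e0 he0U e he ⟨by omega, h5, h4⟩
  · push Not at h
    refine ⟨a + 1, by omega, hab, fun e he hne => Or.inr ?_⟩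
    have h3 := hU e he
    by_contra h4
    have h5 : e.1 = a := by omega
    have h6 := h e he h5
    exact hne (Prod.ext h5 (by omega))

theorem glue {a c0 b : ℕ} (h1 : a < c0) (h2 : c0 < b) {T1 T2 : Finset (ℕ × ℕ)}
    {c1 c2 : ℕ × ℕ → ℕ} (H1 : TriI a c0 T1 c1) (H2 : TriI c0 b T2 c2) :
    TriI a b (insert (a, b) (T1 ∪ T2))
      (fun p => if p = (a, b) then c0 else if p.2 ≤ c0 then c1 p else c2 p) := by
  set c : ℕ × ℕ → ℕ := fun p => if p = (a, b) then c0 else if p.2 ≤ c0 then c1 p else c2 p with hc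
  have e0 : c (a, b) = c0 := by simp [hc]
  have l1 : ∀ p ∈ T1, a ≤ p.1 ∧ p.1 < p.2 ∧ p.2 ≤ c0 ∧ p ≠ (a, b) ∧ c p = c1 p := by
    intro p hp
    have h := H1.lt p hp
    have hne : p ≠ (a, b) := by
      rintro rfl
      simp only at h
      omega
    refine ⟨h.1, h.2.1, h.2.2, hne, ?_⟩
    simp only [hc, if_neg hne, if_pos h.2.2]
  have l2 : ∀ p ∈ T2, c0 ≤ p.1 ∧ p.1 < p.2 ∧ p.2 ≤ b ∧ p ≠ (a, b) ∧ c p = c2 p := by
    intro p hp
    have h := H2.lt p hp
    have hne : p ≠ (a, b) := by
      rintro rfl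
      simp only at h
      omega
    refine ⟨h.1, h.2.1, h.2.2, hne, ?_⟩
    have h3 : ¬ p.2 ≤ c0 := by omega
    simp only [hc, if_neg hne, if_neg h3]
  have m1 : ∀ p ∈ T1, p ∈ insert (a, b) (T1 ∪ T2) := fun p hp =>
    Finset.mem_insert_of_mem (Finset.mem_union_left _ hp)
  have m2 : ∀ p ∈ T2, p ∈ insert (a, b) (T1 ∪ T2) := fun p hp =>
    Finset.mem_insert_of_mem (Finset.mem_union_right _ hp)
  have mc : ∀ p ∈ insert (a, b) (T1 ∪ T2), p = (a, b) ∨ p ∈ T1 ∨ p ∈ T2 := by
    intro p hp
    rw [Finset.mem_insert, Finset.mem_union] at hp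
    exact hp
  refine ⟨?_, Finset.mem_insert_self _ _, ?_, ?_, ?_, ?_⟩
  · intro p hp
    rcases mc p hp with rfl | h | h
    · simp only; omega
    · have := l1 p h; omega
    · have := l2 p h; omega
  · intro i hi hib
    by_cases h : i < c0
    · exact m1 _ (H1.unit i hi h)
    · exact m2 _ (H2.unit i (by omega) hib)
  · intro p hp hlt
    rcases mc p hp with rfl | h | h
    · rw [e0]
      exact ⟨h1, h2, m1 _ H1.root, m2 _ H2.root⟩
    · have h3 := H1.apex p h hlt
      rw [(l1 p h).2.2.2.2]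
      exact ⟨h3.1, h3.2.1, m1 _ h3.2.2.1, m1 _ h3.2.2.2⟩
    · have h3 := H2.apex p h hlt
      rw [(l2 p h).2.2.2.2]
      exact ⟨h3.1, h3.2.1, m2 _ h3.2.2.1, m2 _ h3.2.2.2⟩
  · intro p hp hne
    -- what a candidate parent gives
    have q1 : ∀ q ∈ T1, q.1 + 1 < q.2 → (p = (q.1, c q) ∨ p = (c q, q.2)) →
        p ∈ T1 ∧ p ≠ (a, c0) ∧ (p = (q.1, c1 q) ∨ p = (c1 q, q.2)) := by
      intro q hq hlt hpq
      have h3 := l1 q hq
      have h4 := H1.apex q hq hlt
      rw [h3.2.2.2.2] at hpq
      refine ⟨?_, ?_, hpq⟩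
      · rcases hpq with rfl | rfl
        · exact h4.2.2.1
        · exact h4.2.2.2
      · rintro rfl
        rcases hpq with h5 | h5
        · have h6 := congrArg Prod.snd h5
          simp only at h6
          omega
        · have h6 := congrArg Prod.fst h5
          simp only at h6
          omega
    have q2 : ∀ q ∈ T2, q.1 + 1 < q.2 → (p = (q.1, c q) ∨ p = (c q, q.2)) →
        p ∈ T2 ∧ p ≠ (c0, b) ∧ (p = (q.1, c2 q) ∨ p = (c2 q, q.2)) := by
      intro q hq hlt hpq
      have h3 := l2 q hq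
      have h4 := H2.apex q hq hlt
      rw [h3.2.2.2.2] at hpq
      refine ⟨?_, ?_, hpq⟩
      · rcases hpq with rfl | rfl
        · exact h4.2.2.1
        · exact h4.2.2.2
      · rintro rfl
        rcases hpq with h5 | h5
        · have h6 := congrArg Prod.snd h5
          simp only at h6
          omega
        · have h6 := congrArg Prod.fst h5
          simp only at h6
          omega
    have disj : p ∈ T1 → p ∈ T2 → False := by
      intro h3 h4
      have := l1 p h3
      have := l2 p h4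
      omega
    rcases mc p hp with h | h | h
    · exact absurd h hne
    · by_cases h3 : p = (a, c0)
      · refine ⟨(a, b), ⟨Finset.mem_insert_self _ _, by simp only; omega, Or.inl ?_⟩, ?_⟩
        · rw [e0]; exact h3
        · rintro q ⟨hq, hlt, hpq⟩
          rcases mc q hq with h4 | h4 | h4
          · exact h4
          · exact absurd h3 (q1 q h4 hlt hpq).2.1
          · exact (disj h (q2 q h4 hlt hpq).1).elim
      · obtain ⟨q, ⟨hq, hlt, hpq⟩, huniq⟩ := H1.parent p h h3
        refine ⟨q, ⟨m1 _ hq, hlt, ?_⟩, ?_⟩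
        · rw [(l1 q hq).2.2.2.2]; exact hpq
        · rintro q' ⟨hq', hlt', hpq'⟩
          rcases mc q' hq' with h4 | h4 | h4
          · exfalso
            subst h4
            rw [e0] at hpq'
            rcases hpq' with h5 | h5
            · exact h3 h5
            · have h6 := l1 p h
              rw [h5] at h6
              simp only at h6
              omega
          · exact huniq q' ⟨h4, hlt', (q1 q' h4 hlt' hpq').2.2⟩
          · exact (disj h (q2 q' h4 hlt' hpq').1).elim
    · by_cases h3 : p = (c0, b)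
      · refine ⟨(a, b), ⟨Finset.mem_insert_self _ _, by simp only; omega, Or.inr ?_⟩, ?_⟩
        · rw [e0]; exact h3
        · rintro q ⟨hq, hlt, hpq⟩
          rcases mc q hq with h4 | h4 | h4
          · exact h4
          · exact (disj (q1 q h4 hlt hpq).1 h).elim
          · exact absurd h3 (q2 q h4 hlt hpq).2.1
      · obtain ⟨q, ⟨hq, hlt, hpq⟩, huniq⟩ := H2.parent p h h3
        refine ⟨q, ⟨m2 _ hq, hlt, ?_⟩, ?_⟩
        · rw [(l2 q hq).2.2.2.2]; exact hpq
        · rintro q' ⟨hq', hlt', hpq'⟩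
          rcases mc q' hq' with h4 | h4 | h4
          · exfalso
            subst h4
            rw [e0] at hpq'
            rcases hpq' with h5 | h5
            · have h6 := l2 p h
              rw [h5] at h6
              simp only at h6
              omega
            · exact h3 h5
          · exact (disj (q1 q' h4 hlt' hpq').1 h).elim
          · exact huniq q' ⟨h4, hlt', (q2 q' h4 hlt' hpq').2.2⟩
  · have hd : Disjoint T1 T2 := by
      rw [Finset.disjoint_left]
      intro p h3 h4
      have := l1 p h3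
      have := l2 p h4
      omega
    have hn : (a, b) ∉ T1 ∪ T2 := by
      rw [Finset.mem_union]
      rintro (h | h)
      · exact (l1 _ h).2.2.2.1 rfl
      · exact (l2 _ h).2.2.2.1 rfl
    rw [Finset.card_insert_of_notMem hn, Finset.card_union_of_disjoint hd, H1.card, H2.card]
    omega

theorem ex (n : ℕ) : ∀ (a b : ℕ) (U : Finset (ℕ × ℕ)), b - a = n → a < b →
    (∀ e ∈ U, a ≤ e.1 ∧ e.1 < e.2 ∧ e.2 ≤ b) → NC U → ∃ T c, TriI a b T c ∧ U ⊆ T := by
  induction n using Nat.strong_induction_on with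
  | _ n ih =>
    intro a b U hn hab hU hN
    by_cases h : b = a + 1
    · subst h
      refine ⟨{(a, a + 1)}, fun _ => 0, ⟨?_, ?_, ?_, ?_, ?_, ?_⟩, ?_⟩
      · intro p hp
        rw [Finset.mem_singleton] at hp
        subst hp
        simp only
        omega
      · exact Finset.mem_singleton_self _
      · intro i hi hib
        have : i = a := by omega
        subst this
        exact Finset.mem_singleton_self _
      · intro p hp hlt
        rw [Finset.mem_singleton] at hp
        subst hp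
        simp only at hlt
        omega
      · intro p hp hne
        rw [Finset.mem_singleton] at hp
        exact absurd hp hne
      · rw [Finset.card_singleton]
        omega
      · intro e he
        have h1 := hU e he
        rw [Finset.mem_singleton]
        exact Prod.ext (by simp only; omega) (by simp only; omega)
    · obtain ⟨c0, h1, h2, h3⟩ := split (by omega) U hU hN
      have hN' : ∀ W : Finset (ℕ × ℕ), W ⊆ U → NC W := fun W hW e he f' hf =>
        hN e (hW he) f' (hW hf)
      obtain ⟨T1, c1, H1, hs1⟩ := ih (c0 - a) (by omega) a c0 (U.filter fun e => e.2 ≤ c0) rfl h1 (by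
        intro e he
        rw [Finset.mem_filter] at he
        have := hU e he.1
        exact ⟨this.1, this.2.1, he.2⟩) (hN' _ (Finset.filter_subset _ _))
      obtain ⟨T2, c2, H2, hs2⟩ := ih (b - c0) (by omega) c0 b (U.filter fun e => c0 ≤ e.1) rfl h2 (by
        intro e he
        rw [Finset.mem_filter] at he
        have := hU e he.1
        exact ⟨he.2, this.2.1, this.2.2⟩) (hN' _ (Finset.filter_subset _ _))
      refine ⟨_, _, glue h1 h2 H1 H2, ?_⟩
      intro e he
      rw [Finset.mem_insert, Finset.mem_union]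
      by_cases h4 : e = (a, b)
      · exact Or.inl h4
      · rcases h3 e he h4 with h5 | h5
        · exact Or.inr (Or.inl (hs1 (Finset.mem_filter.2 ⟨he, h5⟩)))
        · exact Or.inr (Or.inr (hs2 (Finset.mem_filter.2 ⟨he, h5⟩)))

end TRIaux

open TRIaux in
theorem TRI_ok : S_TRI := by
  intro m U hm hU hN
  obtain ⟨T, c, H, hs⟩ := ex m 0 m U (by omega) (by omega)
    (fun e he => ⟨Nat.zero_le _, (hU e he).1, (hU e he).2⟩) hN
  refine ⟨T, c, ⟨fun p hp => ⟨(H.lt p hp).2.1, (H.lt p hp).2.2⟩, H.root,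
    fun i hi => H.unit i (Nat.zero_le _) hi, H.apex, H.parent, ?_⟩, hs⟩
  rw [H.card]
  omega

end Pool.Agent.H172R2.UT
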