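import Pool.Agent.H172R2.UT.Defs

/-!
Untangling polygons, task TWP: two triangulations of a polygon form a sphere.
-/

open Classical

namespace Pool.Agent.H172R2.UT

namespace TWPaux

/-- one side of the sphere -/
structure Side {m : ℕ} (T : Finset (ℕ × ℕ)) (c : ℕ × ℕ → ℕ) {F E : Type}
    (e1 e2 : E → Fin (m + 1)) (f1 f2 : E → F) (ι : ℕ × ℕ → E) (φ : ℕ × ℕ → F) : Prop where
  tri : Tri m T c
  end1 : ∀ p ∈ T, (e1 (ι p)).val = p.1
  end2 : ∀ p ∈ T, (e2 (ι p)).val = p.2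
  inc : ∀ q ∈ T, q.1 + 1 < q.2 → ∀ e, (f1 e = φ q ∨ f2 e = φ q) ↔
    (e = ι q ∨ e = ι (q.1, c q) ∨ e = ι (c q, q.2))

section side

variable {m : ℕ} {T : Finset (ℕ × ℕ)} {c : ℕ × ℕ → ℕ} {F E : Type}
    {e1 e2 : E → Fin (m + 1)} {f1 f2 : E → F} {ι : ℕ × ℕ → E} {φ : ℕ × ℕ → F}

theorem Side.three (h : Side T c e1 e2 f1 f2 ι φ) (q : ℕ × ℕ) (hq : q ∈ T)
    (hb : q.1 + 1 < q.2) (S : Finset E) (hS : ∀ e, e ∈ S ↔ (f1 e = φ q ∨ f2 e = φ q)) :
    S.card ≤ 3 := by
  have : S = {ι q, ι (q.1, c q), ι (c q, q.2)} := by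
    ext e
    simp only [hS, Finset.mem_insert, Finset.mem_singleton]
    exact h.inc q hq hb e
  rw [this]
  exact Finset.card_le_three

theorem Side.even (h : Side T c e1 e2 f1 f2 ι φ) (q : ℕ × ℕ) (hq : q ∈ T)
    (hb : q.1 + 1 < q.2) (v : Fin (m + 1)) (S : Finset E)
    (hS : ∀ e, e ∈ S ↔ ((f1 e = φ q ∨ f2 e = φ q) ∧ (e1 e = v ∨ e2 e = v))) :
    Even S.card := by
  obtain ⟨h1, h2, h3, h4⟩ := h.tri.apex q hq hb
  have a1 := h.end1 q hq
  have a2 := h.end2 q hq
  have b1 : (e1 (ι (q.1, c q))).val = q.1 := h.end1 _ h3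
  have b2 : (e2 (ι (q.1, c q))).val = c q := h.end2 _ h3
  have d1 : (e1 (ι (c q, q.2))).val = c q := h.end1 _ h4
  have d2 : (e2 (ι (c q, q.2))).val = q.2 := h.end2 _ h4
  have hab : ι q ≠ ι (q.1, c q) := fun hh => by rw [hh] at a2; omega
  have had : ι q ≠ ι (c q, q.2) := fun hh => by rw [hh] at a1; omega
  have hbd : ι (q.1, c q) ≠ ι (c q, q.2) := fun hh => by rw [hh] at b1; omega
  have e : S = ({ι q, ι (q.1, c q), ι (c q, q.2)} : Finset E).filter
      (fun e => e1 e = v ∨ e2 e = v) := by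
    ext e
    simp only [hS, Finset.mem_filter, Finset.mem_insert, Finset.mem_singleton]
    rw [h.inc q hq hb e]
  have ca : (e1 (ι q) = v ∨ e2 (ι q) = v) ↔ (v.val = q.1 ∨ v.val = q.2) := by
    rw [Fin.ext_iff, Fin.ext_iff, a1, a2]; omega
  have cb : (e1 (ι (q.1, c q)) = v ∨ e2 (ι (q.1, c q)) = v) ↔ (v.val = q.1 ∨ v.val = c q) := by
    rw [Fin.ext_iff, Fin.ext_iff, b1, b2]; omega
  have cd : (e1 (ι (c q, q.2)) = v ∨ e2 (ι (c q, q.2)) = v) ↔ (v.val = c q ∨ v.val = q.2) := by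
    rw [Fin.ext_iff, Fin.ext_iff, d1, d2]; omega
  rw [e, Finset.card_filter, Finset.sum_insert (by simp [hab, had]),
    Finset.sum_insert (by simp [hbd]), Finset.sum_singleton]
  simp only [ca, cb, cd]
  split_ifs <;> first | decide | (exfalso; omega)

/-- all faces of one side are connected -/
theorem Side.conn (h : Side T c e1 e2 f1 f2 ι φ) (A : Set F)
    (hA : ∀ e, (f1 e ∈ A ↔ f2 e ∈ A)) :
    ∀ n : ℕ, ∀ q ∈ T, q.1 + 1 < q.2 → m ≤ n + (q.2 - q.1) → (φ q ∈ A ↔ φ (0, m) ∈ A) := by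
  intro n
  induction n with
  | zero =>
    intro q hq hb hn
    have := h.tri.lt q hq
    have e : q = (0, m) := by
      ext
      · show q.1 = 0
        omega
      · show q.2 = m
        omega
    rw [e]
  | succ n ih =>
    intro q hq hb hn
    by_cases hr : q = (0, m)
    · rw [hr]
    · obtain ⟨q', ⟨hq', hb', hc⟩, -⟩ := h.tri.parent q hq hr
      obtain ⟨h1, h2, h3, h4⟩ := h.tri.apex q' hq' hb'
      have i1 := (h.inc q hq hb (ι q)).2 (Or.inl rfl)
      have i2 : f1 (ι q) = φ q' ∨ f2 (ι q) = φ q' := by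
        refine (h.inc q' hq' hb' (ι q)).2 (Or.inr ?_)
        rcases hc with hc | hc
        · left; rw [hc]
        · right; rw [hc]
      have hlen : m ≤ n + (q'.2 - q'.1) := by
        have hl := h.tri.lt q' hq'
        rcases hc with hc | hc
        · have e1 : q.1 = q'.1 := by rw [hc]
          have e2 : q.2 = c q' := by rw [hc]
          omega
        · have e1 : q.1 = c q' := by rw [hc]
          have e2 : q.2 = q'.2 := by rw [hc]
          omega
      rw [← ih q' hq' hb' hlen]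
      have hAe := hA (ι q)
      rcases i1 with i1 | i1 <;> rcases i2 with i2 | i2
      · rw [← i1, ← i2]
      · rw [← i1, ← i2]; exact hAe
      · rw [← i1, ← i2]; exact hAe.symm
      · rw [← i1, ← i2]

variable {v : Fin (m + 1)} {A : Set F}

/-- two edges of one face -/
theorem Side.same (h : Side T c e1 e2 f1 f2 ι φ)
    (hA : ∀ e, (e1 e = v ∨ e2 e = v) → (f1 e ∈ A ↔ f2 e ∈ A)) (q : ℕ × ℕ) (hq : q ∈ T)
    (hb : q.1 + 1 < q.2) (e e' : E) (he : e1 e = v ∨ e2 e = v) (he' : e1 e' = v ∨ e2 e' = v)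
    (h1 : e = ι q ∨ e = ι (q.1, c q) ∨ e = ι (c q, q.2))
    (h2 : e' = ι q ∨ e' = ι (q.1, c q) ∨ e' = ι (c q, q.2)) :
    (f1 e ∈ A ↔ f1 e' ∈ A) := by
  have k : ∀ e, (e1 e = v ∨ e2 e = v) → (e = ι q ∨ e = ι (q.1, c q) ∨ e = ι (c q, q.2)) →
      (f1 e ∈ A ↔ φ q ∈ A) := by
    intro e he h1
    rcases (h.inc q hq hb e).2 h1 with h3 | h3
    · rw [h3]
    · rw [hA e he, h3]
  rw [k e he h1, k e' he' h2]

theorem Side.down (h : Side T c e1 e2 f1 f2 ι φ)
    (hA : ∀ e, (e1 e = v ∨ e2 e = v) → (f1 e ∈ A ↔ f2 e ∈ A)) :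
    ∀ b : ℕ, (v.val, b) ∈ T → (f1 (ι (v.val, b)) ∈ A ↔ f1 (ι (v.val, v.val + 1)) ∈ A) := by
  intro b
  induction b using Nat.strong_induction_on with
  | _ b ih =>
    intro hb
    have hl := h.tri.lt _ hb
    simp only at hl
    by_cases hu : v.val + 1 < b
    · obtain ⟨h1, h2, h3, h4⟩ := h.tri.apex _ hb hu
      simp only at h1 h2 h3 h4
      rw [← ih _ h2 h3]
      refine h.same hA _ hb hu _ _ (Or.inl (Fin.ext (h.end1 _ hb))) (Or.inl (Fin.ext (h.end1 _ h3)))
        (Or.inl rfl) (Or.inr (Or.inl rfl))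
    · have : b = v.val + 1 := by omega
      rw [this]

theorem Side.up (h : Side T c e1 e2 f1 f2 ι φ)
    (hA : ∀ e, (e1 e = v ∨ e2 e = v) → (f1 e ∈ A ↔ f2 e ∈ A)) :
    ∀ n a : ℕ, v.val ≤ a + n → (a, v.val) ∈ T →
      (f1 (ι (a, v.val)) ∈ A ↔ f1 (ι (v.val - 1, v.val)) ∈ A) := by
  intro n
  induction n with
  | zero =>
    intro a hn ha
    have hl := h.tri.lt _ ha
    simp only at hl
    omega
  | succ n ih =>
    intro a hn ha
    have hl := h.tri.lt _ ha
    simp only at hl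
    by_cases hu : a + 1 < v.val
    · obtain ⟨h1, h2, h3, h4⟩ := h.tri.apex _ ha hu
      simp only at h1 h2 h3 h4
      rw [← ih _ (by omega) h4]
      refine h.same hA _ ha hu _ _ (Or.inr (Fin.ext (h.end2 _ ha))) (Or.inr (Fin.ext (h.end2 _ h4)))
        (Or.inl rfl) (Or.inr (Or.inr rfl))
    · have : a = v.val - 1 := by omega
      rw [this]

theorem Side.mid (h : Side T c e1 e2 f1 f2 ι φ)
    (hA : ∀ e, (e1 e = v ∨ e2 e = v) → (f1 e ∈ A ↔ f2 e ∈ A)) (h0 : 0 < v.val) (hm : v.val < m) :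
    (f1 (ι (v.val - 1, v.val)) ∈ A ↔ f1 (ι (v.val, v.val + 1)) ∈ A) := by
  obtain ⟨b, hb, hmax⟩ : ∃ b, (v.val, b) ∈ T ∧ ∀ b', (v.val, b') ∈ T → b' ≤ b := by
    have hne : ((Finset.range (m + 1)).filter (fun b => (v.val, b) ∈ T)).Nonempty :=
      ⟨v.val + 1, Finset.mem_filter.2 ⟨Finset.mem_range.2 (by omega), h.tri.unit _ hm⟩⟩
    refine ⟨_, (Finset.mem_filter.1 (Finset.max'_mem _ hne)).2, fun b' hb' => ?_⟩
    refine Finset.le_max' _ _ (Finset.mem_filter.2 ⟨Finset.mem_range.2 ?_, hb'⟩)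
    have := h.tri.lt _ hb'
    simp only at this
    omega
  have hr : (v.val, b) ≠ (0, m) := by
    intro hh
    have : v.val = 0 := congrArg Prod.fst hh
    omega
  obtain ⟨q, ⟨hq, hbq, hc⟩, -⟩ := h.tri.parent _ hb hr
  obtain ⟨h1, h2, h3, h4⟩ := h.tri.apex q hq hbq
  rcases hc with hc | hc
  · exfalso
    have k1 : v.val = q.1 := congrArg Prod.fst hc
    have k2 : b = c q := congrArg Prod.snd hc
    have k3 := hmax q.2 (by rw [k1]; exact hq)
    omega
  · have k1 : v.val = c q := congrArg Prod.fst hc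
    have k2 : b = q.2 := congrArg Prod.snd hc
    rw [← h.down hA b hb, ← h.up hA v.val q.1 (by omega) (by rw [k1]; exact h3)]
    refine h.same hA q hq hbq _ _ (Or.inr (Fin.ext ?_)) (Or.inl (Fin.ext (h.end1 _ hb)))
      (Or.inr (Or.inl (by rw [k1]))) (Or.inr (Or.inr (by rw [hc])))
    rw [k1]
    exact h.end2 _ h3

theorem Side.link (h : Side T c e1 e2 f1 f2 ι φ)
    (hA : ∀ e, (e1 e = v ∨ e2 e = v) → (f1 e ∈ A ↔ f2 e ∈ A)) (p : ℕ × ℕ) (hp : p ∈ T)
    (hv : p.1 = v.val ∨ p.2 = v.val) :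
    (f1 (ι p) ∈ A ↔
      f1 (ι (if v.val < m then (v.val, v.val + 1) else (v.val - 1, v.val))) ∈ A) := by
  have hl := h.tri.lt p hp
  obtain ⟨a, b⟩ := p
  simp only at hl hv
  rcases hv with hv | hv
  · subst hv
    rw [if_pos (by omega)]
    exact h.down hA b hp
  · subst hv
    rw [h.up hA v.val a (by omega) hp]
    split_ifs with h1
    · exact h.mid hA (by omega) h1
    · exact Iff.rfl

end side

/-! ### the parent function -/

/-- the parent pair -/
noncomputable def par (m : ℕ) (T : Finset (ℕ × ℕ)) (c : ℕ × ℕ → ℕ) (p : ℕ × ℕ) : ℕ × ℕ :=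
  if h : ∃ q, q ∈ T ∧ q.1 + 1 < q.2 ∧ (p = (q.1, c q) ∨ p = (c q, q.2)) then h.choose else (0, m)

theorem par_mem {m : ℕ} {T : Finset (ℕ × ℕ)} {c : ℕ × ℕ → ℕ} (h : Tri m T c) (hm : 2 ≤ m)
    (p : ℕ × ℕ) : par m T c p ∈ T ∧ (par m T c p).1 + 1 < (par m T c p).2 := by
  unfold par
  split_ifs with h1
  · exact ⟨h1.choose_spec.1, h1.choose_spec.2.1⟩
  · exact ⟨h.root, by simp only; omega⟩

theorem par_iff {m : ℕ} {T : Finset (ℕ × ℕ)} {c : ℕ × ℕ → ℕ} (h : Tri m T c)
    (p : ℕ × ℕ) (hp : p ∈ T) (hr : p ≠ (0, m)) (q : ℕ × ℕ) (hq : q ∈ T) (hb : q.1 + 1 < q.2) :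
    par m T c p = q ↔ (p = (q.1, c q) ∨ p = (c q, q.2)) := by
  obtain ⟨q0, h0, hu⟩ := h.parent p hp hr
  have h1 : ∃ q, q ∈ T ∧ q.1 + 1 < q.2 ∧ (p = (q.1, c q) ∨ p = (c q, q.2)) := ⟨q0, h0⟩
  have e : par m T c p = q0 := by
    unfold par
    rw [dif_pos h1]
    exact hu _ h1.choose_spec
  rw [e]
  constructor
  · intro hh
    rw [← hh]
    exact h0.2.2
  · intro hh
    exact (hu q ⟨hq, hb, hh⟩).symm

/-- an element of a finite set -/
noncomputable def mkS (S : Finset (ℕ × ℕ)) (r : ℕ × ℕ) (hr : r ∈ S) (p : ℕ × ℕ) : {x // x ∈ S} :=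
  if h : p ∈ S then ⟨p, h⟩ else ⟨r, hr⟩

theorem mkS_of {S : Finset (ℕ × ℕ)} {r : ℕ × ℕ} {hr : r ∈ S} {p : ℕ × ℕ} (h : p ∈ S) :
    mkS S r hr p = ⟨p, h⟩ := dif_pos h

theorem mkS_inj {S : Finset (ℕ × ℕ)} {r : ℕ × ℕ} {hr : r ∈ S} {p q : ℕ × ℕ} (h : p ∈ S)
    (h' : q ∈ S) : mkS S r hr p = mkS S r hr q ↔ p = q := by
  rw [mkS_of h, mkS_of h', Subtype.mk.injEq]

/-! ### faces and edges -/

/-- pairs that are no unit pairs -/
noncomputable def big (T : Finset (ℕ × ℕ)) : Finset (ℕ × ℕ) := T.filter (fun p => p.1 + 1 < p.2)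

/-- pairs that are no unit pairs and not the root -/
noncomputable def inn (m : ℕ) (T : Finset (ℕ × ℕ)) : Finset (ℕ × ℕ) :=
  T.filter (fun p => p.1 + 1 < p.2 ∧ p ≠ (0, m))

theorem mem_big {T : Finset (ℕ × ℕ)} {p : ℕ × ℕ} : p ∈ big T ↔ p ∈ T ∧ p.1 + 1 < p.2 := by
  unfold big
  rw [Finset.mem_filter]

theorem mem_inn {m : ℕ} {T : Finset (ℕ × ℕ)} {p : ℕ × ℕ} :
    p ∈ inn m T ↔ p ∈ T ∧ p.1 + 1 < p.2 ∧ p ≠ (0, m) := by
  unfold inn
  rw [Finset.mem_filter]

theorem root_big {m : ℕ} {T : Finset (ℕ × ℕ)} {c : ℕ × ℕ → ℕ} (h : Tri m T c) (hm : 2 ≤ m) :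
    (0, m) ∈ big T := mem_big.2 ⟨h.root, by simp only; omega⟩

abbrev FF (T T' : Finset (ℕ × ℕ)) : Type := {x // x ∈ big T} ⊕ {x // x ∈ big T'}

abbrev EE (m : ℕ) (T T' : Finset (ℕ × ℕ)) : Type := {x // x ∈ T} ⊕ {x // x ∈ inn m T'}

section build

variable {m : ℕ} {T T' : Finset (ℕ × ℕ)} {c c' : ℕ × ℕ → ℕ}

/-- upper faces -/
noncomputable def φ1 (h : Tri m T c) (hm : 2 ≤ m) (T' : Finset (ℕ × ℕ)) (p : ℕ × ℕ) : FF T T' :=
  Sum.inl (mkS (big T) (0, m) (root_big h hm) p)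

/-- lower faces -/
noncomputable def φ2 (T : Finset (ℕ × ℕ)) (h' : Tri m T' c') (hm : 2 ≤ m) (p : ℕ × ℕ) : FF T T' :=
  Sum.inr (mkS (big T') (0, m) (root_big h' hm) p)

/-- upper edges -/
noncomputable def ι1 (h : Tri m T c) (T' : Finset (ℕ × ℕ)) (p : ℕ × ℕ) : EE m T T' :=
  Sum.inl (mkS T (0, m) h.root p)

/-- lower edges -/
noncomputable def ι2 (h : Tri m T c) (T' : Finset (ℕ × ℕ)) (p : ℕ × ℕ) : EE m T T' :=
  if hp : p ∈ inn m T' then Sum.inr ⟨p, hp⟩ else ι1 h T' p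

/-- first end -/
def en1 : EE m T T' → Fin (m + 1) :=
  Sum.elim (fun p => Fin.ofNat (m + 1) p.1.1) (fun p => Fin.ofNat (m + 1) p.1.1)

/-- second end -/
def en2 : EE m T T' → Fin (m + 1) :=
  Sum.elim (fun p => Fin.ofNat (m + 1) p.1.2) (fun p => Fin.ofNat (m + 1) p.1.2)

/-- first side -/
noncomputable def si1 (h : Tri m T c) (h' : Tri m T' c') (hm : 2 ≤ m) : EE m T T' → FF T T' :=
  Sum.elim (fun p => φ1 h hm T' (if p.1.1 + 1 < p.1.2 then p.1 else par m T c p.1))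
    (fun p => φ2 T h' hm p.1)

/-- second side -/
noncomputable def si2 (h : Tri m T c) (h' : Tri m T' c') (hm : 2 ≤ m) : EE m T T' → FF T T' :=
  Sum.elim (fun p => if p.1.1 + 1 < p.1.2 then
      (if p.1 = (0, m) then φ2 T h' hm (0, m) else φ1 h hm T' (par m T c p.1))
      else φ2 T h' hm (par m T' c' p.1))
    (fun p => φ2 T h' hm (par m T' c' p.1))

theorem φ1_inj (h : Tri m T c) (hm : 2 ≤ m) {p q : ℕ × ℕ} (hp : p ∈ T ∧ p.1 + 1 < p.2)
    (hq : q ∈ T ∧ q.1 + 1 < q.2) : φ1 h hm T' p = φ1 h hm T' q ↔ p = q := by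
  unfold φ1
  rw [Sum.inl.injEq, mkS_inj (mem_big.2 hp) (mem_big.2 hq)]

theorem φ2_inj (h' : Tri m T' c') (hm : 2 ≤ m) {p q : ℕ × ℕ} (hp : p ∈ T' ∧ p.1 + 1 < p.2)
    (hq : q ∈ T' ∧ q.1 + 1 < q.2) : φ2 T h' hm p = φ2 T h' hm q ↔ p = q := by
  unfold φ2
  rw [Sum.inr.injEq, mkS_inj (mem_big.2 hp) (mem_big.2 hq)]

theorem φ12 (h : Tri m T c) (h' : Tri m T' c') (hm : 2 ≤ m) (p q : ℕ × ℕ) :
    φ1 h hm T' p ≠ φ2 T h' hm q := by
  unfold φ1 φ2
  simp

theorem ι1_of (h : Tri m T c) {p : ℕ × ℕ} (hp : p ∈ T) : ι1 h T' p = Sum.inl ⟨p, hp⟩ := by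
  unfold ι1
  rw [mkS_of hp]

theorem ι2_inn (h : Tri m T c) {p : ℕ × ℕ} (hp : p ∈ inn m T') : ι2 h T' p = Sum.inr ⟨p, hp⟩ := by
  unfold ι2
  rw [dif_pos hp]

theorem ι2_ninn (h : Tri m T c) {p : ℕ × ℕ} (hp : p ∉ inn m T') : ι2 h T' p = ι1 h T' p := by
  unfold ι2
  rw [dif_neg hp]

/-- unit pairs and the root are common -/
theorem common (h : Tri m T c) (h' : Tri m T' c') {p : ℕ × ℕ} (hp : p ∈ T')
    (hn : p ∉ inn m T') : p ∈ T := by
  have hl := h'.lt p hp
  by_cases hb : p.1 + 1 < p.2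
  · have : p = (0, m) := by
      by_contra hc
      exact hn (mem_inn.2 ⟨hp, hb, hc⟩)
    rw [this]
    exact h.root
  · have e : p = (p.1, p.1 + 1) := by
      ext
      · rfl
      · show p.2 = p.1 + 1
        omega
    rw [e]
    exact h.unit _ (by omega)

theorem not_root_of_unit {p : ℕ × ℕ} (hm : 2 ≤ m) (hb : ¬ p.1 + 1 < p.2) : p ≠ (0, m) := by
  intro hh
  rw [hh] at hb
  simp only at hb
  omega

theorem child_ne (h : Tri m T c) {q : ℕ × ℕ} (hq : q ∈ T) (hb : q.1 + 1 < q.2) :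
    (q.1, c q) ≠ (0, m) ∧ (c q, q.2) ≠ (0, m) ∧ (q.1, c q) ≠ q ∧ (c q, q.2) ≠ q := by
  obtain ⟨h1, h2, -, -⟩ := h.apex q hq hb
  have hl := h.lt q hq
  refine ⟨?_, ?_, ?_, ?_⟩
  · intro hh
    have : c q = m := congrArg Prod.snd hh
    omega
  · intro hh
    have : c q = 0 := congrArg Prod.fst hh
    omega
  · intro hh
    have : c q = q.2 := congrArg Prod.snd hh
    omega
  · intro hh
    have : c q = q.1 := congrArg Prod.fst hh
    omega

theorem inl_eq_ι1 (h : Tri m T c) {p q : ℕ × ℕ} (hp : p ∈ T) (hq : q ∈ T) :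
    ((Sum.inl ⟨p, hp⟩ : EE m T T') = ι1 h T' q) ↔ p = q := by
  rw [ι1_of h hq, Sum.inl.injEq, Subtype.mk.injEq]

theorem inr_eq_ι1 (h : Tri m T c) {p q : ℕ × ℕ} (hp : p ∈ inn m T') :
    ¬ ((Sum.inr ⟨p, hp⟩ : EE m T T') = ι1 h T' q) := by
  unfold ι1
  simp

theorem inl_eq_ι2 (h : Tri m T c) (h' : Tri m T' c') {p q : ℕ × ℕ} (hp : p ∈ T) (hq : q ∈ T') :
    ((Sum.inl ⟨p, hp⟩ : EE m T T') = ι2 h T' q) ↔ (p = q ∧ q ∉ inn m T') := by
  by_cases hn : q ∈ inn m T'
  · rw [ι2_inn h hn]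
    simp [hn]
  · rw [ι2_ninn h hn, inl_eq_ι1 h hp (common h h' hq hn)]
    tauto

theorem inr_eq_ι2 (h : Tri m T c) {p q : ℕ × ℕ} (hp : p ∈ inn m T') :
    ((Sum.inr ⟨p, hp⟩ : EE m T T') = ι2 h T' q) ↔ p = q := by
  by_cases hn : q ∈ inn m T'
  · rw [ι2_inn h hn, Sum.inr.injEq, Subtype.mk.injEq]
  · rw [ι2_ninn h hn]
    constructor
    · intro hh
      exact absurd hh (inr_eq_ι1 h hp)
    · intro hh
      rw [hh] at hp
      exact absurd hp hn

theorem side1 (h : Tri m T c) (h' : Tri m T' c') (hm : 2 ≤ m) :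
    Side T c (en1 (m := m) (T := T) (T' := T')) en2 (si1 h h' hm) (si2 h h' hm) (ι1 h T')
      (φ1 h hm T') where
  tri := h
  end1 p hp := by
    rw [ι1_of h hp]
    have := h.lt p hp
    show (Fin.ofNat (m + 1) p.1).val = p.1
    rw [Fin.val_ofNat]
    exact Nat.mod_eq_of_lt (by omega)
  end2 p hp := by
    rw [ι1_of h hp]
    have := h.lt p hp
    show (Fin.ofNat (m + 1) p.2).val = p.2
    rw [Fin.val_ofNat]
    exact Nat.mod_eq_of_lt (by omega)
  inc q hq hb e := by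
    obtain ⟨h1, h2, h3, h4⟩ := h.apex q hq hb
    obtain ⟨n1, n2, n3, n4⟩ := child_ne h hq hb
    rcases e with ⟨p, hp⟩ | ⟨p, hp⟩
    · rw [inl_eq_ι1 h hp hq, inl_eq_ι1 h hp h3, inl_eq_ι1 h hp h4]
      show (φ1 h hm T' (if p.1 + 1 < p.2 then p else par m T c p) = φ1 h hm T' q ∨
        (if p.1 + 1 < p.2 then (if p = (0, m) then φ2 T h' hm (0, m) else
          φ1 h hm T' (par m T c p)) else φ2 T h' hm (par m T' c' p)) = φ1 h hm T' q) ↔ _
      by_cases hbp : p.1 + 1 < p.2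
      · rw [if_pos hbp, if_pos hbp, φ1_inj h hm ⟨hp, hbp⟩ ⟨hq, hb⟩]
        by_cases hr : p = (0, m)
        · rw [if_pos hr]
          have k := φ12 h h' hm q (0, m)
          constructor
          · rintro (hh | hh)
            · exact Or.inl hh
            · exact absurd hh.symm k
          · rintro (hh | hh | hh)
            · exact Or.inl hh
            · exact absurd (hh.symm.trans hr) n1
            · exact absurd (hh.symm.trans hr) n2
        · rw [if_neg hr, φ1_inj h hm (par_mem h hm p) ⟨hq, hb⟩, par_iff h p hp hr q hq hb]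
      · have hr := not_root_of_unit hm hbp
        have k := φ12 h h' hm q (par m T' c' p)
        rw [if_neg hbp, if_neg hbp, φ1_inj h hm (par_mem h hm p) ⟨hq, hb⟩,
          par_iff h p hp hr q hq hb]
        constructor
        · rintro (hh | hh)
          · exact Or.inr hh
          · exact absurd hh.symm k
        · rintro (hh | hh)
          · rw [hh] at hbp
            exact absurd hb hbp
          · exact Or.inl hh
    · have k1 := φ12 h h' hm q p
      have k2 := φ12 h h' hm q (par m T' c' p)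
      show (φ2 T h' hm p = φ1 h hm T' q ∨ φ2 T h' hm (par m T' c' p) = φ1 h hm T' q) ↔ _
      constructor
      · rintro (hh | hh)
        · exact absurd hh.symm k1
        · exact absurd hh.symm k2
      · rintro (hh | hh | hh)
        · exact absurd hh (inr_eq_ι1 h hp)
        · exact absurd hh (inr_eq_ι1 h hp)
        · exact absurd hh (inr_eq_ι1 h hp)

theorem side2 (h : Tri m T c) (h' : Tri m T' c') (hm : 2 ≤ m) :
    Side T' c' (en1 (m := m) (T := T) (T' := T')) en2 (si1 h h' hm) (si2 h h' hm) (ι2 h T')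
      (φ2 T h' hm) where
  tri := h'
  end1 p hp := by
    have := h'.lt p hp
    by_cases hn : p ∈ inn m T'
    · rw [ι2_inn h hn]
      show (Fin.ofNat (m + 1) p.1).val = p.1
      rw [Fin.val_ofNat]
      exact Nat.mod_eq_of_lt (by omega)
    · rw [ι2_ninn h hn]
      exact (side1 h h' hm).end1 p (common h h' hp hn)
  end2 p hp := by
    have := h'.lt p hp
    by_cases hn : p ∈ inn m T'
    · rw [ι2_inn h hn]
      show (Fin.ofNat (m + 1) p.2).val = p.2
      rw [Fin.val_ofNat]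
      exact Nat.mod_eq_of_lt (by omega)
    · rw [ι2_ninn h hn]
      exact (side1 h h' hm).end2 p (common h h' hp hn)
  inc q hq hb e := by
    obtain ⟨h1, h2, h3, h4⟩ := h'.apex q hq hb
    obtain ⟨n1, n2, n3, n4⟩ := child_ne h' hq hb
    rcases e with ⟨p, hp⟩ | ⟨p, hp⟩
    · rw [inl_eq_ι2 h h' hp hq, inl_eq_ι2 h h' hp h3, inl_eq_ι2 h h' hp h4]
      show (φ1 h hm T' (if p.1 + 1 < p.2 then p else par m T c p) = φ2 T h' hm q ∨
        (if p.1 + 1 < p.2 then (if p = (0, m) then φ2 T h' hm (0, m) else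
          φ1 h hm T' (par m T c p)) else φ2 T h' hm (par m T' c' p)) = φ2 T h' hm q) ↔ _
      have k0 := φ12 h h' hm (if p.1 + 1 < p.2 then p else par m T c p) q
      rw [or_iff_right k0]
      by_cases hbp : p.1 + 1 < p.2
      · rw [if_pos hbp]
        by_cases hr : p = (0, m)
        · rw [if_pos hr, φ2_inj h' hm (mem_big.1 (root_big h' hm)) ⟨hq, hb⟩]
          constructor
          · intro hh
            refine Or.inl ⟨hr.trans hh, ?_⟩
            rw [← hh]
            intro hin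
            exact (mem_inn.1 hin).2.2 rfl
          · rintro (hh | hh | hh)
            · exact hr.symm.trans hh.1
            · exact absurd (hh.1.symm.trans hr) n1
            · exact absurd (hh.1.symm.trans hr) n2
        · rw [if_neg hr]
          constructor
          · intro hh
            exact absurd hh (φ12 h h' hm _ _)
          · have key : ∀ r ∈ T', p = r ∧ r ∉ inn m T' → False := by
              rintro r hr' ⟨e1, e2⟩
              apply e2
              rw [← e1] at hr' ⊢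
              exact mem_inn.2 ⟨hr', hbp, hr⟩
            rintro (hh | hh | hh)
            · exact (key _ hq hh).elim
            · exact (key _ h3 hh).elim
            · exact (key _ h4 hh).elim
      · have hr := not_root_of_unit hm hbp
        have hl := h.lt p hp
        have hpT : p ∈ T' := common h' h hp (fun hin => hbp (mem_inn.1 hin).2.1)
        rw [if_neg hbp, φ2_inj h' hm (par_mem h' hm p) ⟨hq, hb⟩, par_iff h' p hpT hr q hq hb]
        constructor
        · rintro (hh | hh)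
          · refine Or.inr (Or.inl ⟨hh, ?_⟩)
            rw [← hh]
            exact fun hin => hbp (mem_inn.1 hin).2.1
          · refine Or.inr (Or.inr ⟨hh, ?_⟩)
            rw [← hh]
            exact fun hin => hbp (mem_inn.1 hin).2.1
        · rintro (hh | hh | hh)
          · have := hh.1
            rw [this] at hbp
            exact absurd hb hbp
          · exact Or.inl hh.1
          · exact Or.inr hh.1
    · rw [inr_eq_ι2 h hp, inr_eq_ι2 h hp, inr_eq_ι2 h hp]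
      obtain ⟨i1, i2, i3⟩ := mem_inn.1 hp
      show (φ2 T h' hm p = φ2 T h' hm q ∨ φ2 T h' hm (par m T' c' p) = φ2 T h' hm q) ↔ _
      rw [φ2_inj h' hm ⟨i1, i2⟩ ⟨hq, hb⟩, φ2_inj h' hm (par_mem h' hm p) ⟨hq, hb⟩,
        par_iff h' p i1 i3 q hq hb]

theorem surjE (h : Tri m T c) (e : EE m T T') :
    (∃ p ∈ T, e = ι1 h T' p) ∨ (∃ p ∈ T', e = ι2 h T' p) := by
  rcases e with ⟨p, hp⟩ | ⟨p, hp⟩
  · exact Or.inl ⟨p, hp, (ι1_of h hp).symm⟩
  · exact Or.inr ⟨p, (mem_inn.1 hp).1, (ι2_inn h hp).symm⟩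

theorem surjF (h : Tri m T c) (h' : Tri m T' c') (hm : 2 ≤ m) (f : FF T T') :
    (∃ q ∈ T, q.1 + 1 < q.2 ∧ f = φ1 h hm T' q) ∨ (∃ q ∈ T', q.1 + 1 < q.2 ∧ f = φ2 T h' hm q) := by
  rcases f with ⟨q, hq⟩ | ⟨q, hq⟩
  · refine Or.inl ⟨q, (mem_big.1 hq).1, (mem_big.1 hq).2, ?_⟩
    unfold φ1
    rw [mkS_of hq]
  · refine Or.inr ⟨q, (mem_big.1 hq).1, (mem_big.1 hq).2, ?_⟩
    unfold φ2
    rw [mkS_of hq]

theorem side_ne (h : Tri m T c) (h' : Tri m T' c') (hm : 2 ≤ m) (e : EE m T T') :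
    si1 h h' hm e ≠ si2 h h' hm e := by
  have key : ∀ (T : Finset (ℕ × ℕ)) (c : ℕ × ℕ → ℕ) (h : Tri m T c) (p : ℕ × ℕ), p ∈ T →
      p ≠ (0, m) → p ≠ par m T c p := by
    intro T c h p hp hr hh
    have k := par_mem h hm p
    have k2 := (par_iff h p hp hr _ k.1 k.2).1 rfl
    obtain ⟨-, -, n3, n4⟩ := child_ne h k.1 k.2
    rcases k2 with k2 | k2
    · exact n3 (k2.symm.trans hh)
    · exact n4 (k2.symm.trans hh)
  rcases e with ⟨p, hp⟩ | ⟨p, hp⟩
  · show φ1 h hm T' (if p.1 + 1 < p.2 then p else par m T c p) ≠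
      (if p.1 + 1 < p.2 then (if p = (0, m) then φ2 T h' hm (0, m) else
          φ1 h hm T' (par m T c p)) else φ2 T h' hm (par m T' c' p))
    by_cases hbp : p.1 + 1 < p.2
    · rw [if_pos hbp, if_pos hbp]
      by_cases hr : p = (0, m)
      · rw [if_pos hr]
        exact φ12 h h' hm _ _
      · rw [if_neg hr, Ne, φ1_inj h hm ⟨hp, hbp⟩ (par_mem h hm p)]
        exact key T c h p hp hr
    · rw [if_neg hbp, if_neg hbp]
      exact φ12 h h' hm _ _
  · obtain ⟨i1, i2, i3⟩ := mem_inn.1 hp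
    show φ2 T h' hm p ≠ φ2 T h' hm (par m T' c' p)
    rw [Ne, φ2_inj h' hm ⟨i1, i2⟩ (par_mem h' hm p)]
    exact key T' c' h' p i1 i3

theorem card_big (h : Tri m T c) : (big T).card + m = 2 * m - 1 := by
  have h1 := Finset.card_filter_add_card_filter_not (s := T) (fun p => p.1 + 1 < p.2)
  have h2 : T.filter (fun p => ¬ p.1 + 1 < p.2) = (Finset.range m).image (fun i => (i, i + 1)) := by
    ext p
    rw [Finset.mem_filter, Finset.mem_image]
    constructor
    · rintro ⟨hp, hb⟩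
      have hl := h.lt p hp
      refine ⟨p.1, Finset.mem_range.2 (by omega), ?_⟩
      ext
      · rfl
      · show p.1 + 1 = p.2
        omega
    · rintro ⟨i, hi, rfl⟩
      exact ⟨h.unit i (Finset.mem_range.1 hi), by simp only; omega⟩
  rw [h2, Finset.card_image_of_injective _ (fun a b hab => congrArg Prod.fst hab),
    Finset.card_range, h.card] at h1
  exact h1

theorem card_inn (h : Tri m T c) (hm : 2 ≤ m) : (inn m T).card + 1 = (big T).card := by
  have : inn m T = (big T).erase (0, m) := by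
    ext p
    rw [mem_inn, Finset.mem_erase, mem_big]
    tauto
  rw [this]
  exact Finset.card_erase_add_one (root_big h hm)

theorem mem_fu {E : Type} [Fintype E] (P : E → Prop) (inst : DecidablePred P) (e : E) :
    e ∈ @Finset.filter E P inst Finset.univ ↔ P e := by
  rw [Finset.mem_filter]
  simp only [Finset.mem_univ, true_and]

/-- the sphere -/
theorem sphere (h : Tri m T c) (h' : Tri m T' c') (hm : 2 ≤ m) :
    ∃ S : Sph (Fin (m + 1)) (FF T T') (EE m T T'), S.e1 = en1 ∧ S.e2 = en2 := by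
  have s1 := side1 h h' hm
  have s2 := side2 h h' hm
  refine ⟨Sph.mk en1 en2 (si1 h h' hm) (si2 h h' hm) ?_ ?_ ?_ ?_ ?_ ?_ ?_ ?_, rfl, rfl⟩
  · intro e hh
    have hh' := congrArg Fin.val hh
    rcases surjE h e with ⟨p, hp, rfl⟩ | ⟨p, hp, rfl⟩
    · rw [s1.end1 p hp, s1.end2 p hp] at hh'
      have := h.lt p hp
      omega
    · rw [s2.end1 p hp, s2.end2 p hp] at hh'
      have := h'.lt p hp
      omega
  · exact side_ne h h' hm
  · intro f v
    rcases surjF h h' hm f with ⟨q, hq, hb, rfl⟩ | ⟨q, hq, hb, rfl⟩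
    · exact s1.even q hq hb v _ (fun e => mem_fu _ _ e)
    · exact s2.even q hq hb v _ (fun e => mem_fu _ _ e)
  · intro f
    rcases surjF h h' hm f with ⟨q, hq, hb, rfl⟩ | ⟨q, hq, hb, rfl⟩
    · exact s1.three q hq hb _ (fun e => mem_fu _ _ e)
    · exact s2.three q hq hb _ (fun e => mem_fu _ _ e)
  · rw [Fintype.card_fin, Fintype.card_sum, Fintype.card_sum, Fintype.card_coe, Fintype.card_coe,
      Fintype.card_coe, Fintype.card_coe]
    have k1 := card_big h
    have k2 := card_big h'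
    have k3 := card_inn h' hm
    have k4 := h.card
    omega
  · intro A hA hAc
    by_contra hcon
    push Not at hcon
    have hs : ∀ i : ℕ, ∀ hi : i < m, ((⟨i, by omega⟩ : Fin (m + 1)) ∈ A ↔
        (⟨i + 1, by omega⟩ : Fin (m + 1)) ∈ A) := by
      intro i hi
      have k := hcon (ι1 h T' (i, i + 1))
      have k1 : en1 (ι1 h T' (i, i + 1)) = (⟨i, by omega⟩ : Fin (m + 1)) :=
        Fin.ext (s1.end1 _ (h.unit i hi))
      have k2 : en2 (ι1 h T' (i, i + 1)) = (⟨i + 1, by omega⟩ : Fin (m + 1)) :=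
        Fin.ext (s1.end2 _ (h.unit i hi))
      rw [k1, k2] at k
      exact k
    have h0 : ∀ i : ℕ, ∀ hi : i < m + 1, ((⟨i, hi⟩ : Fin (m + 1)) ∈ A ↔
        (⟨0, by omega⟩ : Fin (m + 1)) ∈ A) := by
      intro i
      induction i with
      | zero => intro _; exact Iff.rfl
      | succ i ih =>
        intro hi
        rw [← ih (by omega)]
        exact (hs i (by omega)).symm
    obtain ⟨a, ha⟩ := hA
    obtain ⟨b, hb⟩ := hAc
    exact hb ((h0 b.val b.isLt).2 ((h0 a.val a.isLt).1 ha))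
  · intro A hA hAc
    by_contra hcon
    push Not at hcon
    have r1 := mem_big.1 (root_big h hm)
    have r2 := mem_big.1 (root_big h' hm)
    have hroot : φ1 h hm T' (0, m) ∈ A ↔ φ2 T h' hm (0, m) ∈ A := by
      have hin : (0, m) ∉ inn m T' := fun hin => (mem_inn.1 hin).2.2 rfl
      have i1 := (s1.inc _ r1.1 r1.2 (ι1 h T' (0, m))).2 (Or.inl rfl)
      have i2 := (s2.inc _ r2.1 r2.2 (ι1 h T' (0, m))).2 (Or.inl (ι2_ninn h hin).symm)
      have hAe := hcon (ι1 h T' (0, m))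
      rcases i1 with i1 | i1 <;> rcases i2 with i2 | i2
      · rw [← i1, ← i2]
      · rw [← i1, ← i2]; exact hAe
      · rw [← i1, ← i2]; exact hAe.symm
      · rw [← i1, ← i2]
    have hall : ∀ f : FF T T', f ∈ A ↔ φ1 h hm T' (0, m) ∈ A := by
      intro f
      rcases surjF h h' hm f with ⟨q, hq, hb, rfl⟩ | ⟨q, hq, hb, rfl⟩
      · exact s1.conn A hcon m q hq hb (by omega)
      · rw [hroot]
        exact s2.conn A hcon m q hq hb (by omega)
    obtain ⟨a, ha⟩ := hA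
    obtain ⟨b, hb⟩ := hAc
    exact hb ((hall b).2 ((hall a).1 ha))
  · intro v A hA e e' he he'
    have href : ι1 h T' (if v.val < m then (v.val, v.val + 1) else (v.val - 1, v.val)) =
        ι2 h T' (if v.val < m then (v.val, v.val + 1) else (v.val - 1, v.val)) := by
      rw [ι2_ninn h]
      intro hin
      have := (mem_inn.1 hin).2.1
      have hv := v.isLt
      split_ifs at this with hvm
      · simp only at this
        omega
      · simp only at this
        omega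
    have key : ∀ e : EE m T T', (en1 e = v ∨ en2 e = v) → (si1 h h' hm e ∈ A ↔
        si1 h h' hm (ι1 h T' (if v.val < m then (v.val, v.val + 1) else (v.val - 1, v.val))) ∈ A) := by
      intro e he
      rcases surjE h e with ⟨p, hp, rfl⟩ | ⟨p, hp, rfl⟩
      · refine s1.link hA p hp ?_
        rcases he with he | he
        · left; rw [← he]; exact (s1.end1 p hp).symm
        · right; rw [← he]; exact (s1.end2 p hp).symm
      · rw [href]
        refine s2.link hA p hp ?_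
        rcases he with he | he
        · left; rw [← he]; exact (s2.end1 p hp).symm
        · right; rw [← he]; exact (s2.end2 p hp).symm
    rw [key e he, key e' he']

end build

end TWPaux

open TWPaux in
theorem TWP_ok : S_TWP := by
  intro m T T' c c' hm h h'
  obtain ⟨S, hS1, hS2⟩ := sphere h h' hm
  refine ⟨FF T T', EE m T T', inferInstance, inferInstance, S, ?_⟩
  intro i j hij
  rw [hS1, hS2]
  rcases Finset.mem_union.1 hij with hp | hp
  · exact ⟨ι1 h T' (i.val, j.val), Fin.ext ((side1 h h' hm).end1 _ hp),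
      Fin.ext ((side1 h h' hm).end2 _ hp)⟩
  · exact ⟨ι2 h T' (i.val, j.val), Fin.ext ((side2 h h' hm).end1 _ hp),
      Fin.ext ((side2 h h' hm).end2 _ hp)⟩

end Pool.Agent.H172R2.UT
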