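import Pool.Agent.H172R2.UT.Defs

/-!
ZER: the zeros of the curve on the parabola.
-/

open Classical

namespace Pool.Agent.H172R2.UT

namespace ZERaux

open Polynomial

/-- the roots of a quadratic polynomial -/
lemma quad_roots (a b c : ℝ) (h : a ≠ 0 ∨ b ≠ 0) :
    ∃ R : Finset ℝ, R.card ≤ 2 ∧ ∀ u : ℝ, a * u ^ 2 + b * u + c = 0 → u ∈ R := by
  set p : ℝ[X] := C a * X ^ 2 + C b * X + C c with hp
  have hp0 : p ≠ 0 := by
    intro hcon
    have h1 : p.coeff 2 = a := by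
      rw [hp]
      simp [coeff_X, coeff_C]
    have h2 : p.coeff 1 = b := by
      rw [hp]
      simp [coeff_X, coeff_C]
    rw [hcon, coeff_zero] at h1 h2
    rcases h with h | h
    · exact h h1.symm
    · exact h h2.symm
  refine ⟨p.roots.toFinset, ?_, ?_⟩
  · calc p.roots.toFinset.card ≤ Multiset.card p.roots := Multiset.toFinset_card_le _
      _ ≤ p.natDegree := card_roots' p
      _ ≤ 2 := natDegree_quadratic_le
  · intro u hu
    rw [Multiset.mem_toFinset, mem_roots hp0, IsRoot.def, hp]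
    simpa using hu

lemma gam_eq (q : ℕ → ℝ × ℝ) (i : ℕ) (r : ℝ) (h1 : (i : ℝ) ≤ r) (h2 : r < i + 1) :
    (gam q r).1 = (q i).1 + (r - i) * ((q (i+1)).1 - (q i).1) ∧
    (gam q r).2 = (q i).2 + (r - i) * ((q (i+1)).2 - (q i).2) := by
  have hf : ⌊r⌋₊ = i := by
    rw [Nat.floor_eq_iff ((Nat.cast_nonneg i).trans h1)]
    exact ⟨h1, h2⟩
  unfold gam
  rw [hf, AffineMap.lineMap_apply]
  constructor
  · simp
    ring
  · simp
    ring

lemma piece (q : ℕ → ℝ × ℝ) (i : ℕ) (hq : q i ≠ q (i+1)) :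
    ∃ R : Finset ℝ, R.card ≤ 2 ∧ ∀ r : ℝ, r ∈ R ↔
      ((i : ℝ) ≤ r ∧ r < i + 1 ∧ (gam q r).2 = (gam q r).1 ^ 2) := by
  set dx := (q (i+1)).1 - (q i).1 with hdx
  set dy := (q (i+1)).2 - (q i).2 with hdy
  obtain ⟨R, hR1, hR2⟩ := quad_roots (dx ^ 2) (2 * (q i).1 * dx - dy) ((q i).1 ^ 2 - (q i).2) (by
    by_cases h : dx = 0
    · right
      rw [h]
      intro hcon
      have hdy0 : dy = 0 := by linarith
      apply hq
      ext
      · linarith
      · linarith
    · left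
      exact pow_ne_zero 2 h)
  refine ⟨(R.image (fun u => u + (i : ℝ))).filter
    (fun r => (i : ℝ) ≤ r ∧ r < i + 1 ∧ (gam q r).2 = (gam q r).1 ^ 2), ?_, ?_⟩
  · exact (Finset.card_filter_le _ _).trans (Finset.card_image_le.trans hR1)
  · intro r
    rw [Finset.mem_filter, Finset.mem_image]
    constructor
    · exact fun h => h.2
    · intro h
      refine ⟨⟨r - i, hR2 _ ?_, by ring⟩, h⟩
      obtain ⟨h1, h2, h3⟩ := h
      obtain ⟨e1, e2⟩ := gam_eq q i r h1 h2
      rw [e1, e2, ← hdx, ← hdy] at h3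
      linarith

end ZERaux

open ZERaux

theorem ZER_ok : S_ZER := by
  intro n q hq
  choose! R hR1 hR2 using fun i (hi : i < n) => piece q i (hq i hi)
  set Z : Finset ℝ := (Finset.range n).biUnion R with hZ
  have hmem : ∀ r : ℝ, r ∈ Z ↔ (0 ≤ r ∧ r < n ∧ (gam q r).2 = (gam q r).1 ^ 2) := by
    intro r
    rw [hZ, Finset.mem_biUnion]
    constructor
    · rintro ⟨i, hi, hr⟩
      rw [Finset.mem_range] at hi
      obtain ⟨h1, h2, h3⟩ := (hR2 i hi r).1 hr
      refine ⟨(Nat.cast_nonneg i).trans h1, h2.trans_le ?_, h3⟩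
      exact_mod_cast hi
    · rintro ⟨h1, h2, h3⟩
      have hlt : ⌊r⌋₊ < n := (Nat.floor_lt h1).2 h2
      exact ⟨⌊r⌋₊, Finset.mem_range.2 hlt, (hR2 _ hlt r).2
        ⟨Nat.floor_le h1, Nat.lt_floor_add_one r, h3⟩⟩
  refine ⟨Z.card, fun t => if h : t < Z.card then Z.orderEmbOfFin rfl ⟨t, h⟩ else 0, ?_, ?_, ?_⟩
  · refine (Finset.card_biUnion_le).trans ?_
    refine (Finset.sum_le_card_nsmul _ _ 2 fun i hi => hR1 i (Finset.mem_range.1 hi)).trans ?_
    rw [Finset.card_range, smul_eq_mul, mul_comm]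
  · intro s hs t ht hst
    simp only [dif_pos hs, dif_pos ht]
    exact (Z.orderEmbOfFin rfl).strictMono (by simpa using hst)
  · intro r
    rw [← hmem]
    constructor
    · intro hr
      have h1 : r ∈ Set.range (Z.orderEmbOfFin rfl) := by
        rw [Finset.range_orderEmbOfFin]
        exact hr
      obtain ⟨t, rfl⟩ := h1
      exact ⟨t.1, t.2, by simp only [dif_pos t.2]⟩
    · rintro ⟨t, ht, rfl⟩
      simp only [dif_pos ht]
      exact Finset.orderEmbOfFin_mem Z rfl _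

end Pool.Agent.H172R2.UT
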